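import Pool.Agent.Ind3.Final

set_option autoImplicit false

/-!
# CLV: multiple recurrence when the generators of the generalised eigenvalues have arbitrarily
large closed cuts at almost every point (MP_cfac66_an). Roles as in Ind3: `0` is `R`, `1` is `S`,
`2` is `T`; the time of role `l` is `tm l y`.
-/

open MeasureTheory Filter Topology Finset

namespace Pool.Agent.CLV

open Pool.Agent.FSP Pool.Agent.Ind3

universe u

/-- Some power of `z` is a monomial in the first `n` values. -/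
def Sp (s : ℕ → Circle) (n : ℕ) (z : Circle) : Prop :=
  ∃ k : ℕ, 1 ≤ k ∧ ∃ a : ℕ → ℤ, z ^ k = ∏ j ∈ range n, s j ^ a j

/-- Some power of `z` is a monomial in the values. -/
def SpI (s : ℕ → Circle) (z : Circle) : Prop := ∃ n : ℕ, Sp s n z

/-- The cuts `n` are closed for the lists `s`. -/
def Closed (s : Fin 3 → ℕ → Circle) (n : Fin 3 → ℕ) : Prop :=
  ∀ i j l : Fin 3, i ≠ j → i ≠ l → j ≠ l → ∀ z, Sp (s i) (n i) z → Sp (s j) (n j) z →
    SpI (s l) z → Sp (s l) (n l) z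

/-- The first `e` values are independent. -/
def Indp (h : ℕ → Circle) (e : ℕ) : Prop :=
  ∀ a : ℕ → ℤ, ∏ t ∈ range e, h t ^ a t = 1 → ∀ t < e, a t = 0

/-- The structure of the selected values `g`: the first `d` are common to the three lists. -/
structure Str (d : ℕ) (e : Fin 3 → ℕ) (g s : Fin 3 → ℕ → Circle) : Prop where
  le : ∀ l, d ≤ e l
  core : ∀ l l' : Fin 3, ∀ t < d, g l t = g l' t
  ind : ∀ l, Indp (g l) (e l)
  own : ∀ l, ∀ t < e l, SpI (s l) (g l t)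
  rest : ∀ i j l : Fin 3, i ≠ j → i ≠ l → j ≠ l → ∀ a : ℕ → ℤ,
    Sp (g j) (e j) (∏ t ∈ Ico d (e i), g i t ^ a t) →
    SpI (s l) (∏ t ∈ Ico d (e i), g i t ^ a t) → ∀ t, d ≤ t → t < e i → a t = 0

/-! ## Weights -/

/-- The probability vector concentrated at type `0`. -/
def p0 : Fin 5 → ℝ := fun τ => if τ = 0 then 1 else 0

/-- The weight. -/
noncomputable def WW (m d : ℕ) (e : Fin 3 → ℕ) (g : Fin 3 → ℕ → Circle) (y : Fin 3 → ℕ) : ℝ :=
  (∏ t ∈ range d, DD m p0 fun i => g 2 t ^ y i) *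
    ∏ l : Fin 3, ∏ t ∈ Ico d (e l), kk m (g l t ^ tm l y)

/-- The own weight of role `l`, for the coordinates in `J`; it does not depend on `y l`. -/
noncomputable def WL (m d : ℕ) (l : Fin 3) (J : Finset ℕ) (h : ℕ → Circle) (y : Fin 3 → ℕ) : ℝ :=
  ∏ t ∈ J, if t < d then kap m l (fun i => h t ^ y i) else kk m (h t ^ tm l y)

/-- Complex window mean. -/
noncomputable def mC (N s : ℕ) (f : ℕ → ℂ) : ℂ := (N : ℂ)⁻¹ * ∑ n ∈ range N, f (s + n)

/-- Complex triple mean. -/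
noncomputable def aC (N : ℕ) (F : (Fin 3 → ℕ) → ℂ) : ℂ :=
  mC N N fun a => mC N 0 fun b => mC N (3 * N) fun c => F ![a, b, c]

/-- The coefficient of `y r` in `tm l y`. -/
def Tm (l r : Fin 3) : ℤ := (![![0, -1, 2], ![1, 0, 1], ![2, 1, 0]] : Fin 3 → Fin 3 → ℤ) l r

/-- The character in the variable `y r` of the term with the exponents `n`, `v`. -/
noncomputable def chi (d : ℕ) (e : Fin 3 → ℕ) (g : Fin 3 → ℕ → Circle) (n : ℕ → Fin 3 → ℤ)
    (v : Fin 3 → ℕ → ℤ) (r : Fin 3) : Circle :=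
  (∏ t ∈ range d, g 2 t ^ n t r) * ∏ l : Fin 3, (∏ t ∈ Ico d (e l), g l t ^ v l t) ^ Tm l r

/-- The exponents which occur in the own weight of role `l`. -/
def Own (d : ℕ) (e : Fin 3 → ℕ) (l : Fin 3) (n : ℕ → Fin 3 → ℤ) (v : Fin 3 → ℕ → ℤ) : Prop :=
  (∀ t < d, n t l = 0) ∧ ∀ l', l' ≠ l → ∀ t, d ≤ t → t < e l' → v l' t = 0

/-- `y` lies in the windows. -/
def InW (N : ℕ) (y : Fin 3 → ℕ) : Prop :=
  N ≤ y 0 ∧ y 0 < 2 * N ∧ y 1 < N ∧ 3 * N ≤ y 2 ∧ y 2 < 4 * N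

section

variable {Ω : Type u} [MeasurableSpace Ω]

/-- The first `n` frequencies. -/
def FN (θ : ℕ → Ω → Circle) (n : ℕ) : Set (Ω → Circle) := {φ | ∃ j < n, φ = θ j} ∪ {fun _ => 1}

/-- `c` is approximated in `L¹` by functions with values in `[0,1]` which are almost periodic for
every error, with frequencies from `F`. -/
def APF (μ : Measure Ω) (Q : Ω → Ω) (F : Set (Ω → Circle)) (c : Ω → ℝ) : Prop :=
  ∀ ε : ℝ, 0 < ε → ∃ p : Ω → ℝ, Measurable p ∧ (∀ x, 0 ≤ p x) ∧ (∀ x, p x ≤ 1) ∧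
    ∫ x, |c x - p x| ∂μ ≤ ε ∧ ∀ ε' : ℝ, 0 < ε' → AP μ Q F ε' p

/-- The weights are finite sums of products of bounded functions of the three variables. -/
def Rep (V : Ω → (Fin 3 → ℕ) → ℝ) : Prop :=
  ∃ (k : ℕ) (A : Fin k → Fin 3 → Ω → ℕ → ℝ) (C : ℝ), (∀ i r y, Measurable fun x => A i r x y) ∧
    (∀ i r x y, |A i r x y| ≤ C) ∧
    ∀ x (y : Fin 3 → ℕ), y 1 ≤ 2 * y 2 → V x y = ∑ i, ∏ r, A i r x (y r)

/-- `g` of role `l` does not contribute to the triple averages with the weights `V`. -/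
def GTg (μ : Measure Ω) (V : Ω → (Fin 3 → ℕ) → ℝ) (q : ℕ) (Q : Ω → Ω) (l i j : Fin 3)
    (g : Ω → ℝ) : Prop :=
  ∀ ε : ℝ, 0 < ε → ∃ H : ℕ, 0 < H ∧ ∃ L₀ : ℕ, ∀ L ≥ L₀, ∀ u v : ℕ → ℕ → Ω → ℝ,
    (∀ a b, Measurable (u a b)) → (∀ a b, Measurable (v a b)) → (∀ a b x, |u a b x| ≤ 1) →
    (∀ a b x, |v a b x| ≤ 1) →
    ∫ x, |avg3 (H * L) fun y => V x y *
      (u (y l) (y i) x * v (y l) (y j) x * g (Q^[q * tm l y] x))| ∂μ ≤ ε

/-- The selected data on the set `X`: the functions `ζ l t` are monomials in the first `n l`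
functions of the list `θ l`, and powers of these are monomials in the `ζ l t`. -/
structure Sel (θ : Fin 3 → ℕ → Ω → Circle) (n : Fin 3 → ℕ) (d : ℕ) (e : Fin 3 → ℕ)
    (a : Fin 3 → ℕ → ℕ → ℤ) (q₀ : ℕ) (b : Fin 3 → ℕ → ℕ → ℤ) (ζ : Fin 3 → ℕ → Ω → Circle)
    (X : Set Ω) : Prop where
  le : ∀ l, d ≤ e l
  pos : 1 ≤ q₀
  mX : MeasurableSet X
  zet : ∀ l t x, ζ l t x = ∏ j ∈ range (n l), θ l j x ^ a l t j
  str : ∀ x ∈ X, Str d e (sv ζ x) (sv θ x)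
  pow : ∀ x ∈ X, ∀ l, ∀ j < n l, θ l j x ^ q₀ = ∏ t ∈ range (e l), ζ l t x ^ b l j t

end

end Pool.Agent.CLV
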