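import Pool.Agent.CLV.Targets

set_option autoImplicit false

/-!
# CLV, target ALG: the selected data at one point (MP_cfac66_an).
-/

open MeasureTheory Filter Topology Finset

namespace Pool.Agent.CLV

open Pool.Agent.FSP Pool.Agent.Ind3

namespace ALG_

theorem zps {ι : Type} (S : Finset ι) (x : Circle) (f : ι → ℤ) :
    ∏ t ∈ S, x ^ f t = x ^ (∑ t ∈ S, f t) := by
  classical
  induction S using Finset.induction_on with
  | empty => simp
  | insert a S ha ih => rw [prod_insert ha, sum_insert ha, zpow_add, ih]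

theorem mpow (s : ℕ → Circle) (n : ℕ) (a : ℕ → ℤ) (m : ℕ) :
    (∏ j ∈ range n, s j ^ a j) ^ m = ∏ j ∈ range n, s j ^ (a j * m) := by
  rw [← Finset.prod_pow]
  exact prod_congr rfl fun j _ => by rw [zpow_mul, zpow_natCast]

theorem subst (S : Finset ℕ) (s g : ℕ → Circle) (n : ℕ) (A : ℕ → ℕ → ℤ) (c : ℕ → ℤ)
    (h : ∀ t ∈ S, g t = ∏ j ∈ range n, s j ^ A t j) :
    ∏ t ∈ S, g t ^ c t = ∏ j ∈ range n, s j ^ (∑ t ∈ S, A t j * c t) := by
  calc ∏ t ∈ S, g t ^ c t = ∏ t ∈ S, ∏ j ∈ range n, s j ^ (A t j * c t) := by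
        refine prod_congr rfl fun t ht => ?_
        rw [h t ht, ← Finset.prod_zpow]
        exact prod_congr rfl fun j _ => by rw [zpow_mul]
    _ = ∏ j ∈ range n, ∏ t ∈ S, s j ^ (A t j * c t) := prod_comm
    _ = _ := prod_congr rfl fun j _ => zps S (s j) _

/-- A common multiple. -/
theorem common {ι : Type} (S : Finset ι) (P : ι → ℕ → Prop)
    (hP : ∀ i k m, P i k → P i (k * m)) (h : ∀ i ∈ S, ∃ k, 1 ≤ k ∧ P i k) :
    ∃ K, 1 ≤ K ∧ ∀ i ∈ S, P i K := by
  classical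
  induction S using Finset.induction_on with
  | empty => exact ⟨1, le_rfl, by simp⟩
  | insert a S ha ih =>
    obtain ⟨K, hK, h1⟩ := ih fun i hi => h i (mem_insert_of_mem hi)
    obtain ⟨k, hk, h2⟩ := h a (mem_insert_self a S)
    refine ⟨k * K, Nat.mul_pos hk hK, fun i hi => ?_⟩
    rcases mem_insert.1 hi with rfl | hi
    · exact hP _ _ _ h2
    · rw [mul_comm]
      exact hP _ _ _ (h1 i hi)

theorem sp_trans (s g : ℕ → Circle) (n e : ℕ) (A : ℕ → ℕ → ℤ)
    (h : ∀ t < e, g t = ∏ j ∈ range n, s j ^ A t j) (z : Circle) (hz : Sp g e z) :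
    Sp s n z := by
  obtain ⟨k, hk, c, hc⟩ := hz
  refine ⟨k, hk, fun j => ∑ t ∈ range e, A t j * c t, ?_⟩
  rw [hc]
  exact subst (range e) s g n A c fun t ht => h t (mem_range.1 ht)

theorem unit (s : ℕ → Circle) (n j : ℕ) (hj : j < n) :
    s j = ∏ j' ∈ range n, s j' ^ (if j' = j then (1 : ℤ) else 0) := by
  rw [prod_eq_single j]
  · simp
  · intro b _ hb
    simp [hb]
  · intro h
    exact absurd (mem_range.2 hj) h

theorem three (i j l l' : Fin 3) (hij : i ≠ j) (hil : i ≠ l) (hjl : j ≠ l) :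
    l' = i ∨ l' = j ∨ l' = l := by
  revert i j l l'
  decide

/-- The structure, given the families. -/
theorem str (s : Fin 3 → ℕ → Circle) (n : Fin 3 → ℕ) (hcl : Closed s n) (d : ℕ) (κ : ℕ → Circle)
    (hM : ∀ z, (∀ l, Sp (s l) (n l) z) → Sp κ d z) (e : Fin 3 → ℕ) (g : Fin 3 → ℕ → Circle)
    (hde : ∀ l, d ≤ e l) (hgκ : ∀ l, ∀ t < d, g l t = κ t) (hgI : ∀ l, Indp (g l) (e l))
    (a : Fin 3 → ℕ → ℕ → ℤ)
    (ha : ∀ l t, t < e l → g l t = ∏ j ∈ range (n l), s l j ^ a l t j) :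
    Str d e (fun l t => ∏ j ∈ range (n l), s l j ^ a l t j) s := by
  refine ⟨hde, ?_, ?_, ?_, ?_⟩
  · intro l l' t ht
    show ∏ j ∈ range (n l), s l j ^ a l t j = ∏ j ∈ range (n l'), s l' j ^ a l' t j
    rw [← ha l t (lt_of_lt_of_le ht (hde l)), ← ha l' t (lt_of_lt_of_le ht (hde l')),
      hgκ l t ht, hgκ l' t ht]
  · intro l c hc
    refine hgI l c ?_
    rw [← hc]
    exact prod_congr rfl fun t ht => by rw [ha l t (mem_range.1 ht)]
  · intro l t _
    exact ⟨n l, 1, le_rfl, a l t, pow_one _⟩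
  · intro i j l hij hil hjl c hc1 hc2 t hdt hte
    set w : Circle := ∏ t ∈ Ico d (e i), (∏ j' ∈ range (n i), s i j' ^ a i t j') ^ c t with hw
    have h1 : Sp (s j) (n j) w :=
      sp_trans (s j) (fun t => ∏ j' ∈ range (n j), s j j' ^ a j t j') (n j) (e j) (a j)
        (fun t _ => rfl) w hc1
    have h2 : Sp (s i) (n i) w := ⟨1, le_rfl, fun j' => ∑ t ∈ Ico d (e i), a i t j' * c t, by
      rw [pow_one]
      exact subst (Ico d (e i)) (s i) (fun t => ∏ j' ∈ range (n i), s i j' ^ a i t j') (n i)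
        (a i) c fun t _ => rfl⟩
    have h3 : Sp (s l) (n l) w := hcl i j l hij hil hjl w h2 h1 hc2
    have h4 : ∀ l', Sp (s l') (n l') w := by
      intro l'
      rcases three i j l l' hij hil hjl with h | h | h
      · rw [h]; exact h2
      · rw [h]; exact h1
      · rw [h]; exact h3
    obtain ⟨k, hk, f, hf⟩ := hM w h4
    have h5 : ∏ t ∈ range (e i), g i t ^ (if t < d then -(f t) else (k : ℤ) * c t) = 1 := by
      rw [← prod_range_mul_prod_Ico _ (hde i)]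
      have h6 : ∏ t ∈ range d, g i t ^ (if t < d then -(f t) else (k : ℤ) * c t)
          = (w ^ k)⁻¹ := by
        rw [hf, ← prod_inv_distrib]
        refine prod_congr rfl fun t ht => ?_
        rw [if_pos (mem_range.1 ht), hgκ i t (mem_range.1 ht), zpow_neg]
      have h7 : ∏ t ∈ Ico d (e i), g i t ^ (if t < d then -(f t) else (k : ℤ) * c t)
          = w ^ k := by
        rw [hw, ← prod_pow]
        refine prod_congr rfl fun t ht => ?_
        rw [if_neg (not_lt.2 (mem_Ico.1 ht).1), ← ha i t (mem_Ico.1 ht).2, mul_comm, zpow_mul,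
          zpow_natCast]
      rw [h6, h7, inv_mul_cancel]
    have h8 := hgI i _ h5 t hte
    rw [if_neg (not_lt.2 hdt)] at h8
    rcases mul_eq_zero.1 h8 with h | h
    · exact absurd h (by exact_mod_cast (Nat.one_le_iff_ne_zero.1 hk))
    · exact h

end ALG_

open ALG_ in
theorem p_ALG : T_MXF → T_ALG := by
  intro MXF s n hcl
  classical
  obtain ⟨d, κ₀, -, -, hC₀, hI₀, hM₀⟩ := MXF (s 0) (n 0) (fun z => ∀ l, Sp (s l) (n l) z)
    (fun z hz => hz 0) 0 (fun _ => 1) (fun t ht => absurd ht (Nat.not_lt_zero t))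
    (fun a _ t ht => absurd ht (Nat.not_lt_zero t))
  obtain ⟨K, hK, hKa⟩ := common ((univ : Finset (Fin 3)) ×ˢ range d)
    (fun p k => ∃ a : ℕ → ℤ, κ₀ p.2 ^ k = ∏ j ∈ range (n p.1), s p.1 j ^ a j)
    (by
      rintro p k m ⟨a, ha⟩
      exact ⟨fun j => a j * m, by rw [pow_mul, ha, mpow]⟩)
    (by
      rintro ⟨l, t⟩ hp
      obtain ⟨k, hk, a, ha⟩ := hC₀ t (Nat.zero_le t) (mem_range.1 (mem_product.1 hp).2) l
      exact ⟨k, hk, a, ha⟩)
  have hKa' : ∀ l, ∀ t < d, ∃ a : ℕ → ℤ, κ₀ t ^ K = ∏ j ∈ range (n l), s l j ^ a j :=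
    fun l t ht => hKa (l, t) (mem_product.2 ⟨mem_univ l, mem_range.2 ht⟩)
  have hI : Indp (fun t => κ₀ t ^ K) d := by
    intro a ha t ht
    have h1 : ∏ t ∈ range d, κ₀ t ^ ((K : ℤ) * a t) = 1 := by
      rw [← ha]
      exact prod_congr rfl fun t _ => by rw [zpow_mul, zpow_natCast]
    have h2 := hI₀ _ h1 t ht
    rcases mul_eq_zero.1 h2 with h | h
    · exact absurd h (by exact_mod_cast (Nat.one_le_iff_ne_zero.1 hK))
    · exact h
  have hM : ∀ z, (∀ l, Sp (s l) (n l) z) → Sp (fun t => κ₀ t ^ K) d z := by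
    intro z hz
    obtain ⟨k, hk, c, hc⟩ := hM₀ z hz
    refine ⟨k * K, Nat.mul_pos hk hK, c, ?_⟩
    rw [pow_mul, hc, ← prod_pow]
    exact prod_congr rfl fun t _ => by
      show (κ₀ t ^ c t) ^ K = (κ₀ t ^ K) ^ c t
      rw [← zpow_natCast, ← zpow_natCast, ← zpow_mul, ← zpow_mul, mul_comm]
  have hL : ∀ l, ∃ (e : ℕ) (g : ℕ → Circle), d ≤ e ∧ (∀ t < d, g t = κ₀ t ^ K) ∧
      (∀ t, d ≤ t → t < e → ∃ j < n l, g t = s l j) ∧ Indp g e ∧
      ∀ z, (∃ j < n l, z = s l j) → Sp g e z := fun l =>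
    MXF (s l) (n l) (fun z => ∃ j < n l, z = s l j)
      (by
        rintro z ⟨j, hj, rfl⟩
        exact ⟨1, le_rfl, fun j' => if j' = j then 1 else 0, by
          rw [pow_one]; exact unit (s l) (n l) j hj⟩)
      d (fun t => κ₀ t ^ K) (fun t ht => by
        obtain ⟨a, ha⟩ := hKa' l t ht
        exact ⟨1, le_rfl, a, by rw [pow_one]; exact ha⟩) hI
  choose e g hde hgκ hgs hgI hgM using hL
  have hA : ∀ l t, ∃ a : ℕ → ℤ, t < e l → g l t = ∏ j ∈ range (n l), s l j ^ a j := by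
    intro l t
    by_cases ht : t < e l
    · by_cases htd : t < d
      · obtain ⟨a, ha⟩ := hKa' l t htd
        exact ⟨a, fun _ => by rw [hgκ l t htd]; exact ha⟩
      · obtain ⟨j, hj, hgj⟩ := hgs l t (not_lt.1 htd) ht
        exact ⟨fun j' => if j' = j then 1 else 0, fun _ => by
          rw [hgj]; exact unit (s l) (n l) j hj⟩
    · exact ⟨0, fun h => absurd h ht⟩
  choose a ha using hA
  obtain ⟨q₀, hq₀, hq⟩ := common ((univ : Finset (Fin 3)).sigma fun l => range (n l))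
    (fun p k => ∃ b : ℕ → ℤ, s p.1 p.2 ^ k = ∏ t ∈ range (e p.1), g p.1 t ^ b t)
    (by
      rintro p k m ⟨b, hb⟩
      exact ⟨fun j => b j * m, by rw [pow_mul, hb, mpow]⟩)
    (by
      rintro ⟨l, j⟩ hp
      obtain ⟨k, hk, b, hb⟩ := hgM l (s l j) ⟨j, mem_range.1 (mem_sigma.1 hp).2, rfl⟩
      exact ⟨k, hk, b, hb⟩)
  have hB : ∀ l j, ∃ b : ℕ → ℤ, j < n l → s l j ^ q₀ = ∏ t ∈ range (e l), g l t ^ b t := by
    intro l j
    by_cases hj : j < n l
    · obtain ⟨b, hb⟩ := hq ⟨l, j⟩ (mem_sigma.2 ⟨mem_univ l, mem_range.2 hj⟩)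
      exact ⟨b, fun _ => hb⟩
    · exact ⟨0, fun h => absurd h hj⟩
  choose b hb using hB
  refine ⟨d, e, a, q₀, b, hq₀, ?_, ?_⟩
  · exact str s n hcl d (fun t => κ₀ t ^ K) hM e g hde hgκ hgI a ha
  · intro l j hj
    rw [hb l j hj]
    exact prod_congr rfl fun t ht => by rw [ha l t (mem_range.1 ht)]

end Pool.Agent.CLV
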