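import Pool.Agent.CLV.Targets
import Pool.Agent.FSP.P_SPC

set_option autoImplicit false

/-!
# CLV, target APA: the distance to an almost periodic function
-/

open MeasureTheory Filter Topology Finset

namespace Pool.Agent.CLV

open Pool.Agent.FSP Pool.Agent.Ind3

universe u

namespace APA_

variable {Ω : Type u} [MeasurableSpace Ω]

lemma ap_dist {μ : Measure Ω} {T : Ω → Ω} {F : Set (Ω → Circle)} {ε₁ ε₂ : ℝ} {p₁ p₂ : Ω → ℝ}
    (h₁ : AP μ T F ε₁ p₁) (h₂ : AP μ T F ε₂ p₂) : AP μ T F (ε₁ + ε₂) fun x => |p₁ x - p₂ x| := by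
  have h₃ : AP μ T F ε₂ (-p₂) := by
    obtain ⟨q, hq, ρ, hρ, d, τ, hτ, ha⟩ := h₂
    refine ⟨q, hq, ρ, hρ, d, τ, hτ, fun n => ?_⟩
    filter_upwards [ha n] with x hx hb
    have h1 := hx hb
    have e : (-p₂) (T^[q * n] x) - (-p₂) x = -(p₂ (T^[q * n] x) - p₂ x) := by
      simp only [Pi.neg_apply]
      ring
    rw [e, abs_neg]
    exact h1
  obtain ⟨q, hq, ρ, hρ, d, τ, hτ, ha⟩ := Pool.Agent.FSP.SPC_.ap_add h₁ h₃
  refine ⟨q, hq, ρ, hρ, d, τ, hτ, fun n => ?_⟩
  filter_upwards [ha n] with x hx hb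
  have h1 := hx hb
  simp only [Pi.add_apply, Pi.neg_apply, ← sub_eq_add_neg] at h1
  exact (abs_abs_sub_abs_le_abs_sub _ _).trans h1

end APA_

theorem p_APA : T_APA.{u} := by
  intro Ω _ μ _ Q θ c P hc hc0 hc1 hA hP hP0 hP1 hAP ε hε
  obtain ⟨p, hp, hp0, hp1, hi, hap⟩ := hA ε hε
  refine ⟨fun x => |p x - P x|, (hp.sub hP).abs, fun x => abs_nonneg _, fun x => ?_, ?_, ?_⟩
  · rw [abs_le]
    constructor <;> linarith [hp0 x, hp1 x, hP0 x, hP1 x]
  · refine le_trans ?_ hi
    have hint : Integrable (fun x => |c x - p x|) μ := by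
      refine Integrable.of_bound (hc.sub hp).abs.aestronglyMeasurable 1
        (Eventually.of_forall fun x => ?_)
      rw [Real.norm_eq_abs, abs_abs, abs_le]
      constructor <;> linarith [hp0 x, hp1 x, hc0 x, hc1 x]
    refine integral_mono_of_nonneg (Eventually.of_forall fun x => abs_nonneg _) hint
      (Eventually.of_forall fun x => ?_)
    have h1 := abs_abs_sub_abs_le_abs_sub (c x - P x) (p x - P x)
    have e : c x - P x - (p x - P x) = c x - p x := by ring
    rw [e] at h1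
    exact h1
  · intro ε' hε'
    have h1 := APA_.ap_dist (hap (ε' / 2) (by positivity)) (hAP (ε' / 2) (by positivity))
    rwa [add_halves] at h1

end Pool.Agent.CLV
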