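import Pool.Agent.CLV.Targets

set_option autoImplicit false

/-!
# CLV, target APN: pointwise almost periodicity, finitely many frequencies
-/

open MeasureTheory Filter Topology Finset

namespace Pool.Agent.CLV

open Pool.Agent.FSP Pool.Agent.Ind3

universe u

/-- APN -/
theorem p_APN : T_APN.{u} := by
  intro Ω _ μ _ Q hQ θ hθm hθi n ε p hAP
  obtain ⟨q, hq, ρ, hρ, d, τ, hτ, hall⟩ := hAP
  refine ⟨q, ρ, hq, hρ, ?_⟩
  have hinv : ∀ (j t : ℕ) (x : Ω), θ j (Q^[t] x) = θ j x := by
    intro j t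
    induction t with
    | zero => intro x; rfl
    | succ t ih => intro x; rw [Function.iterate_succ_apply, ih, hθi]
  have h2 : ∀ᵐ x ∂μ, ∀ t h : ℕ, Q^[t] x ∈ bohr τ ρ h →
      |p (Q^[q * h] (Q^[t] x)) - p (Q^[t] x)| ≤ ε := by
    rw [ae_all_iff]
    intro t
    rw [ae_all_iff]
    intro h
    exact (hQ.iterate t).quasiMeasurePreserving.ae (hall h)
  filter_upwards [h2] with x hx t h hb
  have h3 : Q^[t] x ∈ bohr τ ρ h := by
    intro l
    rcases hτ l with ⟨j, hj, e⟩ | e
    · rw [e]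
      show ‖((θ j (Q^[t] x) : Circle) : ℂ) ^ h - 1‖ ≤ ρ
      rw [hinv]
      exact hb j hj
    · have e' : τ l = fun _ => 1 := e
      rw [e']
      simp [hρ.le]
  have h4 := hx t h h3
  rw [add_comm, Function.iterate_add_apply]
  exact h4

end Pool.Agent.CLV
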