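import Pool.Agent.CLV.Targets

/-!
# CLV: complex triple means (AVC)
-/

set_option autoImplicit false

open MeasureTheory Filter Topology Finset

namespace Pool.Agent.CLV

open Pool.Agent.FSP Pool.Agent.Ind3

namespace AVC_

theorem cast_mean (N s : ℕ) (f : ℕ → ℝ) :
    ((mean N s f : ℝ) : ℂ) = mC N s fun n => ((f n : ℝ) : ℂ) := by
  unfold mean mC
  push_cast
  rfl

theorem mC_congr {N s : ℕ} {f g : ℕ → ℂ} (h : ∀ n, s ≤ n → n < s + N → f n = g n) :
    mC N s f = mC N s g := by
  unfold mC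
  congr 1
  refine Finset.sum_congr rfl fun n hn => ?_
  rw [Finset.mem_range] at hn
  exact h _ (by omega) (by omega)

theorem mC_sum (N s k : ℕ) (c : Fin k → ℂ) (f : Fin k → ℕ → ℂ) :
    mC N s (fun n => ∑ i, c i * f i n) = ∑ i, c i * mC N s (f i) := by
  unfold mC
  rw [Finset.sum_comm, Finset.mul_sum]
  refine Finset.sum_congr rfl fun i _ => ?_
  rw [← Finset.mul_sum]
  ring

theorem mC_norm {N s : ℕ} {f : ℕ → ℂ} {B : ℝ} (hB : 0 ≤ B)
    (h : ∀ n, s ≤ n → n < s + N → ‖f n‖ ≤ B) : ‖mC N s f‖ ≤ B := by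
  unfold mC
  rcases Nat.eq_zero_or_pos N with h0 | h0
  · subst h0
    simpa using hB
  have hN : (0 : ℝ) < N := by exact_mod_cast h0
  rw [norm_mul, norm_inv, Complex.norm_natCast]
  have h1 : ‖∑ n ∈ range N, f (s + n)‖ ≤ N * B := by
    refine (norm_sum_le _ _).trans ?_
    refine (Finset.sum_le_card_nsmul _ _ B fun n hn => ?_).trans ?_
    · rw [Finset.mem_range] at hn
      exact h _ (by omega) (by omega)
    · rw [Finset.card_range, nsmul_eq_mul]
  calc (N : ℝ)⁻¹ * ‖∑ n ∈ range N, f (s + n)‖ ≤ (N : ℝ)⁻¹ * (N * B) :=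
        mul_le_mul_of_nonneg_left h1 (by positivity)
    _ = B := by field_simp

theorem swap (N s t : ℕ) (G : ℕ → ℕ → ℂ) :
    mC N s (fun a => mC N t fun b => G a b) = mC N t fun b => mC N s fun a => G a b := by
  unfold mC
  simp only [Finset.mul_sum]
  rw [Finset.sum_comm]

theorem inner (N s t r : ℕ) (G : ℕ → ℕ → ℕ → ℂ) :
    mC N s (fun a => mC N t fun b => mC N r fun c => G a b c) =
      mC N s fun a => mC N r fun c => mC N t fun b => G a b c := by
  congr 1
  funext a
  exact swap N t r _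

theorem outer (N s t r : ℕ) (G : ℕ → ℕ → ℕ → ℂ) :
    mC N s (fun a => mC N t fun b => mC N r fun c => G a b c) =
      mC N t fun b => mC N s fun a => mC N r fun c => G a b c :=
  swap N s t fun a b => mC N r fun c => G a b c

theorem vec {α : Type} (v : Fin 3 → α) (x y z : α) (h0 : v 0 = x) (h1 : v 1 = y)
    (h2 : v 2 = z) : v = ![x, y, z] := by
  funext r
  fin_cases r
  · exact h0
  · exact h1
  · exact h2

theorem inW {N a b c : ℕ} (ha : N ≤ a) (ha' : a < N + N) (hb' : b < 0 + N)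
    (hc : 3 * N ≤ c) (hc' : c < 3 * N + N) : InW N ![a, b, c] := by
  refine ⟨?_, ?_, ?_, ?_, ?_⟩
  · show N ≤ a
    exact ha
  · show a < 2 * N
    omega
  · show b < N
    omega
  · show 3 * N ≤ c
    exact hc
  · show c < 4 * N
    omega

theorem part5 (N : ℕ) (F : (Fin 3 → ℕ) → ℂ) (i j l : Fin 3) (hij : i ≠ j) (hil : i ≠ l)
    (hjl : j ≠ l) :
    aC N F = mC N (off i * N) fun a => mC N (off j * N) fun b => mC N (off l * N) fun c =>
      F fun r => if r = i then a else if r = j then b else c := by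
  have e0 : off 0 * N = N := by simp [off]
  have e1 : off 1 * N = 0 := by simp [off]
  have e2 : off 2 * N = 3 * N := by simp [off]
  unfold aC
  have key : (i = 0 ∧ j = 1 ∧ l = 2) ∨ (i = 0 ∧ j = 2 ∧ l = 1) ∨ (i = 1 ∧ j = 0 ∧ l = 2) ∨
      (i = 1 ∧ j = 2 ∧ l = 0) ∨ (i = 2 ∧ j = 0 ∧ l = 1) ∨ (i = 2 ∧ j = 1 ∧ l = 0) := by
    revert i j l
    decide
  rcases key with ⟨rfl, rfl, rfl⟩ | ⟨rfl, rfl, rfl⟩ | ⟨rfl, rfl, rfl⟩ | ⟨rfl, rfl, rfl⟩ |
    ⟨rfl, rfl, rfl⟩ | ⟨rfl, rfl, rfl⟩
  · rw [e0, e1, e2]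
    congr 1; funext a; congr 1; funext b; congr 1; funext c
    exact congrArg F (vec _ a b c (by simp) (by simp) (by simp)).symm
  · rw [e0, e1, e2, inner]
    congr 1; funext a; congr 1; funext c; congr 1; funext b
    exact congrArg F (vec _ a b c (by simp) (by simp) (by simp)).symm
  · rw [e0, e1, e2, outer]
    congr 1; funext a; congr 1; funext b; congr 1; funext c
    exact congrArg F (vec _ b a c (by simp) (by simp) (by simp)).symm
  · rw [e0, e1, e2]
    refine (outer _ _ _ _ _).trans ((inner _ _ _ _ _).trans ?_)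
    congr 1; funext a; congr 1; funext b; congr 1; funext c
    exact congrArg F (vec _ c a b (by simp) (by simp) (by simp)).symm
  · rw [e0, e1, e2]
    refine (inner _ _ _ _ _).trans ((outer _ _ _ _ _).trans ?_)
    congr 1; funext a; congr 1; funext b; congr 1; funext c
    exact congrArg F (vec _ b c a (by simp) (by simp) (by simp)).symm
  · rw [e0, e1, e2]
    refine (outer _ _ _ _ _).trans ((inner _ _ _ _ _).trans ((outer _ _ _ _ _).trans ?_))
    congr 1; funext a; congr 1; funext b; congr 1; funext c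
    exact congrArg F (vec _ c b a (by simp) (by simp) (by simp)).symm

end AVC_

open AVC_ in
theorem p_AVC : T_AVC := by
  refine ⟨fun N F => ?_, fun N F G h => ?_, fun N k c F => ?_, fun N F B hB h => ?_,
    fun N F i j l hij hil hjl => part5 N F i j l hij hil hjl⟩
  · unfold avg3 aC
    rw [cast_mean]
    congr 1; funext a
    rw [cast_mean]
    congr 1; funext b
    rw [cast_mean]
  · unfold aC
    refine mC_congr fun a ha ha' => mC_congr fun b _ hb' => mC_congr fun c hc hc' => ?_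
    exact h _ (inW ha ha' hb' hc hc')
  · unfold aC
    simp only [mC_sum]
  · unfold aC
    refine mC_norm hB fun a ha ha' => mC_norm hB fun b _ hb' => mC_norm hB fun c hc hc' => ?_
    exact h _ (inW ha ha' hb' hc hc')

end Pool.Agent.CLV
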