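import Pool.Agent.CLV.Targets

set_option autoImplicit false

/-! The bad times have small weight (target `T_BAD`). -/

open MeasureTheory Filter Topology Finset

namespace Pool.Agent.CLV

open Pool.Agent.FSP Pool.Agent.Ind3

namespace BAD_

theorem mean_mono (N s : ℕ) {f g : ℕ → ℝ} (h : ∀ n, f n ≤ g n) :
    mean N s f ≤ mean N s g := by
  unfold mean
  exact mul_le_mul_of_nonneg_left (sum_le_sum fun n _ => h _) (by positivity)

theorem mean_sum (N s : ℕ) (S : Finset ℕ) (f : ℕ → ℕ → ℝ) :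
    mean N s (fun n => ∑ t ∈ S, f t n) = ∑ t ∈ S, mean N s (f t) := by
  unfold mean
  rw [sum_comm, mul_sum]

theorem mean_mul (N s : ℕ) (c : ℝ) (f : ℕ → ℝ) :
    mean N s (fun n => c * f n) = c * mean N s f := by
  unfold mean
  rw [← mul_sum]
  ring

theorem avg_mono (N : ℕ) {F G : (Fin 3 → ℕ) → ℝ} (h : ∀ y, F y ≤ G y) :
    avg3 N F ≤ avg3 N G := by
  unfold avg3
  exact mean_mono _ _ fun a => mean_mono _ _ fun b => mean_mono _ _ fun c => h _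

theorem avg_lin (N : ℕ) (K : ℝ) (S : Finset ℕ) (F : ℕ → (Fin 3 → ℕ) → ℝ) :
    avg3 N (fun y => K * ∑ t ∈ S, F t y) = K * ∑ t ∈ S, avg3 N (F t) := by
  unfold avg3
  simp only [mean_mul, mean_sum]

theorem pow_sub (z : ℂ) (hz : ‖z‖ = 1) (k : ℕ) : ‖z ^ k - 1‖ ≤ k * ‖z - 1‖ := by
  induction k with
  | zero => simp
  | succ k ih =>
    have h : z ^ (k + 1) - 1 = z ^ k * (z - 1) + (z ^ k - 1) := by ring
    rw [h]
    refine (norm_add_le _ _).trans ?_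
    rw [norm_mul, norm_pow, hz, one_pow, one_mul]
    push_cast
    linarith

theorem zpow_sub (z : ℂ) (hz : ‖z‖ = 1) (n : ℤ) : ‖z ^ n - 1‖ ≤ |(n : ℝ)| * ‖z - 1‖ := by
  have hz0 : z ≠ 0 := by
    intro h
    rw [h] at hz
    simp at hz
  rcases Int.eq_nat_or_neg n with ⟨k, rfl | rfl⟩
  · rw [zpow_natCast]
    simpa using pow_sub z hz k
  · have h : z ^ (-(k : ℤ)) - 1 = -(z ^ (-(k : ℤ)) * (z ^ k - 1)) := by
      rw [zpow_neg, zpow_natCast]
      field_simp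
      ring
    rw [h, norm_neg, norm_mul, norm_zpow, hz, one_zpow, one_mul]
    simpa using pow_sub z hz k

theorem prod_sub (S : Finset ℕ) (f : ℕ → ℂ) (hf : ∀ t, ‖f t‖ = 1) :
    ‖∏ t ∈ S, f t - 1‖ ≤ ∑ t ∈ S, ‖f t - 1‖ := by
  classical
  induction S using Finset.induction_on with
  | empty => simp
  | insert a S ha ih =>
    rw [prod_insert ha, sum_insert ha]
    have h : f a * ∏ t ∈ S, f t - 1 = f a * (∏ t ∈ S, f t - 1) + (f a - 1) := by ring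
    rw [h]
    refine (norm_add_le _ _).trans ?_
    rw [norm_mul, hf, one_mul]
    linarith

theorem nrm (z : Circle) : ‖(z : ℂ)‖ = 1 := Circle.norm_coe z

theorem sj {g : ℕ → Circle} {z : Circle} {e q₀ k T : ℕ} {b : ℕ → ℤ}
    (h : z ^ q₀ = ∏ t ∈ range e, g t ^ b t) :
    ‖(z : ℂ) ^ (q₀ * k * T) - 1‖ ≤
      ∑ t ∈ range e, |(b t : ℝ)| * k * ‖(g t : ℂ) ^ T - 1‖ := by
  have h2 : (z : ℂ) ^ q₀ = ∏ t ∈ range e, ((g t : ℂ) ^ b t) := by
    have h3 := congrArg Circle.coeHom h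
    rw [map_pow, map_prod] at h3
    simp only [map_zpow] at h3
    exact h3
  have h1 : (z : ℂ) ^ (q₀ * k * T) = ∏ t ∈ range e, ((g t : ℂ) ^ T) ^ (b t * (k : ℤ)) := by
    rw [mul_assoc, pow_mul, h2, ← prod_pow]
    refine prod_congr rfl fun t _ => ?_
    rw [← zpow_natCast, ← zpow_natCast, ← zpow_mul, ← zpow_mul]
    congr 1
    push_cast
    ring
  rw [h1]
  have hn : ∀ t, ‖((g t : ℂ) ^ T)‖ = 1 := fun t => by rw [norm_pow, nrm, one_pow]
  refine (prod_sub _ _ fun t => ?_).trans (sum_le_sum fun t _ => ?_)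
  · rw [norm_zpow, hn, one_zpow]
  · refine (zpow_sub _ (hn t) _).trans (le_of_eq ?_)
    push_cast
    rw [abs_mul, Nat.abs_cast]

/-- the pointwise bound -/
theorem point {e n q₀ k T : ℕ} {b : ℕ → ℕ → ℤ} {ρ B : ℝ} {g s : ℕ → Circle} (hρ : 0 < ρ)
    (hB : ∀ j < n, ∀ t < e, |(b j t : ℝ)| ≤ B) (hB0 : 0 ≤ B)
    (hs : ∀ j < n, s j ^ q₀ = ∏ t ∈ range e, g t ^ b j t)
    (hbad : ∃ j < n, ρ < ‖(s j : ℂ) ^ (q₀ * k * T) - 1‖) :
    1 ≤ (B * k / ρ) ^ 2 * e * ∑ t ∈ range e, ‖(g t : ℂ) ^ T - 1‖ ^ 2 := by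
  obtain ⟨j, hj, hlt⟩ := hbad
  have h1 := sj (k := k) (T := T) (hs j hj)
  have h2 : ∑ t ∈ range e, |(b j t : ℝ)| * k * ‖(g t : ℂ) ^ T - 1‖ ≤
      B * k * ∑ t ∈ range e, ‖(g t : ℂ) ^ T - 1‖ := by
    rw [mul_sum]
    refine sum_le_sum fun t ht => ?_
    rw [mem_range] at ht
    have := hB j hj t ht
    gcongr
  have h3 : ρ ≤ B * k * ∑ t ∈ range e, ‖(g t : ℂ) ^ T - 1‖ := by linarith
  have h4 : 1 ≤ B * k / ρ * ∑ t ∈ range e, ‖(g t : ℂ) ^ T - 1‖ := by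
    rw [div_mul_eq_mul_div, le_div_iff₀ hρ]
    linarith
  have h5 : (∑ t ∈ range e, ‖(g t : ℂ) ^ T - 1‖) ^ 2 ≤
      e * ∑ t ∈ range e, ‖(g t : ℂ) ^ T - 1‖ ^ 2 := by
    have := sq_sum_le_card_mul_sum_sq (s := range e) (f := fun t => ‖(g t : ℂ) ^ T - 1‖)
    rwa [card_range] at this
  calc (1 : ℝ) ≤ (B * k / ρ * ∑ t ∈ range e, ‖(g t : ℂ) ^ T - 1‖) ^ 2 :=
        one_le_pow₀ h4
    _ = (B * k / ρ) ^ 2 * (∑ t ∈ range e, ‖(g t : ℂ) ^ T - 1‖) ^ 2 := mul_pow _ _ _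
    _ ≤ (B * k / ρ) ^ 2 * (e * ∑ t ∈ range e, ‖(g t : ℂ) ^ T - 1‖ ^ 2) :=
        mul_le_mul_of_nonneg_left h5 (by positivity)
    _ = _ := by ring

/-- the average -/
theorem aver {N e m : ℕ} {K δ : ℝ} {V I : (Fin 3 → ℕ) → ℝ} {D : ℕ → (Fin 3 → ℕ) → ℝ}
    (hK : 0 ≤ K) (hm : 1 ≤ m) (hV : ∀ y, 0 ≤ V y) (hI : ∀ y, I y ≤ K * ∑ t ∈ range e, D t y ^ 2)
    (hD : ∀ t < e, avg3 N (fun y => V y * D t y ^ 2) ≤ 40 / m + 1 / m)
    (hδ : K * e * 41 ≤ δ * m) : avg3 N (fun y => V y * I y) ≤ δ := by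
  have hm0 : (0 : ℝ) < m := by
    have : 0 < m := hm
    exact_mod_cast this
  calc avg3 N (fun y => V y * I y)
      ≤ avg3 N (fun y => K * ∑ t ∈ range e, V y * D t y ^ 2) := by
        refine avg_mono N fun y => ?_
        refine (mul_le_mul_of_nonneg_left (hI y) (hV y)).trans (le_of_eq ?_)
        rw [← mul_sum]
        ring
    _ = K * ∑ t ∈ range e, avg3 N (fun y => V y * D t y ^ 2) :=
        avg_lin N K (range e) (fun t y => V y * D t y ^ 2)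
    _ ≤ K * ∑ t ∈ range e, (40 / (m : ℝ) + 1 / m) := by
        refine mul_le_mul_of_nonneg_left (sum_le_sum fun t ht => ?_) hK
        exact hD t (mem_range.1 ht)
    _ = K * e * 41 / m := by
        rw [sum_const, card_range, nsmul_eq_mul]
        ring
    _ ≤ δ := by
        rw [div_le_iff₀ hm0]
        exact hδ

end BAD_

open BAD_ in
theorem p_BAD (h1 : T_WBC) (h2 : T_NEA) : T_BAD := by
  classical
  intro d e l n q₀ k b ρ δ hde hq₀ hρ hδ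
  set B : ℝ := ∑ j ∈ range n, ∑ t ∈ range (e l), |(b j t : ℝ)| with hBdef
  have hB0 : 0 ≤ B := sum_nonneg fun j _ => sum_nonneg fun t _ => abs_nonneg _
  have hB : ∀ j < n, ∀ t < e l, |(b j t : ℝ)| ≤ B := by
    intro j hj t ht
    calc |(b j t : ℝ)| ≤ ∑ t ∈ range (e l), |(b j t : ℝ)| :=
          single_le_sum (f := fun t => |(b j t : ℝ)|) (fun _ _ => abs_nonneg _)
            (mem_range.2 ht)
      _ ≤ B := single_le_sum (f := fun j => ∑ t ∈ range (e l), |(b j t : ℝ)|)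
            (fun _ _ => sum_nonneg fun t _ => abs_nonneg _) (mem_range.2 hj)
  set K : ℝ := (B * k / ρ) ^ 2 * (e l) with hKdef
  have hK : 0 ≤ K := by positivity
  refine ⟨⌈K * (e l) * 41 / δ⌉₊ + 1, by omega, ?_⟩
  intro m hm g s hstr hs
  have hm1 : 1 ≤ m := by omega
  have hmδ : K * (e l) * 41 ≤ δ * m := by
    have h3 : K * (e l) * 41 / δ ≤ m := by
      refine (Nat.le_ceil _).trans ?_
      have : ⌈K * (e l) * 41 / δ⌉₊ ≤ m := by omega
      exact_mod_cast this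
    rw [div_le_iff₀ hδ] at h3
    linarith
  have hm0 : (0 : ℝ) < m := by
    have : 0 < m := hm1
    exact_mod_cast this
  have hN : ∀ t, ∃ N₀ : ℕ, t < e l → ∀ N ≥ N₀,
      avg3 N (fun y => WL m d l (range (e l)) (g l) y *
        ‖((g l t : Circle) : ℂ) ^ tm l y - 1‖ ^ 2) ≤ 40 / m + 1 / m ∧
      avg3 N (fun y => WW m d e g y * ‖((g l t : Circle) : ℂ) ^ tm l y - 1‖ ^ 2) ≤
        40 / m + 1 / m := by
    intro t
    by_cases ht : t < e l
    · obtain ⟨N₀, h⟩ := h2 m d e hm1 hde g s hstr l t ht (1 / m) (by positivity)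
      exact ⟨N₀, fun _ => h⟩
    · exact ⟨0, fun h => absurd h ht⟩
  choose N₀ hN₀ using hN
  obtain ⟨B', _, hWW, _, hWL, _⟩ := h1 m d e hm1
  refine ⟨(range (e l)).sup N₀, fun N hNN => ?_⟩
  have hle : ∀ t < e l, N₀ t ≤ N := fun t ht =>
    (le_sup (f := N₀) (mem_range.2 ht)).trans hNN
  have hI : ∀ y : Fin 3 → ℕ,
      (if ∃ j < n, ρ < ‖((s l j : Circle) : ℂ) ^ (q₀ * k * tm l y) - 1‖ then (1 : ℝ) else 0) ≤
        K * ∑ t ∈ range (e l), ‖((g l t : Circle) : ℂ) ^ tm l y - 1‖ ^ 2 := by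
    intro y
    split_ifs with hc
    · exact point hρ hB hB0 hs hc
    · positivity
  constructor
  · exact aver (D := fun t y => ‖((g l t : Circle) : ℂ) ^ tm l y - 1‖) hK hm1
      (fun y => (hWW g y).1) hI (fun t ht => (hN₀ t ht N (hle t ht)).2) hmδ
  · exact aver (D := fun t y => ‖((g l t : Circle) : ℂ) ^ tm l y - 1‖) hK hm1
      (fun y => (hWL l (g l) y).1) hI (fun t ht => (hN₀ t ht N (hle t ht)).1) hmδ

end Pool.Agent.CLV
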