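import Pool.Agent.CLV.Targets
import Pool.Agent.Ind3.P_PWC

set_option autoImplicit false

/-!
# CLV, target CHA: averages of a character against an almost periodic sequence
-/

open MeasureTheory Filter Topology Finset

namespace Pool.Agent.CLV

open Pool.Agent.FSP Pool.Agent.Ind3

namespace CHA_

theorem norm_mC (N s : ℕ) (f : ℕ → ℂ) (B : ℝ) (hB : 0 ≤ B) (h : ∀ n < N, ‖f (s + n)‖ ≤ B) :
    ‖mC N s f‖ ≤ B := by
  unfold mC
  rcases Nat.eq_zero_or_pos N with hN | hN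
  · rw [hN]
    simpa using hB
  · have hN' : (0 : ℝ) < N := by exact_mod_cast hN
    rw [norm_mul, norm_inv, Complex.norm_natCast]
    have h1 : ‖∑ n ∈ range N, f (s + n)‖ ≤ ∑ n ∈ range N, B :=
      (norm_sum_le _ _).trans (Finset.sum_le_sum fun n hn => h n (Finset.mem_range.1 hn))
    rw [Finset.sum_const, Finset.card_range, nsmul_eq_mul] at h1
    calc (N : ℝ)⁻¹ * ‖∑ n ∈ range N, f (s + n)‖ ≤ (N : ℝ)⁻¹ * (N * B) :=
          mul_le_mul_of_nonneg_left h1 (by positivity)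
      _ = B := by
          field_simp

theorem prod3 {M : Type} [CommMonoid M] (g : Fin 3 → M) (i j l : Fin 3) (hij : i ≠ j)
    (hil : i ≠ l) (hjl : j ≠ l) : ∏ r, g r = g i * g j * g l := by
  have hu : (Finset.univ : Finset (Fin 3)) = {i, j, l} := by
    revert i j l
    decide
  rw [hu, Finset.prod_insert, Finset.prod_insert, Finset.prod_singleton, mul_assoc]
  · simpa using hjl
  · simp [hij, hil]

/-- the character at a vector -/
theorem char3 (χ : Fin 3 → Circle) (i j l : Fin 3) (hij : i ≠ j) (hil : i ≠ l) (hjl : j ≠ l)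
    (a b c : ℕ) :
    ((∏ r, χ r ^ (if r = i then a else if r = j then b else c) : Circle) : ℂ) =
      (χ i : ℂ) ^ a * (χ j : ℂ) ^ b * (χ l : ℂ) ^ c := by
  rw [prod3 (fun r => χ r ^ (if r = i then a else if r = j then b else c)) i j l hij hil hjl]
  simp only [if_true, if_neg hij.symm, if_neg hil.symm, if_neg hjl.symm]
  push_cast
  rfl

theorem npow (z : Circle) (n : ℕ) : ‖(z : ℂ) ^ n‖ = 1 := by
  rw [norm_pow, Circle.norm_coe, one_pow]

theorem mC_congr (N s : ℕ) {f g : ℕ → ℂ} (h : ∀ n, f n = g n) : mC N s f = mC N s g := by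
  have : f = g := funext h
  rw [this]

theorem mC_mul (N s : ℕ) (c : ℂ) (f : ℕ → ℂ) : mC N s (fun n => c * f n) = c * mC N s f := by
  unfold mC
  rw [← Finset.mul_sum]
  ring

theorem notin_empty {z : Circle} (hz : z ≠ 1) :
    z ^ 1 ∉ Subgroup.closure (↑(∅ : Finset Circle) : Set Circle) := by
  rw [Finset.coe_empty, Subgroup.closure_empty, Subgroup.mem_bot, pow_one]
  exact hz

/-- the case of a nontrivial character in the variable of the role -/
theorem caseA (hAVC : T_AVC) (χ : Fin 3 → Circle) (l : Fin 3) (hl : χ l ≠ 1) (ε : ℝ)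
    (hε : 0 < ε) : ∃ N₀ : ℕ, ∀ N ≥ N₀, ∀ φ : ℕ → ℝ, (∀ y, |φ y| ≤ 1) →
    ‖aC N fun y => ((∏ r, χ r ^ y r : Circle) : ℂ) * ((φ (tm l y) : ℝ) : ℂ)‖ ≤ ε := by
  obtain ⟨i, j, hij, hil, hjl, htm0, -⟩ := PWC.vars l
  obtain ⟨N₀, hN₀⟩ := f_DE1 (χ l) 1 1 ∅ le_rfl one_pos (notin_empty hl) ε hε
  refine ⟨N₀, fun N hN φ hφ => ?_⟩
  have h1 := hN₀ N hN (off l * N) (fun _ => 1) 0 le_rfl
    ⟨fun y => by simp, fun y h _ _ => by simp⟩
  have h2 : ‖mC N (off l * N) fun c => (χ l : ℂ) ^ c‖ ≤ ε := by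
    unfold mC
    simpa using h1
  rw [hAVC.2.2.2.2 N _ i j l hij hil hjl]
  refine norm_mC _ _ _ _ hε.le fun a _ => norm_mC _ _ _ _ hε.le fun b _ => ?_
  generalize off i * N + a = a'
  generalize off j * N + b = b'
  have h3 : ∀ c : ℕ,
      ((∏ r, χ r ^ (if r = i then a' else if r = j then b' else c) : Circle) : ℂ) *
        ((φ (tm l (fun r => if r = i then a' else if r = j then b' else c)) : ℝ) : ℂ) =
      ((χ i : ℂ) ^ a' * (χ j : ℂ) ^ b' *
        ((φ (tm l (fun r => if r = i then a' else if r = j then b' else 0)) : ℝ) : ℂ)) *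
        (χ l : ℂ) ^ c := by
    intro c
    rw [char3 χ i j l hij hil hjl, htm0 a' b' c]
    ring
  rw [mC_congr _ _ h3, mC_mul, norm_mul]
  have h4 : ‖(χ i : ℂ) ^ a' * (χ j : ℂ) ^ b' *
      ((φ (tm l (fun r => if r = i then a' else if r = j then b' else 0)) : ℝ) : ℂ)‖ ≤ 1 := by
    rw [norm_mul, norm_mul, npow, npow, one_mul, one_mul, Complex.norm_real, Real.norm_eq_abs]
    exact hφ _
  calc _ ≤ 1 * ε := mul_le_mul h4 h2 (norm_nonneg _) zero_le_one
    _ = ε := one_mul _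

/-- the other order of the last two variables -/
theorem swap3 {α : Type} (i j l : Fin 3) (hij : i ≠ j) (hil : i ≠ l) (hjl : j ≠ l) (a b c : α) :
    (fun r : Fin 3 => if r = i then a else if r = l then c else b) =
      fun r => if r = i then a else if r = j then b else c := by
  funext r
  by_cases h1 : r = i
  · simp [h1]
  · by_cases h2 : r = j
    · subst h2
      simp [h1, hjl]
    · have h3 : r = l := by
        have e1 := i.isLt
        have e2 := j.isLt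
        have e3 := l.isLt
        have e4 := r.isLt
        rw [Ne, Fin.ext_iff] at hij hil hjl
        rw [Fin.ext_iff] at h1 h2 ⊢
        omega
      subst h3
      simp [h1, h2]

theorem caseB (hAVC : T_AVC) (χ : Fin 3 → Circle) (l : Fin 3) (q : ℕ) (ρ : ℝ)
    (τ : Finset Circle) (hq : 1 ≤ q) (hρ : 0 < ρ)
    (hl : ∀ j, j ≠ l → χ j ^ q ∉ Subgroup.closure (↑τ : Set Circle)) (ε : ℝ)
    (hε : 0 < ε) : ∃ N₀ : ℕ, ∀ N ≥ N₀, ∀ (φ : ℕ → ℝ) (ε' : ℝ), 0 ≤ ε' → PP q ρ τ ε' 0 φ →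
    ‖aC N fun y => ((∏ r, χ r ^ y r : Circle) : ℂ) * ((φ (tm l y) : ℝ) : ℂ)‖ ≤ ε' + ε := by
  obtain ⟨i, j, hij, hil, hjl, htm0, htm⟩ := PWC.vars l
  obtain ⟨N₀, hN₀⟩ := f_DE1 (χ j) q (ρ / 2) τ hq (by positivity) (hl j hjl) ε hε
  refine ⟨N₀, fun N hN φ ε' hε' hφ => ?_⟩
  have hee : 0 ≤ ε' + ε := by linarith
  rw [hAVC.2.2.2.2 N _ i l j hil hij hjl.symm]
  refine norm_mC _ _ _ _ hee fun a ha => norm_mC _ _ _ _ hee fun c _ => ?_
  have ha1 : off i * N ≤ off i * N + a := Nat.le_add_right _ _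
  have ha2 : off i * N + a < off i * N + N := by omega
  generalize off i * N + a = a' at ha1 ha2 ⊢
  generalize off l * N + c = c'
  let Φ : ℕ → ℝ := fun b => φ (tm l (fun r => if r = i then a' else if r = j then b else 0))
  have hΦ : PP q (ρ / 2) τ ε' (off j * N) Φ := by
    refine ⟨fun y => hφ.1 _, ?_⟩
    intro b h hb hz
    obtain ⟨c, hc, hceq⟩ := htm N a' ha1 ha2 b (q * h) hb
    simp only [Φ]
    rw [hceq, show c * (q * h) = q * (c * h) by ring]
    refine hφ.2 _ (c * h) (Nat.zero_le _) ?_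
    intro z hz'
    exact PWC.pow_norm z h c hc ρ hρ (hz z hz')
  have h2 : ‖mC N (off j * N) fun b => (χ j : ℂ) ^ b * ((Φ b : ℝ) : ℂ)‖ ≤ ε' + ε :=
    hN₀ N hN (off j * N) Φ ε' hε' hΦ
  have h3 : ∀ b : ℕ,
      ((∏ r, χ r ^ (if r = i then a' else if r = l then c' else b) : Circle) : ℂ) *
        ((φ (tm l (fun r => if r = i then a' else if r = l then c' else b)) : ℝ) : ℂ) =
      ((χ i : ℂ) ^ a' * (χ l : ℂ) ^ c') * ((χ j : ℂ) ^ b * ((Φ b : ℝ) : ℂ)) := by
    intro b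
    rw [char3 χ i l j hil hij hjl.symm, swap3 i j l hij hil hjl a' b c', htm0 a' b c']
    ring
  rw [mC_congr _ _ h3, mC_mul, norm_mul]
  have h4 : ‖(χ i : ℂ) ^ a' * (χ l : ℂ) ^ c'‖ = 1 := by
    rw [norm_mul, npow, npow, one_mul]
  rw [h4, one_mul]
  exact h2

end CHA_

open CHA_ in
theorem p_CHA : T_AVC → T_CHA := by
  intro hAVC χ l q ρ τ hq hρ hl ε hε
  rcases hl with hl | hl
  · obtain ⟨N₀, hN₀⟩ := caseA hAVC χ l hl ε hε
    refine ⟨N₀, fun N hN φ ε' hε' hφ => ?_⟩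
    have := hN₀ N hN φ hφ.1
    linarith
  · exact caseB hAVC χ l q ρ τ hq hρ hl ε hε

end Pool.Agent.CLV
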