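import Pool.Agent.CLV.Targets

set_option autoImplicit false

/-!
# CLV DOO: the maximal inequality
-/

open MeasureTheory Filter Topology Finset

namespace Pool.Agent.CLV

open Pool.Agent.FSP Pool.Agent.Ind3

universe u

namespace DOO_

variable {Ω : Type u} [MeasurableSpace Ω]

/-- `u k` is larger than `lam`, the first `n` functions are not. -/
def Ds (u : ℕ → Ω → ℝ) (lam : ℝ) (k n : ℕ) : Set Ω := {x | lam < u k x ∧ ∀ i < n, u i x ≤ lam}

/-- One of the first `M` functions is larger than `lam`. -/
def Us (u : ℕ → Ω → ℝ) (lam : ℝ) (M : ℕ) : Set Ω := {x | ∃ k < M, lam < u k x}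

theorem meas_gt {u : ℕ → Ω → ℝ} (hu : ∀ k, Measurable (u k)) (lam : ℝ) (k : ℕ) :
    MeasurableSet {x | lam < u k x} := measurableSet_lt measurable_const (hu k)

theorem meas_D {u : ℕ → Ω → ℝ} (hu : ∀ k, Measurable (u k)) (lam : ℝ) (k n : ℕ) :
    MeasurableSet (Ds u lam k n) := by
  have h : Ds u lam k n = {x | lam < u k x} ∩ ⋂ i, ⋂ (_ : i < n), {x | u i x ≤ lam} := by
    ext x
    simp [Ds]
  rw [h]
  exact (meas_gt hu lam k).inter (MeasurableSet.iInter fun i => MeasurableSet.iInter fun _ =>
    measurableSet_le (hu i) measurable_const)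

theorem meas_U {u : ℕ → Ω → ℝ} (hu : ∀ k, Measurable (u k)) (lam : ℝ) (M : ℕ) :
    MeasurableSet (Us u lam M) := by
  have h : Us u lam M = ⋃ i, ⋃ (_ : i < M), {x | lam < u i x} := by
    ext x
    simp [Us]
  rw [h]
  exact MeasurableSet.iUnion fun i => MeasurableSet.iUnion fun _ => meas_gt hu lam i

theorem one_meas {X : Set Ω} (hX : MeasurableSet X) : Measurable (one X) :=
  measurable_const.indicator hX

theorem one_mem {X : Set Ω} {x : Ω} (h : x ∈ X) : one X x = 1 := Set.indicator_of_mem h _

theorem one_not {X : Set Ω} {x : Ω} (h : x ∉ X) : one X x = 0 := Set.indicator_of_notMem h _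

theorem one_01 (X : Set Ω) (x : Ω) : 0 ≤ one X x ∧ one X x ≤ 1 := by
  by_cases h : x ∈ X
  · rw [one_mem h]
    exact ⟨zero_le_one, le_rfl⟩
  · rw [one_not h]
    exact ⟨le_rfl, zero_le_one⟩

theorem integ (μ : Measure Ω) [IsProbabilityMeasure μ] {g : Ω → ℝ} (hg : Measurable g)
    (h : ∀ x, |g x| ≤ 1) : Integrable g μ :=
  Integrable.of_bound hg.aestronglyMeasurable 1 (Eventually.of_forall fun x => by
    rw [Real.norm_eq_abs]
    exact h x)

theorem prod_01 {a b : ℝ} (ha : 0 ≤ a ∧ a ≤ 1) (hb : 0 ≤ b ∧ b ≤ 1) : |a * b| ≤ 1 := by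
  rw [abs_of_nonneg (mul_nonneg ha.1 hb.1)]
  exact mul_le_one₀ ha.2 hb.1 hb.2

theorem real_one (μ : Measure Ω) [IsProbabilityMeasure μ] {X : Set Ω} (hX : MeasurableSet X) :
    ∫ x, one X x ∂μ = μ.real X := by
  unfold one
  rw [integral_indicator_const _ hX, smul_eq_mul, mul_one]

end DOO_

open DOO_ in
theorem p_DOO (hINF : T_INF.{u}) : T_DOO.{u} := by
  intro Ω _ μ _ Q F hF f hf hf0 hf1 u hu hu0 hu1 hap hort lam hlam
  have hmono : Monotone F := monotone_nat_of_le_succ hF
  -- the indicators
  have hB : ∀ k n : ℕ, n ≤ k → APF μ Q (F k) (one (Ds u lam k n)) := by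
    intro k n
    induction n with
    | zero =>
      intro _
      have h1 := (hINF Ω μ Q (F k)).2.2.2.1 (u k) lam (hu k) (fun x => ⟨hu0 k x, hu1 k x⟩)
        (hap k)
      have h2 : Ds u lam k 0 = {x | lam < u k x} := by
        ext x
        simp [Ds]
      rw [h2]
      exact h1
    | succ n ih =>
      intro hn
      have h1 := ih (by omega)
      have h2 := (hINF Ω μ Q (F n)).2.2.2.1 (u n) lam (hu n) (fun x => ⟨hu0 n x, hu1 n x⟩)
        (hap n)
      have h3 := (hINF Ω μ Q (F n)).1 _ h2
      have h4 := (hINF Ω μ Q (F n)).2.2.1 (F k) _ (hmono (by omega : n ≤ k)) h3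
      have hm : Measurable fun x => 1 - one {x | lam < u n x} x :=
        measurable_const.sub (one_meas (meas_gt hu lam n))
      have h5 := (hINF Ω μ Q (F k)).2.1 _ _ (one_meas (meas_D hu lam k n)) hm
        (fun x => one_01 _ x) (fun x => by
          obtain ⟨a, b⟩ := one_01 {x | lam < u n x} x
          constructor <;> linarith) h1 h4
      have h6 : (one (Ds u lam k (n + 1)) : Ω → ℝ) =
          fun x => one (Ds u lam k n) x * (1 - one {x | lam < u n x} x) := by
        funext x
        by_cases hx : lam < u n x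
        · have e1 : x ∉ Ds u lam k (n + 1) := fun h => absurd (h.2 n (by omega)) (not_le.2 hx)
          have e2 : x ∈ {x | lam < u n x} := hx
          rw [one_not e1, one_mem e2, sub_self, mul_zero]
        · have e2 : x ∉ {x | lam < u n x} := hx
          rw [one_not e2, sub_zero, mul_one]
          by_cases hy : x ∈ Ds u lam k n
          · have e1 : x ∈ Ds u lam k (n + 1) := by
              refine ⟨hy.1, fun i hi => ?_⟩
              rcases Nat.lt_succ_iff_lt_or_eq.1 hi with h | h
              · exact hy.2 i h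
              · rw [h]
                exact not_lt.1 hx
            rw [one_mem hy, one_mem e1]
          · have e1 : x ∉ Ds u lam k (n + 1) := fun h =>
              hy ⟨h.1, fun i hi => h.2 i (by omega)⟩
            rw [one_not hy, one_not e1]
      rw [h6]
      exact h5
  have h01 : ∀ x, 0 ≤ f x ∧ f x ≤ 1 := fun x => ⟨hf0 x, hf1 x⟩
  have hu01 : ∀ k x, 0 ≤ u k x ∧ u k x ≤ 1 := fun k x => ⟨hu0 k x, hu1 k x⟩
  -- one set
  have hD : ∀ k : ℕ, lam * μ.real (Ds u lam k k) ≤ ∫ x, f x * one (Ds u lam k k) x ∂μ := by
    intro k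
    have hDm := meas_D hu lam k k
    have h0 := (hINF Ω μ Q (F k)).2.2.2.2 (fun x => f x - u k x) (one (Ds u lam k k))
      (hf.sub (hu k)) (fun x => by
        rw [abs_le]
        have := h01 x
        have := hu01 k x
        constructor <;> linarith) (one_meas hDm) (fun x => one_01 _ x) (hort k) (hB k k le_rfl)
    have i1 : Integrable (fun x => f x * one (Ds u lam k k) x) μ :=
      integ μ (hf.mul (one_meas hDm)) fun x => prod_01 (h01 x) (one_01 _ x)
    have i2 : Integrable (fun x => u k x * one (Ds u lam k k) x) μ :=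
      integ μ ((hu k).mul (one_meas hDm)) fun x => prod_01 (hu01 k x) (one_01 _ x)
    have i3 : Integrable (one (Ds u lam k k)) μ :=
      integ μ (one_meas hDm) fun x => by
        rw [abs_of_nonneg (one_01 _ x).1]
        exact (one_01 _ x).2
    have h1 : ∫ x, f x * one (Ds u lam k k) x ∂μ = ∫ x, u k x * one (Ds u lam k k) x ∂μ := by
      have h2 : ∫ x, (f x - u k x) * one (Ds u lam k k) x ∂μ =
          ∫ x, f x * one (Ds u lam k k) x ∂μ - ∫ x, u k x * one (Ds u lam k k) x ∂μ := by
        rw [← integral_sub i1 i2]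
        exact integral_congr_ae (Eventually.of_forall fun x => sub_mul _ _ _)
      linarith
    rw [h1, ← real_one μ hDm, ← integral_const_mul]
    refine integral_mono (i3.const_mul lam) i2 fun x => ?_
    by_cases hx : x ∈ Ds u lam k k
    · simp only [one_mem hx, mul_one]
      exact hx.1.le
    · simp only [one_not hx, mul_zero]
      exact le_rfl
  -- finite unions
  have hU : ∀ M : ℕ, lam * μ.real (Us u lam M) ≤ ∫ x, f x * one (Us u lam M) x ∂μ := by
    intro M
    induction M with
    | zero =>
      have e : Us u lam 0 = ∅ := by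
        ext x
        simp [Us]
      have e2 : ∀ x, f x * one (∅ : Set Ω) x = 0 := fun x => by
        rw [one_not (Set.notMem_empty x), mul_zero]
      rw [e, measureReal_empty, mul_zero]
      simp only [e2, integral_zero, le_refl]
    | succ M ih =>
      have hs : ∀ x, one (Us u lam (M + 1)) x = one (Us u lam M) x + one (Ds u lam M M) x := by
        intro x
        by_cases hx : x ∈ Us u lam M
        · have e1 : x ∈ Us u lam (M + 1) := by
            obtain ⟨k, hk, hk'⟩ := hx
            exact ⟨k, by omega, hk'⟩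
          have e2 : x ∉ Ds u lam M M := fun h => by
            obtain ⟨k, hk, hk'⟩ := hx
            exact absurd (h.2 k hk) (not_le.2 hk')
          rw [one_mem hx, one_mem e1, one_not e2, add_zero]
        · by_cases hy : lam < u M x
          · have e1 : x ∈ Us u lam (M + 1) := ⟨M, by omega, hy⟩
            have e2 : x ∈ Ds u lam M M := ⟨hy, fun i hi => not_lt.1 fun h => hx ⟨i, hi, h⟩⟩
            rw [one_not hx, one_mem e1, one_mem e2, zero_add]
          · have e1 : x ∉ Us u lam (M + 1) := fun h => by
              obtain ⟨k, hk, hk'⟩ := h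
              rcases Nat.lt_succ_iff_lt_or_eq.1 hk with h | h
              · exact hx ⟨k, h, hk'⟩
              · rw [h] at hk'
                exact hy hk'
            have e2 : x ∉ Ds u lam M M := fun h => hy h.1
            rw [one_not hx, one_not e1, one_not e2, zero_add]
      have hUm := meas_U hu lam M
      have hUm' := meas_U hu lam (M + 1)
      have hDm := meas_D hu lam M M
      have i1 : Integrable (one (Us u lam M)) μ := integ μ (one_meas hUm) fun x => by
        rw [abs_of_nonneg (one_01 _ x).1]
        exact (one_01 _ x).2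
      have i2 : Integrable (one (Ds u lam M M)) μ := integ μ (one_meas hDm) fun x => by
        rw [abs_of_nonneg (one_01 _ x).1]
        exact (one_01 _ x).2
      have i3 : Integrable (fun x => f x * one (Us u lam M) x) μ :=
        integ μ (hf.mul (one_meas hUm)) fun x => prod_01 (h01 x) (one_01 _ x)
      have i4 : Integrable (fun x => f x * one (Ds u lam M M) x) μ :=
        integ μ (hf.mul (one_meas hDm)) fun x => prod_01 (h01 x) (one_01 _ x)
      have r1 : μ.real (Us u lam (M + 1)) = μ.real (Us u lam M) + μ.real (Ds u lam M M) := by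
        rw [← real_one μ hUm', ← real_one μ hUm, ← real_one μ hDm, ← integral_add i1 i2]
        exact integral_congr_ae (Eventually.of_forall hs)
      have r2 : ∫ x, f x * one (Us u lam (M + 1)) x ∂μ =
          ∫ x, f x * one (Us u lam M) x ∂μ + ∫ x, f x * one (Ds u lam M M) x ∂μ := by
        rw [← integral_add i3 i4]
        refine integral_congr_ae (Eventually.of_forall fun x => ?_)
        show f x * one (Us u lam (M + 1)) x = _
        rw [hs x, mul_add]
      rw [r1, r2, mul_add]
      exact add_le_add ih (hD M)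
  have hfin : ∀ M : ℕ, lam * μ.real (Us u lam M) ≤ ∫ x, f x ∂μ := by
    intro M
    refine (hU M).trans (integral_mono ?_ ?_ fun x => ?_)
    · exact integ μ (hf.mul (one_meas (meas_U hu lam M))) fun x => prod_01 (h01 x) (one_01 _ x)
    · exact integ μ hf fun x => by
        rw [abs_of_nonneg (hf0 x)]
        exact hf1 x
    · exact mul_le_of_le_one_right (hf0 x) (one_01 _ x).2
  -- the limit
  have hmU : Monotone (Us u lam) := by
    intro a b hab x hx
    obtain ⟨k, hk, hk'⟩ := hx
    exact ⟨k, by omega, hk'⟩
  have hUn : {x | ∃ k, lam < u k x} = ⋃ M, Us u lam M := by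
    ext x
    simp only [Us, Set.mem_setOf_eq, Set.mem_iUnion]
    constructor
    · rintro ⟨k, hk⟩
      exact ⟨k + 1, k, by omega, hk⟩
    · rintro ⟨M, k, _, hk⟩
      exact ⟨k, hk⟩
  have hlim : Tendsto (fun M => μ.real (Us u lam M)) atTop
      (𝓝 (μ.real {x | ∃ k, lam < u k x})) := by
    rw [hUn]
    exact (ENNReal.tendsto_toReal (measure_ne_top μ _)).comp
      (tendsto_measure_iUnion_atTop hmU)
  exact le_of_tendsto' (hlim.const_mul lam) hfin

end Pool.Agent.CLV
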