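import Pool.Agent.CLV.Targets

set_option autoImplicit false

/-! Target EPT of the project CLV: the own averages of an almost periodic function. -/

open MeasureTheory Filter Topology Finset

namespace Pool.Agent.CLV

open Pool.Agent.FSP Pool.Agent.Ind3

universe u

section

variable {Ω : Type u} [MeasurableSpace Ω]

theorem EPT_zmeas {θ : Fin 3 → ℕ → Ω → Circle} (hθ : ∀ l j, Measurable (θ l j))
    {n : Fin 3 → ℕ} {a : Fin 3 → ℕ → ℕ → ℤ} {ζ : Fin 3 → ℕ → Ω → Circle}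
    (hz : ∀ l t x, ζ l t x = ∏ j ∈ range (n l), θ l j x ^ a l t j) (l : Fin 3) (t : ℕ) :
    Measurable (ζ l t) := by
  have h1 : ζ l t = fun x => ∏ j ∈ range (n l), θ l j x ^ a l t j := funext fun x => hz l t x
  rw [h1]
  exact Finset.measurable_prod _ fun j _ => (hθ l j).pow_const _

/-- the average with a bounded function -/
theorem EPT_avg_int {μ : Measure Ω} [IsFiniteMeasure μ] {V : Ω → (Fin 3 → ℕ) → ℝ} {B : ℝ}
    (hB : 0 ≤ B) (hVm : ∀ y, Measurable fun x => V x y) (hV0 : ∀ x y, 0 ≤ V x y)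
    (hVB : ∀ x y, V x y ≤ B) (N : ℕ) (F : (Fin 3 → ℕ) → Ω → ℝ) (hF : ∀ y, Measurable (F y))
    (hF0 : ∀ y x, 0 ≤ F y x) (hF1 : ∀ y x, F y x ≤ 1) :
    Measurable (fun x => avg3 N fun y => V x y * F y x) ∧
      (∀ x, |avg3 N fun y => V x y * F y x| ≤ B) ∧
        Integrable (fun x => avg3 N fun y => V x y * F y x) μ := by
  have h1 : Measurable (fun x => avg3 N fun y => V x y * F y x) :=
    ERA_avg_meas N (fun y x => V x y * F y x) fun y => (hVm y).mul (hF y)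
  have h2 : ∀ x, |avg3 N fun y => V x y * F y x| ≤ B := by
    intro x
    rw [abs_of_nonneg (ERA_avg_nonneg fun y => mul_nonneg (hV0 x y) (hF0 y x))]
    refine ERA_avg_le hB fun y => ?_
    calc V x y * F y x ≤ B * 1 := mul_le_mul (hVB x y) (hF1 y x) (hF0 y x) hB
      _ = B := mul_one _
  exact ⟨h1, h2, ERA_bint μ _ B h1 h2⟩

end

open Classical in
theorem p_EPT (hWBC : T_WBC) (hOWN : T_OWN) (hBAD : T_BAD) (hOWI : T_OWI.{u})
    (hAPN : T_APN.{u}) : T_EPT.{u} := by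
  intro Ω _ μ _ θ hθ n d e a q₀ b ζ X hSel l Q hQ hθQ u hu hu0 hu1 hAPF δ hδ
  obtain ⟨p, hpm, hp0, hp1, hup, hAPp⟩ := hAPF (δ / 4) (by positivity)
  obtain ⟨q1, ρ, hq1, hρ, hx⟩ := hAPN Ω μ Q hQ (θ l) (hθ l) hθQ (n l) (δ / 4) p
    (hAPp (δ / 4) (by positivity))
  have hq0 : 1 ≤ q₀ := hSel.pos
  refine ⟨q1 * q₀, Nat.mul_pos (by omega) (by omega), fun q hq hdvd => ?_⟩
  obtain ⟨k, rfl⟩ := hdvd
  obtain ⟨m₀, hm₀, hbad⟩ := hBAD d e l (n l) q₀ k (b l) ρ (δ / 4) hSel.le hq0 hρ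
    (by positivity)
  refine ⟨m₀, hm₀, fun m hm ε hε => ?_⟩
  have hm1 : 1 ≤ m := le_trans hm₀ hm
  obtain ⟨B, hB1, -, -, hWl, hWJ⟩ := hWBC m d e hm1
  have hB0 : 0 ≤ B := by linarith
  have hζ : ∀ l t, Measurable (ζ l t) := EPT_zmeas hθ hSel.zet
  have hζQ : ∀ t x, ζ l t (Q x) = ζ l t x := by
    intro t x
    rw [hSel.zet, hSel.zet]
    exact Finset.prod_congr rfl fun j _ => by rw [hθQ]
  obtain ⟨hYm, hO⟩ := hOWI Ω μ Q hQ (fun t => ζ l t) (hζ l) hζQ (e l)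
  set Y : Set Ω := {x | Indp (fun t => ζ l t x) (e l)} with hY
  have hXY : X ⊆ Y := fun x hxX => (hSel.str x hxX).ind l
  set V : Ω → (Fin 3 → ℕ) → ℝ := fun x y => WL m d l (range (e l)) (sv ζ x l) y with hV
  have hVm : ∀ y, Measurable fun x => V x y := fun y =>
    ((hWJ l (range (e l))).2 y).comp (measurable_pi_lambda _ fun t => hζ l t)
  have hV0 : ∀ x y, 0 ≤ V x y := fun x y => (hWl l _ y).1
  have hVB : ∀ x y, V x y ≤ B := fun x y => (hWl l _ y).2
  have hQk : ∀ k, MeasurePreserving (Q^[k]) μ μ := fun k => hQ.iterate k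
  have hQm : ∀ k, Measurable (Q^[k]) := fun k => (hQk k).measurable
  set D : Ω → ℝ := fun x => |u x - p x| with hD
  have hDm : Measurable D := (hu.sub hpm).abs
  have hD0 : ∀ x, 0 ≤ D x := fun x => abs_nonneg _
  have hD1 : ∀ x, D x ≤ 1 := fun x => by
    rw [hD]
    simp only []
    rw [abs_le]
    constructor <;> linarith [hu0 x, hu1 x, hp0 x, hp1 x]
  have hDi : Integrable D μ := ERA_bint μ _ 1 hDm fun x => by
    rw [abs_of_nonneg (hD0 x)]
    exact hD1 x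
  have hui : Integrable u μ := ERA_bint μ _ 1 hu fun x => by
    rw [abs_of_nonneg (hu0 x)]
    exact hu1 x
  have hpi : Integrable p μ := ERA_bint μ _ 1 hpm fun x => by
    rw [abs_of_nonneg (hp0 x)]
    exact hp1 x
  have hpp0 : ∀ (y : Fin 3 → ℕ) (x : Ω), 0 ≤ |p (Q^[q1 * q₀ * k * tm l y] x) - p x| :=
    fun y x => abs_nonneg _
  have hpp1 : ∀ (y : Fin 3 → ℕ) (x : Ω), |p (Q^[q1 * q₀ * k * tm l y] x) - p x| ≤ 1 := by
    intro y x
    rw [abs_le]
    constructor <;> linarith [hp0 x, hp1 x, hp0 (Q^[q1 * q₀ * k * tm l y] x),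
      hp1 (Q^[q1 * q₀ * k * tm l y] x)]
  have hppm : ∀ y : Fin 3 → ℕ, Measurable fun x => |p (Q^[q1 * q₀ * k * tm l y] x) - p x| :=
    fun y => ((hpm.comp (hQm _)).sub hpm).abs
  -- (1)
  obtain ⟨N₁, hN₁⟩ := hO m d (q1 * q₀ * k) l D hm1 hDm hD0 hD1 (ε / 3) (by positivity)
  -- (2)
  obtain ⟨N₂, hN₂⟩ : ∃ N₀ : ℕ, ∀ N ≥ N₀, ∫ x in X, avg3 N (fun y => V x y *
      |p (Q^[q1 * q₀ * k * tm l y] x) - p x|) ∂μ ≤ ∫ x in X, (δ / 2) ∂μ + ε / 3 := by
    refine f_LSU Ω μ (fun N x => avg3 N fun y => V x y *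
      |p (Q^[q1 * q₀ * k * tm l y] x) - p x|) B (fun _ => δ / 2) X
      (fun N => (EPT_avg_int (μ := μ) hB0 hVm hV0 hVB N
        (fun y x => |p (Q^[q1 * q₀ * k * tm l y] x) - p x|) hppm hpp0 hpp1).1)
      (fun N => (EPT_avg_int (μ := μ) hB0 hVm hV0 hVB N
        (fun y x => |p (Q^[q1 * q₀ * k * tm l y] x) - p x|) hppm hpp0 hpp1).2.1)
      (integrable_const _) hSel.mX ?_ (ε / 3) (by positivity)
    filter_upwards [hx] with x hx hxX ε' hε'
    obtain ⟨M₁, hM₁⟩ := hOWN m d l (e l) (range (e l)) hm1 (Finset.Subset.refl _) (sv ζ x l)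
      ((hSel.str x hxX).ind l) (ε' / δ) (by positivity)
    obtain ⟨M₂, hM₂⟩ := hbad m hm (sv ζ x) (sv θ x) (hSel.str x hxX)
      (fun j hj => hSel.pow x hxX l j hj)
    refine ⟨max M₁ M₂, fun N hN => ?_⟩
    have h1 := (abs_le.1 (hM₁ N (le_trans (le_max_left _ _) hN))).2
    have h2 := (hM₂ N (le_trans (le_max_right _ _) hN)).2
    have h3 : avg3 N (fun y => V x y * |p (Q^[q1 * q₀ * k * tm l y] x) - p x|) ≤
        avg3 N (fun y => δ / 4 * V x y + V x y * (if ∃ j < n l,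
          ρ < ‖((sv θ x l j : Circle) : ℂ) ^ (q₀ * k * tm l y) - 1‖ then 1 else 0)) := by
      refine ERA_avg_mono fun y => ?_
      have h4 : |p (Q^[q1 * q₀ * k * tm l y] x) - p x| ≤ δ / 4 + (if ∃ j < n l,
          ρ < ‖((sv θ x l j : Circle) : ℂ) ^ (q₀ * k * tm l y) - 1‖ then 1 else 0) := by
        by_cases hc : ∃ j < n l, ρ < ‖((sv θ x l j : Circle) : ℂ) ^ (q₀ * k * tm l y) - 1‖
        · rw [if_pos hc]
          linarith [hpp1 y x]
        · rw [if_neg hc, add_zero]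
          push Not at hc
          have h5 := hx 0 (q₀ * k * tm l y) hc
          have h6 : 0 + q1 * (q₀ * k * tm l y) = q1 * q₀ * k * tm l y := by ring
          rw [h6] at h5
          exact h5
      calc V x y * |p (Q^[q1 * q₀ * k * tm l y] x) - p x|
          ≤ V x y * (δ / 4 + (if ∃ j < n l,
          ρ < ‖((sv θ x l j : Circle) : ℂ) ^ (q₀ * k * tm l y) - 1‖ then 1 else 0)) :=
            mul_le_mul_of_nonneg_left h4 (hV0 x y)
        _ = _ := by ring
    rw [ERA_avg_add, ERA_avg_mul] at h3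
    have h7 : avg3 N (fun y => V x y) ≤ 1 + ε' / δ := by
      change avg3 N (WL m d l (range (e l)) (sv ζ x l)) ≤ _
      linarith
    have h8 : δ / 4 * avg3 N (fun y => V x y) ≤ δ / 4 * (1 + ε' / δ) :=
      mul_le_mul_of_nonneg_left h7 (by positivity)
    have h9 : δ / 4 * (1 + ε' / δ) = δ / 4 + ε' / 4 := by field_simp
    have h10 : avg3 N (fun y => V x y * (if ∃ j < n l,
          ρ < ‖((sv θ x l j : Circle) : ℂ) ^ (q₀ * k * tm l y) - 1‖ then 1 else 0)) ≤ δ / 4 := h2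
    change avg3 N (fun y => V x y * |p (Q^[q1 * q₀ * k * tm l y] x) - p x|) ≤ δ / 2 + ε'
    linarith
  -- (3)
  obtain ⟨N₃, hN₃⟩ : ∃ N₀ : ℕ, ∀ N ≥ N₀, ∫ x in X, avg3 N (fun y => V x y * p x) ∂μ
      ≤ ∫ x in X, p x ∂μ + ε / 3 := by
    refine f_LSU Ω μ (fun N x => avg3 N fun y => V x y * p x) B p X
      (fun N => (EPT_avg_int (μ := μ) hB0 hVm hV0 hVB N (fun _ x => p x) (fun _ => hpm)
        (fun _ => hp0) (fun _ => hp1)).1)
      (fun N => (EPT_avg_int (μ := μ) hB0 hVm hV0 hVB N (fun _ x => p x) (fun _ => hpm)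
        (fun _ => hp0) (fun _ => hp1)).2.1) hpi hSel.mX ?_ (ε / 3) (by positivity)
    refine Eventually.of_forall fun x hxX ε' hε' => ?_
    obtain ⟨M₁, hM₁⟩ := hOWN m d l (e l) (range (e l)) hm1 (Finset.Subset.refl _) (sv ζ x l)
      ((hSel.str x hxX).ind l) ε' hε'
    refine ⟨M₁, fun N hN => ?_⟩
    have h1 := (abs_le.1 (hM₁ N hN)).2
    have h7 : avg3 N (fun y => V x y) ≤ 1 + ε' := by
      change avg3 N (WL m d l (range (e l)) (sv ζ x l)) ≤ _
      linarith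
    have h8 : avg3 N (fun y => V x y * p x) = p x * avg3 N (fun y => V x y) := by
      rw [← ERA_avg_mul]
      congr 1
      funext y
      ring
    change avg3 N (fun y => V x y * p x) ≤ p x + ε'
    rw [h8]
    have h9 := mul_le_mul_of_nonneg_left h7 (hp0 x)
    nlinarith [hp0 x, hp1 x]
  refine ⟨max N₁ (max N₂ N₃), fun N hN => ?_⟩
  have e1 := hN₁ N (le_trans (le_max_left _ _) hN)
  have e2 := hN₂ N (le_trans (le_trans (le_max_left _ _) (le_max_right _ _)) hN)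
  have e3 := hN₃ N (le_trans (le_trans (le_max_right _ _) (le_max_right _ _)) hN)
  -- integrability
  have i0 := (EPT_avg_int (μ := μ.restrict X) hB0 hVm hV0 hVB N
    (fun y x => u (Q^[q1 * q₀ * k * tm l y] x)) (fun y => hu.comp (hQm _)) (fun y x => hu0 _)
    (fun y x => hu1 _)).2.2
  have i1 := (EPT_avg_int (μ := μ.restrict X) hB0 hVm hV0 hVB N
    (fun y x => D (Q^[q1 * q₀ * k * tm l y] x)) (fun y => hDm.comp (hQm _)) (fun y x => hD0 _)
    (fun y x => hD1 _)).2.2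
  have i1' := (EPT_avg_int (μ := μ) hB0 hVm hV0 hVB N
    (fun y x => D (Q^[q1 * q₀ * k * tm l y] x)) (fun y => hDm.comp (hQm _)) (fun y x => hD0 _)
    (fun y x => hD1 _)).2.2
  have i2 := (EPT_avg_int (μ := μ.restrict X) hB0 hVm hV0 hVB N
    (fun y x => |p (Q^[q1 * q₀ * k * tm l y] x) - p x|) hppm hpp0 hpp1).2.2
  have i3 := (EPT_avg_int (μ := μ.restrict X) hB0 hVm hV0 hVB N (fun _ x => p x)
    (fun _ => hpm) (fun _ => hp0) (fun _ => hp1)).2.2
  have s1 : ∫ x in X, avg3 N (fun y => V x y * D (Q^[q1 * q₀ * k * tm l y] x)) ∂μ ≤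
      ∫ x in Y, avg3 N (fun y => V x y * D (Q^[q1 * q₀ * k * tm l y] x)) ∂μ := by
    refine setIntegral_mono_set i1'.integrableOn ?_ (HasSubset.Subset.eventuallyLE hXY)
    exact Eventually.of_forall fun x => ERA_avg_nonneg fun y => mul_nonneg (hV0 x y) (hD0 _)
  have s1' : ∫ x in Y, avg3 N (fun y => V x y * D (Q^[q1 * q₀ * k * tm l y] x)) ∂μ ≤
      ∫ x in Y, D x ∂μ + ε / 3 := e1
  have s1'' : ∫ x in Y, D x ∂μ ≤ ∫ x, D x ∂μ :=
    setIntegral_le_integral hDi (Eventually.of_forall hD0)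
  have s0 : ∫ x in X, avg3 N (fun y => V x y * u (Q^[q1 * q₀ * k * tm l y] x)) ∂μ ≤
      ∫ x in X, avg3 N (fun y => V x y * D (Q^[q1 * q₀ * k * tm l y] x)) ∂μ +
      (∫ x in X, avg3 N (fun y => V x y * |p (Q^[q1 * q₀ * k * tm l y] x) - p x|) ∂μ +
      ∫ x in X, avg3 N (fun y => V x y * p x) ∂μ) := by
    have j : Integrable (fun x => avg3 N (fun y => V x y *
        |p (Q^[q1 * q₀ * k * tm l y] x) - p x|) + avg3 N (fun y => V x y * p x))
          (μ.restrict X) := i2.add i3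
    rw [← integral_add i2 i3, ← integral_add i1 j]
    refine integral_mono i0 (i1.add j) fun x => ?_
    change avg3 N (fun y => V x y * u (Q^[q1 * q₀ * k * tm l y] x)) ≤
      avg3 N (fun y => V x y * D (Q^[q1 * q₀ * k * tm l y] x)) +
      (avg3 N (fun y => V x y * |p (Q^[q1 * q₀ * k * tm l y] x) - p x|) +
        avg3 N (fun y => V x y * p x))
    rw [← ERA_avg_add, ← ERA_avg_add]
    refine ERA_avg_mono fun y => ?_
    rw [← mul_add, ← mul_add]
    refine mul_le_mul_of_nonneg_left ?_ (hV0 x y)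
    have t1 : u (Q^[q1 * q₀ * k * tm l y] x) - p (Q^[q1 * q₀ * k * tm l y] x) ≤
      D (Q^[q1 * q₀ * k * tm l y] x) := le_abs_self _
    have t2 : p (Q^[q1 * q₀ * k * tm l y] x) - p x ≤ |p (Q^[q1 * q₀ * k * tm l y] x) - p x| :=
      le_abs_self _
    linarith
  have s2 : ∫ x in X, (δ / 2) ∂μ ≤ δ / 2 := by
    rw [integral_const, smul_eq_mul]
    have hG1 : (μ.restrict X).real Set.univ ≤ 1 := by
      rw [Measure.real, Measure.restrict_apply_univ]
      exact measureReal_le_one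
    nlinarith
  have s3 : ∫ x in X, p x ∂μ ≤ ∫ x in X, u x ∂μ + δ / 4 := by
    have t1 : ∫ x in X, p x ∂μ ≤ ∫ x in X, (u x + D x) ∂μ := by
      refine integral_mono hpi.integrableOn (hui.integrableOn.add hDi.integrableOn) fun x => ?_
      have := neg_abs_le (u x - p x)
      change p x ≤ u x + |u x - p x|
      linarith
    rw [integral_add hui.integrableOn hDi.integrableOn] at t1
    have t2 : ∫ x in X, D x ∂μ ≤ ∫ x, D x ∂μ :=
      setIntegral_le_integral hDi (Eventually.of_forall hD0)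
    have t3 : ∫ x, D x ∂μ ≤ δ / 4 := hup
    linarith
  have t3 : ∫ x, D x ∂μ ≤ δ / 4 := hup
  change ∫ x in X, avg3 N (fun y => V x y * u (Q^[q1 * q₀ * k * tm l y] x)) ∂μ ≤ _
  linarith

end Pool.Agent.CLV
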