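import Pool.Agent.CLV.Targets

set_option autoImplicit false

/-!
# CLV, target ERC (MP_cfac66_an)

The change of `c` along the moved points is at most the moved error, the change of the
projection, and the error at the point; the three parts are estimated by MRI, EPT and RPT, by
PPT, and by WMO.
-/

open MeasureTheory Filter Topology Finset

namespace Pool.Agent.CLV

open Pool.Agent.FSP Pool.Agent.Ind3

universe u

namespace ERC_

/-- Weighted averages of bounded functions are integrable. -/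
theorem int_w {Ω : Type u} [MeasurableSpace Ω] (μ : Measure Ω) [IsFiniteMeasure μ] (N : ℕ)
    (V : Ω → (Fin 3 → ℕ) → ℝ) (hV : ∀ y, Measurable fun x => V x y) (B : ℝ) (hB : 0 ≤ B)
    (hV0 : ∀ x y, 0 ≤ V x y) (hVB : ∀ x y, V x y ≤ B)
    (u : (Fin 3 → ℕ) → Ω → ℝ) (hu : ∀ y, Measurable (u y)) (hu1 : ∀ y x, |u y x| ≤ 1) :
    Integrable (fun x => avg3 N fun y => V x y * u y x) μ := by
  refine err_int μ N (fun y x => V x y * u y x) (fun y => (hV y).mul (hu y)) B hB ?_
  intro y x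
  rw [abs_mul, abs_of_nonneg (hV0 x y)]
  calc V x y * |u y x| ≤ V x y * 1 := mul_le_mul_of_nonneg_left (hu1 y x) (hV0 x y)
    _ ≤ B := by rw [mul_one]; exact hVB x y

theorem mean_mul_const (N s : ℕ) (f : ℕ → ℝ) (k : ℝ) :
    mean N s (fun n => f n * k) = mean N s f * k := by
  unfold mean
  rw [← Finset.sum_mul, mul_assoc]

theorem avg3_mul_const (N : ℕ) (F : (Fin 3 → ℕ) → ℝ) (k : ℝ) :
    avg3 N (fun y => F y * k) = avg3 N F * k := by
  unfold avg3
  simp only [mean_mul_const]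

/-- The integral over `X` of a function which is at most `lam` on `X`. -/
theorem int_le {Ω : Type u} [MeasurableSpace Ω] (μ : Measure Ω) [IsProbabilityMeasure μ]
    (X : Set Ω) (hX : MeasurableSet X) (f : Ω → ℝ) (hf : Integrable f μ) (lam : ℝ)
    (h : ∀ x ∈ X, f x ≤ lam) : ∫ x in X, f x ∂μ ≤ lam * μ.real X := by
  have h1 : ∫ x in X, f x ∂μ ≤ ∫ _ in X, lam ∂μ :=
    setIntegral_mono_on hf.integrableOn (integrable_const lam).integrableOn hX h
  rw [setIntegral_const, smul_eq_mul, mul_comm] at h1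
  exact h1

end ERC_

open ERC_

theorem p_ERC : T_WBC → T_WMO → T_MRI.{u} → T_RPT.{u} → T_EPT.{u} → T_PPT.{u} →
    T_ERC.{u} := by
  intro hWBC hWMO hMRI hRPT hEPT hPPT Ω _ μ _ θ hθ n d e a q₀ b ζ X hSel l Q hQ hinv c P u r
    hc hc0 hc1 hP hP0 hP1 hu hu0 hu1 hr hr1 hfur hAPL hAPF hOrt q₂ ρ lam hq2 hρ hlam hfl hul
    hvar δ hδ
  obtain ⟨q₁, hq1, h1⟩ := hEPT Ω μ θ hθ n d e a q₀ b ζ X hSel l Q hQ hinv u hu hu0 hu1 hAPF
    (δ / 2) (by positivity)
  have hq0 : 1 ≤ q₀ := hSel.pos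
  refine ⟨q₁ * (q₂ * q₀), Nat.mul_pos hq1 (Nat.mul_pos hq2 hq0), ?_⟩
  intro q hq hdiv
  obtain ⟨m₁, hm1, h2⟩ := h1 q hq (dvd_trans (Dvd.intro _ rfl) hdiv)
  obtain ⟨m₂, hm2, h3⟩ := hPPT Ω μ θ hθ n d e a q₀ b ζ X hSel l Q hQ P hP hP0 hP1 q₂ ρ lam
    hq2 hρ hlam hvar (δ / 2) (by positivity) q hq (dvd_trans (Dvd.intro_left _ rfl) hdiv)
  refine ⟨max m₁ m₂, le_trans hm1 (le_max_left _ _), ?_⟩
  intro m hm ε hε
  have hm' : 1 ≤ m := le_trans (le_trans hm1 (le_max_left _ _)) hm
  have hf : Measurable fun x => |c x - P x| := (hc.sub hP).abs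
  have hf0 : ∀ x, 0 ≤ |c x - P x| := fun x => abs_nonneg _
  have hf1 : ∀ x, |c x - P x| ≤ 1 := fun x => by
    rw [abs_le]
    constructor <;> linarith [hc0 x, hc1 x, hP0 x, hP1 x]
  have hε5 : 0 < ε / 5 := by positivity
  obtain ⟨N₁, e1⟩ := hMRI Ω μ θ hθ n d e a q₀ b ζ X hSel l Q hQ hinv _ hf hf0 hf1 hAPL m q hm'
    hq (ε / 5) hε5
  obtain ⟨N₂, e2⟩ := h2 m (le_trans (le_max_left _ _) hm) (ε / 5) hε5
  obtain ⟨N₃, e3⟩ := hRPT Ω μ Q hQ (θ l) (hθ l) hinv (n l) r hr hr1 hOrt (a l) m d q l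
    (range (e l)) hm' hq (ε / 5) hε5
  obtain ⟨N₄, e4⟩ := h3 m (le_trans (le_max_right _ _) hm) (ε / 5) hε5
  obtain ⟨B, hB1, hWW, hWWm, hWL, hWLm⟩ := hWBC m d e hm'
  have hB0 : 0 ≤ B := by linarith
  have hζ : ∀ l' t, Measurable (ζ l' t) := fun l' t => by
    have h0 : ζ l' t = fun x => ∏ j ∈ range (n l'), θ l' j x ^ a l' t j :=
      funext fun x => hSel.zet l' t x
    rw [h0]
    exact Finset.measurable_prod _ fun j _ => (continuous_zpow _).measurable.comp (hθ l' j)
  have hsv : Measurable fun x => sv ζ x :=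
    measurable_pi_iff.2 fun l' => measurable_pi_iff.2 fun t => hζ l' t
  have hWx : ∀ y, Measurable fun x => WW m d e (sv ζ x) y := fun y => (hWWm y).comp hsv
  have hLx : ∀ y, Measurable fun x => WL m d l (range (e l)) (sv ζ x l) y := fun y =>
    ((hWLm l (range (e l))).2 y).comp ((measurable_pi_apply l).comp hsv)
  have hW0 : ∀ x y, 0 ≤ WW m d e (sv ζ x) y := fun x y => (hWW _ y).1
  have hWB : ∀ x y, WW m d e (sv ζ x) y ≤ B := fun x y => (hWW _ y).2
  have hL0 : ∀ x y, 0 ≤ WL m d l (range (e l)) (sv ζ x l) y := fun x y => (hWL l _ y).1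
  have hLB : ∀ x y, WL m d l (range (e l)) (sv ζ x l) y ≤ B := fun x y => (hWL l _ y).2
  have hQk : ∀ k, Measurable (Q^[k]) := fun k => hQ.measurable.iterate k
  have hfi : Integrable (fun x => |c x - P x|) μ :=
    Integrable.of_bound hf.aestronglyMeasurable 1 (Filter.Eventually.of_forall fun x => by
      rw [Real.norm_eq_abs, abs_abs]
      exact hf1 x)
  have hui : Integrable u μ :=
    Integrable.of_bound hu.aestronglyMeasurable 1 (Filter.Eventually.of_forall fun x => by
      rw [Real.norm_eq_abs, abs_of_nonneg (hu0 x)]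
      exact hu1 x)
  obtain ⟨N₅, e5⟩ := f_LSU Ω μ
    (fun N x => avg3 N fun y => WW m d e (sv ζ x) y * |c x - P x|) B
    (fun x => |c x - P x|) X
    (fun N => err_meas_avg3 N (fun y x => WW m d e (sv ζ x) y * |c x - P x|)
      fun y => (hWx y).mul hf)
    (fun N x => err_avg3_abs N _ B hB0 fun y => by
      rw [abs_mul, abs_of_nonneg (hW0 x y), abs_abs]
      calc WW m d e (sv ζ x) y * |c x - P x| ≤ WW m d e (sv ζ x) y * 1 :=
            mul_le_mul_of_nonneg_left (hf1 x) (hW0 x y)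
        _ ≤ B := by rw [mul_one]; exact hWB x y)
    hfi hSel.mX
    (Filter.Eventually.of_forall fun x hx ε' hε' => by
      obtain ⟨N₀, h0⟩ := hWMO m d e (sv ζ x) (sv θ x) hm' (hSel.str x hx) ε' hε'
      refine ⟨N₀, fun N hN => ?_⟩
      have h4 := (abs_le.1 (h0 N hN)).2
      rw [avg3_mul_const]
      have h5 : avg3 N (fun y => WW m d e (sv ζ x) y) ≤ 1 + ε' := by
        have h6 : avg3 N (WW m d e (sv ζ x)) ≤ 1 + ε' := by linarith
        exact h6
      calc avg3 N (fun y => WW m d e (sv ζ x) y) * |c x - P x|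
          ≤ (1 + ε') * |c x - P x| := mul_le_mul_of_nonneg_right h5 (hf0 x)
        _ = |c x - P x| + ε' * |c x - P x| := by ring
        _ ≤ |c x - P x| + ε' * 1 :=
            add_le_add_right (mul_le_mul_of_nonneg_left (hf1 x) hε'.le) _
        _ = |c x - P x| + ε' := by rw [mul_one])
    (ε / 5) hε5
  refine ⟨max N₁ (max N₂ (max N₃ (max N₄ N₅))), ?_⟩
  intro N hN
  have k1 := e1 N (by omega)
  have k2 := e2 N (by omega)
  have k3 := e3 N (by omega)
  have k4 := e4 N (by omega)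
  have k5 := e5 N (by omega)
  -- integrability
  have i0 : Integrable (fun x => avg3 N fun y => WW m d e (sv ζ x) y *
      |c (Q^[q * tm l y] x) - c x|) (μ.restrict X) :=
    int_w (μ.restrict X) N _ hWx B hB0 hW0 hWB (fun y x => |c (Q^[q * tm l y] x) - c x|)
      (fun y => ((hc.comp (hQk _)).sub hc).abs) (fun y x => by
        rw [abs_abs, abs_le]
        constructor <;> linarith [hc0 (Q^[q * tm l y] x), hc1 (Q^[q * tm l y] x), hc0 x, hc1 x])
  have i1 : Integrable (fun x => avg3 N fun y => WW m d e (sv ζ x) y *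
      |c (Q^[q * tm l y] x) - P (Q^[q * tm l y] x)|) (μ.restrict X) :=
    int_w (μ.restrict X) N _ hWx B hB0 hW0 hWB
      (fun y x => |c (Q^[q * tm l y] x) - P (Q^[q * tm l y] x)|)
      (fun y => hf.comp (hQk _)) (fun y x => by
        rw [abs_abs]
        exact hf1 _)
  have i2 : Integrable (fun x => avg3 N fun y => WW m d e (sv ζ x) y *
      |P (Q^[q * tm l y] x) - P x|) (μ.restrict X) :=
    int_w (μ.restrict X) N _ hWx B hB0 hW0 hWB (fun y x => |P (Q^[q * tm l y] x) - P x|)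
      (fun y => ((hP.comp (hQk _)).sub hP).abs) (fun y x => by
        rw [abs_abs, abs_le]
        constructor <;> linarith [hP0 (Q^[q * tm l y] x), hP1 (Q^[q * tm l y] x), hP0 x, hP1 x])
  have i3 : Integrable (fun x => avg3 N fun y => WW m d e (sv ζ x) y * |c x - P x|)
      (μ.restrict X) :=
    int_w (μ.restrict X) N _ hWx B hB0 hW0 hWB (fun _ x => |c x - P x|)
      (fun y => hf) (fun y x => by
        rw [abs_abs]
        exact hf1 _)
  have i4 : Integrable (fun x => avg3 N fun y => WL m d l (range (e l)) (sv ζ x l) y *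
      u (Q^[q * tm l y] x)) (μ.restrict X) :=
    int_w (μ.restrict X) N _ hLx B hB0 hL0 hLB (fun y x => u (Q^[q * tm l y] x))
      (fun y => hu.comp (hQk _)) (fun y x => by
        rw [abs_of_nonneg (hu0 _)]
        exact hu1 _)
  have i5' : Integrable (fun x => avg3 N fun y => WL m d l (range (e l)) (sv ζ x l) y *
      r (Q^[q * tm l y] x)) μ :=
    int_w μ N _ hLx B hB0 hL0 hLB (fun y x => r (Q^[q * tm l y] x))
      (fun y => hr.comp (hQk _)) (fun y x => hr1 _)
  have i5 : Integrable (fun x => avg3 N fun y => WL m d l (range (e l)) (sv ζ x l) y *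
      r (Q^[q * tm l y] x)) (μ.restrict X) := i5'.restrict
  -- the three parts
  have hle : ∫ x in X, avg3 N (fun y => WW m d e (sv ζ x) y *
      |c (Q^[q * tm l y] x) - c x|) ∂μ ≤
      ∫ x in X, (avg3 N (fun y => WW m d e (sv ζ x) y *
          |c (Q^[q * tm l y] x) - P (Q^[q * tm l y] x)|) +
        (avg3 N (fun y => WW m d e (sv ζ x) y * |P (Q^[q * tm l y] x) - P x|) +
        avg3 N (fun y => WW m d e (sv ζ x) y * |c x - P x|))) ∂μ := by
    refine integral_mono i0 (i1.add (i2.add i3)) ?_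
    intro x
    beta_reduce
    rw [← err_avg3_add, ← err_avg3_add]
    refine err_avg3_mono _ _ _ fun y => ?_
    have a1 := hW0 x y
    have t1 : |c (Q^[q * tm l y] x) - c x| ≤ |c (Q^[q * tm l y] x) - P (Q^[q * tm l y] x)| +
        (|P (Q^[q * tm l y] x) - P x| + |c x - P x|) := by
      have e : c (Q^[q * tm l y] x) - c x = (c (Q^[q * tm l y] x) - P (Q^[q * tm l y] x)) +
        ((P (Q^[q * tm l y] x) - P x) + -(c x - P x)) := by ring
      rw [e]
      refine (abs_add_le _ _).trans (add_le_add_right ?_ _)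
      refine (abs_add_le _ _).trans ?_
      rw [abs_neg]
    calc _ ≤ WW m d e (sv ζ x) y * (|c (Q^[q * tm l y] x) - P (Q^[q * tm l y] x)| +
        (|P (Q^[q * tm l y] x) - P x| + |c x - P x|)) := mul_le_mul_of_nonneg_left t1 a1
      _ = _ := by ring
  have hsum : ∫ x in X, (avg3 N (fun y => WW m d e (sv ζ x) y *
          |c (Q^[q * tm l y] x) - P (Q^[q * tm l y] x)|) +
        (avg3 N (fun y => WW m d e (sv ζ x) y * |P (Q^[q * tm l y] x) - P x|) +
        avg3 N (fun y => WW m d e (sv ζ x) y * |c x - P x|))) ∂μ =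
      ∫ x in X, avg3 N (fun y => WW m d e (sv ζ x) y *
          |c (Q^[q * tm l y] x) - P (Q^[q * tm l y] x)|) ∂μ +
      (∫ x in X, avg3 N (fun y => WW m d e (sv ζ x) y *
          |P (Q^[q * tm l y] x) - P x|) ∂μ +
      ∫ x in X, avg3 N (fun y => WW m d e (sv ζ x) y * |c x - P x|) ∂μ) := by
    have i23 : Integrable (fun x => avg3 N (fun y => WW m d e (sv ζ x) y *
        |P (Q^[q * tm l y] x) - P x|) +
        avg3 N (fun y => WW m d e (sv ζ x) y * |c x - P x|)) (μ.restrict X) := i2.add i3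
    rw [integral_add i1 i23, integral_add i2 i3]
  rw [hsum] at hle
  -- the moved error with the own weight
  have hsplit : ∫ x in X, avg3 N (fun y => WL m d l (range (e l)) (sv ζ x l) y *
      |c (Q^[q * tm l y] x) - P (Q^[q * tm l y] x)|) ∂μ =
      ∫ x in X, avg3 N (fun y => WL m d l (range (e l)) (sv ζ x l) y *
        u (Q^[q * tm l y] x)) ∂μ +
      ∫ x in X, avg3 N (fun y => WL m d l (range (e l)) (sv ζ x l) y *
        r (Q^[q * tm l y] x)) ∂μ := by
    rw [← integral_add i4 i5]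
    refine integral_congr_ae (Filter.Eventually.of_forall fun x => ?_)
    beta_reduce
    rw [← err_avg3_add]
    congr 1
    funext y
    rw [hfur, mul_add]
  have hrpt : ∫ x in X, avg3 N (fun y => WL m d l (range (e l)) (sv ζ x l) y *
      r (Q^[q * tm l y] x)) ∂μ ≤ ε / 5 := by
    have hz : ∀ x, sv ζ x l = fun t => ∏ j ∈ range (n l), θ l j x ^ a l t j := fun x =>
      funext fun t => hSel.zet l t x
    have s1 : ∫ x in X, avg3 N (fun y => WL m d l (range (e l)) (sv ζ x l) y *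
        r (Q^[q * tm l y] x)) ∂μ ≤
        ∫ x in X, |avg3 N (fun y => WL m d l (range (e l)) (sv ζ x l) y *
        r (Q^[q * tm l y] x))| ∂μ := integral_mono i5 i5.abs fun x => le_abs_self _
    have s2 : ∫ x in X, |avg3 N (fun y => WL m d l (range (e l)) (sv ζ x l) y *
        r (Q^[q * tm l y] x))| ∂μ ≤
        ∫ x, |avg3 N (fun y => WL m d l (range (e l)) (sv ζ x l) y *
        r (Q^[q * tm l y] x))| ∂μ :=
      setIntegral_le_integral i5'.abs (Filter.Eventually.of_forall fun x => abs_nonneg _)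
    have s3 : ∫ x, |avg3 N (fun y => WL m d l (range (e l)) (sv ζ x l) y *
        r (Q^[q * tm l y] x))| ∂μ ≤ ε / 5 := by
      simp only [hz]
      exact k3
    exact s1.trans (s2.trans s3)
  have hU : ∫ x in X, u x ∂μ ≤ lam * μ.real X := int_le μ X hSel.mX u hui lam hul
  have hF : ∫ x in X, |c x - P x| ∂μ ≤ lam * μ.real X := int_le μ X hSel.mX _ hfi lam hfl
  have k1' : ∫ x in X, avg3 N (fun y => WW m d e (sv ζ x) y *
      |c (Q^[q * tm l y] x) - P (Q^[q * tm l y] x)|) ∂μ ≤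
      ∫ x in X, avg3 N (fun y => WL m d l (range (e l)) (sv ζ x l) y *
      |c (Q^[q * tm l y] x) - P (Q^[q * tm l y] x)|) ∂μ + ε / 5 := k1
  have k5' : ∫ x in X, avg3 N (fun y => WW m d e (sv ζ x) y * |c x - P x|) ∂μ ≤
      ∫ x in X, |c x - P x| ∂μ + ε / 5 := k5
  linarith

end Pool.Agent.CLV
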