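import Pool.Agent.CLV.Targets

set_option autoImplicit false

/-!
# CLV-EXO: the expansion of the own weight
-/

open MeasureTheory Filter Topology Finset

namespace Pool.Agent.CLV

open Pool.Agent.FSP Pool.Agent.Ind3

namespace EXO_

open Classical in
/-- one factor -/
def One (l : Fin 3) (F : Circle → (Fin 3 → ℕ) → ℝ) : Prop :=
  ∃ (ι : Type) (_ : Fintype ι) (c : ι → ℂ) (e : ι → Fin 3 → ℤ), (∀ i, ‖c i‖ ≤ 1) ∧
    (∀ i, e i l = 0) ∧ (∑ i, if ∀ r, e i r = 0 then c i else 0) = 1 ∧
    ∀ (z : Circle) (y : Fin 3 → ℕ), y 1 ≤ 2 * y 2 → ((F z y : ℝ) : ℂ)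
      = ∑ i, c i * ((∏ r, (z ^ e i r) ^ y r : Circle) : ℂ)

theorem tm_eq (l : Fin 3) (y : Fin 3 → ℕ) (hy : y 1 ≤ 2 * y 2) :
    ((tm l y : ℕ) : ℤ) = ∑ r, Tm l r * (y r : ℤ) := by
  rw [Fin.sum_univ_three]
  fin_cases l
  · simp only [tm, Tm]
    simp
    omega
  · simp only [tm, Tm]
    simp
  · simp only [tm, Tm]
    simp

theorem Tm_self (l : Fin 3) : Tm l l = 0 := by
  fin_cases l <;> simp [Tm]

theorem Tm_ne (l : Fin 3) : ∃ r, Tm l r ≠ 0 := by
  fin_cases l
  · exact ⟨1, by simp [Tm]⟩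
  · exact ⟨0, by simp [Tm]⟩
  · exact ⟨0, by simp [Tm]⟩

theorem one_core {m : ℕ} (hm : 1 ≤ m) (hK : T_KXP) (l : Fin 3) :
    One l (fun z y => kap m l (fun i => z ^ y i)) := by
  classical
  obtain ⟨C, c, hC, hC0, -, -, -, hkap, -⟩ := hK m hm
  set S := Fintype.piFinset (fun _ : Fin 3 => Finset.Icc (-(m : ℤ)) m) with hS
  refine ⟨↥S, inferInstance, fun n => if n.1 l = 0 then C n.1 else 0,
    fun n r => if n.1 l = 0 then n.1 r else 0, fun n => ?_, fun n => ?_, ?_, fun z y _ => ?_⟩
  · dsimp only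
    split_ifs
    · exact hC _
    · simp
  · dsimp only
    split_ifs with h
    · exact h
    · rfl
  · have h0 : (0 : Fin 3 → ℤ) ∈ S := by
      rw [hS, Fintype.mem_piFinset]
      intro i
      rw [Finset.mem_Icc]
      constructor <;> simp
    have h1 : ∀ n : ↥S, (if ∀ r, (if n.1 l = 0 then n.1 r else 0) = 0 then
        (if n.1 l = 0 then C n.1 else 0) else (0 : ℂ)) = if n = ⟨0, h0⟩ then C n.1 else 0 := by
      intro n
      by_cases hl : n.1 l = 0
      · simp only [hl, if_true]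
        by_cases hn : n = ⟨0, h0⟩
        · subst hn
          simp
        · rw [if_neg hn, if_neg]
          intro h
          exact hn (Subtype.ext (funext h))
      · have hn : n ≠ ⟨0, h0⟩ := by
          rintro rfl
          exact hl rfl
        simp [hl, hn]
    have h2 : ∀ n : ↥S, (if ∀ r, (fun (n : ↥S) (r : Fin 3) => if n.1 l = 0 then n.1 r else 0) n r
        = 0 then (fun n : ↥S => if n.1 l = 0 then C n.1 else 0) n else (0 : ℂ)) =
        if n = ⟨0, h0⟩ then C n.1 else 0 := h1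
    rw [Finset.sum_congr rfl fun n _ => h2 n, Finset.sum_ite_eq' Finset.univ, if_pos
      (Finset.mem_univ _)]
    exact hC0
  · rw [hkap, ← Finset.sum_coe_sort S]
    refine Finset.sum_congr rfl fun n _ => ?_
    dsimp only
    split_ifs with h
    · congr 2
      refine Finset.prod_congr rfl fun i _ => ?_
      rw [← zpow_natCast, ← zpow_natCast, ← zpow_mul, ← zpow_mul, mul_comm]
    · rw [zero_mul]

theorem one_rest {m : ℕ} (hm : 1 ≤ m) (hK : T_KXP) (l : Fin 3) :
    One l (fun z y => kk m (z ^ tm l y)) := by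
  classical
  obtain ⟨C, c, -, -, hc, hc0, -, -, hkk⟩ := hK m hm
  set S := Finset.Icc (-(m : ℤ)) m with hS
  refine ⟨↥S, inferInstance, fun v => c v.1, fun v r => v.1 * Tm l r, fun v => hc _,
    fun v => ?_, ?_, fun z y hy => ?_⟩
  · dsimp only
    rw [Tm_self, mul_zero]
  · have h0 : (0 : ℤ) ∈ S := by
      rw [hS, Finset.mem_Icc]
      constructor <;> simp
    obtain ⟨r₀, hr₀⟩ := Tm_ne l
    have h2 : ∀ v : ↥S, (if ∀ r, (fun (v : ↥S) (r : Fin 3) => v.1 * Tm l r) v r = 0 then
        (fun v : ↥S => c v.1) v else (0 : ℂ)) = if v = ⟨0, h0⟩ then c v.1 else 0 := by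
      intro v
      dsimp only
      by_cases hv : v = ⟨0, h0⟩
      · subst hv
        simp
      · rw [if_neg hv, if_neg]
        intro h
        rcases mul_eq_zero.1 (h r₀) with h3 | h3
        · exact hv (Subtype.ext h3)
        · exact hr₀ h3
    rw [Finset.sum_congr rfl fun v _ => h2 v, Finset.sum_ite_eq' Finset.univ, if_pos
      (Finset.mem_univ _)]
    exact hc0
  · rw [hkk, ← Finset.sum_coe_sort S]
    refine Finset.sum_congr rfl fun v _ => ?_
    dsimp only
    congr 2
    have h3 : ∏ r, (z ^ (v.1 * Tm l r)) ^ y r = z ^ (∑ r, v.1 * Tm l r * (y r : ℤ)) := by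
      rw [Fin.prod_univ_three, Fin.sum_univ_three, zpow_add, zpow_add]
      simp only [← zpow_natCast, ← zpow_mul]
    rw [h3, ← zpow_natCast, ← zpow_mul, tm_eq l y hy, mul_comm, Finset.mul_sum]
    congr 1
    refine Finset.sum_congr rfl fun r _ => ?_
    ring

open Classical in
/-- the expansion with a general index type -/
def Exp (m d : ℕ) (l : Fin 3) (J : Finset ℕ) : Prop :=
  ∃ (ι : Type) (_ : Fintype ι) (c : ι → ℂ) (a : ι → ℕ → Fin 3 → ℤ), (∀ i, ‖c i‖ ≤ 1) ∧
    (∀ i t, a i t l = 0) ∧ (∑ i, if ∀ t ∈ J, ∀ r, a i t r = 0 then c i else 0) = 1 ∧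
    ∀ (h : ℕ → Circle) (y : Fin 3 → ℕ), y 1 ≤ 2 * y 2 → ((WL m d l J h y : ℝ) : ℂ)
      = ∑ i, c i * ((∏ r, (∏ t ∈ J, h t ^ a i t r) ^ y r : Circle) : ℂ)

theorem exp_all {m : ℕ} (hm : 1 ≤ m) (hK : T_KXP) (d : ℕ) (l : Fin 3) (J : Finset ℕ) :
    Exp m d l J := by
  classical
  induction J using Finset.induction_on with
  | empty =>
    refine ⟨Unit, inferInstance, fun _ => 1, fun _ _ _ => 0, fun _ => by simp,
      fun _ _ => rfl, by simp, fun h y _ => ?_⟩
    simp [WL]
  | insert t₀ J ht₀ ih =>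
    obtain ⟨ι, _, c, a, h1, h2, h3, h4⟩ := ih
    have hone : One l (fun z y => if t₀ < d then kap m l (fun i => z ^ y i)
        else kk m (z ^ tm l y)) := by
      by_cases htd : t₀ < d
      · simp only [htd, if_true]
        exact one_core hm hK l
      · simp only [htd, if_false]
        exact one_rest hm hK l
    obtain ⟨ι₀, _, c₀, e, g1, g2, g3, g4⟩ := hone
    refine ⟨ι₀ × ι, inferInstance, fun i => c₀ i.1 * c i.2,
      fun i t r => if t = t₀ then e i.1 r else a i.2 t r, fun i => ?_, fun i t => ?_, ?_,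
      fun h y hy => ?_⟩
    · rw [norm_mul]
      exact mul_le_one₀ (g1 _) (norm_nonneg _) (h1 _)
    · dsimp only
      split_ifs
      · exact g2 _
      · exact h2 _ _
    · have h5 : ∀ i : ι₀ × ι, (if ∀ t ∈ insert t₀ J, ∀ r, (fun (i : ι₀ × ι) (t : ℕ) (r : Fin 3) =>
          if t = t₀ then e i.1 r else a i.2 t r) i t r = 0 then
          (fun i : ι₀ × ι => c₀ i.1 * c i.2) i else (0 : ℂ)) =
          (if ∀ r, e i.1 r = 0 then c₀ i.1 else 0) *
            (if ∀ t ∈ J, ∀ r, a i.2 t r = 0 then c i.2 else 0) := by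
        intro i
        dsimp only
        have h6 : (∀ t ∈ insert t₀ J, ∀ r, (if t = t₀ then e i.1 r else a i.2 t r) = 0) ↔
            (∀ r, e i.1 r = 0) ∧ ∀ t ∈ J, ∀ r, a i.2 t r = 0 := by
          constructor
          · intro h
            refine ⟨fun r => ?_, fun t ht r => ?_⟩
            · have := h t₀ (Finset.mem_insert_self _ _) r
              rwa [if_pos rfl] at this
            · have := h t (Finset.mem_insert_of_mem ht) r
              rwa [if_neg (by rintro rfl; exact ht₀ ht)] at this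
          · rintro ⟨h, h'⟩ t ht r
            by_cases h7 : t = t₀
            · rw [if_pos h7]
              exact h r
            · rw [if_neg h7]
              exact h' t ((Finset.mem_insert.1 ht).resolve_left h7) r
        by_cases p : ∀ r, e i.1 r = 0
        · by_cases q : ∀ t ∈ J, ∀ r, a i.2 t r = 0
          · rw [if_pos (h6.2 ⟨p, q⟩), if_pos p, if_pos q]
          · rw [if_neg (fun h => q (h6.1 h).2), if_neg q, mul_zero]
        · rw [if_neg (fun h => p (h6.1 h).1), if_neg p, zero_mul]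
      rw [Finset.sum_congr rfl fun i _ => h5 i, Fintype.sum_prod_type]
      simp only [← Finset.mul_sum]
      rw [← Finset.sum_mul, g3, h3, one_mul]
    · have h8 : WL m d l (insert t₀ J) h y = (if t₀ < d then kap m l (fun i => h t₀ ^ y i)
          else kk m (h t₀ ^ tm l y)) * WL m d l J h y := by
        unfold WL
        rw [Finset.prod_insert ht₀]
      rw [h8, Complex.ofReal_mul, g4 (h t₀) y hy, h4 h y hy, Fintype.sum_prod_type,
        Finset.sum_mul]
      refine Finset.sum_congr rfl fun i _ => ?_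
      rw [Finset.mul_sum]
      refine Finset.sum_congr rfl fun j _ => ?_
      dsimp only
      have h9 : ∏ r, (∏ t ∈ insert t₀ J, h t ^ (if t = t₀ then e i r else a j t r)) ^ y r =
          (∏ r, (h t₀ ^ e i r) ^ y r) * ∏ r, (∏ t ∈ J, h t ^ a j t r) ^ y r := by
        rw [← Finset.prod_mul_distrib]
        refine Finset.prod_congr rfl fun r _ => ?_
        rw [Finset.prod_insert ht₀, if_pos rfl, mul_pow]
        congr 2
        refine Finset.prod_congr rfl fun t ht => ?_
        rw [if_neg (by rintro rfl; exact ht₀ ht)]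
      rw [h9, Circle.coe_mul]
      ring

end EXO_

open EXO_ in
theorem p_EXO (hK : T_KXP) : T_EXO := by
  classical
  intro m d l J hm
  obtain ⟨ι, _, c, a, h1, h2, h3, h4⟩ := exp_all hm hK d l J
  refine ⟨Fintype.card ι, fun i => c ((Fintype.equivFin ι).symm i),
    fun i => a ((Fintype.equivFin ι).symm i), fun i => h1 _, fun i t => h2 _ t, ?_,
    fun h y hy => ?_⟩
  · rw [← h3]
    exact Equiv.sum_comp (Fintype.equivFin ι).symm
      (fun i => if ∀ t ∈ J, ∀ r, a i t r = 0 then c i else 0)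
  · rw [h4 h y hy]
    exact (Equiv.sum_comp (Fintype.equivFin ι).symm
      (fun i => c i * ((∏ r, (∏ t ∈ J, h t ^ a i t r) ^ y r : Circle) : ℂ))).symm

end Pool.Agent.CLV
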