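import Pool.Agent.CLV.Targets

set_option autoImplicit false

/-!
# CLV, target EXW: the expansion of the weights
-/

open MeasureTheory Filter Topology Finset

namespace Pool.Agent.CLV

open Pool.Agent.FSP Pool.Agent.Ind3

namespace EXW_

theorem coe_prod {ι : Type*} (s : Finset ι) (f : ι → Circle) :
    ((∏ i ∈ s, f i : Circle) : ℂ) = ∏ i ∈ s, (f i : ℂ) :=
  map_prod Circle.coeHom f s

theorem tm_int {y : Fin 3 → ℕ} (hy : y 1 ≤ 2 * y 2) (l : Fin 3) :
    ∑ r, Tm l r * (y r : ℤ) = (tm l y : ℤ) := by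
  rw [Fin.sum_univ_three]
  fin_cases l
  · show (0 : ℤ) * (y 0 : ℤ) + (-1) * (y 1 : ℤ) + 2 * (y 2 : ℤ) = ((2 * y 2 - y 1 : ℕ) : ℤ)
    omega
  · show (1 : ℤ) * (y 0 : ℤ) + 0 * (y 1 : ℤ) + 1 * (y 2 : ℤ) = ((y 0 + y 2 : ℕ) : ℤ)
    omega
  · show (2 : ℤ) * (y 0 : ℤ) + 1 * (y 1 : ℤ) + 0 * (y 2 : ℤ) = ((2 * y 0 + y 1 : ℕ) : ℤ)
    omega

/-- products over the pairs `l, t` with `d ≤ t < e l` -/
theorem conv {X : Type*} [CommMonoid X] (d M : ℕ) (e : Fin 3 → ℕ) (he : ∀ l, e l ≤ M)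
    (h : Fin 3 → ℕ → X) :
    ∏ p : Fin 3 × Fin M, (if d ≤ (p.2 : ℕ) ∧ (p.2 : ℕ) < e p.1 then h p.1 p.2 else 1) =
      ∏ l, ∏ t ∈ Ico d (e l), h l t := by
  rw [Fintype.prod_prod_type]
  refine Finset.prod_congr rfl fun l _ => ?_
  have h1 := Finset.prod_range (fun t : ℕ => if d ≤ t ∧ t < e l then h l t else 1) (n := M)
  rw [← h1, ← Finset.prod_filter]
  congr 1
  ext t
  simp only [Finset.mem_filter, Finset.mem_range, Finset.mem_Ico]
  constructor
  · intro h2
    exact h2.2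
  · intro h2
    exact ⟨lt_of_lt_of_le h2.2 (he l), h2⟩

/-- the exponents -/
def nx {d : ℕ} (N : Fin d → Fin 3 → ℤ) (t : ℕ) (r : Fin 3) : ℤ :=
  if h : t < d then N ⟨t, h⟩ r else 0

/-- the exponents -/
def vx {M : ℕ} (V : Fin 3 × Fin M → ℤ) (l : Fin 3) (t : ℕ) : ℤ :=
  if h : t < M then V (l, ⟨t, h⟩) else 0

theorem nx_fin {d : ℕ} (N : Fin d → Fin 3 → ℤ) (t : Fin d) : nx N t = N t := by
  funext r
  unfold nx
  rw [dif_pos t.2]

theorem vx_fin {M : ℕ} (V : Fin 3 × Fin M → ℤ) (p : Fin 3 × Fin M) : vx V p.1 p.2 = V p := by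
  unfold vx
  rw [dif_pos p.2.2]

/-- the monomial -/
theorem mono {d M : ℕ} {e : Fin 3 → ℕ} (he : ∀ l, e l ≤ M) (g : Fin 3 → ℕ → Circle)
    (N : Fin d → Fin 3 → ℤ) (V : Fin 3 × Fin M → ℤ) {y : Fin 3 → ℕ} (hy : y 1 ≤ 2 * y 2) :
    ∏ r, chi d e g (nx N) (vx V) r ^ y r = (∏ t : Fin d, ∏ r, (g 2 t ^ y r) ^ N t r) *
      ∏ p : Fin 3 × Fin M, (if d ≤ (p.2 : ℕ) ∧ (p.2 : ℕ) < e p.1 then
        (g p.1 p.2 ^ tm p.1 y) ^ V p else 1) := by
  have h1 : ∀ r, chi d e g (nx N) (vx V) r ^ y r =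
      (∏ t ∈ range d, (g 2 t ^ y r) ^ nx N t r) *
        ∏ l : Fin 3, (∏ t ∈ Ico d (e l), g l t ^ vx V l t) ^ (Tm l r * (y r : ℤ)) := by
    intro r
    unfold chi
    rw [mul_pow, ← Finset.prod_pow, ← Finset.prod_pow]
    congr 1
    · refine Finset.prod_congr rfl fun t _ => ?_
      rw [← zpow_natCast, ← zpow_natCast, ← zpow_mul, ← zpow_mul, mul_comm]
    · refine Finset.prod_congr rfl fun l _ => ?_
      rw [zpow_mul, zpow_natCast]
  rw [Finset.prod_congr rfl fun r _ => h1 r, Finset.prod_mul_distrib]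
  congr 1
  · rw [Finset.prod_comm, Finset.prod_range]
    refine Finset.prod_congr rfl fun t _ => Finset.prod_congr rfl fun r _ => ?_
    rw [nx_fin]
  · rw [Finset.prod_comm]
    have h2 : ∀ l : Fin 3, ∏ r, (∏ t ∈ Ico d (e l), g l t ^ vx V l t) ^ (Tm l r * (y r : ℤ)) =
        ∏ t ∈ Ico d (e l), (g l t ^ tm l y) ^ vx V l t := by
      intro l
      have h3 : ∀ (z : Circle) (a : Fin 3 → ℤ), ∏ r, z ^ a r = z ^ ∑ r, a r := by
        intro z a
        rw [Fin.prod_univ_three, Fin.sum_univ_three, zpow_add, zpow_add]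
      rw [h3, tm_int hy, zpow_natCast, ← Finset.prod_pow]
      refine Finset.prod_congr rfl fun t _ => ?_
      rw [← zpow_natCast, ← zpow_natCast, ← zpow_mul, ← zpow_mul, mul_comm]
    rw [Finset.prod_congr rfl fun l _ => h2 l,
      ← conv d M e he (fun l t => (g l t ^ tm l y) ^ vx V l t)]
    refine Finset.prod_congr rfl fun p _ => ?_
    rw [vx_fin]

open Classical in
/-- the sum over the index set -/
theorem dist {d M m : ℕ} (J : Fin 3 × Fin M → Finset ℤ) (F : Fin d → (Fin 3 → ℤ) → ℂ)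
    (G : Fin 3 × Fin M → ℤ → ℂ) :
    ∑ x ∈ (Fintype.piFinset fun _ : Fin d =>
        Fintype.piFinset fun _ : Fin 3 => Finset.Icc (-(m : ℤ)) m) ×ˢ Fintype.piFinset J,
      (∏ t, F t (x.1 t)) * ∏ p, G p (x.2 p) =
    (∏ t, ∑ n ∈ Fintype.piFinset fun _ : Fin 3 => Finset.Icc (-(m : ℤ)) m, F t n) *
      ∏ p, ∑ v ∈ J p, G p v := by
  rw [Finset.prod_univ_sum, Finset.prod_univ_sum, Finset.sum_mul_sum, Finset.sum_product]

end EXW_

open EXW_ in
open Classical in
/-- EXW -/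
theorem p_EXW (h0 : T_KXP) : T_EXW := by
  intro m d e hm hde
  obtain ⟨C, c, hC, hC0, hc, hc0, hD, hK, hk⟩ := h0 m hm
  obtain ⟨M, hM⟩ : ∃ M : ℕ, ∀ l, e l ≤ M :=
    ⟨∑ l, e l, fun l => Finset.single_le_sum (fun i _ => Nat.zero_le _) (Finset.mem_univ l)⟩
  let inn : Fin 3 × Fin M → Prop := fun p => d ≤ (p.2 : ℕ) ∧ (p.2 : ℕ) < e p.1
  let J : Fin 3 × Fin M → Finset ℤ := fun p => if inn p then Finset.Icc (-(m : ℤ)) m else {0}
  let I : Finset ((Fin d → Fin 3 → ℤ) × (Fin 3 × Fin M → ℤ)) :=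
    (Fintype.piFinset fun _ : Fin d =>
      Fintype.piFinset fun _ : Fin 3 => Finset.Icc (-(m : ℤ)) m) ×ˢ Fintype.piFinset J
  let co : (Fin d → Fin 3 → ℤ) × (Fin 3 × Fin M → ℤ) → ℂ := fun x =>
    (∏ t, C (x.1 t)) * ∏ p, (if inn p then c (x.2 p) else 1)
  let φ : Fin I.card → (Fin d → Fin 3 → ℤ) × (Fin 3 × Fin M → ℤ) := fun i =>
    (I.equivFin.symm i : (Fin d → Fin 3 → ℤ) × (Fin 3 × Fin M → ℤ))
  have hφ : ∀ f : (Fin d → Fin 3 → ℤ) × (Fin 3 × Fin M → ℤ) → ℂ,
      ∑ i, f (φ i) = ∑ x ∈ I, f x := by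
    intro f
    rw [← Finset.sum_coe_sort I f]
    exact Equiv.sum_comp I.equivFin.symm (fun x : I => f x)
  refine ⟨I.card, fun i => co (φ i), fun i => nx (φ i).1, fun i => vx (φ i).2, ?_, ?_⟩
  · intro i
    show ‖(∏ t, C ((φ i).1 t)) * ∏ p, (if inn p then c ((φ i).2 p) else 1)‖ ≤ 1
    rw [norm_mul, norm_prod, norm_prod]
    refine mul_le_one₀ (Finset.prod_le_one (fun _ _ => norm_nonneg _) fun t _ => hC _)
      (Finset.prod_nonneg fun _ _ => norm_nonneg _)
      (Finset.prod_le_one (fun _ _ => norm_nonneg _) fun p _ => ?_)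
    split_ifs
    · exact hc _
    · rw [norm_one]
  intro g y hy
  let F : Fin d → (Fin 3 → ℤ) → ℂ := fun t n =>
    C n * ((∏ r, (g 2 t ^ y r) ^ n r : Circle) : ℂ)
  let G : Fin 3 × Fin M → ℤ → ℂ := fun p v =>
    if inn p then c v * (((g p.1 p.2 ^ tm p.1 y) ^ v : Circle) : ℂ) else 1
  have hterm : ∀ x : (Fin d → Fin 3 → ℤ) × (Fin 3 × Fin M → ℤ),
      co x * ((∏ r, chi d e g (nx x.1) (vx x.2) r ^ y r : Circle) : ℂ) =
        (∏ t, F t (x.1 t)) * ∏ p, G p (x.2 p) := by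
    intro x
    have e1 : ∏ t, F t (x.1 t) = (∏ t, C (x.1 t)) *
        ((∏ t : Fin d, ∏ r, (g 2 t ^ y r) ^ x.1 t r : Circle) : ℂ) := by
      rw [coe_prod, ← Finset.prod_mul_distrib]
    have e2 : ∏ p, G p (x.2 p) = (∏ p, (if inn p then c (x.2 p) else 1)) *
        ((∏ p : Fin 3 × Fin M, (if d ≤ (p.2 : ℕ) ∧ (p.2 : ℕ) < e p.1 then
          (g p.1 p.2 ^ tm p.1 y) ^ x.2 p else 1) : Circle) : ℂ) := by
      rw [coe_prod, ← Finset.prod_mul_distrib]
      refine Finset.prod_congr rfl fun p _ => ?_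
      by_cases hp : inn p
      · have hp' : d ≤ (p.2 : ℕ) ∧ (p.2 : ℕ) < e p.1 := hp
        simp only [G, if_pos hp, if_pos hp']
      · have hp' : ¬ (d ≤ (p.2 : ℕ) ∧ (p.2 : ℕ) < e p.1) := hp
        simp only [G, if_neg hp, if_neg hp', Circle.coe_one, mul_one]
    rw [mono hM g x.1 x.2 hy, e1, e2, Circle.coe_mul]
    show (∏ t, C (x.1 t)) * (∏ p, (if inn p then c (x.2 p) else 1)) * _ = _
    ring
  constructor
  · show _ = ∑ i, co (φ i) * ((∏ r, chi d e g (nx (φ i).1) (vx (φ i).2) r ^ y r : Circle) : ℂ)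
    rw [hφ fun x => co x * ((∏ r, chi d e g (nx x.1) (vx x.2) r ^ y r : Circle) : ℂ),
      Finset.sum_congr rfl fun x _ => hterm x, dist J F G]
    unfold WW
    rw [Complex.ofReal_mul, Complex.ofReal_prod, Complex.ofReal_prod, Finset.prod_range]
    congr 1
    · exact Finset.prod_congr rfl fun t _ => hD _
    · have h5 : ∀ p : Fin 3 × Fin M, ∑ v ∈ J p, G p v =
          if d ≤ (p.2 : ℕ) ∧ (p.2 : ℕ) < e p.1 then
            ((kk m (g p.1 p.2 ^ tm p.1 y) : ℝ) : ℂ) else 1 := by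
        intro p
        by_cases hp : inn p
        · have hp' : d ≤ (p.2 : ℕ) ∧ (p.2 : ℕ) < e p.1 := hp
          simp only [J, G, if_pos hp, if_pos hp']
          exact (hk _).symm
        · have hp' : ¬ (d ≤ (p.2 : ℕ) ∧ (p.2 : ℕ) < e p.1) := hp
          simp only [J, G, if_neg hp, if_neg hp', Finset.sum_singleton]
      rw [Finset.prod_congr rfl fun p _ => h5 p,
        conv d M e hM (fun l t => ((kk m (g l t ^ tm l y) : ℝ) : ℂ))]
      exact Finset.prod_congr rfl fun l _ => Complex.ofReal_prod _ _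
  · intro hcore l
    let F' : Fin d → (Fin 3 → ℤ) → ℂ := fun t n => if n l = 0 then F t n else 0
    let G' : Fin 3 × Fin M → ℤ → ℂ := fun p v => if (inn p → p.1 = l ∨ v = 0) then G p v else 0
    have hown : ∀ x : (Fin d → Fin 3 → ℤ) × (Fin 3 × Fin M → ℤ), Own d e l (nx x.1) (vx x.2) ↔
        (∀ t : Fin d, x.1 t l = 0) ∧ ∀ p : Fin 3 × Fin M, inn p → p.1 = l ∨ x.2 p = 0 := by
      intro x
      constructor
      · rintro ⟨h6, h7⟩
        refine ⟨fun t => ?_, fun p hp => ?_⟩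
        · have h8 := h6 t t.2
          rw [nx_fin] at h8
          exact h8
        · by_cases hpl : p.1 = l
          · exact Or.inl hpl
          · right
            have h8 := h7 p.1 hpl p.2 hp.1 hp.2
            rw [vx_fin] at h8
            exact h8
      · rintro ⟨h6, h7⟩
        refine ⟨fun t ht => ?_, fun l' hl' t ht1 ht2 => ?_⟩
        · have h8 := h6 ⟨t, ht⟩
          have h9 := nx_fin x.1 ⟨t, ht⟩
          show nx x.1 t l = 0
          rw [show nx x.1 t = x.1 ⟨t, ht⟩ from h9]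
          exact h8
        · have htM : t < M := lt_of_lt_of_le ht2 (hM l')
          have h9 := vx_fin x.2 (l', ⟨t, htM⟩)
          show vx x.2 l' t = 0
          rw [show vx x.2 l' t = x.2 (l', ⟨t, htM⟩) from h9]
          exact (h7 (l', ⟨t, htM⟩) ⟨ht1, ht2⟩).resolve_left hl'
    have hterm' : ∀ x : (Fin d → Fin 3 → ℤ) × (Fin 3 × Fin M → ℤ),
        (if Own d e l (nx x.1) (vx x.2) then
          co x * ((∏ r, chi d e g (nx x.1) (vx x.2) r ^ y r : Circle) : ℂ) else 0) =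
        (∏ t, F' t (x.1 t)) * ∏ p, G' p (x.2 p) := by
      intro x
      rw [hterm x]
      have e3 : ∏ t, F' t (x.1 t) = if ∀ t : Fin d, x.1 t l = 0 then ∏ t, F t (x.1 t) else 0 := by
        by_cases h6 : ∀ t : Fin d, x.1 t l = 0
        · rw [if_pos h6]
          exact Finset.prod_congr rfl fun t _ => if_pos (h6 t)
        · rw [if_neg h6]
          push Not at h6
          obtain ⟨t, ht⟩ := h6
          exact Finset.prod_eq_zero (Finset.mem_univ t) (if_neg ht)
      have e4 : ∏ p, G' p (x.2 p) =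
          if ∀ p : Fin 3 × Fin M, inn p → p.1 = l ∨ x.2 p = 0 then ∏ p, G p (x.2 p) else 0 := by
        by_cases h6 : ∀ p : Fin 3 × Fin M, inn p → p.1 = l ∨ x.2 p = 0
        · rw [if_pos h6]
          exact Finset.prod_congr rfl fun p _ => if_pos (h6 p)
        · rw [if_neg h6]
          obtain ⟨p, hp⟩ := not_forall.1 h6
          exact Finset.prod_eq_zero (Finset.mem_univ p) (if_neg hp)
      rw [e3, e4]
      by_cases h6 : ∀ t : Fin d, x.1 t l = 0
      · by_cases h7 : ∀ p : Fin 3 × Fin M, inn p → p.1 = l ∨ x.2 p = 0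
        · rw [if_pos h6, if_pos h7, if_pos ((hown x).2 ⟨h6, h7⟩)]
        · rw [if_neg h7, mul_zero, if_neg fun h8 => h7 ((hown x).1 h8).2]
      · rw [if_neg h6, zero_mul, if_neg fun h8 => h6 ((hown x).1 h8).1]
    show _ = ∑ i, if Own d e l (nx (φ i).1) (vx (φ i).2) then
      co (φ i) * ((∏ r, chi d e g (nx (φ i).1) (vx (φ i).2) r ^ y r : Circle) : ℂ) else 0
    rw [hφ fun x => if Own d e l (nx x.1) (vx x.2) then
      co x * ((∏ r, chi d e g (nx x.1) (vx x.2) r ^ y r : Circle) : ℂ) else 0,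
      Finset.sum_congr rfl fun x _ => hterm' x, dist J F' G']
    unfold WL
    rw [← Finset.prod_range_mul_prod_Ico _ (hde l), Complex.ofReal_mul, Complex.ofReal_prod,
      Complex.ofReal_prod, Finset.prod_range]
    congr 1
    · refine Finset.prod_congr rfl fun t _ => ?_
      rw [if_pos t.2, hK l]
      refine Finset.sum_congr rfl fun n _ => ?_
      show _ = if n l = 0 then C n * ((∏ r, (g 2 t ^ y r) ^ n r : Circle) : ℂ) else 0
      rw [hcore l 2 t t.2]
    · have h5 : ∀ p : Fin 3 × Fin M, ∑ v ∈ J p, G' p v =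
          if d ≤ (p.2 : ℕ) ∧ (p.2 : ℕ) < e p.1 then
            (if p.1 = l then ((kk m (g p.1 p.2 ^ tm p.1 y) : ℝ) : ℂ) else 1) else 1 := by
        intro p
        by_cases hp : inn p
        · have hp' : d ≤ (p.2 : ℕ) ∧ (p.2 : ℕ) < e p.1 := hp
          rw [if_pos hp']
          by_cases hpl : p.1 = l
          · rw [if_pos hpl, hk]
            simp only [J, if_pos hp]
            refine Finset.sum_congr rfl fun v _ => ?_
            simp only [G', G, if_pos hp, hpl, true_or, implies_true, if_true]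
          · rw [if_neg hpl]
            simp only [J, if_pos hp]
            rw [Finset.sum_eq_single_of_mem (0 : ℤ)]
            · simp only [G', G, if_pos hp, or_true, implies_true, if_true, hc0, zpow_zero,
                Circle.coe_one, mul_one]
            · rw [Finset.mem_Icc]
              omega
            · intro v _ hv
              simp only [G']
              rw [if_neg]
              intro h8
              rcases h8 hp with h9 | h9
              · exact hpl h9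
              · exact hv h9
        · have hp' : ¬ (d ≤ (p.2 : ℕ) ∧ (p.2 : ℕ) < e p.1) := hp
          rw [if_neg hp']
          simp only [J, if_neg hp, Finset.sum_singleton, G', G]
          rw [if_pos fun h8 => absurd h8 hp]
      rw [Finset.prod_congr rfl fun p _ => h5 p,
        conv d M e hM (fun l' t => if l' = l then ((kk m (g l' t ^ tm l' y) : ℝ) : ℂ) else 1),
        Finset.prod_eq_single_of_mem l (Finset.mem_univ l)]
      · refine Finset.prod_congr rfl fun t ht => ?_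
        rw [if_pos rfl, if_neg (not_lt.2 (Finset.mem_Ico.1 ht).1)]
      · intro l' _ hl'
        exact Finset.prod_eq_one fun t _ => if_neg hl'

end Pool.Agent.CLV
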