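import Pool.Agent.CLV.Targets

set_option autoImplicit false

/-! Target FNC of the project CLV: assembly. -/

open MeasureTheory Filter Topology Finset

namespace Pool.Agent.CLV

open Pool.Agent.FSP Pool.Agent.Ind3

universe u

namespace FNC_

variable {Ω : Type u} [MeasurableSpace Ω]

theorem markov (μ : Measure Ω) [IsProbabilityMeasure μ] {f : Ω → ℝ} (hf : Measurable f)
    (h0 : ∀ x, 0 ≤ f x) (h1 : ∀ x, f x ≤ 1) {lam : ℝ} (hlam : 0 < lam) :
    lam * μ.real {x | lam < f x} ≤ ∫ x, f x ∂μ := by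
  have hi : Integrable f μ := Integrable.of_bound hf.aestronglyMeasurable 1
    (Eventually.of_forall fun x => by
      rw [Real.norm_of_nonneg (h0 x)]
      exact h1 x)
  have h := mul_meas_ge_le_integral_of_nonneg (Eventually.of_forall h0) hi lam
  refine le_trans (mul_le_mul_of_nonneg_left ?_ hlam.le) h
  exact measureReal_mono (fun x (hx : lam < f x) => show lam ≤ f x from le_of_lt hx)
    (measure_ne_top _ _)

theorem zet_meas {θ : Fin 3 → ℕ → Ω → Circle} (hθ : ∀ l j, Measurable (θ l j))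
    {n : Fin 3 → ℕ} {d : ℕ} {e : Fin 3 → ℕ} {a : Fin 3 → ℕ → ℕ → ℤ} {q₀ : ℕ}
    {b : Fin 3 → ℕ → ℕ → ℤ} {ζ : Fin 3 → ℕ → Ω → Circle} {X : Set Ω}
    (h : Sel θ n d e a q₀ b ζ X) (l : Fin 3) (t : ℕ) : Measurable (ζ l t) := by
  have e1 : ζ l t = fun x => ∏ j ∈ range (n l), θ l j x ^ a l t j := by
    funext x
    exact h.zet l t x
  rw [e1]
  exact Finset.measurable_fun_prod _ fun j _ => (continuous_zpow (a l t j)).measurable.comp (hθ l j)

theorem sv_meas {ζ : Fin 3 → ℕ → Ω → Circle} (hζ : ∀ l j, Measurable (ζ l j)) :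
    Measurable fun x => sv ζ x :=
  measurable_pi_iff.2 fun l => measurable_pi_iff.2 fun j => hζ l j

end FNC_

open FNC_ in
theorem p_FNC (hWBC : T_WBC) (hWMO : T_WMO) (hREC : T_REC.{u}) (hGTC : T_GTC.{u})
    (hMAC : T_MAC.{u}) (hERC : T_ERC.{u}) (hPRF : T_PRF.{u}) (hDOO : T_DOO.{u})
    (hAPA : T_APA.{u}) (hSLC : T_SLC.{u}) : T_FNC.{u} := by
  intro Ω _ μ _ T S R hT hS hR θ hθ h0 h1 h2 g0 g1 g2 A Z hA hZ hAZ hCl
  set Q : Fin 3 → Ω → Ω := ![⇑R, ⇑S, ⇑T] with hQdef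
  have hQ : ∀ l, MeasurePreserving (Q l) μ μ := by
    intro l; fin_cases l
    · exact hR
    · exact hS
    · exact hT
  have inv : ∀ l j x, θ l j (Q l x) = θ l j x := by
    intro l; fin_cases l
    · exact h0
    · exact h1
    · exact h2
  have gen : ∀ l, Gen μ (Q l) (θ l) := by
    intro l; fin_cases l
    · exact g0
    · exact g1
    · exact g2
  choose c g hcm hgm hc0 hc1 hg1 hcg hAPL hRWM hpos using
    fun l => f_COM Ω μ (Q l) (hQ l) (θ l) (hθ l) (inv l) (gen l) A hA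
  -- the set `A₀`
  obtain ⟨γ, hγ, hγA⟩ : ∃ γ : ℝ, 0 < γ ∧ μ {x | x ∈ A ∩ Z ∧ ∀ l, γ ≤ c l x} ≠ 0 := by
    by_contra hcon
    push Not at hcon
    apply hAZ
    have hU : μ (⋃ k : ℕ, {x | x ∈ A ∩ Z ∧ ∀ l, (1 / ((k : ℝ) + 1)) ≤ c l x}) = 0 := by
      rw [measure_iUnion_null_iff]
      intro k
      exact hcon _ (by positivity)
    have hall : ∀ᵐ x ∂μ, ∀ l, x ∈ A → 0 < c l x := ae_all_iff.2 hpos
    have hae : ∀ᵐ x ∂μ, x ∉ A ∩ Z := by
      have hU' : ∀ᵐ x ∂μ, x ∉ ⋃ k : ℕ, {x | x ∈ A ∩ Z ∧ ∀ l, (1 / ((k : ℝ) + 1)) ≤ c l x} :=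
        measure_eq_zero_iff_ae_notMem.1 hU
      filter_upwards [hall, hU'] with x hx hxU hxA
      apply hxU
      have hm : ∀ l, ∃ k : ℕ, 1 / ((k : ℝ) + 1) < c l x := fun l =>
        exists_nat_one_div_lt (hx l hxA.1)
      choose k hk using hm
      rw [Set.mem_iUnion]
      refine ⟨∑ l, k l, hxA, fun l => ?_⟩
      refine le_trans ?_ (hk l).le
      apply one_div_le_one_div_of_le (by positivity)
      have : k l ≤ ∑ l, k l := Finset.single_le_sum (fun _ _ => Nat.zero_le _) (Finset.mem_univ l)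
      have h' : (k l : ℝ) ≤ ((∑ l, k l : ℕ) : ℝ) := by exact_mod_cast this
      linarith
    exact measure_eq_zero_iff_ae_notMem.2 hae
  set A₀ : Set Ω := {x | x ∈ A ∩ Z ∧ ∀ l, γ ≤ c l x} with hA₀
  have hA₀m : MeasurableSet A₀ := by
    rw [hA₀]
    have : {x | x ∈ A ∩ Z ∧ ∀ l, γ ≤ c l x} = (A ∩ Z) ∩ ⋂ l, {x | γ ≤ c l x} := by
      ext x
      rw [Set.mem_inter_iff (a := A ∩ Z), Set.mem_iInter]
      exact Iff.rfl
    rw [this]
    exact (hA.inter hZ).inter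
      (MeasurableSet.iInter fun l => measurableSet_le measurable_const (hcm l))
  set δ₀ : ℝ := μ.real A₀ with hδ₀
  have hδ₀0 : 0 < δ₀ := by
    rw [hδ₀, measureReal_def]
    exact ENNReal.toReal_pos hγA (measure_ne_top _ _)
  set lam : ℝ := γ / 24 with hlam
  have hlam0 : 0 < lam := by positivity
  set η : ℝ := lam * δ₀ / 12 with hη
  have hη0 : 0 < η := by positivity
  choose P hPm hP0 hP1 hPc hPAP using fun l => hAPL l η hη0
  choose q' K' ρ' hq' hρ' hAP using fun l =>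
    f_APX Ω μ (Q l) (hQ l) (θ l) (hθ l) (inv l) lam (P l) (hPAP l lam hlam0)
  set f : Fin 3 → Ω → ℝ := fun l x => |c l x - P l x| with hf
  have hfm : ∀ l, Measurable (f l) := fun l => ((hcm l).sub (hPm l)).abs
  have hf0 : ∀ l x, 0 ≤ f l x := fun l x => abs_nonneg _
  have hf1 : ∀ l x, f l x ≤ 1 := fun l x => by
    have := hc0 l x
    have := hc1 l x
    have := hP0 l x
    have := hP1 l x
    exact abs_le.2 ⟨by linarith, by linarith⟩
  have hfAPL : ∀ l, APL μ (Q l) (θ l) (f l) := fun l =>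
    hAPA Ω μ (Q l) (θ l) (c l) (P l) (hcm l) (hc0 l) (hc1 l) (hAPL l) (hPm l) (hP0 l) (hP1 l)
      (hPAP l)
  choose w hwm hw0 hw1 hwA hwO using fun (l : Fin 3) (k : ℕ) =>
    hPRF Ω μ (Q l) (hQ l) (FN (θ l) k) (by
      rintro φ (⟨j, -, rfl⟩ | hφ)
      · exact ⟨hθ l j, inv l j⟩
      · rw [Set.mem_singleton_iff] at hφ
        rw [hφ]
        exact ⟨measurable_const, fun x => rfl⟩) (f l) (hfm l) (hf0 l) (hf1 l)
  have hbad1 : ∀ l, μ.real {x | lam < f l x} ≤ δ₀ / 12 := by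
    intro l
    have h3 := (markov μ (hfm l) (hf0 l) (hf1 l) hlam0).trans (hPc l)
    have h4 : lam * μ.real {x | lam < f l x} ≤ lam * (δ₀ / 12) := by
      rw [hη] at h3
      linarith
    exact le_of_mul_le_mul_left h4 hlam0
  have hbad2 : ∀ l, μ.real {x | ∃ k, lam < w l k x} ≤ δ₀ / 12 := by
    intro l
    have h3 := (hDOO Ω μ (Q l) (fun k => FN (θ l) k) (by
      intro k φ hφ
      rcases hφ with ⟨j, hj, hφ⟩ | hφ
      · exact Or.inl ⟨j, by omega, hφ⟩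
      · exact Or.inr hφ) (f l) (hfm l) (hf0 l) (hf1 l) (w l) (hwm l) (hw0 l) (hw1 l) (hwA l)
      (hwO l) lam hlam0).trans (hPc l)
    have h4 : lam * μ.real {x | ∃ k, lam < w l k x} ≤ lam * (δ₀ / 12) := by
      rw [hη] at h3
      linarith
    exact le_of_mul_le_mul_left h4 hlam0
  set X₁ : Set Ω := {x | x ∈ A₀ ∧ ∀ l, f l x ≤ lam ∧ ∀ k, w l k x ≤ lam} with hX₁
  have hX₁m : MeasurableSet X₁ := by
    have : X₁ = A₀ ∩ ⋂ l, ({x | f l x ≤ lam} ∩ ⋂ k, {x | w l k x ≤ lam}) := by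
      ext x
      simp [hX₁]
    rw [this]
    refine hA₀m.inter (MeasurableSet.iInter fun l => ?_)
    exact (measurableSet_le (hfm l) measurable_const).inter
      (MeasurableSet.iInter fun k => measurableSet_le (hwm l k) measurable_const)
  have hX₁μ : δ₀ / 2 ≤ μ.real X₁ := by
    have h7 : μ.real A₀ ≤ μ.real (X₁ ∪ ⋃ l, ({x | lam < f l x} ∪ {x | ∃ k, lam < w l k x})) := by
      apply measureReal_mono _ (measure_ne_top _ _)
      intro x hx
      by_cases hxb : ∀ l, f l x ≤ lam ∧ ∀ k, w l k x ≤ lam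
      · exact Or.inl ⟨hx, hxb⟩
      · refine Or.inr (Set.mem_iUnion.2 ?_)
        rw [not_forall] at hxb
        obtain ⟨l, hl⟩ := hxb
        refine ⟨l, ?_⟩
        rw [not_and_or] at hl
        rcases hl with hl | hl
        · exact Or.inl (not_le.1 hl)
        · rw [not_forall] at hl
          obtain ⟨k, hk⟩ := hl
          exact Or.inr ⟨k, not_le.1 hk⟩
    have h8 := measureReal_union_le (μ := μ) X₁
      (⋃ l, ({x | lam < f l x} ∪ {x | ∃ k, lam < w l k x}))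
    have h9 : μ.real (⋃ l, ({x | lam < f l x} ∪ {x | ∃ k, lam < w l k x})) ≤
        ∑ _l : Fin 3, (δ₀ / 12 + δ₀ / 12) := by
      refine (measureReal_iUnion_fintype_le _).trans (Finset.sum_le_sum fun l _ => ?_)
      refine (measureReal_union_le _ _).trans (add_le_add (hbad1 l) (hbad2 l))
    simp only [Finset.sum_const, Finset.card_univ, Fintype.card_fin, nsmul_eq_mul] at h9
    push_cast at h9
    linarith
  have hX₁0 : μ X₁ ≠ 0 := by
    intro hz
    have : μ.real X₁ = 0 := by rw [measureReal_def, hz]; simp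
    linarith
  obtain ⟨n, d, e, a, q₀, b, ζ, X, hKn, hSel, hXsub, hX0⟩ := hSLC Ω μ θ hθ X₁ hX₁m hX₁0 (by
    filter_upwards [hCl] with x hx hxX
    exact hx hxX.1.1.2) (∑ l, K' l)
  have hXμ : 0 < μ.real X := by
    rw [measureReal_def]
    exact ENNReal.toReal_pos hX0 (measure_ne_top _ _)
  have hζm := zet_meas hθ hSel
  set δ : ℝ := γ * μ.real X / 56 with hδ
  have hδ0 : 0 < δ := by positivity
  have hPx : ∀ l, ∀ᵐ x ∂μ, ∀ t : ℕ, (∀ j < n l, ‖(θ l j x : ℂ) ^ t - 1‖ ≤ ρ' l) →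
      |P l ((Q l)^[q' l * t] x) - P l x| ≤ lam := by
    intro l
    filter_upwards [hAP l] with x hx t ht
    have hKle : K' l ≤ n l :=
      (Finset.single_le_sum (fun _ _ => Nat.zero_le _) (Finset.mem_univ l)).trans (hKn l)
    have h3 := hx 0 t fun j hj => ht j (lt_of_lt_of_le hj hKle)
    rw [zero_add] at h3
    exact h3
  choose q₁ hq₁ hE using fun l => hERC Ω μ θ hθ n d e a q₀ b ζ X hSel l (Q l) (hQ l) (inv l)
    (c l) (P l) (w l (n l)) (fun x => f l x - w l (n l) x) (hcm l) (hc0 l) (hc1 l) (hPm l)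
    (hP0 l) (hP1 l) (hwm l (n l)) (hw0 l (n l)) (hw1 l (n l)) ((hfm l).sub (hwm l (n l)))
    (fun x => by
      have := hf0 l x
      have := hf1 l x
      have := hw0 l (n l) x
      have := hw1 l (n l) x
      exact abs_le.2 ⟨by linarith, by linarith⟩)
    (fun x => by simp [hf]) (hfAPL l) (hwA l (n l)) (hwO l (n l)) (q' l) (ρ' l) lam (hq' l)
    (hρ' l) hlam0.le (fun x hx => ((hXsub hx).2 l).1) (fun x hx => ((hXsub hx).2 l).2 (n l))
    (hPx l) δ hδ0
  set q : ℕ := ∏ l, q₁ l with hq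
  have hq1 : 1 ≤ q := by
    have : 0 < ∏ l, q₁ l := Finset.prod_pos (s := Finset.univ) (f := q₁) fun l _ => hq₁ l
    exact this
  choose m₀ hm₀ hE' using fun l =>
    hE l q hq1 (Finset.dvd_prod_of_mem q₁ (Finset.mem_univ l))
  set m : ℕ := ∑ l, m₀ l with hm
  have hmle : ∀ l, m₀ l ≤ m := fun l =>
    Finset.single_le_sum (fun _ _ => Nat.zero_le _) (Finset.mem_univ l)
  have hm1 : 1 ≤ m := (hm₀ 0).trans (hmle 0)
  obtain ⟨B, hB1, hB, hVm, -, -⟩ := hWBC m d e hm1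
  set V : Ω → (Fin 3 → ℕ) → ℝ := fun x y => WW m d e (sv ζ x) y with hV
  have hVmeas : ∀ y, Measurable fun x => V x y := fun y => (hVm y).comp (sv_meas hζm)
  have hRep : Rep V := hREC Ω m d e hm1 hSel.le ζ hζm
  have hErr : ∀ l, ∀ ε : ℝ, 0 < ε → ∃ N₀ : ℕ, ∀ N ≥ N₀, ∫ x in X, avg3 N (fun y =>
      V x y * |c l ((Q l)^[q * tm l y] x) - c l x|) ∂μ ≤ γ * μ.real X / 7 + ε := by
    intro l ε hε
    obtain ⟨N₀, hN₀⟩ := hE' l m (hmle l) ε hε
    refine ⟨N₀, fun N hN => (hN₀ N hN).trans (le_of_eq ?_)⟩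
    rw [hδ, hlam]
    ring
  have hsymm : ∀ Q : Ω ≃ᵐ Ω, MeasurePreserving Q μ μ → MeasurePreserving Q.symm μ μ :=
    fun Q hQ => hQ.symm Q
  have gt2 : GTg μ V q (Q 2) 2 0 1 (g 2) := by
    refine hGTC Ω μ V hRep q hq1 (Q 2) (⇑T ∘ ⇑T) T hT.measurable
      (hT.measurable.comp hT.measurable) hT.measurable 2 0 1 (by decide) (by decide) (by decide)
      (g 2) (hgm 2) (hg1 2) ?_ (f_GVQ Ω μ T T.symm (⇑T ∘ ⇑T) T hT (hsymm T hT)
        (fun x => T.symm_apply_apply x) (fun x => T.apply_symm_apply x)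
        (Or.inr (Or.inr ⟨rfl, rfl⟩)) (g 2) (hgm 2) (hg1 2) (hRWM 2))
    intro y hy x
    rw [Pool.Agent.MRec.iterate_two, ← Function.iterate_add_apply]
    have e : q * tm 2 y = 2 * (q * y 0) + q * y 1 := by
      simp [tm]; ring
    rw [e]
    rfl
  have gt0 : GTg μ V q (Q 0) 0 2 1 (g 0) := by
    refine hGTC Ω μ V hRep q hq1 (Q 0) (⇑R ∘ ⇑R) R.symm hR.measurable
      (hR.measurable.comp hR.measurable) (hsymm R hR).measurable 0 2 1 (by decide) (by decide)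
      (by decide)
      (g 0) (hgm 0) (hg1 0) ?_ (f_GVQ Ω μ R R.symm (⇑R ∘ ⇑R) R.symm hR (hsymm R hR)
        (fun x => R.symm_apply_apply x) (fun x => R.apply_symm_apply x)
        (Or.inr (Or.inl ⟨rfl, rfl⟩)) (g 0) (hgm 0) (hg1 0) (hRWM 0))
    intro y hy x
    rw [Pool.Agent.MRec.iterate_two]
    have e : 2 * (q * y 2) = q * tm 0 y + q * y 1 := by
      simp only [tm, Matrix.cons_val_zero]
      rw [← mul_add, Nat.sub_add_cancel hy]; ring
    rw [e, Function.iterate_add_apply]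
    have e5 : (⇑R)^[q * y 1] ((⇑R.symm)^[q * y 1] x) = x :=
      Function.LeftInverse.iterate (fun x => R.apply_symm_apply x) _ x
    rw [e5]
    rfl
  have gt1 : GTg μ V q (Q 1) 1 0 2 (g 1) := by
    refine hGTC Ω μ V hRep q hq1 (Q 1) S S hS.measurable
      hS.measurable hS.measurable 1 0 2 (by decide) (by decide) (by decide)
      (g 1) (hgm 1) (hg1 1) ?_ (f_GVQ Ω μ S S.symm S S hS (hsymm S hS)
        (fun x => S.symm_apply_apply x) (fun x => S.apply_symm_apply x)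
        (Or.inl ⟨rfl, rfl⟩) (g 1) (hgm 1) (hg1 1) (hRWM 1))
    intro y hy x
    rw [← Function.iterate_add_apply]
    have e : q * tm 1 y = q * y 0 + q * y 2 := by
      simp [tm]; ring
    rw [e]
    rfl
  obtain ⟨N, hN, y, ⟨hy0, hy0'⟩, hy1, ⟨hy2, hy2'⟩, hne⟩ := hMAC Ω μ V B hVmeas
    (fun x y => (hB (sv ζ x) y).1) (fun x y => (hB (sv ζ x) y).2) Q
    (fun l => (hQ l).measurable) A X hA hSel.mX (fun x hx => (hXsub hx).1.1.1)
    (Eventually.of_forall fun x hx => hWMO m d e (sv ζ x) (sv θ x) hm1 (hSel.str x hx))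
    c g hcm hgm hc0 hc1 hg1 hcg γ (γ * μ.real X / 7) hγ (by positivity)
    (fun x hx l => (hXsub hx).1.2 l) hXμ (by linarith) q hq1 hErr gt2 gt0 gt1
  have t0 : tm 0 y = 2 * y 2 - y 1 := rfl
  have t1 : tm 1 y = y 0 + y 2 := rfl
  have t2 : tm 2 y = 2 * y 0 + y 1 := rfl
  refine ⟨q * tm 2 y, q * (tm 1 y - tm 2 y), ?_, ?_, fun hz => hne ?_⟩
  · have : 1 ≤ tm 2 y := by omega
    exact Nat.mul_pos hq1 this
  · have : 1 ≤ tm 1 y - tm 2 y := by omega
    exact Nat.mul_pos hq1 this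
  · refine measure_mono_null ?_ hz
    have e1 : q * tm 2 y + q * (tm 1 y - tm 2 y) = q * tm 1 y := by
      rw [← mul_add]; congr 1; omega
    have e2 : q * tm 2 y + 2 * (q * (tm 1 y - tm 2 y)) = q * tm 0 y := by
      have : 2 * (q * (tm 1 y - tm 2 y)) = q * (2 * (tm 1 y - tm 2 y)) := by ring
      rw [this, ← mul_add]; congr 1; omega
    rw [e1, e2]
    rintro x ⟨hxA, hx⟩
    exact ⟨⟨⟨hxA, hx 2⟩, hx 1⟩, hx 0⟩

end Pool.Agent.CLV
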