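import Pool.Agent.CLV.Targets
import Pool.Agent.Ind3.P_GTW

/-!
# CLV: the function `g` does not contribute to the triple averages (GTC)
-/

set_option autoImplicit false

open MeasureTheory Filter Topology Finset

namespace Pool.Agent.CLV

open Pool.Agent.FSP Pool.Agent.Ind3

universe u

open Pool.Agent.Ind3.GTW_ in
theorem p_GTC : T_GTC.{u} := by
  intro Ω _ μ _ V hV q hq Q B P hQ hB hP l i j hli hlj hij g hg hg1 hmv hGV ε hε
  obtain ⟨K, A, C, hAm, hAC, hA⟩ := hV
  set D : ℝ := |C| with hD
  have hD0 : 0 ≤ D := abs_nonneg _
  have hAD : ∀ k r x y, |A k r x y| ≤ D := fun k r x y => (hAC k r x y).trans (le_abs_self C)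
  have hpos : 0 < (K : ℝ) * D + 1 := by positivity
  obtain ⟨H, hH, L₀, hL₀⟩ := hGV q D (ε / (K * D + 1)) hq (div_pos hε hpos)
  refine ⟨H, hH, L₀, fun L hL u v hu hv hu1 hv1 => ?_⟩
  have hmA : ∀ k r y, Measurable fun x => A k r x y := fun k r y => hAm k r y
  -- the double means
  set Φ : Fin K → ℕ → Ω → ℝ := fun k a x =>
    |mean (H * L) (off j * (H * L)) fun b => mean (H * L) (off i * (H * L)) fun c =>
      (A k i x c * u a c x) * (A k j x b * v a b x) *
        g (B^[q * c] (P^[q * b] x))| with hΦ
  have hΦm : ∀ k a, Measurable (Φ k a) := by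
    intro k a
    refine Measurable.abs ?_
    refine mean_meas fun b => mean_meas fun c => ?_
    exact (((hmA k i c).mul (hu a c)).mul ((hmA k j b).mul (hv a b))).mul
      (hg.comp ((hB.iterate _).comp (hP.iterate _)))
  have hab : ∀ k r s y (t : ℝ), |t| ≤ 1 → |A k r s y * t| ≤ D := by
    intro k r s y t ht
    rw [abs_mul]
    calc |A k r s y| * |t| ≤ D * 1 := mul_le_mul (hAD k r s y) ht (abs_nonneg _) hD0
      _ = D := mul_one _
  have hΦb : ∀ k a x, |Φ k a x| ≤ D * D := by
    intro k a x
    rw [hΦ, abs_abs]
    refine abs_mean_le (by positivity) fun b => abs_mean_le (by positivity) fun c => ?_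
    rw [abs_mul, abs_mul]
    calc |A k i x c * u a c x| * |A k j x b * v a b x| *
          |g (B^[q * c] (P^[q * b] x))| ≤ (D * D) * 1 := by
            refine mul_le_mul (mul_le_mul (hab _ _ _ _ _ (hu1 a c x)) (hab _ _ _ _ _ (hv1 a b x))
              (abs_nonneg _) hD0) (hg1 _) (abs_nonneg _) (by positivity)
      _ = D * D := mul_one _
  have hΦi : ∀ k a, Integrable (Φ k a) μ := fun k a =>
    Integrable.of_bound (hΦm k a).aestronglyMeasurable (D * D)
      (Eventually.of_forall fun x => by rw [Real.norm_eq_abs]; exact hΦb k a x)
  have hΦe : ∀ k a, ∫ x, Φ k a x ∂μ ≤ ε / (K * D + 1) := by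
    intro k a
    exact hL₀ L hL (off i * (H * L)) (off j * (H * L)) (fun c x => A k i x c * u a c x)
      (fun b x => A k j x b * v a b x) (fun c => (hmA k i c).mul (hu a c))
      (fun b => (hmA k j b).mul (hv a b)) (fun c x => hab _ _ _ _ _ (hu1 a c x))
      (fun b x => hab _ _ _ _ _ (hv1 a b x))
  -- pointwise
  have hpt : ∀ x, |avg3 (H * L) fun y => V x y *
      (u (y l) (y i) x * v (y l) (y j) x * g (Q^[q * tm l y] x))| ≤
      ∑ k, mean (H * L) (off l * (H * L)) fun a => D * Φ k a x := by
    intro x
    rw [f_ORD (H * L) _ l j i hlj hli (Ne.symm hij)]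
    have h1 : (mean (H * L) (off l * (H * L)) fun a => mean (H * L) (off j * (H * L)) fun b =>
        mean (H * L) (off i * (H * L)) fun c =>
          V x (fun r => if r = l then a else if r = j then b else c) *
          (u ((fun r => if r = l then a else if r = j then b else c) l)
            ((fun r => if r = l then a else if r = j then b else c) i) x *
          v ((fun r => if r = l then a else if r = j then b else c) l)
            ((fun r => if r = l then a else if r = j then b else c) j) x *
          g (Q^[q * tm l (fun r => if r = l then a else if r = j then b else c)] x))) =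
        ∑ k, mean (H * L) (off l * (H * L)) fun a => A k l x a *
          mean (H * L) (off j * (H * L)) fun b => mean (H * L) (off i * (H * L)) fun c =>
          (A k i x c * u a c x) * (A k j x b * v a b x) *
          g (B^[q * c] (P^[q * b] x)) := by
      rw [← mean_sum]
      refine mean_congr fun a ha1 ha2 => ?_
      have h2 : ∀ k, A k l x a * (mean (H * L) (off j * (H * L)) fun b =>
          mean (H * L) (off i * (H * L)) fun c =>
          (A k i x c * u a c x) * (A k j x b * v a b x) *
          g (B^[q * c] (P^[q * b] x))) = mean (H * L) (off j * (H * L)) fun b =>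
          mean (H * L) (off i * (H * L)) fun c => A k l x a *
          ((A k i x c * u a c x) * (A k j x b * v a b x) *
          g (B^[q * c] (P^[q * b] x))) := by
        intro k
        rw [← mean_mul]
        refine mean_congr fun b _ _ => ?_
        rw [← mean_mul]
      rw [sum_congr rfl fun k _ => h2 k, ← mean_sum]
      refine mean_congr fun b hb1 hb2 => ?_
      rw [← mean_sum]
      refine mean_congr fun c hc1 hc2 => ?_
      have hyl : (fun r => if r = l then a else if r = j then b else c) l = a := by simp
      have hyj : (fun r => if r = l then a else if r = j then b else c) j = b := by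
        simp [Ne.symm hlj]
      have hyi : (fun r => if r = l then a else if r = j then b else c) i = c := by
        simp [Ne.symm hli, hij]
      set y : Fin 3 → ℕ := fun r => if r = l then a else if r = j then b else c with hy
      have hw : ∀ r : Fin 3, off r * (H * L) ≤ y r ∧ y r < off r * (H * L) + H * L := by
        intro r
        have h3 : r = l ∨ r = j ∨ r = i := cases_three l j i r hlj hli (Ne.symm hij)
        rcases h3 with h3 | h3 | h3
        · rw [h3, hyl]
          exact ⟨ha1, ha2⟩
        · rw [h3, hyj]
          exact ⟨hb1, hb2⟩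
        · rw [h3, hyi]
          exact ⟨hc1, hc2⟩
      have h4 : y 1 ≤ 2 * y 2 := by
        have h5 := hw 1
        have h6 := hw 2
        simp only [off, Matrix.cons_val_one, Matrix.cons_val] at h5 h6
        omega
      rw [hyl, hyj, hyi, hmv y h4 x, hyi, hyj, hA x y h4, sum_mul]
      refine sum_congr rfl fun k _ => ?_
      rw [prod_three l j i hlj hli (Ne.symm hij), hyl, hyj, hyi]
      ring
    rw [h1]
    refine (abs_sum_le_sum_abs _ _).trans (sum_le_sum fun k _ => ?_)
    refine abs_mean.trans (mean_mono fun a => ?_)
    rw [abs_mul]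
    exact mul_le_mul_of_nonneg_right (hAD _ _ _ _) (abs_nonneg _)
  calc ∫ x, |avg3 (H * L) fun y => V x y *
        (u (y l) (y i) x * v (y l) (y j) x * g (Q^[q * tm l y] x))| ∂μ
      ≤ ∫ x, ∑ k, mean (H * L) (off l * (H * L)) (fun a => D * Φ k a x) ∂μ :=
        integral_mono_of_nonneg (Eventually.of_forall fun x => abs_nonneg _)
          (integrable_finsetSum _ fun k _ => mean_integrable fun a => (hΦi k a).const_mul D)
          (Eventually.of_forall hpt)
    _ = ∑ k, mean (H * L) (off l * (H * L)) fun a => D * ∫ x, Φ k a x ∂μ := by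
        rw [integral_finsetSum _ fun k _ => mean_integrable fun a => (hΦi k a).const_mul D]
        refine sum_congr rfl fun k _ => ?_
        rw [mean_integral fun a => (hΦi k a).const_mul D]
        refine mean_congr fun a _ _ => ?_
        rw [integral_const_mul]
    _ ≤ ∑ k : Fin K, D * (ε / (K * D + 1)) :=
        sum_le_sum fun k _ => mean_le (by positivity) fun a =>
          mul_le_mul_of_nonneg_left (hΦe k a) hD0
    _ = (K * D) / (K * D + 1) * ε := by
        rw [sum_const, card_univ, Fintype.card_fin, nsmul_eq_mul]
        ring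
    _ ≤ 1 * ε := by
        refine mul_le_mul_of_nonneg_right ?_ hε.le
        rw [div_le_one hpos]
        linarith
    _ = ε := one_mul _

end Pool.Agent.CLV
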