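import Pool.Agent.CLV.Targets
import Pool.Agent.FSP.P_SPC

set_option autoImplicit false

/-!
# CLV, INF: closure properties of `APF`
-/

open MeasureTheory Filter Topology Finset

namespace Pool.Agent.CLV

open Pool.Agent.FSP Pool.Agent.Ind3

universe u

namespace INF_

variable {Ω : Type u} [MeasurableSpace Ω]

lemma integ (μ : Measure Ω) [IsProbabilityMeasure μ] {f : Ω → ℝ} (hf : Measurable f) (C : ℝ)
    (h : ∀ x, |f x| ≤ C) : Integrable f μ :=
  Integrable.of_bound hf.aestronglyMeasurable C (Eventually.of_forall fun x => by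
    rw [Real.norm_eq_abs]
    exact h x)

lemma ap_one {μ : Measure Ω} {Q : Ω → Ω} {F : Set (Ω → Circle)} {ε₁ ε : ℝ} {p₁ p : Ω → ℝ}
    (h₁ : AP μ Q F ε₁ p₁) (k : ℝ) (hk : ∀ x y, |p y - p x| ≤ k * |p₁ y - p₁ x|)
    (hk0 : 0 ≤ k) (hε : k * ε₁ ≤ ε) : AP μ Q F ε p := by
  obtain ⟨q, hq, ρ, hρ, d, τ, hτ, ha⟩ := h₁
  refine ⟨q, hq, ρ, hρ, d, τ, hτ, fun n => ?_⟩
  filter_upwards [ha n] with x hx hb
  refine (hk x (Q^[q * n] x)).trans ?_
  exact (mul_le_mul_of_nonneg_left (hx hb) hk0).trans hε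

lemma ap_mono {μ : Measure Ω} {Q : Ω → Ω} {F F' : Set (Ω → Circle)} (hF : F ⊆ F') {ε : ℝ}
    {p : Ω → ℝ} (h : AP μ Q F ε p) : AP μ Q F' ε p := by
  obtain ⟨q, hq, ρ, hρ, d, τ, hτ, ha⟩ := h
  exact ⟨q, hq, ρ, hρ, d, τ, fun l => hF (hτ l), ha⟩

lemma ap_two {μ : Measure Ω} {T : Ω → Ω} {F : Set (Ω → Circle)} {ε₁ ε₂ : ℝ} {p₁ p₂ p : Ω → ℝ}
    (h₁ : AP μ T F ε₁ p₁) (h₂ : AP μ T F ε₂ p₂)
    (hp : ∀ x y, |p y - p x| ≤ |p₁ y - p₁ x| + |p₂ y - p₂ x|) : AP μ T F (ε₁ + ε₂) p := by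
  obtain ⟨q₁, hq₁, ρ₁, hρ₁, d₁, τ₁, hτ₁, h₁⟩ := h₁
  obtain ⟨q₂, hq₂, ρ₂, hρ₂, d₂, τ₂, hτ₂, h₂⟩ := h₂
  have hq₁' : (0 : ℝ) < q₁ := by exact_mod_cast hq₁
  have hq₂' : (0 : ℝ) < q₂ := by exact_mod_cast hq₂
  refine ⟨q₁ * q₂, Nat.mul_pos hq₁ hq₂, min (ρ₁ / q₂) (ρ₂ / q₁), by positivity, d₁ + d₂,
    Fin.append τ₁ τ₂, ?_, fun n => ?_⟩
  · intro l
    refine Fin.addCases (fun i => ?_) (fun i => ?_) l
    · rw [Fin.append_left]
      exact hτ₁ i
    · rw [Fin.append_right]
      exact hτ₂ i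
  · filter_upwards [h₁ (q₂ * n), h₂ (q₁ * n)] with x hx₁ hx₂ hx
    have e₁ : x ∈ bohr τ₁ ρ₁ (q₂ * n) := by
      intro l
      have h3 := hx (Fin.castAdd d₂ l)
      rw [Fin.append_left] at h3
      have h4 := SPC_.pow_sub_one (((τ₁ l x : Circle) : ℂ) ^ n)
        (by rw [norm_pow, Circle.norm_coe, one_pow]) q₂
      rw [← pow_mul, mul_comm n q₂] at h4
      refine h4.trans ?_
      have h5 := h3.trans (min_le_left _ _)
      rw [le_div_iff₀ hq₂'] at h5
      linarith
    have e₂ : x ∈ bohr τ₂ ρ₂ (q₁ * n) := by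
      intro l
      have h3 := hx (Fin.natAdd d₁ l)
      rw [Fin.append_right] at h3
      have h4 := SPC_.pow_sub_one (((τ₂ l x : Circle) : ℂ) ^ n)
        (by rw [norm_pow, Circle.norm_coe, one_pow]) q₁
      rw [← pow_mul, mul_comm n q₁] at h4
      refine h4.trans ?_
      have h5 := h3.trans (min_le_right _ _)
      rw [le_div_iff₀ hq₁'] at h5
      linarith
    have f₁ := hx₁ e₁
    have f₂ := hx₂ e₂
    have g₁ : q₁ * (q₂ * n) = q₁ * q₂ * n := by ring
    have g₂ : q₂ * (q₁ * n) = q₁ * q₂ * n := by ring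
    rw [g₁] at f₁
    rw [g₂] at f₂
    exact (hp x _).trans (add_le_add f₁ f₂)

lemma prod_diff {a b c d : ℝ} (ha0 : 0 ≤ a) (ha1 : a ≤ 1) (hd0 : 0 ≤ d) (hd1 : d ≤ 1) :
    |a * b - c * d| ≤ |a - c| + |b - d| := by
  have e : a * b - c * d = (a - c) * d + a * (b - d) := by ring
  rw [e]
  refine (abs_add_le _ _).trans ?_
  rw [abs_mul, abs_mul, abs_of_nonneg ha0, abs_of_nonneg hd0]
  have h1 := mul_le_mul_of_nonneg_left hd1 (abs_nonneg (a - c))
  have h2 := mul_le_mul_of_nonneg_right ha1 (abs_nonneg (b - d))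
  linarith

lemma clip_range (t : ℝ) : 0 ≤ max 0 (min t 1) ∧ max 0 (min t 1) ≤ 1 :=
  ⟨le_max_left _ _, max_le zero_le_one (min_le_right _ _)⟩

lemma part1 (μ : Measure Ω) (Q : Ω → Ω) (F : Set (Ω → Circle)) (h : Ω → ℝ)
    (H : APF μ Q F h) : APF μ Q F fun x => 1 - h x := by
  intro ε hε
  obtain ⟨p, hm, h0, h1, hi, ha⟩ := H ε hε
  refine ⟨fun x => 1 - p x, measurable_const.sub hm, fun x => by linarith [h1 x],
    fun x => by linarith [h0 x], ?_, fun ε' hε' => ?_⟩
  · have e : (fun x => |1 - h x - (1 - p x)|) = fun x => |h x - p x| := by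
      funext x
      rw [← abs_neg]
      congr 1
      ring
    rw [e]
    exact hi
  · refine ap_one (ha ε' hε') 1 (fun x y => ?_) zero_le_one (by linarith)
    rw [one_mul, ← abs_neg]
    apply le_of_eq
    congr 1
    ring

lemma part2 (μ : Measure Ω) [IsProbabilityMeasure μ] (Q : Ω → Ω) (F : Set (Ω → Circle))
    (h h' : Ω → ℝ) (hm : Measurable h) (hm' : Measurable h') (hh : ∀ x, 0 ≤ h x ∧ h x ≤ 1)
    (hh' : ∀ x, 0 ≤ h' x ∧ h' x ≤ 1) (H : APF μ Q F h) (H' : APF μ Q F h') :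
    APF μ Q F fun x => h x * h' x := by
  intro ε hε
  obtain ⟨p, pm, p0, p1, pi, pa⟩ := H (ε / 2) (by positivity)
  obtain ⟨p', pm', p0', p1', pi', pa'⟩ := H' (ε / 2) (by positivity)
  refine ⟨fun x => p x * p' x, pm.mul pm', fun x => mul_nonneg (p0 x) (p0' x),
    fun x => mul_le_one₀ (p1 x) (p0' x) (p1' x), ?_, fun ε' hε' => ?_⟩
  · have i1 : Integrable (fun x => |h x - p x|) μ :=
      integ μ (hm.sub pm).norm 1 fun x => by
        rw [abs_abs, abs_le]
        constructor <;> linarith [(hh x).1, (hh x).2, p0 x, p1 x]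
    have i2 : Integrable (fun x => |h' x - p' x|) μ :=
      integ μ (hm'.sub pm').norm 1 fun x => by
        rw [abs_abs, abs_le]
        constructor <;> linarith [(hh' x).1, (hh' x).2, p0' x, p1' x]
    have i3 : ∫ x, |h x * h' x - p x * p' x| ∂μ ≤ ∫ x, (|h x - p x| + |h' x - p' x|) ∂μ := by
      refine integral_mono_of_nonneg (Eventually.of_forall fun x => abs_nonneg _) (i1.add i2)
        (Eventually.of_forall fun x => ?_)
      exact prod_diff (hh x).1 (hh x).2 (p0' x) (p1' x)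
    rw [integral_add i1 i2] at i3
    linarith
  · have h3 := ap_two (p := fun x => p x * p' x) (pa (ε' / 2) (by positivity))
      (pa' (ε' / 2) (by positivity))
      fun x y => prod_diff (p0 y) (p1 y) (p0' x) (p1' x)
    rwa [add_halves] at h3

lemma part5 (μ : Measure Ω) [IsProbabilityMeasure μ] (Q : Ω → Ω) (F : Set (Ω → Circle))
    (g h : Ω → ℝ) (gm : Measurable g) (g1 : ∀ x, |g x| ≤ 1) (hm : Measurable h)
    (hh : ∀ x, 0 ≤ h x ∧ h x ≤ 1) (hO : OrtAP μ Q F Set.univ g) (H : APF μ Q F h) :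
    ∫ x, g x * h x ∂μ = 0 := by
  have key : ∀ ε : ℝ, 0 < ε → |∫ x, g x * h x ∂μ| ≤ ε := by
    intro ε hε
    obtain ⟨p, pm, p0, p1, pi, pa⟩ := H ε hε
    have e0 : ∫ x, g x * p x ∂μ = 0 := hO p pm ⟨1, fun x => by
      rw [abs_of_nonneg (p0 x)]
      exact p1 x⟩ (fun x hx => absurd (Set.mem_univ x) hx) pa
    have i1 : Integrable (fun x => g x * h x) μ := integ μ (gm.mul hm) 1 fun x => by
      rw [abs_mul, abs_of_nonneg (hh x).1]
      exact mul_le_one₀ (g1 x) (hh x).1 (hh x).2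
    have i2 : Integrable (fun x => g x * p x) μ := integ μ (gm.mul pm) 1 fun x => by
      rw [abs_mul, abs_of_nonneg (p0 x)]
      exact mul_le_one₀ (g1 x) (p0 x) (p1 x)
    have i3 : Integrable (fun x => |h x - p x|) μ :=
      integ μ (hm.sub pm).norm 1 fun x => by
        rw [abs_abs, abs_le]
        constructor <;> linarith [(hh x).1, (hh x).2, p0 x, p1 x]
    have e1 : ∫ x, g x * h x ∂μ = ∫ x, (g x * h x - g x * p x) ∂μ := by
      rw [integral_sub i1 i2, e0, sub_zero]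
    rw [e1]
    refine (abs_integral_le_integral_abs).trans (le_trans ?_ pi)
    refine integral_mono_of_nonneg (Eventually.of_forall fun x => abs_nonneg _) i3
      (Eventually.of_forall fun x => ?_)
    simp only
    rw [← mul_sub, abs_mul]
    have := mul_le_mul_of_nonneg_right (g1 x) (abs_nonneg (h x - p x))
    linarith
  have h1 : |∫ x, g x * h x ∂μ| ≤ 0 := le_of_forall_pos_le_add fun ε hε => by
    rw [zero_add]
    exact key ε hε
  exact abs_eq_zero.1 (le_antisymm h1 (abs_nonneg _))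

/-- the clipped functions -/
noncomputable def cl (k : ℕ) (lam t : ℝ) : ℝ := max 0 (min ((k : ℝ) * (t - lam)) 1)

lemma cl_lip (k : ℕ) (lam s t : ℝ) : |cl k lam s - cl k lam t| ≤ k * |s - t| := by
  unfold cl
  refine (SPC_.clip_lip _ _).trans ?_
  have e : (k : ℝ) * (s - lam) - k * (t - lam) = k * (s - t) := by ring
  rw [e, abs_mul, Nat.abs_cast]

lemma cl_meas (k : ℕ) (lam : ℝ) {h : Ω → ℝ} (hm : Measurable h) :
    Measurable fun x => cl k lam (h x) :=
  measurable_const.max (((hm.sub measurable_const).const_mul _).min measurable_const)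

omit [MeasurableSpace Ω] in
lemma cl_tend (lam : ℝ) (h : Ω → ℝ) (x : Ω) :
    Tendsto (fun k : ℕ => |one {x | lam < h x} x - cl k lam (h x)|) atTop (𝓝 0) := by
  by_cases hx : lam < h x
  · have h1 : one {x | lam < h x} x = 1 := Set.indicator_of_mem (s := {x | lam < h x}) hx _
    rw [h1]
    refine tendsto_const_nhds.congr' ?_
    obtain ⟨N, hN⟩ := exists_nat_gt (1 / (h x - lam))
    filter_upwards [eventually_ge_atTop N] with k hk
    have h2 : 0 < h x - lam := by linarith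
    have h3 : (N : ℝ) ≤ k := by exact_mod_cast hk
    have h4 : 1 ≤ (k : ℝ) * (h x - lam) := by
      rw [div_lt_iff₀ h2] at hN
      nlinarith
    unfold cl
    rw [min_eq_right h4, max_eq_right zero_le_one, sub_self, abs_zero]
  · have h1 : one {x | lam < h x} x = 0 := Set.indicator_of_notMem (s := {x | lam < h x}) hx _
    rw [h1]
    refine tendsto_const_nhds.congr fun k => ?_
    have h2 : (k : ℝ) * (h x - lam) ≤ 0 :=
      mul_nonpos_of_nonneg_of_nonpos (Nat.cast_nonneg k) (by linarith)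
    unfold cl
    rw [max_eq_left ((min_le_left _ _).trans h2), sub_self, abs_zero]

lemma part4 (μ : Measure Ω) [IsProbabilityMeasure μ] (Q : Ω → Ω) (F : Set (Ω → Circle))
    (h : Ω → ℝ) (lam : ℝ) (hm : Measurable h) (hh : ∀ x, 0 ≤ h x ∧ h x ≤ 1)
    (H : APF μ Q F h) : APF μ Q F (one {x | lam < h x}) := by
  intro ε hε
  have hS : MeasurableSet {x | lam < h x} := measurableSet_lt measurable_const hm
  have om : Measurable (one {x | lam < h x}) := measurable_const.indicator hS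
  have o01 : ∀ x, 0 ≤ one {x | lam < h x} x ∧ one {x | lam < h x} x ≤ 1 := by
    intro x
    unfold one
    by_cases hx : x ∈ {x | lam < h x}
    · rw [Set.indicator_of_mem hx]
      exact ⟨zero_le_one, le_rfl⟩
    · rw [Set.indicator_of_notMem hx]
      exact ⟨le_rfl, zero_le_one⟩
  have hb : ∀ (k : ℕ) x, |(one {x | lam < h x} x - cl k lam (h x))| ≤ 1 := by
    intro k x
    have h1 := clip_range ((k : ℝ) * (h x - lam))
    have h2 := o01 x
    unfold cl
    rw [abs_le]
    constructor <;> linarith [h1.1, h1.2, h2.1, h2.2]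
  have hlim : Tendsto (fun k : ℕ => ∫ x, |one {x | lam < h x} x - cl k lam (h x)| ∂μ) atTop
      (𝓝 (∫ _x, (0 : ℝ) ∂μ)) := by
    refine tendsto_integral_of_dominated_convergence (fun _ => (1 : ℝ))
      (fun k => (om.sub (cl_meas k lam hm)).norm.aestronglyMeasurable) (integrable_const _)
      (fun k => Eventually.of_forall fun x => ?_) (Eventually.of_forall fun x => cl_tend lam h x)
    rw [Real.norm_eq_abs, abs_abs]
    exact hb k x
  rw [integral_zero] at hlim
  obtain ⟨k, hk⟩ := ((tendsto_order.1 hlim).2 (ε / 2) (by positivity)).exists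
  obtain ⟨p, pm, p0, p1, pi, pa⟩ := H (ε / (2 * ((k : ℝ) + 1))) (by positivity)
  have hk0 : (0 : ℝ) ≤ k := Nat.cast_nonneg k
  refine ⟨fun x => cl k lam (p x), cl_meas k lam pm, fun x => (clip_range _).1,
    fun x => (clip_range _).2, ?_, fun ε' hε' => ?_⟩
  · have i1 : Integrable (fun x => |one {x | lam < h x} x - cl k lam (h x)|) μ :=
      integ μ (om.sub (cl_meas k lam hm)).norm 1 fun x => by
        rw [abs_abs]
        exact hb k x
    have i2 : Integrable (fun x => |h x - p x|) μ :=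
      integ μ (hm.sub pm).norm 1 fun x => by
        rw [abs_abs, abs_le]
        constructor <;> linarith [(hh x).1, (hh x).2, p0 x, p1 x]
    have i3 : ∫ x, |one {x | lam < h x} x - cl k lam (p x)| ∂μ ≤
        ∫ x, (|one {x | lam < h x} x - cl k lam (h x)| + k * |h x - p x|) ∂μ := by
      refine integral_mono_of_nonneg (Eventually.of_forall fun x => abs_nonneg _)
        (i1.add (i2.const_mul _)) (Eventually.of_forall fun x => ?_)
      simp only
      have e : one {x | lam < h x} x - cl k lam (p x) =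
          (one {x | lam < h x} x - cl k lam (h x)) + (cl k lam (h x) - cl k lam (p x)) := by ring
      rw [e]
      exact (abs_add_le _ _).trans (add_le_add le_rfl (cl_lip k lam _ _))
    rw [integral_add i1 (i2.const_mul _), integral_const_mul] at i3
    have h5 : (k : ℝ) * ∫ x, |h x - p x| ∂μ ≤ ε / 2 := by
      calc (k : ℝ) * ∫ x, |h x - p x| ∂μ ≤ (k : ℝ) * (ε / (2 * ((k : ℝ) + 1))) :=
            mul_le_mul_of_nonneg_left pi hk0
        _ ≤ ε / 2 := by
            rw [mul_div_assoc', div_le_div_iff₀ (by positivity) (by norm_num)]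
            nlinarith
    linarith
  · refine ap_one (pa (ε' / ((k : ℝ) + 1)) (by positivity)) k
      (fun x y => cl_lip k lam _ _) hk0 ?_
    rw [mul_div_assoc', div_le_iff₀ (by positivity)]
    nlinarith

end INF_

open INF_ in
/-- INF. -/
theorem p_INF : T_INF.{u} := by
  intro Ω _ μ _ Q F
  refine ⟨part1 μ Q F, fun h h' hm hm' hh hh' H H' => part2 μ Q F h h' hm hm' hh hh' H H',
    fun F' h hF H ε hε => ?_, fun h lam hm hh H => part4 μ Q F h lam hm hh H,
    fun g h gm g1 hm hh hO H => part5 μ Q F g h gm g1 hm hh hO H⟩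
  obtain ⟨p, hm, h0, h1, hi, ha⟩ := H ε hε
  exact ⟨p, hm, h0, h1, hi, fun ε' hε' => ap_mono hF (ha ε' hε')⟩

end Pool.Agent.CLV
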