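import Pool.Agent.CLV.Targets

set_option autoImplicit false

/-!
# CLV, MAC: the main lower bound (general weights)
-/

open MeasureTheory Filter Topology Finset

namespace Pool.Agent.CLV

open Pool.Agent.FSP Pool.Agent.Ind3

universe u

theorem p_MAC : T_MAC.{u} := by
  intro Ω _ μ _ V B hWm' hV0 hVB Q hQ A X hA hX hXA hPW c g hc hg hc0 hc1
    hg1 hcg γ κ hγ hκ hγc hXp hηX q _ hE hG2 hG0 hG1
  by_contra hcon
  push Not at hcon
  have hBB : 0 ≤ B := by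
    have h1 : X.Nonempty := by
      rw [Set.nonempty_iff_ne_empty]
      rintro rfl
      simp at hXp
    obtain ⟨x, _⟩ := h1
    exact (hV0 x fun _ => 0).trans (hVB x fun _ => 0)
  have hWabs : ∀ x y, |V x y| ≤ B := by
    intro x y
    rw [abs_of_nonneg (hV0 _ _)]
    exact hVB _ _
  have hone0 : ∀ x, 0 ≤ one A x := fun x => Set.indicator_nonneg (fun _ _ => zero_le_one) x
  have hone1 : ∀ x, one A x ≤ 1 := fun x => Set.indicator_le_self' (fun _ _ => zero_le_one) x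
  have honem : Measurable (one A) := measurable_const.indicator hA
  have hQi : ∀ l k, Measurable ((Q l)^[k]) := fun l k => (hQ l).iterate k
  set δ : ℝ := μ.real X with hδ
  -- the small number
  have hk : 0 < (γ / 2) ^ 3 := by positivity
  obtain ⟨ε, hε, hε1, hε2⟩ : ∃ ε : ℝ, 0 < ε ∧ 100 * ε ≤ (γ / 2) ^ 3 * δ ∧
      14 * (ε * (1 + 6 / γ)) ≤ δ := by
    refine ⟨min ((γ / 2) ^ 3 * δ / 100) (δ / (14 * (1 + 6 / γ))), ?_, ?_, ?_⟩
    · have h1 : 0 < (γ / 2) ^ 3 * δ / 100 := by positivity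
      have h2 : 0 < δ / (14 * (1 + 6 / γ)) := by positivity
      exact lt_min h1 h2
    · have := min_le_left ((γ / 2) ^ 3 * δ / 100) (δ / (14 * (1 + 6 / γ)))
      linarith
    · have h1 := min_le_right ((γ / 2) ^ 3 * δ / 100) (δ / (14 * (1 + 6 / γ)))
      have h2 : 0 < 14 * (1 + 6 / γ) := by positivity
      have h3 := mul_le_mul_of_nonneg_left h1 h2.le
      have h4 : 14 * (1 + 6 / γ) * (δ / (14 * (1 + 6 / γ))) = δ := by field_simp
      linarith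
  -- the weights
  obtain ⟨NW, hNW⟩ := f_LSU Ω μ (fun N x => -avg3 N (fun y => V x y))
    (B) (fun _ => (-1 : ℝ)) X
    (fun N => (MAI_meas N (fun y x => V x y) hWm').neg)
    (fun N x => by
      rw [abs_neg]
      exact MAI_bd N _ _ hBB fun y => hWabs x y)
    (integrable_const _) hX
    (by
      filter_upwards [hPW] with x hx hxX ε' hε'
      obtain ⟨N₀, hN₀⟩ := hx hxX ε' hε'
      refine ⟨N₀, fun N hN => ?_⟩
      have h1 := (abs_le.1 (hN₀ N hN)).1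
      have h2 : avg3 N (fun y => V x y) = avg3 N (V x) := rfl
      rw [h2]
      linarith) ε hε
  obtain ⟨N0, hN0⟩ := hE 0 ε hε
  obtain ⟨N1, hN1⟩ := hE 1 ε hε
  obtain ⟨N2, hN2⟩ := hE 2 ε hε
  obtain ⟨H2, hH2, L2, hL2⟩ := hG2 ε hε
  obtain ⟨H0, hH0, L0, hL0⟩ := hG0 ε hε
  obtain ⟨H1, hH1, L1, hL1⟩ := hG1 ε hε
  obtain ⟨L, hL⟩ : ∃ L, L = NW + N0 + N1 + N2 + L2 + L0 + L1 + 1 := ⟨_, rfl⟩
  obtain ⟨N, hN⟩ : ∃ N, N = H2 * (H0 * H1 * L) := ⟨_, rfl⟩
  have hLpos : 0 < L := by omega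
  have e1 : L ≤ H0 * H1 * L := Nat.le_mul_of_pos_left _ (Nat.mul_pos hH0 hH1)
  have e2 : L ≤ H2 * H1 * L := Nat.le_mul_of_pos_left _ (Nat.mul_pos hH2 hH1)
  have e3 : L ≤ H2 * H0 * L := Nat.le_mul_of_pos_left _ (Nat.mul_pos hH2 hH0)
  have hLN : L ≤ N := by
    rw [hN]
    exact e1.trans (Nat.le_mul_of_pos_left _ hH2)
  have hN' : N = H0 * (H2 * H1 * L) := by rw [hN]; ring
  have hN'' : N = H1 * (H2 * H0 * L) := by rw [hN]; ring
  have hNpos : 1 ≤ N := by omega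
  -- the three terms
  have hT2 := hL2 (H0 * H1 * L) (by omega)
    (fun a b x => one A ((Q 1)^[q * (b + a)] x)) (fun a b x => one A ((Q 0)^[q * (2 * a - b)] x))
    (fun a b => honem.comp (hQi 1 _)) (fun a b => honem.comp (hQi 0 _))
    (fun a b x => abs_le.2 ⟨by linarith [hone0 ((Q 1)^[q * (b + a)] x)], hone1 _⟩)
    (fun a b x => abs_le.2 ⟨by linarith [hone0 ((Q 0)^[q * (2 * a - b)] x)], hone1 _⟩)
  have hT0 := hL0 (H2 * H1 * L) (by omega)
    (fun a b x => one A ((Q 1)^[q * (a + b)] x)) (fun a b x => c 2 ((Q 2)^[q * (2 * a + b)] x))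
    (fun a b => honem.comp (hQi 1 _)) (fun a b => (hc 2).comp (hQi 2 _))
    (fun a b x => abs_le.2 ⟨by linarith [hone0 ((Q 1)^[q * (a + b)] x)], hone1 _⟩)
    (fun a b x => abs_le.2 ⟨by linarith [hc0 2 ((Q 2)^[q * (2 * a + b)] x)], hc1 _ _⟩)
  have hT1 := hL1 (H2 * H0 * L) (by omega)
    (fun a b x => c 2 ((Q 2)^[q * (2 * b + a)] x)) (fun a b x => c 0 ((Q 0)^[q * (2 * b - a)] x))
    (fun a b => (hc 2).comp (hQi 2 _)) (fun a b => (hc 0).comp (hQi 0 _))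
    (fun a b x => abs_le.2 ⟨by linarith [hc0 2 ((Q 2)^[q * (2 * b + a)] x)], hc1 _ _⟩)
    (fun a b x => abs_le.2 ⟨by linarith [hc0 0 ((Q 0)^[q * (2 * b - a)] x)], hc1 _ _⟩)
  rw [← hN] at hT2
  rw [← hN'] at hT0
  rw [← hN''] at hT1
  -- integrability
  have hoa : ∀ x, |one A x| ≤ 1 := fun x => abs_le.2 ⟨by linarith [hone0 x], hone1 x⟩
  have hca : ∀ l x, |c l x| ≤ 1 := fun l x => abs_le.2 ⟨by linarith [hc0 l x], hc1 l x⟩
  have hprod : ∀ a b d : ℝ, |a| ≤ 1 → |b| ≤ 1 → |d| ≤ 1 → |a * b * d| ≤ 1 := by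
    intro a b d ha hb hd
    rw [abs_mul, abs_mul]
    have h1 : |a| * |b| ≤ 1 := mul_le_one₀ ha (abs_nonneg _) hb
    exact mul_le_one₀ h1 (abs_nonneg _) hd
  have hWp : ∀ x y (t : ℝ), |t| ≤ 1 →
      |V x y * t| ≤ B := by
    intro x y t ht
    rw [abs_mul]
    calc |V x y| * |t| ≤ B * 1 :=
          mul_le_mul (hWabs x y) ht (abs_nonneg _) hBB
      _ = _ := mul_one _
  have iT2 : Integrable (fun x => avg3 N fun y => V x y *
      (one A ((Q 1)^[q * (y 0 + y 2)] x) * one A ((Q 0)^[q * (2 * y 2 - y 1)] x) *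
        g 2 ((Q 2)^[q * tm 2 y] x))) μ :=
    MAI_int μ N (fun y x => V x y *
      (one A ((Q 1)^[q * (y 0 + y 2)] x) * one A ((Q 0)^[q * (2 * y 2 - y 1)] x) *
        g 2 ((Q 2)^[q * tm 2 y] x)))
      (fun y => (hWm' y).mul (((honem.comp (hQi 1 _)).mul (honem.comp (hQi 0 _))).mul
        ((hg 2).comp (hQi 2 _)))) _ hBB
      (fun y x => hWp x y _ (hprod _ _ _ (hoa _) (hoa _) (hg1 _ _)))
  have iT0 : Integrable (fun x => avg3 N fun y => V x y *
      (one A ((Q 1)^[q * (y 0 + y 2)] x) * c 2 ((Q 2)^[q * (2 * y 0 + y 1)] x) *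
        g 0 ((Q 0)^[q * tm 0 y] x))) μ :=
    MAI_int μ N (fun y x => V x y *
      (one A ((Q 1)^[q * (y 0 + y 2)] x) * c 2 ((Q 2)^[q * (2 * y 0 + y 1)] x) *
        g 0 ((Q 0)^[q * tm 0 y] x)))
      (fun y => (hWm' y).mul (((honem.comp (hQi 1 _)).mul ((hc 2).comp (hQi 2 _))).mul
        ((hg 0).comp (hQi 0 _)))) _ hBB
      (fun y x => hWp x y _ (hprod _ _ _ (hoa _) (hca _ _) (hg1 _ _)))
  have iT1 : Integrable (fun x => avg3 N fun y => V x y *
      (c 2 ((Q 2)^[q * (2 * y 0 + y 1)] x) * c 0 ((Q 0)^[q * (2 * y 2 - y 1)] x) *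
        g 1 ((Q 1)^[q * tm 1 y] x))) μ :=
    MAI_int μ N (fun y x => V x y *
      (c 2 ((Q 2)^[q * (2 * y 0 + y 1)] x) * c 0 ((Q 0)^[q * (2 * y 2 - y 1)] x) *
        g 1 ((Q 1)^[q * tm 1 y] x)))
      (fun y => (hWm' y).mul ((((hc 2).comp (hQi 2 _)).mul ((hc 0).comp (hQi 0 _))).mul
        ((hg 1).comp (hQi 1 _)))) _ hBB
      (fun y x => hWp x y _ (hprod _ _ _ (hca _ _) (hca _ _) (hg1 _ _)))
  have iW : Integrable (fun x => avg3 N fun y => V x y) μ :=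
    MAI_int μ N (fun y x => V x y) hWm' _ hBB (fun y x => hWabs x y)
  have iE : ∀ l, Integrable (fun x => avg3 N fun y => V x y *
      |c l ((Q l)^[q * tm l y] x) - c l x|) μ := by
    intro l
    refine MAI_int μ N (fun y x => V x y *
      |c l ((Q l)^[q * tm l y] x) - c l x|) (fun y => (hWm' y).mul ?_) _ hBB
      (fun y x => hWp x y _ ?_)
    · exact (((hc l).comp (hQi l _)).sub (hc l)).abs
    · rw [abs_abs]
      refine abs_le.2 ⟨?_, ?_⟩
      · linarith [hc0 l ((Q l)^[q * tm l y] x), hc1 l x]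
      · linarith [hc1 l ((Q l)^[q * tm l y] x), hc0 l x]
  have l2 := MAI_low μ X _ iT2 ε hT2
  have l0 := MAI_low μ X _ iT0 ε hT0
  have l1 := MAI_low μ X _ iT1 ε hT1
  have lW := hNW N (by omega)
  rw [integral_neg, setIntegral_const, smul_eq_mul] at lW
  have u0 := hN0 N (by omega)
  have u1 := hN1 N (by omega)
  have u2 := hN2 N (by omega)
  -- the pointwise inequality
  have hae : ∀ᵐ x ∂μ, ∀ y : Fin 3 → ℕ, MAI_W N y →
      ¬ (x ∈ A ∧ ∀ l, (Q l)^[q * tm l y] x ∈ A) := by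
    rw [ae_all_iff]
    intro y
    by_cases hy : MAI_W N y
    · have h1 := hcon N hNpos y hy.1 hy.2.1 hy.2.2
      have h2 : ∀ᵐ x ∂μ, x ∉ A ∩ {x | ∀ l, (Q l)^[q * tm l y] x ∈ A} :=
        measure_eq_zero_iff_ae_notMem.1 h1
      filter_upwards [h2] with x hx _ hx2
      exact hx ⟨hx2.1, hx2.2⟩
    · exact ae_of_all _ fun x h => absurd h hy
  have hpw : ∀ᵐ x ∂(μ.restrict X),
      (avg3 N fun y => V x y *
        (one A ((Q 1)^[q * (y 0 + y 2)] x) * one A ((Q 0)^[q * (2 * y 2 - y 1)] x) *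
          g 2 ((Q 2)^[q * tm 2 y] x))) +
      (avg3 N fun y => V x y *
        (one A ((Q 1)^[q * (y 0 + y 2)] x) * c 2 ((Q 2)^[q * (2 * y 0 + y 1)] x) *
          g 0 ((Q 0)^[q * tm 0 y] x))) +
      (avg3 N fun y => V x y *
        (c 2 ((Q 2)^[q * (2 * y 0 + y 1)] x) * c 0 ((Q 0)^[q * (2 * y 2 - y 1)] x) *
          g 1 ((Q 1)^[q * tm 1 y] x))) +
      (γ / 2) ^ 3 * ((avg3 N fun y => V x y) + (-(2 / γ)) *
        ((avg3 N fun y => V x y * |c 0 ((Q 0)^[q * tm 0 y] x) - c 0 x|) +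
        (avg3 N fun y => V x y * |c 1 ((Q 1)^[q * tm 1 y] x) - c 1 x|) +
        (avg3 N fun y => V x y * |c 2 ((Q 2)^[q * tm 2 y] x) - c 2 x|))) ≤ 0 := by
    filter_upwards [ae_restrict_of_ae hae, ae_restrict_mem hX] with x hx hxX
    rw [← MAI_add, ← MAI_add, ← MAI_add, ← MAI_add, ← MAI_mul, ← MAI_add, ← MAI_mul, ← MAI_add]
    have hz : avg3 N (fun _ => (0 : ℝ)) = 0 := by
      rw [MAI_avg]
      simp
    rw [← hz]
    refine MAI_mono N fun y hy => ?_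
    have t0 : tm 0 y = 2 * y 2 - y 1 := rfl
    have t1 : tm 1 y = y 0 + y 2 := rfl
    have t2 : tm 2 y = 2 * y 0 + y 1 := rfl
    have hxy := hx y hy
    rw [← t0, ← t1, ← t2]
    have f0 := hcg 0 ((Q 0)^[q * tm 0 y] x)
    have f1 := hcg 1 ((Q 1)^[q * tm 1 y] x)
    have f2 := hcg 2 ((Q 2)^[q * tm 2 y] x)
    have hzero : one A ((Q 2)^[q * tm 2 y] x) * one A ((Q 0)^[q * tm 0 y] x) *
        one A ((Q 1)^[q * tm 1 y] x) = 0 := by
      by_contra hne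
      apply hxy
      refine ⟨hXA hxX, ?_⟩
      have g1 : one A ((Q 1)^[q * tm 1 y] x) ≠ 0 := right_ne_zero_of_mul hne
      have g3 := left_ne_zero_of_mul hne
      have g0 : one A ((Q 0)^[q * tm 0 y] x) ≠ 0 := right_ne_zero_of_mul g3
      have g2 : one A ((Q 2)^[q * tm 2 y] x) ≠ 0 := left_ne_zero_of_mul g3
      have hmem : ∀ z, one A z ≠ 0 → z ∈ A := by
        intro z hz'
        by_contra hz2
        exact hz' (Set.indicator_of_notMem hz2 _)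
      intro l
      fin_cases l
      · exact hmem _ g0
      · exact hmem _ g1
      · exact hmem _ g2
    have hpt := MAI_pt γ (c 0 ((Q 0)^[q * tm 0 y] x)) (c 1 ((Q 1)^[q * tm 1 y] x))
      (c 2 ((Q 2)^[q * tm 2 y] x)) (c 0 x) (c 1 x) (c 2 x) hγ (hc0 _ _) (hc0 _ _) (hc0 _ _)
      (hγc x hxX 0) (hγc x hxX 1) (hγc x hxX 2)
    have hw := hV0 x y
    generalize V x y = w at hw ⊢
    generalize c 0 ((Q 0)^[q * tm 0 y] x) = C0 at *
    generalize c 1 ((Q 1)^[q * tm 1 y] x) = C1 at *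
    generalize c 2 ((Q 2)^[q * tm 2 y] x) = C2 at *
    generalize g 0 ((Q 0)^[q * tm 0 y] x) = G0 at *
    generalize g 1 ((Q 1)^[q * tm 1 y] x) = G1 at *
    generalize g 2 ((Q 2)^[q * tm 2 y] x) = G2 at *
    rw [f0, f1, f2] at hzero
    rw [f0, f1]
    have h1 := mul_le_mul_of_nonneg_left hpt hw
    have h2 : w * ((C2 + G2) * (C0 + G0) * (C1 + G1)) = 0 := by rw [hzero, mul_zero]
    nlinarith [h1, h2]
  have hfin : ∫ x in X, ((avg3 N fun y => V x y *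
        (one A ((Q 1)^[q * (y 0 + y 2)] x) * one A ((Q 0)^[q * (2 * y 2 - y 1)] x) *
          g 2 ((Q 2)^[q * tm 2 y] x))) +
      (avg3 N fun y => V x y *
        (one A ((Q 1)^[q * (y 0 + y 2)] x) * c 2 ((Q 2)^[q * (2 * y 0 + y 1)] x) *
          g 0 ((Q 0)^[q * tm 0 y] x))) +
      (avg3 N fun y => V x y *
        (c 2 ((Q 2)^[q * (2 * y 0 + y 1)] x) * c 0 ((Q 0)^[q * (2 * y 2 - y 1)] x) *
          g 1 ((Q 1)^[q * tm 1 y] x))) +
      (γ / 2) ^ 3 * ((avg3 N fun y => V x y) + (-(2 / γ)) *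
        ((avg3 N fun y => V x y * |c 0 ((Q 0)^[q * tm 0 y] x) - c 0 x|) +
        (avg3 N fun y => V x y * |c 1 ((Q 1)^[q * tm 1 y] x) - c 1 x|) +
        (avg3 N fun y => V x y *
          |c 2 ((Q 2)^[q * tm 2 y] x) - c 2 x|)))) ∂μ ≤ 0 := integral_nonpos_of_ae hpw
  rw [MAI_lin iT2.restrict iT0.restrict iT1.restrict iW.restrict (iE 0).restrict
    (iE 1).restrict (iE 2).restrict] at hfin
  have hr : 0 < 2 / γ := by positivity
  have v1 : (2 / γ) * (3 * κ) ≤ 6 / 7 * δ := by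
    have h1 := mul_le_mul_of_nonneg_left hηX hr.le
    have h2 : 2 / γ * (γ * δ) = 2 * δ := by field_simp
    have h3 : 2 / γ * (7 * κ) = 7 / 3 * (2 / γ * (3 * κ)) := by ring
    linarith
  have v2 := mul_le_mul_of_nonneg_left (add_le_add (add_le_add u0 u1) u2) hr.le
  have v3 : ε * (1 + 6 / γ) = ε + (2 / γ) * (3 * ε) := by
    field_simp
    ring
  have v4 : (2 / γ) * (κ + ε + (κ + ε) + (κ + ε))
      = (2 / γ) * (3 * κ) + (2 / γ) * (3 * ε) := by ring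
  rw [v4] at v2
  have v5 : δ / 14 ≤ (∫ x in X, (avg3 N fun y => V x y) ∂μ) + (-(2 / γ)) *
      ((∫ x in X, (avg3 N fun y => V x y *
        |c 0 ((Q 0)^[q * tm 0 y] x) - c 0 x|) ∂μ) +
      (∫ x in X, (avg3 N fun y => V x y *
        |c 1 ((Q 1)^[q * tm 1 y] x) - c 1 x|) ∂μ) +
      (∫ x in X, (avg3 N fun y => V x y *
        |c 2 ((Q 2)^[q * tm 2 y] x) - c 2 x|) ∂μ)) := by
    linarith
  have v6 := mul_le_mul_of_nonneg_left v5 hk.le
  have v7 : 0 < (γ / 2) ^ 3 * δ := by positivity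
  linarith

end Pool.Agent.CLV
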