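import Pool.Agent.CLV.Targets

set_option autoImplicit false

/-!
# CLV: comparison of the weight with the own weight (MAR)
-/

open MeasureTheory Filter Topology Finset

namespace Pool.Agent.CLV

open Pool.Agent.FSP Pool.Agent.Ind3

namespace MAR_

open Classical in
theorem mem_cl (s : ℕ → Circle) (K : ℕ) {z : Circle}
    (h : z ∈ Subgroup.closure (((range K).image s : Finset Circle) : Set Circle)) :
    ∃ a : ℕ → ℤ, z = ∏ j ∈ range K, s j ^ a j := by
  induction h using Subgroup.closure_induction with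
  | mem x hx =>
    rw [mem_coe, mem_image] at hx
    obtain ⟨j, hj, rfl⟩ := hx
    refine ⟨fun i => if i = j then 1 else 0, ?_⟩
    rw [prod_eq_single_of_mem j hj fun i _ hi => by simp [hi]]
    simp
  | one => exact ⟨fun _ => 0, by simp⟩
  | mul x y _ _ hx hy =>
    obtain ⟨a, ha⟩ := hx
    obtain ⟨b, hb⟩ := hy
    refine ⟨fun i => a i + b i, ?_⟩
    rw [ha, hb, ← prod_mul_distrib]
    refine prod_congr rfl fun i _ => ?_
    rw [zpow_add]
  | inv x _ hx =>
    obtain ⟨a, ha⟩ := hx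
    refine ⟨fun i => - a i, ?_⟩
    rw [ha, ← prod_inv_distrib]
    refine prod_congr rfl fun i _ => ?_
    rw [zpow_neg]

open Classical in
theorem spi (s : ℕ → Circle) (K q : ℕ) (hq : 1 ≤ q) {z : Circle}
    (h : z ^ q ∈ Subgroup.closure (((range K).image s : Finset Circle) : Set Circle)) :
    SpI s z := by
  obtain ⟨a, ha⟩ := mem_cl s K h
  exact ⟨K, q, hq, a, ha⟩

end MAR_

open MAR_ in
/-- Comparison of the weight with the own weight. -/
theorem p_MAR (hAVC : T_AVC) (hCHA : T_CHA) (hNON : T_NON) (hEXW : T_EXW) : T_MAR := by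
  classical
  intro m d e hm hde
  obtain ⟨k, c, n, v, hc, hW⟩ := hEXW m d e hm hde
  obtain ⟨h1, h2, h3, -, -⟩ := hAVC
  refine ⟨k, Nat.cast_nonneg k, ?_⟩
  intro g s hS l q K ρ hq hρ ε hε
  have hex : ∀ i : Fin k, ∃ N₀ : ℕ, ∀ N ≥ N₀, ∀ (φ : ℕ → ℝ) (ε' : ℝ), 0 ≤ ε' →
      PP q ρ ((range K).image (s l)) ε' 0 φ → ¬ Own d e l (n i) (v i) →
      ‖aC N fun y => ((∏ r, chi d e g (n i) (v i) r ^ y r : Circle) : ℂ) *
        ((φ (tm l y) : ℝ) : ℂ)‖ ≤ ε' + ε := by
    intro i
    by_cases ho : Own d e l (n i) (v i)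
    · exact ⟨0, fun N _ φ ε' _ _ hn => absurd ho hn⟩
    · have hcond : chi d e g (n i) (v i) l ≠ 1 ∨ ∀ j, j ≠ l → chi d e g (n i) (v i) j ^ q ∉
          Subgroup.closure (((range K).image (s l) : Finset Circle) : Set Circle) := by
        rcases hNON d e g s hS l (n i) (v i) ho with h | h
        · exact Or.inl h
        · exact Or.inr fun j hj hm => h j hj (spi (s l) K q hq hm)
      obtain ⟨N₀, hN₀⟩ := hCHA (chi d e g (n i) (v i)) l q ρ ((range K).image (s l)) hq hρ
        hcond ε hε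
      exact ⟨N₀, fun N hN φ ε' hε' hP _ => hN₀ N hN φ ε' hε' hP⟩
  choose N₀ hN₀ using hex
  refine ⟨∑ i, N₀ i, ?_⟩
  intro N hN φ ε' hε' hP
  have hNi : ∀ i, N₀ i ≤ N := fun i =>
    le_trans (single_le_sum (f := N₀) (fun _ _ => Nat.zero_le _) (mem_univ i)) hN
  have e1 : ((avg3 N (fun y => WW m d e g y * φ (tm l y)) : ℝ) : ℂ) =
      ∑ i, c i * aC N (fun y => ((∏ r, chi d e g (n i) (v i) r ^ y r : Circle) : ℂ) *
        ((φ (tm l y) : ℝ) : ℂ)) := by
    rw [h1, ← h3]
    refine h2 N _ _ fun y hy => ?_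
    have hy1 : y 1 ≤ 2 * y 2 := by
      have := hy.2.2.1
      have := hy.2.2.2.1
      omega
    show (((WW m d e g y * φ (tm l y) : ℝ)) : ℂ) = _
    rw [Complex.ofReal_mul, (hW g y hy1).1, sum_mul]
    refine sum_congr rfl fun i _ => ?_
    ring
  have e2 : ((avg3 N (fun y => WL m d l (range (e l)) (g l) y * φ (tm l y)) : ℝ) : ℂ) =
      ∑ i, (if Own d e l (n i) (v i) then c i else 0) *
        aC N (fun y => ((∏ r, chi d e g (n i) (v i) r ^ y r : Circle) : ℂ) *
        ((φ (tm l y) : ℝ) : ℂ)) := by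
    rw [h1, ← h3]
    refine h2 N _ _ fun y hy => ?_
    have hy1 : y 1 ≤ 2 * y 2 := by
      have := hy.2.2.1
      have := hy.2.2.2.1
      omega
    show (((WL m d l (range (e l)) (g l) y * φ (tm l y) : ℝ)) : ℂ) = _
    rw [Complex.ofReal_mul, (hW g y hy1).2 (fun l₁ l₂ t ht => hS.core l₁ l₂ t ht) l, sum_mul]
    refine sum_congr rfl fun i _ => ?_
    by_cases ho : Own d e l (n i) (v i)
    · simp only [ho, if_true]
      ring
    · simp only [ho, if_false, zero_mul]
  rw [← Real.norm_eq_abs, ← Complex.norm_real, Complex.ofReal_sub, e1, e2, ← sum_sub_distrib]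
  refine (norm_sum_le _ _).trans ?_
  calc ∑ i : Fin k, _ ≤ ∑ _i : Fin k, (ε' + ε) := by
        refine sum_le_sum fun i _ => ?_
        by_cases ho : Own d e l (n i) (v i)
        · simp only [ho, if_true, sub_self, norm_zero]
          linarith
        · simp only [ho, if_false, zero_mul, sub_zero]
          rw [norm_mul]
          have h4 := hN₀ i N (hNi i) φ ε' hε' hP ho
          calc ‖c i‖ * _ ≤ 1 * (ε' + ε) := by
                refine mul_le_mul (hc i) h4 (norm_nonneg _) zero_le_one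
            _ = ε' + ε := one_mul _
    _ = k * (ε' + ε) := by
        rw [sum_const, card_univ, Fintype.card_fin, nsmul_eq_mul]

end Pool.Agent.CLV
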