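import Pool.Agent.CLV.Targets
import Pool.Agent.FSP.Final

set_option autoImplicit false

/-!
# CLV-MEB: means of a function orthogonal to the almost periodic functions
-/

open MeasureTheory Filter Topology Finset

namespace Pool.Agent.CLV

open Pool.Agent.FSP Pool.Agent.Ind3

universe u

namespace MEB_

variable {Ω : Type u} [MeasurableSpace Ω]

theorem cav_le {S : Ω → Ω} {χ : Ω → Circle} {f : Ω → ℝ} (hf : ∀ x, |f x| ≤ 1) (N s : ℕ) (x : Ω) :
    ‖cav S χ f N s x‖ ≤ 1 := by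
  unfold cav
  rw [norm_mul, norm_inv, Complex.norm_natCast]
  rcases Nat.eq_zero_or_pos N with rfl | hN
  · simp
  have h1 : ‖∑ n ∈ range N, (χ x : ℂ) ^ (s + n) * ((f (S^[s + n] x) : ℝ) : ℂ)‖ ≤ N := by
    refine (norm_sum_le _ _).trans ?_
    have h2 : ∀ n ∈ range N, ‖(χ x : ℂ) ^ (s + n) * ((f (S^[s + n] x) : ℝ) : ℂ)‖ ≤ 1 := by
      intro n _
      rw [norm_mul, norm_pow, Circle.norm_coe, one_pow, one_mul, Complex.norm_real]
      exact hf _
    refine (Finset.sum_le_sum h2).trans ?_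
    simp
  have h3 : (0 : ℝ) < N := by exact_mod_cast hN
  calc (N : ℝ)⁻¹ * ‖∑ n ∈ range N, (χ x : ℂ) ^ (s + n) * ((f (S^[s + n] x) : ℝ) : ℂ)‖
      ≤ (N : ℝ)⁻¹ * N := mul_le_mul_of_nonneg_left h1 (by positivity)
    _ = 1 := inv_mul_cancel₀ h3.ne'

theorem cav_shift {S : Ω → Ω} {χ : Ω → Circle} (f : Ω → ℝ) (N : ℕ) (x : Ω)
    (h : χ (S x) = χ x) : (χ x : ℂ) * cav S χ f N 0 (S x) = cav S χ f N 1 x := by
  unfold cav
  rw [mul_left_comm, Finset.mul_sum]
  congr 1
  refine Finset.sum_congr rfl fun n _ => ?_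
  rw [h, zero_add, ← mul_assoc, ← pow_succ', add_comm 1 n, Function.iterate_succ_apply]

theorem ae_zero {μ : Measure Ω} {φ : Ω → ℝ} (h0 : ∀ x, 0 ≤ φ x) (hi : Integrable φ μ)
    (h : ∀ ε : ℝ, 0 < ε → ∫ x, φ x ∂μ ≤ ε) : ∀ᵐ x ∂μ, φ x = 0 := by
  have h1 : ∫ x, φ x ∂μ = 0 :=
    le_antisymm (le_of_forall_gt_imp_ge_of_dense fun ε hε => h ε hε) (integral_nonneg h0)
  exact (integral_eq_zero_iff_of_nonneg h0 hi).1 h1

theorem int_comp {μ : Measure Ω} {S : Ω → Ω} (hS : MeasurePreserving S μ μ) {g : Ω → ℝ}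
    (hg : Measurable g) : ∫ x, g (S x) ∂μ = ∫ x, g x ∂μ := by
  have h := integral_map (μ := μ) hS.aemeasurable (f := g)
    (hg.aestronglyMeasurable)
  rw [hS.map_eq] at h
  exact h.symm

end MEB_

open MEB_ in
theorem p_MEB : T_MEB.{u} := by
  intro Ω _ μ _ Q hQ θ hθ hθQ n r hr hr1 hOrt k a hk ε hε
  set S : Ω → Ω := Q^[k] with hSdef
  have hS : MeasurePreserving S μ μ := hQ.iterate k
  set b : Ω → Circle := fun x => ∏ j ∈ range n, θ j x ^ a j with hbdef
  have hbm : Measurable b := Finset.measurable_prod _ fun j _ => (hθ j).pow_const (a j)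
  have hbQ : ∀ x, b (Q x) = b x := fun x => by simp only [hbdef, hθQ]
  have hbS : ∀ x, b (S x) = b x := fun x => ORT_.inv_iter hbQ k x
  obtain ⟨⟨G, hGm, hGi, hG⟩, hM⟩ :=
    f_MET Ω μ S hS b r hbm (Eventually.of_forall hbS) hr hr1
  have hcm : ∀ N s : ℕ, Measurable fun x => cav S b r N s x := fun N s =>
    SLA_.cav_meas hS.measurable hbm hr N s
  have hci : ∀ N s : ℕ, Integrable (fun x => cav S b r N s x) μ := fun N s =>
    (integrable_const (1 : ℝ)).mono' (hcm N s).aestronglyMeasurable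
      (Eventually.of_forall fun x => cav_le hr1 N s x)
  have hdi : ∀ N s : ℕ, Integrable (fun x => ‖cav S b r N s x - G x‖) μ := fun N s =>
    ((hci N s).sub hGi).norm
  -- the limit is bounded
  have hG1 : ∀ᵐ x ∂μ, ‖G x‖ ≤ 1 := by
    have hi : Integrable (fun x => max (‖G x‖ - 1) 0) μ :=
      (hGi.norm.sub (integrable_const 1)).sup (integrable_const 0)
    have h1 : ∀ᵐ x ∂μ, max (‖G x‖ - 1) 0 = 0 := by
      refine ae_zero (fun x => le_max_right _ _) hi fun e he => ?_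
      obtain ⟨N₀, hN₀⟩ := hG e he
      refine (integral_mono hi (hdi N₀ 0) fun x => ?_).trans (hN₀ N₀ le_rfl 0)
      refine max_le ?_ (norm_nonneg _)
      have h2 := cav_le (S := S) (χ := b) hr1 N₀ 0 x
      have h3 : ‖G x‖ ≤ ‖cav S b r N₀ 0 x‖ + ‖cav S b r N₀ 0 x - G x‖ := by
        have h4 := norm_sub_le (cav S b r N₀ 0 x) (cav S b r N₀ 0 x - G x)
        rwa [sub_sub_cancel] at h4
      linarith
    filter_upwards [h1] with x hx
    have := le_max_left (‖G x‖ - 1) 0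
    linarith
  -- the limit is an eigenfunction
  have hG2 : ∀ᵐ x ∂μ, (b x : ℂ) * G (S x) = G x := by
    have hGS : Integrable (fun x => G (S x)) μ := hS.integrable_comp_of_integrable hGi
    have hco : Continuous (fun z : Circle => (z : ℂ)) := by fun_prop
    have hbc : Measurable fun x => (b x : ℂ) := hco.measurable.comp hbm
    have hi0 : Integrable (fun x => (b x : ℂ) * G (S x)) μ := by
      refine hGS.norm.mono' (hbc.mul (hGm.comp hS.measurable)).aestronglyMeasurable ?_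
      refine Eventually.of_forall fun x => ?_
      rw [norm_mul, Circle.norm_coe, one_mul]
    have h1 : ∀ᵐ x ∂μ, ‖(b x : ℂ) * G (S x) - G x‖ = 0 := by
      refine ae_zero (fun x => norm_nonneg _) (hi0.sub hGi).norm fun e he => ?_
      obtain ⟨N₀, hN₀⟩ := hG (e / 2) (by positivity)
      have e1 := hN₀ N₀ le_rfl 0
      have e2 := hN₀ N₀ le_rfl 1
      have hm : Measurable fun x => ‖cav S b r N₀ 0 x - G x‖ := ((hcm N₀ 0).sub hGm).norm
      have e3 := int_comp hS hm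
      have hi3 : Integrable (fun x => ‖cav S b r N₀ 0 (S x) - G (S x)‖) μ :=
        hS.integrable_comp_of_integrable (hdi N₀ 0)
      have h2 : ∀ x, ‖(b x : ℂ) * G (S x) - G x‖ ≤
          ‖cav S b r N₀ 0 (S x) - G (S x)‖ + ‖cav S b r N₀ 1 x - G x‖ := by
        intro x
        have h3 : (b x : ℂ) * G (S x) - G x =
            -((b x : ℂ) * (cav S b r N₀ 0 (S x) - G (S x))) +
              (cav S b r N₀ 1 x - G x) := by
          rw [← cav_shift r N₀ x (hbS x)]
          ring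
        rw [h3]
        refine (norm_add_le _ _).trans ?_
        rw [norm_neg, norm_mul, Circle.norm_coe, one_mul]
      calc ∫ x, ‖(b x : ℂ) * G (S x) - G x‖ ∂μ
          ≤ ∫ x, (‖cav S b r N₀ 0 (S x) - G (S x)‖ + ‖cav S b r N₀ 1 x - G x‖) ∂μ :=
            integral_mono (hi0.sub hGi).norm (hi3.add (hdi N₀ 1)) h2
        _ = ∫ x, ‖cav S b r N₀ 0 (S x) - G (S x)‖ ∂μ + ∫ x, ‖cav S b r N₀ 1 x - G x‖ ∂μ :=
            integral_add hi3 (hdi N₀ 1)
        _ ≤ e := by rw [e3]; linarith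
    filter_upwards [h1] with x hx
    exact sub_eq_zero.1 (norm_eq_zero.1 hx)
  -- the bounded version
  classical
  set G' : Ω → ℂ := fun x => if ‖G x‖ ≤ 1 then G x else 0 with hG'def
  have hG'm : Measurable G' :=
    Measurable.ite (measurableSet_le hGm.norm measurable_const) hGm measurable_const
  have hG'1 : ∀ x, ‖G' x‖ ≤ 1 := by
    intro x
    simp only [hG'def]
    split_ifs with h
    · exact h
    · simp
  have hG'G : ∀ᵐ x ∂μ, G' x = G x := by
    filter_upwards [hG1] with x hx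
    simp only [hG'def]
    rw [if_pos hx]
  have hG'S : ∀ᵐ x ∂μ, G' (S x) = (((b x)⁻¹ : Circle) : ℂ) * G' x := by
    filter_upwards [hG'G, hS.quasiMeasurePreserving.ae hG'G, hG2] with x h1 h2 h3
    rw [h1, h2, ← h3, ← mul_assoc, ← Circle.coe_mul, inv_mul_cancel, Circle.coe_one, one_mul]
  have hit := ORT_.eig_iter hS (v := G') (lam := fun x => (b x)⁻¹)
    (fun x => by simp only [hbS]) hG'S
  have hAP : ∀ e : ℝ, 0 < e → AP μ Q (FN θ n) e fun x => (G' x).re := by
    intro e he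
    obtain ⟨A, hA⟩ : ∃ A : ℝ, A = 1 + ∑ j : Fin n, |((a j : ℤ) : ℝ)| := ⟨_, rfl⟩
    have hA0 : 0 < A := by
      rw [hA]
      have : 0 ≤ ∑ j : Fin n, |((a j : ℤ) : ℝ)| := Finset.sum_nonneg fun j _ => abs_nonneg _
      linarith
    refine ⟨k, hk, e / A, by positivity, n, fun l => θ l, fun l => ?_, fun m => ?_⟩
    · exact Or.inl ⟨l, l.2, rfl⟩
    · filter_upwards [hit] with x hx hb
      have h1 : Q^[k * m] x = S^[m] x := by rw [Function.iterate_mul]
      rw [h1]
      have h2 : |(G' (S^[m] x)).re - (G' x).re| ≤ ‖G' (S^[m] x) - G' x‖ := by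
        rw [← Complex.sub_re]
        exact Complex.abs_re_le_norm _
      have h3 : G' (S^[m] x) - G' x = ((((b x)⁻¹ ^ m : Circle) : ℂ) - 1) * G' x := by
        rw [hx m]
        ring
      have h4 : ‖(((b x)⁻¹ ^ m : Circle) : ℂ) - 1‖ ≤ A * (e / A) := by
        rw [inv_pow, ORT_.nm_inv]
        have h5 := ORT_.nm_main (1 : Circle) (fun j : Fin n => θ j x) (fun j : Fin n => a j) m
          (e / A) (by simp; positivity) (fun j => hb j)
        rw [one_mul] at h5
        have h6 : b x = ∏ j : Fin n, θ j x ^ a j :=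
          Finset.prod_range fun j => θ j x ^ a j
        rw [h6, hA]
        rw [hA] at h5
        exact h5
      have h7 : A * (e / A) = e := mul_div_cancel₀ e hA0.ne'
      refine h2.trans ?_
      rw [h3, norm_mul]
      calc ‖(((b x)⁻¹ ^ m : Circle) : ℂ) - 1‖ * ‖G' x‖ ≤ (A * (e / A)) * 1 :=
            mul_le_mul h4 (hG'1 x) (norm_nonneg _) (by positivity)
        _ = e := by rw [mul_one, h7]
  have hv0 : ∫ x, r x * (G' x).re ∂μ = 0 :=
    hOrt (fun x => (G' x).re) (Complex.measurable_re.comp hG'm)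
      ⟨1, fun x => (Complex.abs_re_le_norm _).trans (hG'1 x)⟩
      (fun x hx => absurd (Set.mem_univ x) hx) hAP
  -- the end
  obtain ⟨N₁, hN₁⟩ := hG (ε ^ 2 / 2) (by positivity)
  obtain ⟨N₂, hN₂⟩ := hM (ε ^ 2 / 2) (by positivity)
  refine ⟨max N₁ N₂, fun N hN => ?_⟩
  have f1 := hN₁ N ((le_max_left _ _).trans hN) 0
  have f2 := hN₂ N ((le_max_right _ _).trans hN)
  have hrc : Integrable (fun x => r x * (cav S b r N 0 x).re) μ := by
    refine (integrable_const (1 : ℝ)).mono'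
      (hr.mul (Complex.measurable_re.comp (hcm N 0))).aestronglyMeasurable
      (Eventually.of_forall fun x => ?_)
    rw [Real.norm_eq_abs, abs_mul]
    exact mul_le_one₀ (hr1 x) (abs_nonneg _)
      ((Complex.abs_re_le_norm _).trans (cav_le hr1 N 0 x))
  have hrG : Integrable (fun x => r x * (G' x).re) μ := by
    refine (integrable_const (1 : ℝ)).mono'
      (hr.mul (Complex.measurable_re.comp hG'm)).aestronglyMeasurable
      (Eventually.of_forall fun x => ?_)
    rw [Real.norm_eq_abs, abs_mul]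
    exact mul_le_one₀ (hr1 x) (abs_nonneg _) ((Complex.abs_re_le_norm _).trans (hG'1 x))
  have f3 : ∫ x, r x * (cav S b r N 0 x).re ∂μ ≤ ε ^ 2 / 2 := by
    have g1 : ∫ x, r x * (cav S b r N 0 x).re ∂μ - ∫ x, r x * (G' x).re ∂μ ≤
        ∫ x, ‖cav S b r N 0 x - G x‖ ∂μ := by
      rw [← integral_sub hrc hrG]
      refine integral_mono_ae (hrc.sub hrG) (hdi N 0) ?_
      filter_upwards [hG'G] with x hx
      show r x * (cav S b r N 0 x).re - r x * (G' x).re ≤ ‖cav S b r N 0 x - G x‖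
      rw [hx, ← mul_sub, ← Complex.sub_re]
      refine (le_abs_self _).trans ?_
      rw [abs_mul]
      refine (mul_le_mul (hr1 x) (Complex.abs_re_le_norm _) (abs_nonneg _) zero_le_one).trans ?_
      rw [one_mul]
    linarith
  have hsq : Integrable (fun x => ‖cav S b r N 0 x‖ ^ 2) μ := by
    refine (integrable_const (1 : ℝ)).mono' ((hcm N 0).norm.pow_const 2).aestronglyMeasurable
      (Eventually.of_forall fun x => ?_)
    rw [Real.norm_eq_abs, abs_pow, abs_of_nonneg (norm_nonneg _)]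
    exact pow_le_one₀ (norm_nonneg _) (cav_le hr1 N 0 x)
  have f4 : ∫ x, ‖cav S b r N 0 x‖ ∂μ ≤
      ∫ x, (ε / 2 + (2 * ε)⁻¹ * ‖cav S b r N 0 x‖ ^ 2) ∂μ := by
    refine integral_mono (hci N 0).norm
      ((integrable_const _).add (hsq.const_mul _)) fun x => ?_
    show ‖cav S b r N 0 x‖ ≤ ε / 2 + (2 * ε)⁻¹ * ‖cav S b r N 0 x‖ ^ 2
    have h1 : ε / 2 + (2 * ε)⁻¹ * ‖cav S b r N 0 x‖ ^ 2 - ‖cav S b r N 0 x‖ =
        (2 * ε)⁻¹ * (‖cav S b r N 0 x‖ - ε) ^ 2 := by
      field_simp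
      ring
    have h2 : 0 ≤ (2 * ε)⁻¹ * (‖cav S b r N 0 x‖ - ε) ^ 2 := by positivity
    linarith
  rw [integral_add (integrable_const _) (hsq.const_mul _), integral_const_mul] at f4
  have f5 : ∫ _x : Ω, ε / 2 ∂μ = ε / 2 := by simp
  rw [f5] at f4
  have f6 : (2 * ε)⁻¹ * ∫ x, ‖cav S b r N 0 x‖ ^ 2 ∂μ ≤ (2 * ε)⁻¹ * (ε ^ 2) :=
    mul_le_mul_of_nonneg_left (by linarith) (by positivity)
  have f7 : (2 * ε)⁻¹ * (ε ^ 2) = ε / 2 := by
    field_simp
  linarith

end Pool.Agent.CLV
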