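import Pool.Agent.CLV.Targets

set_option autoImplicit false

/-!
# CLV, target MEX: measurability (MP_cfac66_an)
-/

open MeasureTheory Filter Topology Finset

namespace Pool.Agent.CLV

open Pool.Agent.FSP Pool.Agent.Ind3

universe u

namespace MEX_

/-- exponents with finite support are enough -/
theorem fin (e : ℕ) (a : ℕ → ℤ) : ∃ b : ℕ →₀ ℤ, ∀ t < e, b t = a t := by
  refine ⟨Finsupp.onFinset (range e) (fun t => if t < e then a t else 0) ?_, ?_⟩
  · intro t ht
    by_contra hn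
    rw [Finset.mem_range] at hn
    exact ht (if_neg hn)
  · intro t ht
    rw [Finsupp.onFinset_apply, if_pos ht]

variable {Ω : Type u} [MeasurableSpace Ω]

theorem eqm {f g : Ω → Circle} (hf : Measurable f) (hg : Measurable g) :
    Measurable fun x => f x = g x := by
  rw [← measurableSet_setOfPred]
  have h : {x | f x = g x} = (fun x => f x * (g x)⁻¹) ⁻¹' {1} := by
    ext x
    simp only [Set.mem_ofPred_eq, Set.mem_preimage, Set.mem_singleton_iff]
    rw [mul_inv_eq_one]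
  rw [h]
  exact (hf.mul hg.inv) (measurableSet_singleton 1)

theorem mon {s : ℕ → Ω → Circle} (hs : ∀ j, Measurable (s j)) (J : Finset ℕ) (a : ℕ → ℤ) :
    Measurable fun x => ∏ j ∈ J, s j x ^ a j :=
  Finset.measurable_fun_prod J fun j _ => (hs j).pow_const (a j)

theorem sp_iff (s : ℕ → Circle) (n : ℕ) (z : Circle) :
    Sp s n z ↔ ∃ k : ℕ, 1 ≤ k ∧ ∃ a : ℕ →₀ ℤ, z ^ k = ∏ j ∈ range n, s j ^ a j := by
  constructor
  · rintro ⟨k, hk, a, ha⟩
    obtain ⟨b, hb⟩ := fin n a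
    refine ⟨k, hk, b, ha.trans (Finset.prod_congr rfl fun j hj => ?_)⟩
    rw [hb j (Finset.mem_range.1 hj)]
  · rintro ⟨k, hk, a, ha⟩
    exact ⟨k, hk, a, ha⟩

theorem sp {s : ℕ → Ω → Circle} (hs : ∀ j, Measurable (s j)) (n : ℕ) {Z : Ω → Circle}
    (hZ : Measurable Z) : Measurable fun x => Sp (fun j => s j x) n (Z x) := by
  have e : (fun x => Sp (fun j => s j x) n (Z x)) = fun x => ∃ k : ℕ, 1 ≤ k ∧
      ∃ a : ℕ →₀ ℤ, Z x ^ k = ∏ j ∈ range n, s j x ^ a j := by
    funext x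
    exact propext (sp_iff _ _ _)
  rw [e]
  refine Measurable.exists fun k => measurable_const.and (Measurable.exists fun a => ?_)
  exact eqm (hZ.pow_const k) (mon hs _ _)

theorem spI {s : ℕ → Ω → Circle} (hs : ∀ j, Measurable (s j)) {Z : Ω → Circle}
    (hZ : Measurable Z) : Measurable fun x => SpI (fun j => s j x) (Z x) :=
  Measurable.exists fun n => sp hs n hZ

theorem str_iff (d : ℕ) (e : Fin 3 → ℕ) (g s : Fin 3 → ℕ → Circle) : Str d e g s ↔
    (∀ l, d ≤ e l) ∧ (∀ l l' : Fin 3, ∀ t : ℕ, t < d → g l t = g l' t) ∧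
    (∀ (l : Fin 3) (a : ℕ →₀ ℤ), ∏ t ∈ range (e l), g l t ^ a t = 1 → ∀ t < e l, a t = 0) ∧
    (∀ (l : Fin 3) (t : ℕ), t < e l → SpI (s l) (g l t)) ∧
    ∀ (i j l : Fin 3), (i ≠ j ∧ i ≠ l ∧ j ≠ l) → ∀ a : ℕ →₀ ℤ,
      Sp (g j) (e j) (∏ t ∈ Ico d (e i), g i t ^ a t) →
      SpI (s l) (∏ t ∈ Ico d (e i), g i t ^ a t) → ∀ t, d ≤ t → t < e i → a t = 0 := by
  constructor
  · rintro ⟨h1, h2, h3, h4, h5⟩
    exact ⟨h1, fun l l' t ht => h2 l l' t ht, fun l a ha => h3 l a ha,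
      fun l t ht => h4 l t ht, fun i j l h a => h5 i j l h.1 h.2.1 h.2.2 a⟩
  · rintro ⟨h1, h2, h3, h4, h5⟩
    refine ⟨h1, fun l l' t ht => h2 l l' t ht, ?_, fun l t ht => h4 l t ht, ?_⟩
    · intro l a ha t ht
      obtain ⟨b, hb⟩ := fin (e l) a
      rw [← hb t ht]
      refine h3 l b ?_ t ht
      rw [← ha]
      exact Finset.prod_congr rfl fun j hj => by rw [hb j (Finset.mem_range.1 hj)]
    · intro i j l hij hil hjl a ha1 ha2 t ht1 ht2
      obtain ⟨b, hb⟩ := fin (e i) a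
      have e1 : ∏ t ∈ Ico d (e i), g i t ^ b t = ∏ t ∈ Ico d (e i), g i t ^ a t :=
        Finset.prod_congr rfl fun j hj => by rw [hb j (Finset.mem_Ico.1 hj).2]
      rw [← hb t ht2]
      refine h5 i j l ⟨hij, hil, hjl⟩ b ?_ ?_ t ht1 ht2
      · rw [e1]
        exact ha1
      · rw [e1]
        exact ha2

end MEX_

open MEX_ in
/-- **MEX** -/
theorem p_MEX : T_MEX.{u} := by
  intro Ω _ θ ζ hθ hζ d e
  rw [measurableSet_setOfPred]
  have e0 : (fun x => Str d e (sv ζ x) (sv θ x)) = fun x =>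
      (∀ l, d ≤ e l) ∧ (∀ l l' : Fin 3, ∀ t : ℕ, t < d → ζ l t x = ζ l' t x) ∧
      (∀ (l : Fin 3) (a : ℕ →₀ ℤ), ∏ t ∈ range (e l), ζ l t x ^ a t = 1 →
        ∀ t < e l, a t = 0) ∧
      (∀ (l : Fin 3) (t : ℕ), t < e l → SpI (fun j => θ l j x) (ζ l t x)) ∧
      ∀ (i j l : Fin 3), (i ≠ j ∧ i ≠ l ∧ j ≠ l) → ∀ a : ℕ →₀ ℤ,
        Sp (fun t => ζ j t x) (e j) (∏ t ∈ Ico d (e i), ζ i t x ^ a t) →
        SpI (fun j => θ l j x) (∏ t ∈ Ico d (e i), ζ i t x ^ a t) →
        ∀ t, d ≤ t → t < e i → a t = 0 := by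
    funext x
    exact propext (str_iff d e (sv ζ x) (sv θ x))
  rw [e0]
  refine measurable_const.and (Measurable.and ?_ (Measurable.and ?_ (Measurable.and ?_ ?_)))
  · exact Measurable.forall fun l => Measurable.forall fun l' => Measurable.forall fun t =>
      measurable_const.imp (eqm (hζ l t) (hζ l' t))
  · exact Measurable.forall fun l => Measurable.forall fun a =>
      (eqm (mon (hζ l) _ _) measurable_const).imp measurable_const
  · exact Measurable.forall fun l => Measurable.forall fun t =>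
      measurable_const.imp (spI (hθ l) (hζ l t))
  · exact Measurable.forall fun i => Measurable.forall fun j => Measurable.forall fun l =>
      measurable_const.imp (Measurable.forall fun a =>
        (sp (hζ j) _ (mon (hζ i) _ _)).imp ((spI (hθ l) (mon (hζ i) _ _)).imp
          measurable_const))

end Pool.Agent.CLV
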