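import Pool.Agent.CLV.Targets

set_option autoImplicit false

/-!
# CLV-MRI: comparison of the integrals of the two weights
-/

open MeasureTheory Filter Topology Finset

namespace Pool.Agent.CLV

open Pool.Agent.FSP Pool.Agent.Ind3

universe u

namespace MRI_

section

variable {Ω : Type u} [MeasurableSpace Ω]

/-- The weighted averages at the moved point are integrable. -/
theorem int_avg (μ : Measure Ω) [IsFiniteMeasure μ] {U : Ω → (Fin 3 → ℕ) → ℝ} {B : ℝ}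
    (hU : ∀ y, Measurable fun x => U x y) (hU0 : ∀ x y, 0 ≤ U x y) (hUB : ∀ x y, U x y ≤ B)
    (hB : 0 ≤ B) {Q : Ω → Ω} (hQ : ∀ k, Measurable (Q^[k])) (q : ℕ) (l : Fin 3) (N : ℕ)
    {F : Ω → ℝ} (hF : Measurable F) (hF0 : ∀ x, 0 ≤ F x) (hF1 : ∀ x, F x ≤ 1) :
    Integrable (fun x => avg3 N (fun y => U x y * F (Q^[q * tm l y] x))) μ := by
  refine ERA_bint _ _ B (ERA_avg_meas N (fun y x => U x y * F (Q^[q * tm l y] x)) fun y =>
    (hU y).mul (hF.comp (hQ _))) fun x => ?_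
  rw [abs_of_nonneg (ERA_avg_nonneg fun y => mul_nonneg (hU0 x y) (hF0 _))]
  refine ERA_avg_le hB fun y => ?_
  calc U x y * F (Q^[q * tm l y] x) ≤ B * 1 := mul_le_mul (hUB x y) (hF1 _) (hF0 _) hB
    _ = B := mul_one _

/-- The error at the moved point. -/
theorem err (μ : Measure Ω) [IsProbabilityMeasure μ] {U : Ω → (Fin 3 → ℕ) → ℝ} {B : ℝ}
    (hU : ∀ y, Measurable fun x => U x y) (hU0 : ∀ x y, 0 ≤ U x y) (hUB : ∀ x y, U x y ≤ B)
    (hB : 0 ≤ B) {Q : Ω → Ω} (hQ : MeasurePreserving Q μ μ) (q : ℕ) (l : Fin 3) (N : ℕ)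
    (X : Set Ω) {D : Ω → ℝ} (hD : Measurable D) (hD0 : ∀ x, 0 ≤ D x) (hD1 : ∀ x, D x ≤ 1)
    {η : ℝ} (hη0 : 0 ≤ η) (hη : ∫ x, D x ∂μ ≤ η) :
    ∫ x in X, avg3 N (fun y => U x y * D (Q^[q * tm l y] x)) ∂μ ≤ B * η := by
  have hQk : ∀ k, MeasurePreserving (Q^[k]) μ μ := fun k => hQ.iterate k
  have hQm : ∀ k, Measurable (Q^[k]) := fun k => (hQk k).measurable
  have iy : ∀ y, Integrable (fun x => U x y * D (Q^[q * tm l y] x)) (μ.restrict X) := by
    intro y
    refine ERA_bint _ _ B ((hU y).mul (hD.comp (hQm _))) fun x => ?_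
    rw [abs_of_nonneg (mul_nonneg (hU0 x y) (hD0 _))]
    calc U x y * D (Q^[q * tm l y] x) ≤ B * 1 := mul_le_mul (hUB x y) (hD1 _) (hD0 _) hB
      _ = B := mul_one _
  rw [ERA_avg_int (μ.restrict X) N (fun y x => U x y * D (Q^[q * tm l y] x)) iy]
  refine ERA_avg_le (mul_nonneg hB hη0) fun y => ?_
  have iD : Integrable D μ := by
    refine ERA_bint μ _ 1 hD fun x => ?_
    rw [abs_of_nonneg (hD0 x)]
    exact hD1 x
  have iDk : Integrable (fun x => D (Q^[q * tm l y] x)) μ :=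
    (hQk (q * tm l y)).integrable_comp_of_integrable iD
  calc ∫ x in X, U x y * D (Q^[q * tm l y] x) ∂μ
      ≤ ∫ x in X, B * D (Q^[q * tm l y] x) ∂μ := by
        refine integral_mono (iy y) (iDk.integrableOn.const_mul _) fun x => ?_
        exact mul_le_mul_of_nonneg_right (hUB x y) (hD0 _)
    _ ≤ ∫ x, B * D (Q^[q * tm l y] x) ∂μ := by
        refine setIntegral_le_integral (iDk.const_mul _) ?_
        exact Filter.Eventually.of_forall fun x => mul_nonneg hB (hD0 _)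
    _ = B * ∫ x, D x ∂μ := by
        rw [integral_const_mul]
        congr 1
        have := (hQk (q * tm l y)).map_eq
        conv_rhs => rw [← this]
        rw [integral_map (hQm _).aemeasurable hD.aestronglyMeasurable]
    _ ≤ B * η := mul_le_mul_of_nonneg_left hη hB

/-- Replacing the function by an approximation. -/
theorem cmp (μ : Measure Ω) [IsProbabilityMeasure μ] {U : Ω → (Fin 3 → ℕ) → ℝ} {B : ℝ}
    (hU : ∀ y, Measurable fun x => U x y) (hU0 : ∀ x y, 0 ≤ U x y) (hUB : ∀ x y, U x y ≤ B)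
    (hB : 0 ≤ B) {Q : Ω → Ω} (hQ : MeasurePreserving Q μ μ) (q : ℕ) (l : Fin 3) (N : ℕ)
    (X : Set Ω) {f p : Ω → ℝ} (hf : Measurable f) (hf0 : ∀ x, 0 ≤ f x) (hf1 : ∀ x, f x ≤ 1)
    (hp : Measurable p) (hp0 : ∀ x, 0 ≤ p x) (hp1 : ∀ x, p x ≤ 1)
    {η : ℝ} (hη0 : 0 ≤ η) (hη : ∫ x, |f x - p x| ∂μ ≤ η) :
    ∫ x in X, avg3 N (fun y => U x y * f (Q^[q * tm l y] x)) ∂μ ≤
      ∫ x in X, avg3 N (fun y => U x y * p (Q^[q * tm l y] x)) ∂μ + B * η := by
  have hQm : ∀ k, Measurable (Q^[k]) := fun k => (hQ.iterate k).measurable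
  have hD : Measurable fun x => |f x - p x| := (hf.sub hp).abs
  have hD1 : ∀ x, |f x - p x| ≤ 1 := by
    intro x
    rw [abs_le]
    constructor <;> linarith [hf0 x, hf1 x, hp0 x, hp1 x]
  have h1 := err μ hU hU0 hUB hB hQ q l N X hD (fun x => abs_nonneg _) hD1 hη0 hη
  have jf := int_avg (μ.restrict X) hU hU0 hUB hB hQm q l N hf hf0 hf1
  have jp := int_avg (μ.restrict X) hU hU0 hUB hB hQm q l N hp hp0 hp1
  have jD := int_avg (μ.restrict X) hU hU0 hUB hB hQm q l N hD (fun x => abs_nonneg _) hD1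
  have h2 : ∫ x in X, avg3 N (fun y => U x y * f (Q^[q * tm l y] x)) ∂μ ≤
      ∫ x in X, avg3 N (fun y => U x y * p (Q^[q * tm l y] x)) ∂μ +
      ∫ x in X, avg3 N (fun y => U x y * |f (Q^[q * tm l y] x) - p (Q^[q * tm l y] x)|) ∂μ := by
    rw [← integral_add jp jD]
    refine integral_mono jf (jp.add jD) fun x => ?_
    show avg3 N (fun y => U x y * f (Q^[q * tm l y] x)) ≤
      avg3 N (fun y => U x y * p (Q^[q * tm l y] x)) +
      avg3 N (fun y => U x y * |f (Q^[q * tm l y] x) - p (Q^[q * tm l y] x)|)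
    rw [← ERA_avg_add]
    refine ERA_avg_mono fun y => ?_
    rw [← mul_add]
    refine mul_le_mul_of_nonneg_left ?_ (hU0 _ _)
    have := le_abs_self (f (Q^[q * tm l y] x) - p (Q^[q * tm l y] x))
    linarith
  exact h2.trans (add_le_add_right h1 _)

omit [MeasurableSpace Ω] in
open Classical in
/-- The almost periodicity along the orbit. -/
theorem pp (Q : Ω → Ω) (θ : ℕ → Ω → Circle) (P : Ω → ℝ) (hP0 : ∀ x, 0 ≤ P x)
    (hP1 : ∀ x, P x ≤ 1) (q q' K : ℕ) (ρ e : ℝ) (hq : 1 ≤ q) (x : Ω)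
    (h1 : ∀ t h : ℕ, (∀ j < K, ‖(θ j x : ℂ) ^ h - 1‖ ≤ ρ) →
      |P (Q^[t + q' * h] x) - P (Q^[t] x)| ≤ e) :
    PP q' (ρ / q) ((range K).image fun j => θ j x) e 0 (fun t => P (Q^[q * t] x)) := by
  have hqr : (0 : ℝ) < q := by exact_mod_cast hq
  constructor
  · intro y
    rw [abs_of_nonneg (hP0 _)]
    exact hP1 _
  · intro y h _ hz
    have h3 : q * (y + q' * h) = q * y + q' * (q * h) := by ring
    show |P (Q^[q * (y + q' * h)] x) - P (Q^[q * y] x)| ≤ e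
    rw [h3]
    refine h1 _ _ fun j hj => ?_
    refine le_trans (ERA_pow_norm _ _ _) ?_
    have h4 := hz (θ j x) (Finset.mem_image.2 ⟨j, Finset.mem_range.2 hj, rfl⟩)
    rw [le_div_iff₀ hqr] at h4
    linarith

theorem zeta_meas {θ : Fin 3 → ℕ → Ω → Circle} (hθ : ∀ l j, Measurable (θ l j))
    {n : Fin 3 → ℕ} {d : ℕ} {e : Fin 3 → ℕ} {a : Fin 3 → ℕ → ℕ → ℤ} {q₀ : ℕ}
    {b : Fin 3 → ℕ → ℕ → ℤ} {ζ : Fin 3 → ℕ → Ω → Circle} {X : Set Ω}
    (h : Sel θ n d e a q₀ b ζ X) (l : Fin 3) (t : ℕ) : Measurable (ζ l t) := by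
  have h1 : ζ l t = fun x => ∏ j ∈ range (n l), θ l j x ^ a l t j := funext (h.zet l t)
  rw [h1]
  refine Finset.measurable_prod _ fun j _ => ?_
  exact (continuous_zpow (a l t j)).measurable.comp (hθ l j)

end

end MRI_

open MRI_ in
theorem p_MRI (hWBC : T_WBC) (hMAR : T_MAR) : T_MRI.{u} := by
  intro Ω _ μ _ θ hθ n d e a q₀ b ζ X hSel l Q hQ hθQ f hf hf0 hf1 hAPL m q hm hq ε hε
  obtain ⟨B, hB1, hW, hWm, hV, hVm⟩ := hWBC m d e hm
  obtain ⟨C, hC0, hC⟩ := hMAR m d e hm hSel.le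
  have hB0 : 0 < B := by linarith
  obtain ⟨η, hη⟩ : ∃ η : ℝ, η = ε / (6 * B) := ⟨_, rfl⟩
  have hη0 : 0 < η := by rw [hη]; positivity
  have hBη : 2 * (B * η) = ε / 3 := by rw [hη]; field_simp; ring
  obtain ⟨δ, hδ⟩ : ∃ δ : ℝ, δ = ε / (6 * (C + 1)) := ⟨_, rfl⟩
  have hδ0 : 0 < δ := by rw [hδ]; positivity
  have hCδ : C * (δ + δ) ≤ ε / 3 := by
    have h1 : (C + 1) * (δ + δ) = ε / 3 := by rw [hδ]; field_simp; ring
    nlinarith
  obtain ⟨P, hPm, hP0, hP1, hfP, hAP⟩ := hAPL η hη0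
  obtain ⟨q', K, ρ, hq', hρ, hx⟩ := f_APX Ω μ Q hQ (θ l) (hθ l) hθQ _ _ (hAP δ hδ0)
  have hζ : ∀ l j, Measurable (ζ l j) := zeta_meas hθ hSel
  have hQm : ∀ k, Measurable (Q^[k]) := fun k => (hQ.iterate k).measurable
  -- the weights
  have hWmeas : ∀ y, Measurable fun x => WW m d e (sv ζ x) y :=
    fun y => (hWm y).comp (ERA_sv_meas ζ hζ)
  have hVmeas : ∀ y, Measurable fun x => WL m d l (range (e l)) (sv ζ x l) y :=
    fun y => ((hVm l (range (e l))).2 y).comp (ERA_sv_meas1 ζ hζ l)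
  have hW0 : ∀ x y, 0 ≤ WW m d e (sv ζ x) y := fun x y => (hW _ y).1
  have hWB : ∀ x y, WW m d e (sv ζ x) y ≤ B := fun x y => (hW _ y).2
  have hV0 : ∀ x y, 0 ≤ WL m d l (range (e l)) (sv ζ x l) y := fun x y => (hV l _ y).1
  have hVB : ∀ x y, WL m d l (range (e l)) (sv ζ x l) y ≤ B := fun x y => (hV l _ y).2
  have step : ∃ N₀ : ℕ, ∀ N ≥ N₀,
      ∫ x in X, (avg3 N (fun y => WW m d e (sv ζ x) y * P (Q^[q * tm l y] x)) -
        avg3 N (fun y => WL m d l (range (e l)) (sv ζ x l) y * P (Q^[q * tm l y] x))) ∂μ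
      ≤ ∫ x in X, (C * (δ + δ)) ∂μ + ε / 3 := by
    refine f_LSU Ω μ (fun N x =>
      avg3 N (fun y => WW m d e (sv ζ x) y * P (Q^[q * tm l y] x)) -
        avg3 N (fun y => WL m d l (range (e l)) (sv ζ x l) y * P (Q^[q * tm l y] x)))
      (2 * B) (fun _ => C * (δ + δ)) X ?_ ?_ (integrable_const _) hSel.mX ?_ (ε / 3)
      (by positivity)
    · intro N
      exact (ERA_avg_meas N (fun y x => WW m d e (sv ζ x) y * P (Q^[q * tm l y] x)) fun y =>
        (hWmeas y).mul (hPm.comp (hQm _))).sub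
        (ERA_avg_meas N (fun y x => WL m d l (range (e l)) (sv ζ x l) y *
          P (Q^[q * tm l y] x)) fun y => (hVmeas y).mul (hPm.comp (hQm _)))
    · intro N x
      have b1 : 0 ≤ avg3 N (fun y => WW m d e (sv ζ x) y * P (Q^[q * tm l y] x)) :=
        ERA_avg_nonneg fun y => mul_nonneg (hW0 _ _) (hP0 _)
      have b2 : 0 ≤ avg3 N (fun y => WL m d l (range (e l)) (sv ζ x l) y *
          P (Q^[q * tm l y] x)) :=
        ERA_avg_nonneg fun y => mul_nonneg (hV0 _ _) (hP0 _)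
      have b3 : avg3 N (fun y => WW m d e (sv ζ x) y * P (Q^[q * tm l y] x)) ≤ B := by
        refine ERA_avg_le hB0.le fun y => ?_
        calc WW m d e (sv ζ x) y * P (Q^[q * tm l y] x) ≤ B * 1 :=
              mul_le_mul (hWB x y) (hP1 _) (hP0 _) hB0.le
          _ = B := mul_one _
      have b4 : avg3 N (fun y => WL m d l (range (e l)) (sv ζ x l) y *
          P (Q^[q * tm l y] x)) ≤ B := by
        refine ERA_avg_le hB0.le fun y => ?_
        calc WL m d l (range (e l)) (sv ζ x l) y * P (Q^[q * tm l y] x) ≤ B * 1 :=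
              mul_le_mul (hVB x y) (hP1 _) (hP0 _) hB0.le
          _ = B := mul_one _
      rw [abs_le]
      constructor <;> linarith
    · filter_upwards [hx] with x hx1 hxX t ht
      have hqr : (0 : ℝ) < q := by exact_mod_cast hq
      obtain ⟨N₀, hN₀⟩ := hC (sv ζ x) (sv θ x) (hSel.str x hxX) l q' K (ρ / q) hq'
        (by positivity) δ hδ0
      refine ⟨N₀, fun N hN => ?_⟩
      have h2 := pp Q (θ l) P hP0 hP1 q q' K ρ δ hq x hx1
      have h3 := hN₀ N hN (fun t => P (Q^[q * t] x)) δ hδ0.le h2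
      have h4 := (abs_le.1 h3).2
      have h5 : avg3 N (fun y => WW m d e (sv ζ x) y * P (Q^[q * tm l y] x)) -
        avg3 N (fun y => WL m d l (range (e l)) (sv ζ x l) y * P (Q^[q * tm l y] x))
          ≤ C * (δ + δ) := h4
      show avg3 N (fun y => WW m d e (sv ζ x) y * P (Q^[q * tm l y] x)) -
        avg3 N (fun y => WL m d l (range (e l)) (sv ζ x l) y * P (Q^[q * tm l y] x))
          ≤ C * (δ + δ) + t
      linarith
  obtain ⟨N₀, hN₀⟩ := step
  refine ⟨N₀, fun N hN => ?_⟩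
  have h2 := hN₀ N hN
  have jW := int_avg (μ.restrict X) hWmeas hW0 hWB hB0.le hQm q l N hPm hP0 hP1
  have jV := int_avg (μ.restrict X) hVmeas hV0 hVB hB0.le hQm q l N hPm hP0 hP1
  rw [integral_sub jW jV] at h2
  have h2' : ∫ x in X, (C * (δ + δ)) ∂μ ≤ C * (δ + δ) := by
    rw [integral_const, smul_eq_mul]
    have hG1 : (μ.restrict X).real Set.univ ≤ 1 := by
      rw [Measure.real, Measure.restrict_apply_univ]
      exact measureReal_le_one
    have : 0 ≤ C * (δ + δ) := by positivity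
    nlinarith
  have h1 := cmp μ hWmeas hW0 hWB hB0.le hQ q l N X hf hf0 hf1 hPm hP0 hP1 hη0.le hfP
  have hPf : ∫ x, |P x - f x| ∂μ ≤ η := by
    refine le_trans (le_of_eq ?_) hfP
    refine integral_congr_ae (Filter.Eventually.of_forall fun x => ?_)
    exact abs_sub_comm _ _
  have h3 := cmp μ hVmeas hV0 hVB hB0.le hQ q l N X hPm hP0 hP1 hf hf0 hf1 hη0.le hPf
  linarith

end Pool.Agent.CLV
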