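import Pool.Agent.CLV.Targets

set_option autoImplicit false

/-!
# CLV, target MXF: maximal independent families
-/

open Finset

namespace Pool.Agent.CLV

namespace MXF_

/-- the families of length `e` -/
def P (C : Circle → Prop) (d : ℕ) (κ : ℕ → Circle) (e : ℕ) : Prop :=
  d ≤ e ∧ ∃ g : ℕ → Circle, (∀ t < d, g t = κ t) ∧ (∀ t, d ≤ t → t < e → C (g t)) ∧ Indp g e

/-- a relation with `z` -/
lemma rel {g : ℕ → Circle} {e : ℕ} {z : Circle} {a : ℕ → ℤ} {c : ℤ} (hc : c ≠ 0)
    (h : (∏ t ∈ range e, g t ^ a t) * z ^ c = 1) : Sp g e z := by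
  have h1 : z ^ c = ∏ t ∈ range e, g t ^ (-a t) := by
    have h2 : z ^ c = (∏ t ∈ range e, g t ^ a t)⁻¹ := (inv_eq_of_mul_eq_one_right h).symm
    rw [h2, ← Finset.prod_inv_distrib]
    exact Finset.prod_congr rfl fun t _ => (zpow_neg _ _).symm
  rcases lt_or_gt_of_ne hc with h3 | h3
  · refine ⟨c.natAbs, by omega, a, ?_⟩
    have h4 : ((c.natAbs : ℕ) : ℤ) = -c := by omega
    rw [← zpow_natCast, h4, zpow_neg, h1, ← Finset.prod_inv_distrib]
    refine Finset.prod_congr rfl fun t _ => ?_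
    rw [zpow_neg, inv_inv]
  · refine ⟨c.natAbs, by omega, fun t => -a t, ?_⟩
    have h4 : ((c.natAbs : ℕ) : ℤ) = c := by omega
    rw [← zpow_natCast, h4, h1]

/-- the family is extended by `z` -/
lemma ext_P {C : Circle → Prop} {d : ℕ} {κ : ℕ → Circle} {e : ℕ} {g : ℕ → Circle} {z : Circle}
    (hd : d ≤ e) (h1 : ∀ t < d, g t = κ t) (h2 : ∀ t, d ≤ t → t < e → C (g t)) (h3 : Indp g e)
    (hz : C z) (hs : ¬ Sp g e z) : P C d κ (e + 1) := by
  refine ⟨by omega, Function.update g e z, fun t ht => ?_, fun t ht1 ht2 => ?_, fun a ha => ?_⟩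
  · rw [Function.update_of_ne (by omega)]
    exact h1 t ht
  · by_cases he : t = e
    · subst he
      rw [Function.update_self]
      exact hz
    · rw [Function.update_of_ne he]
      exact h2 t ht1 (by omega)
  · rw [prod_range_succ, Function.update_self] at ha
    have h4 : ∏ t ∈ range e, Function.update g e z t ^ a t = ∏ t ∈ range e, g t ^ a t := by
      refine Finset.prod_congr rfl fun t ht => ?_
      rw [Finset.mem_range] at ht
      rw [Function.update_of_ne (by omega)]
    rw [h4] at ha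
    have h5 : a e = 0 := by
      by_contra h6
      exact hs (rel h6 ha)
    rw [h5, zpow_zero, mul_one] at ha
    intro t ht
    by_cases he : t = e
    · rw [he]
      exact h5
    · exact h3 a ha t (by omega)

end MXF_

open MXF_ in
theorem p_MXF : T_RNK → T_MXF := by
  intro hR s n C hC d κ hκ hI
  have hb : ∀ e, P C d κ e → e ≤ n := by
    rintro e ⟨hd, g, h1, h2, h3⟩
    refine hR s n g e (fun t ht => ?_) h3
    by_cases h4 : t < d
    · rw [h1 t h4]
      exact hκ t h4
    · exact hC _ (h2 t (by omega) ht)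
  have hne : {e | P C d κ e}.Nonempty :=
    ⟨d, le_rfl, κ, fun _ _ => rfl, fun t h1 h2 => absurd h2 (by omega), hI⟩
  have hbd : BddAbove {e | P C d κ e} := ⟨n, fun e he => hb e he⟩
  obtain ⟨hd, g, h1, h2, h3⟩ := Nat.sSup_mem hne hbd
  refine ⟨sSup {e | P C d κ e}, g, hd, h1, h2, h3, fun z hz => ?_⟩
  by_contra hs
  have h4 : P C d κ (sSup {e | P C d κ e} + 1) := ext_P hd h1 h2 h3 hz hs
  have h5 := le_csSup hbd h4
  omega

end Pool.Agent.CLV
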