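import Pool.Agent.CLV.Targets
import Pool.Agent.Ind3.P_TAI

set_option autoImplicit false

/-!
# CLV: NEA, the selected values are near `1` in the mean (helper17)
-/

open MeasureTheory Filter Topology Finset

namespace Pool.Agent.CLV

open Pool.Agent.FSP Pool.Agent.Ind3
open Pool.Agent.Ind3.TAI_ (c_mul c_inv)

namespace NEA_

/-! ### Means -/

theorem mean_le {N s : ℕ} {f g : ℕ → ℝ} (h : ∀ n < N, f (s + n) ≤ g (s + n)) :
    mean N s f ≤ mean N s g := by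
  unfold mean
  refine mul_le_mul_of_nonneg_left (sum_le_sum fun n hn => h n (mem_range.1 hn)) (by positivity)

theorem mean_cmul (N s : ℕ) (c : ℝ) (f : ℕ → ℝ) :
    mean N s (fun n => c * f n) = c * mean N s f := by
  unfold mean
  rw [← mul_sum]
  ring

theorem avg_le {N : ℕ} {F G : (Fin 3 → ℕ) → ℝ} (h : ∀ y, y 1 ≤ 2 * y 2 → F y ≤ G y) :
    avg3 N F ≤ avg3 N G := by
  unfold avg3
  refine mean_le fun a _ => mean_le fun b hb => mean_le fun c hc => h _ ?_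
  change 0 + b ≤ 2 * (3 * N + c)
  omega

theorem avg_cmul (N : ℕ) (c : ℝ) (F : (Fin 3 → ℕ) → ℝ) :
    avg3 N (fun y => c * F y) = c * avg3 N F := by
  unfold avg3
  simp_rw [mean_cmul]

/-! ### The kernel of a role -/

theorem cmb_tm (l : Fin 3) (z : Circle) (y : Fin 3 → ℕ) (h : y 1 ≤ 2 * y 2) :
    cmb l (fun r => z ^ y r) = z ^ tm l y := by
  fin_cases l
  · simp only [cmb, tm]
    show (z ^ y 2) ^ 2 * (z ^ y 1)⁻¹ = z ^ (2 * y 2 - y 1)
    rw [← pow_mul, mul_comm (y 2) 2, mul_inv_eq_iff_eq_mul, ← pow_add]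
    congr 1
    omega
  · simp only [cmb, tm]
    show z ^ y 0 * z ^ y 2 = z ^ (y 0 + y 2)
    rw [pow_add]
  · simp only [cmb, tm]
    show (z ^ y 0) ^ 2 * z ^ y 1 = z ^ (2 * y 0 + y 1)
    rw [← pow_mul, mul_comm (y 0) 2, pow_add]

/-- one term -/
theorem term (m : ℕ) (u v : Circle) (D : ℝ) (hD : 0 ≤ D)
    (h : D ≤ 2 * ‖(u : ℂ) - 1‖ + ‖(v : ℂ) - 1‖) :
    kk m u * kk m v * D ^ 2 ≤ 4 / m * (8 * kk m v + 2 * kk m u) := by
  obtain ⟨h1, h2, -, -⟩ := p_KKB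
  have hu := h2 m u
  have hv := h2 m v
  have hu0 := (h1 m u).1
  have hv0 := (h1 m v).1
  have h3 : D ^ 2 ≤ 8 * ‖(u : ℂ) - 1‖ ^ 2 + 2 * ‖(v : ℂ) - 1‖ ^ 2 := by
    have h4 : D ^ 2 ≤ (2 * ‖(u : ℂ) - 1‖ + ‖(v : ℂ) - 1‖) ^ 2 := pow_le_pow_left₀ hD h 2
    nlinarith [sq_nonneg (2 * ‖(u : ℂ) - 1‖ - ‖(v : ℂ) - 1‖)]
  have h5 : kk m u * kk m v * D ^ 2 ≤
      kk m u * kk m v * (8 * ‖(u : ℂ) - 1‖ ^ 2 + 2 * ‖(v : ℂ) - 1‖ ^ 2) :=
    mul_le_mul_of_nonneg_left h3 (mul_nonneg hu0 hv0)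
  have h6 : kk m v * (kk m u * ‖(u : ℂ) - 1‖ ^ 2) ≤ kk m v * (4 / m) :=
    mul_le_mul_of_nonneg_left hu hv0
  have h7 : kk m u * (kk m v * ‖(v : ℂ) - 1‖ ^ 2) ≤ kk m u * (4 / m) :=
    mul_le_mul_of_nonneg_left hv hu0
  calc kk m u * kk m v * D ^ 2 ≤ _ := h5
    _ = 8 * (kk m v * (kk m u * ‖(u : ℂ) - 1‖ ^ 2)) +
        2 * (kk m u * (kk m v * ‖(v : ℂ) - 1‖ ^ 2)) := by ring
    _ ≤ 8 * (kk m v * (4 / m)) + 2 * (kk m u * (4 / m)) := by linarith
    _ = _ := by ring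

theorem fin (m : ℕ) (hm : 1 ≤ m) (l i j : Fin 3) (w : Fin 3 → Circle) (D : ℝ) (hD : 0 ≤ D)
    (hp : ∀ t, ∏ k : Fin 3, (if k ≠ l then kf m k t (w k) else 1) =
      kf m i t (w i) * kf m j t (w j))
    (h : ∀ t, D ≤ 2 * ‖((w i * rt m t ^ ex i : Circle) : ℂ) - 1‖ +
      ‖((w j * rt m t ^ ex j : Circle) : ℂ) - 1‖) :
    kap m l w * D ^ 2 ≤ 40 / m := by
  unfold kap
  simp_rw [hp]
  rw [mul_assoc, sum_mul]
  have hi := (f_KFL m hm i).2.2 (w i)
  have hj := (f_KFL m hm j).2.2 (w j)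
  have h2m : 0 ≤ (2 * (m : ℝ))⁻¹ := by positivity
  calc (2 * (m : ℝ))⁻¹ * ∑ t ∈ range (2 * m), kf m i t (w i) * kf m j t (w j) * D ^ 2
      ≤ (2 * (m : ℝ))⁻¹ * ∑ t ∈ range (2 * m),
          4 / m * (8 * kf m j t (w j) + 2 * kf m i t (w i)) := by
        refine mul_le_mul_of_nonneg_left (sum_le_sum fun t _ => ?_) h2m
        exact term m _ _ D hD (h t)
    _ = 4 / m * (8 * ((2 * (m : ℝ))⁻¹ * ∑ t ∈ range (2 * m), kf m j t (w j)) +
          2 * ((2 * (m : ℝ))⁻¹ * ∑ t ∈ range (2 * m), kf m i t (w i))) := by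
        rw [← mul_sum, sum_add_distrib, ← mul_sum, ← mul_sum]
        ring
    _ = 4 / m * (8 * 1 + 2 * 1) := by rw [hi, hj]
    _ = 40 / m := by ring

theorem kap_le (m : ℕ) (hm : 1 ≤ m) (l : Fin 3) (w : Fin 3 → Circle) :
    kap m l w * ‖(cmb l w : ℂ) - 1‖ ^ 2 ≤ 40 / m := by
  have e0 : ex 0 = -1 := rfl
  have e1 : ex 1 = 2 := rfl
  have e2 : ex 2 = 1 := rfl
  fin_cases l
  · refine fin m hm 0 2 1 w _ (norm_nonneg _) (fun t => ?_) (fun t => ?_)
    · rw [Fin.prod_univ_three]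
      simp [mul_comm]
    · have e : cmb 0 w = (w 2 * rt m t ^ ex 2) * (w 2 * rt m t ^ ex 2) *
          (w 1 * rt m t ^ ex 1)⁻¹ := by
        rw [e1, e2]
        change w 2 ^ 2 * (w 1)⁻¹ = _
        rw [mul_inv]
        have : rt m t ^ (1 : ℤ) * rt m t ^ (1 : ℤ) * (rt m t ^ (2 : ℤ))⁻¹ = 1 := by
          rw [← zpow_add, show (1 : ℤ) + 1 = 2 by norm_num, mul_inv_cancel]
        calc w 2 ^ 2 * (w 1)⁻¹ = w 2 ^ 2 * (w 1)⁻¹ *
              (rt m t ^ (1 : ℤ) * rt m t ^ (1 : ℤ) * (rt m t ^ (2 : ℤ))⁻¹) := by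
                rw [this, mul_one]
          _ = _ := by
            rw [pow_two]
            ac_rfl
      have h3 := c_mul ((w 2 * rt m t ^ ex 2) * (w 2 * rt m t ^ ex 2)) (w 1 * rt m t ^ ex 1)⁻¹
      have h4 := c_mul (w 2 * rt m t ^ ex 2) (w 2 * rt m t ^ ex 2)
      rw [c_inv, ← e] at h3
      change ‖(cmb 0 w : ℂ) - 1‖ ≤ _
      linarith
  · refine fin m hm 1 0 2 w _ (norm_nonneg _) (fun t => ?_) (fun t => ?_)
    · rw [Fin.prod_univ_three]
      simp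
    · have e : cmb 1 w = (w 0 * rt m t ^ ex 0) * (w 2 * rt m t ^ ex 2) := by
        rw [e0, e2]
        change w 0 * w 2 = _
        have : rt m t ^ (-1 : ℤ) * rt m t ^ (1 : ℤ) = 1 := by
          rw [← zpow_add, show (-1 : ℤ) + 1 = 0 by norm_num, zpow_zero]
        calc w 0 * w 2 = w 0 * w 2 * (rt m t ^ (-1 : ℤ) * rt m t ^ (1 : ℤ)) := by
                rw [this, mul_one]
          _ = _ := by ac_rfl
      have h3 := c_mul (w 0 * rt m t ^ ex 0) (w 2 * rt m t ^ ex 2)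
      rw [← e] at h3
      have h5 := norm_nonneg (((w 0 * rt m t ^ ex 0 : Circle) : ℂ) - 1)
      change ‖(cmb 1 w : ℂ) - 1‖ ≤ _
      linarith
  · refine fin m hm 2 0 1 w _ (norm_nonneg _) (fun t => ?_) (fun t => ?_)
    · rw [Fin.prod_univ_three]
      simp
    · have e : cmb 2 w = (w 0 * rt m t ^ ex 0) * (w 0 * rt m t ^ ex 0) *
          (w 1 * rt m t ^ ex 1) := by
        rw [e0, e1]
        change w 0 ^ 2 * w 1 = _
        have : rt m t ^ (-1 : ℤ) * rt m t ^ (-1 : ℤ) * rt m t ^ (2 : ℤ) = 1 := by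
          rw [← zpow_add, ← zpow_add, show (-1 : ℤ) + -1 + 2 = 0 by norm_num, zpow_zero]
        calc w 0 ^ 2 * w 1 = w 0 ^ 2 * w 1 *
              (rt m t ^ (-1 : ℤ) * rt m t ^ (-1 : ℤ) * rt m t ^ (2 : ℤ)) := by
                rw [this, mul_one]
          _ = _ := by
            rw [pow_two]
            ac_rfl
      have h3 := c_mul ((w 0 * rt m t ^ ex 0) * (w 0 * rt m t ^ ex 0)) (w 1 * rt m t ^ ex 1)
      have h4 := c_mul (w 0 * rt m t ^ ex 0) (w 0 * rt m t ^ ex 0)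
      rw [← e] at h3
      change ‖(cmb 2 w : ℂ) - 1‖ ≤ _
      linarith

/-- one factor of the own weight -/
theorem fac_le (m d : ℕ) (hm : 1 ≤ m) (l : Fin 3) (t : ℕ) (z : Circle) (y : Fin 3 → ℕ)
    (hy : y 1 ≤ 2 * y 2) :
    (if t < d then kap m l (fun i => z ^ y i) else kk m (z ^ tm l y)) *
      ‖(z : ℂ) ^ tm l y - 1‖ ^ 2 ≤ 40 / m := by
  have hz : (z : ℂ) ^ tm l y = ((z ^ tm l y : Circle) : ℂ) := by rw [Circle.coe_pow]
  rw [hz]
  split_ifs with h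
  · have h1 := kap_le m hm l fun i => z ^ y i
    rw [cmb_tm l z y hy] at h1
    exact h1
  · have h1 := p_KKB.2.1 m (z ^ tm l y)
    refine h1.trans ?_
    gcongr
    norm_num

/-! ### Powers -/

theorem c_pow (z : Circle) (n : ℕ) : ‖((z ^ n : Circle) : ℂ) - 1‖ ≤ n * ‖(z : ℂ) - 1‖ := by
  induction n with
  | zero => simp
  | succ n ih =>
    have h1 := c_mul (z ^ n) z
    rw [← pow_succ] at h1
    push_cast
    push_cast at ih h1
    linarith

theorem c_zpow (z : Circle) (a : ℤ) :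
    ‖((z ^ a : Circle) : ℂ) - 1‖ ≤ |(a : ℝ)| * ‖(z : ℂ) - 1‖ := by
  obtain ⟨n, rfl | rfl⟩ := Int.eq_nat_or_neg a
  · rw [zpow_natCast]
    have h1 := c_pow z n
    simpa using h1
  · rw [zpow_neg, zpow_natCast, c_inv]
    have h1 := c_pow z n
    simpa using h1

theorem c_prod (f : ℕ → Circle) (n : ℕ) :
    ‖((∏ j ∈ range n, f j : Circle) : ℂ) - 1‖ ≤ ∑ j ∈ range n, ‖(f j : ℂ) - 1‖ := by
  induction n with
  | zero => simp
  | succ n ih =>
    rw [prod_range_succ, sum_range_succ]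
    exact (c_mul _ _).trans (by linarith)

open Classical in
/-- the distance of a power from `1` as an almost periodic sequence -/
theorem pp (s : ℕ → Circle) (z : Circle) (h : SpI s z) : ∃ (q K : ℕ) (B : ℝ), 1 ≤ q ∧ 0 < B ∧
    ∀ δ : ℝ, 0 < δ → PP q (δ / B) ((range K).image s) δ 0 fun x => ‖(z : ℂ) ^ x - 1‖ ^ 2 / 4 := by
  obtain ⟨K, q, hq, a, ha⟩ := h
  have hB : 0 < ∑ j ∈ range K, |(a j : ℝ)| + 1 := by
    have : 0 ≤ ∑ j ∈ range K, |(a j : ℝ)| := sum_nonneg fun j _ => abs_nonneg _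
    linarith
  refine ⟨q, K, ∑ j ∈ range K, |(a j : ℝ)| + 1, hq, hB, fun δ hδ => ?_⟩
  have hn : ∀ x : ℕ, ‖(z : ℂ) ^ x - 1‖ ≤ 2 := by
    intro x
    refine (norm_sub_le _ _).trans ?_
    rw [norm_pow, Circle.norm_coe, one_pow, norm_one]
    norm_num
  refine ⟨fun x => ?_, fun y h _ hh => ?_⟩
  · have h1 := hn x
    have h2 := norm_nonneg ((z : ℂ) ^ x - 1)
    rw [abs_of_nonneg (by positivity)]
    nlinarith
  · have h1 := hn y
    have h2 := hn (y + q * h)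
    have h3 : ‖(z : ℂ) ^ (q * h) - 1‖ ≤ δ := by
      have e : (z : ℂ) ^ (q * h) = ((∏ j ∈ range K, (s j ^ h) ^ a j : Circle) : ℂ) := by
        have e1 : (∏ j ∈ range K, (s j ^ h) ^ a j : Circle) = (z ^ q) ^ h := by
          rw [ha, ← prod_pow]
          refine prod_congr rfl fun j _ => ?_
          rw [← zpow_natCast, ← zpow_natCast, ← zpow_mul, ← zpow_mul, mul_comm]
        rw [e1, pow_mul, Circle.coe_pow, Circle.coe_pow]
      rw [e]
      refine (c_prod _ _).trans ?_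
      have h4 : ∀ j ∈ range K, ‖(((s j ^ h) ^ a j : Circle) : ℂ) - 1‖ ≤
          |(a j : ℝ)| * (δ / (∑ j ∈ range K, |(a j : ℝ)| + 1)) := by
        intro j hj
        refine (c_zpow _ _).trans (mul_le_mul_of_nonneg_left ?_ (abs_nonneg _))
        rw [Circle.coe_pow]
        exact hh (s j) (mem_image_of_mem s hj)
      refine (sum_le_sum h4).trans ?_
      rw [← sum_mul, mul_div_assoc', div_le_iff₀ hB]
      nlinarith
    have h5 : |‖(z : ℂ) ^ (y + q * h) - 1‖ - ‖(z : ℂ) ^ y - 1‖| ≤ δ := by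
      refine (abs_norm_sub_norm_le _ _).trans ?_
      have e : (z : ℂ) ^ (y + q * h) - 1 - ((z : ℂ) ^ y - 1) =
          (z : ℂ) ^ y * ((z : ℂ) ^ (q * h) - 1) := by
        rw [pow_add]
        ring
      rw [e, norm_mul, norm_pow, Circle.norm_coe, one_pow, one_mul]
      exact h3
    have h6 : ‖(z : ℂ) ^ (y + q * h) - 1‖ ^ 2 / 4 - ‖(z : ℂ) ^ y - 1‖ ^ 2 / 4 =
        (‖(z : ℂ) ^ (y + q * h) - 1‖ - ‖(z : ℂ) ^ y - 1‖) *
          ((‖(z : ℂ) ^ (y + q * h) - 1‖ + ‖(z : ℂ) ^ y - 1‖) / 4) := by ring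
    have h7 := norm_nonneg ((z : ℂ) ^ (y + q * h) - 1)
    have h8 := norm_nonneg ((z : ℂ) ^ y - 1)
    rw [h6, abs_mul]
    have h9 : |(‖(z : ℂ) ^ (y + q * h) - 1‖ + ‖(z : ℂ) ^ y - 1‖) / 4| ≤ 1 := by
      rw [abs_of_nonneg (by positivity)]
      linarith
    calc _ ≤ δ * 1 := mul_le_mul h5 h9 (abs_nonneg _) hδ.le
      _ = δ := mul_one _

end NEA_

open NEA_ in
theorem p_NEA : T_AVC → T_WBC → T_OWN → T_MAR → T_NEA := by
  intro _ hW hO hM m d e hm hde g s hS l t ht ε hε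
  obtain ⟨B, -, -, -, -, hW1⟩ := hW m d e hm
  obtain ⟨C, hC, hM1⟩ := hM m d e hm hde
  have hm0 : (0 : ℝ) < m := by exact_mod_cast hm
  have hm1 : (1 : ℝ) ≤ m := by exact_mod_cast hm
  -- the own weight
  have first : ∀ ε' : ℝ, 0 < ε' → ∃ N₀ : ℕ, ∀ N ≥ N₀,
      avg3 N (fun y => WL m d l (range (e l)) (g l) y *
        ‖((g l t : Circle) : ℂ) ^ tm l y - 1‖ ^ 2) ≤ 40 / m + ε' := by
    intro ε' hε'
    obtain ⟨N₀, hN⟩ := hO m d l (e l) ((range (e l)).erase t) hm (erase_subset _ _) (g l)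
      (hS.ind l) (ε' / 40) (by positivity)
    refine ⟨N₀, fun N hNN => ?_⟩
    have h1 := (abs_le.1 (hN N hNN)).2
    have h2 : avg3 N (fun y => WL m d l (range (e l)) (g l) y *
        ‖((g l t : Circle) : ℂ) ^ tm l y - 1‖ ^ 2) ≤
        avg3 N (fun y => 40 / m * WL m d l ((range (e l)).erase t) (g l) y) := by
      refine avg_le fun y hy => ?_
      have h3 : WL m d l (range (e l)) (g l) y =
          (if t < d then kap m l (fun i => g l t ^ y i) else kk m (g l t ^ tm l y)) *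
            WL m d l ((range (e l)).erase t) (g l) y := by
        unfold WL
        exact (mul_prod_erase _ _ (mem_range.2 ht)).symm
      have h4 := fac_le m d hm l t (g l t) y hy
      have h5 := (hW1 l ((range (e l)).erase t)).1 (g l) y
      rw [h3]
      calc _ = ((if t < d then kap m l (fun i => g l t ^ y i) else kk m (g l t ^ tm l y)) *
            ‖((g l t : Circle) : ℂ) ^ tm l y - 1‖ ^ 2) *
            WL m d l ((range (e l)).erase t) (g l) y := by ring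
        _ ≤ _ := mul_le_mul_of_nonneg_right h4 h5
    rw [avg_cmul] at h2
    refine h2.trans ?_
    have h6 : avg3 N (WL m d l ((range (e l)).erase t) (g l)) ≤ 1 + ε' / 40 := by linarith
    calc 40 / (m : ℝ) * avg3 N (WL m d l ((range (e l)).erase t) (g l))
        ≤ 40 / m * (1 + ε' / 40) := mul_le_mul_of_nonneg_left h6 (by positivity)
      _ = 40 / m + ε' / m := by ring
      _ ≤ 40 / m + ε' := by
          have := div_le_self hε'.le hm1
          linarith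
  -- comparison
  obtain ⟨q, K, D, hq, hD, hP⟩ := pp (s l) (g l t) (hS.own l t ht)
  have hC1 : 0 < 16 * (C + 1) := by positivity
  have hδ : 0 < ε / (16 * (C + 1)) := by positivity
  obtain ⟨N₁, hN₁⟩ := first (ε / 2) (by positivity)
  obtain ⟨N₂, hN₂⟩ := hM1 g s hS l q K (ε / (16 * (C + 1)) / D) hq (by positivity)
    (ε / (16 * (C + 1))) hδ
  refine ⟨max N₁ N₂, fun N hN => ?_⟩
  have h1 := hN₁ N (le_of_max_le_left hN)
  have h2 := (abs_le.1 (hN₂ N (le_of_max_le_right hN) _ _ hδ.le (hP _ hδ))).2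
  have h3 : ∀ V : (Fin 3 → ℕ) → ℝ, avg3 N (fun y => V y *
      ‖((g l t : Circle) : ℂ) ^ tm l y - 1‖ ^ 2) =
      4 * avg3 N (fun y => V y * (‖((g l t : Circle) : ℂ) ^ tm l y - 1‖ ^ 2 / 4)) := by
    intro V
    rw [← avg_cmul]
    congr 1
    funext y
    ring
  refine ⟨by linarith, ?_⟩
  rw [h3] at h1 ⊢
  have h4 : C * (ε / (16 * (C + 1)) + ε / (16 * (C + 1))) ≤ ε / 8 := by
    have h5 : C * (ε / (16 * (C + 1)) + ε / (16 * (C + 1))) = C / (C + 1) * (ε / 8) := by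
      field_simp
      ring
    rw [h5]
    have h6 : C / (C + 1) ≤ 1 := by
      rw [div_le_one (by positivity)]
      linarith
    calc C / (C + 1) * (ε / 8) ≤ 1 * (ε / 8) :=
          mul_le_mul_of_nonneg_right h6 (by positivity)
      _ = ε / 8 := one_mul _
  linarith

end Pool.Agent.CLV
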