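import Pool.Agent.CLV.Targets

set_option autoImplicit false

open MeasureTheory Filter Topology Finset

namespace Pool.Agent.CLV

open Pool.Agent.FSP Pool.Agent.Ind3

namespace NON_

/-- Finitely supported monomials. -/
def Mo (s : ℕ → Circle) (z : Circle) : Prop := ∃ a : ℕ →₀ ℤ, z = a.prod fun j m => s j ^ m

theorem mo_one (s : ℕ → Circle) : Mo s 1 := ⟨0, by simp⟩

theorem mo_mul {s : ℕ → Circle} {z w : Circle} (hz : Mo s z) (hw : Mo s w) : Mo s (z * w) := by
  obtain ⟨a, rfl⟩ := hz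
  obtain ⟨b, rfl⟩ := hw
  refine ⟨a + b, ?_⟩
  rw [Finsupp.prod_add_index' (fun _ => zpow_zero _) (fun _ _ _ => zpow_add _ _ _)]

theorem mo_gen (s : ℕ → Circle) (j : ℕ) (m : ℤ) : Mo s (s j ^ m) := by
  refine ⟨Finsupp.single j m, ?_⟩
  rw [Finsupp.prod_single_index (zpow_zero _)]

theorem mo_prod (s : ℕ → Circle) (I : Finset ℕ) (a : ℕ → ℤ) : Mo s (∏ j ∈ I, s j ^ a j) := by
  classical
  induction I using Finset.induction_on with
  | empty => simpa using mo_one s
  | insert i I hi ih =>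
    rw [Finset.prod_insert hi]
    exact mo_mul (mo_gen s i _) ih

theorem mo_zpow {s : ℕ → Circle} {z : Circle} (hz : Mo s z) (m : ℤ) : Mo s (z ^ m) := by
  obtain ⟨a, rfl⟩ := hz
  have : (a.prod fun j m => s j ^ m) ^ m = ∏ j ∈ a.support, s j ^ (a j * m) := by
    rw [Finsupp.prod, ← Finset.prod_zpow]
    exact Finset.prod_congr rfl fun j _ => (zpow_mul _ _ _).symm
  rw [this]
  exact mo_prod s _ fun j => a j * m

theorem spI_iff (s : ℕ → Circle) (z : Circle) : SpI s z ↔ ∃ k : ℕ, 1 ≤ k ∧ Mo s (z ^ k) := by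
  constructor
  · rintro ⟨n, k, hk, a, ha⟩
    exact ⟨k, hk, ha ▸ mo_prod s _ a⟩
  · rintro ⟨k, hk, a, ha⟩
    refine ⟨a.support.sup id + 1, k, hk, fun j => a j, ?_⟩
    rw [ha, Finsupp.prod_of_support_subset a (s := range (a.support.sup id + 1)) _ _
      (fun j _ => zpow_zero _)]
    intro j hj
    rw [mem_range]
    exact Nat.lt_succ_of_le (Finset.le_sup (f := id) hj)

theorem spI_mul {s : ℕ → Circle} {z w : Circle} (hz : SpI s z) (hw : SpI s w) :
    SpI s (z * w) := by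
  rw [spI_iff] at hz hw ⊢
  obtain ⟨k, hk, h1⟩ := hz
  obtain ⟨k', hk', h2⟩ := hw
  refine ⟨k * k', Nat.mul_pos hk hk', ?_⟩
  have : (z * w) ^ (k * k') = (z ^ k) ^ (k' : ℤ) * (w ^ k') ^ (k : ℤ) := by
    rw [mul_pow, zpow_natCast, zpow_natCast, ← pow_mul, ← pow_mul, Nat.mul_comm k' k]
  rw [this]
  exact mo_mul (mo_zpow h1 _) (mo_zpow h2 _)

theorem spI_zpow {s : ℕ → Circle} {z : Circle} (hz : SpI s z) (m : ℤ) : SpI s (z ^ m) := by
  rw [spI_iff] at hz ⊢
  obtain ⟨k, hk, h1⟩ := hz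
  refine ⟨k, hk, ?_⟩
  have : (z ^ m) ^ k = (z ^ k) ^ m := by
    rw [← zpow_natCast, ← zpow_natCast, ← zpow_mul, ← zpow_mul, mul_comm]
  rw [this]
  exact mo_zpow h1 m

theorem spI_root {s : ℕ → Circle} {z : Circle} {m : ℤ} (hm : m ≠ 0) (hz : SpI s (z ^ m)) :
    SpI s z := by
  rw [spI_iff] at hz ⊢
  obtain ⟨k, hk, h1⟩ := hz
  refine ⟨m.natAbs * k, Nat.mul_pos (Int.natAbs_pos.2 hm) hk, ?_⟩
  rcases Int.natAbs_eq m with h | h
  · have : z ^ (m.natAbs * k) = ((z ^ m) ^ k) ^ (1 : ℤ) := by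
      rw [zpow_one, pow_mul, ← zpow_natCast z, ← h]
    rw [this]
    exact mo_zpow h1 1
  · have : z ^ (m.natAbs * k) = ((z ^ m) ^ k) ^ (-1 : ℤ) := by
      have h' : m = -(m.natAbs : ℤ) := h
      generalize m.natAbs = q at h'
      subst h'
      simp only [zpow_neg, zpow_natCast, zpow_one, inv_pow, inv_inv, pow_mul]
    rw [this]
    exact mo_zpow h1 _

theorem spI_prod {s : ℕ → Circle} (I : Finset ℕ) (f : ℕ → Circle) (a : ℕ → ℤ)
    (h : ∀ t ∈ I, SpI s (f t)) : SpI s (∏ t ∈ I, f t ^ a t) := by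
  classical
  induction I using Finset.induction_on with
  | empty =>
    rw [spI_iff]
    exact ⟨1, le_rfl, by simpa using mo_one s⟩
  | insert i I hi ih =>
    rw [Finset.prod_insert hi]
    exact spI_mul (spI_zpow (h i (mem_insert_self _ _)) _)
      (ih fun t ht => h t (mem_insert_of_mem ht))

theorem third : ∀ j l : Fin 3, j ≠ l → ∃ i : Fin 3, i ≠ j ∧ i ≠ l := by decide

theorem univ3 : ∀ i j l : Fin 3, i ≠ j → i ≠ l → j ≠ l →
    (Finset.univ : Finset (Fin 3)) = {i, j, l} := by decide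

theorem prod3 (f : Fin 3 → Circle) (i j l : Fin 3) (h1 : i ≠ j) (h2 : i ≠ l) (h3 : j ≠ l) :
    ∏ r, f r = f i * (f j * f l) := by
  rw [univ3 i j l h1 h2 h3, Finset.prod_insert (by simp [h1, h2]),
    Finset.prod_insert (by simp [h3]), Finset.prod_singleton]

theorem Tm_self : ∀ r : Fin 3, Tm r r = 0 := by decide

theorem Tm_ne : ∀ i r : Fin 3, i ≠ r → Tm i r ≠ 0 := by decide

theorem cases3 : ∀ i j l : Fin 3, i ≠ j → i ≠ l → j ≠ l → ∀ r, r = i ∨ r = j ∨ r = l := by
  decide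

end NON_

open NON_

theorem p_NON : T_NON := by
  intro d e g s hS l n v hOwn
  by_contra hcon
  rw [not_or] at hcon
  obtain ⟨h1, h2⟩ := hcon
  rw [not_not] at h1
  simp only [not_forall, not_not] at h2
  obtain ⟨j, hjl, hj⟩ := h2
  obtain ⟨i, hij, hil⟩ := third j l hjl
  apply hOwn
  set κ : Fin 3 → Circle := fun r => ∏ t ∈ range d, g 2 t ^ n t r with hκ
  set L : Fin 3 → Circle := fun i => ∏ t ∈ Ico d (e i), g i t ^ v i t with hL
  have hchi : ∀ r, chi d e g n v r = κ r * (L i ^ Tm i r * (L j ^ Tm j r * L l ^ Tm l r)) := by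
    intro r
    unfold chi
    rw [prod3 _ i j l hij hil hjl]
  have hκl : ∀ l' r, κ r = ∏ t ∈ range d, g l' t ^ n t r := by
    intro l' r
    exact Finset.prod_congr rfl fun t ht => by rw [hS.core 2 l' t (mem_range.1 ht)]
  -- the power of L i is in the span of the list l
  have b1 : SpI (s l) (κ j) := by
    rw [hκl l j]
    exact spI_prod _ _ _ fun t ht => hS.own l t (lt_of_lt_of_le (mem_range.1 ht) (hS.le l))
  have b2 : SpI (s l) (L l) := spI_prod _ _ _ fun t ht => hS.own l t (mem_Ico.1 ht).2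
  have b3 : SpI (s l) (L i ^ Tm i j) := by
    have e1 : L i ^ Tm i j = chi d e g n v j * κ j ^ (-1 : ℤ) * L l ^ (-Tm l j) := by
      rw [hchi j, Tm_self, zpow_zero, one_mul, zpow_neg, zpow_neg, zpow_one]
      rw [mul_comm (κ j), mul_assoc (L i ^ Tm i j * L l ^ Tm l j), mul_inv_cancel, mul_one,
        mul_assoc, mul_inv_cancel, mul_one]
    rw [e1]
    exact spI_mul (spI_mul hj (spI_zpow b1 _)) (spI_zpow b2 _)
  have b4 : SpI (s l) (L i) := spI_root (Tm_ne i j hij) b3
  -- the identity chi l = 1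
  have c1 : κ l * (L i ^ Tm i l * L j ^ Tm j l) = 1 := by
    have h3 := hchi l
    rw [h1, Tm_self, zpow_zero, mul_one] at h3
    exact h3.symm
  have hmon : κ l * L j ^ Tm j l = ∏ t ∈ range (e j),
      g j t ^ (if t < d then n t l else v j t * Tm j l) := by
    rw [← Finset.prod_range_mul_prod_Ico _ (hS.le j), hκl j l, hL]
    congr 1
    · exact Finset.prod_congr rfl fun t ht => by rw [if_pos (mem_range.1 ht)]
    · simp only
      rw [← Finset.prod_zpow]
      exact Finset.prod_congr rfl fun t ht => by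
        rw [if_neg (not_lt.2 (mem_Ico.1 ht).1), zpow_mul]
  have c2 : L i ^ Tm i l = (∏ t ∈ range (e j),
      g j t ^ (if t < d then n t l else v j t * Tm j l))⁻¹ := by
    rw [← hmon, eq_inv_iff_mul_eq_one, ← c1]
    rw [mul_left_comm]
  have c3 : Sp (g j) (e j) (L i) := by
    refine ⟨(Tm i l).natAbs, Int.natAbs_pos.2 (Tm_ne i l hil), ?_⟩
    rcases Int.natAbs_eq (Tm i l) with h | h
    · refine ⟨fun t => -(if t < d then n t l else v j t * Tm j l), ?_⟩
      simp only [zpow_neg]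
      rw [Finset.prod_inv_distrib, ← c2]
      conv_rhs => rw [h]
      rw [zpow_natCast]
    · refine ⟨fun t => (if t < d then n t l else v j t * Tm j l), ?_⟩
      have c4 : L i ^ (-(Tm i l)) = ∏ t ∈ range (e j),
          g j t ^ (if t < d then n t l else v j t * Tm j l) := by
        rw [zpow_neg, c2, inv_inv]
      rw [← c4]
      conv_rhs => rw [h]
      rw [neg_neg, zpow_natCast]
  have hv : ∀ t, d ≤ t → t < e i → v i t = 0 := hS.rest i j l hij hil hjl (v i) c3 b4
  have hLi : L i = 1 := by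
    apply Finset.prod_eq_one
    intro t ht
    rw [hv t (mem_Ico.1 ht).1 (mem_Ico.1 ht).2, zpow_zero]
  have c5 : ∏ t ∈ range (e j), g j t ^ (if t < d then n t l else v j t * Tm j l) = 1 := by
    rw [← hmon, ← c1, hLi, one_zpow, one_mul]
  have c6 := hS.ind j _ c5
  refine ⟨fun t ht => ?_, fun l' hl' t h3 h4 => ?_⟩
  · have := c6 t (lt_of_lt_of_le ht (hS.le j))
    simpa [ht] using this
  · rcases cases3 i j l hij hil hjl l' with rfl | rfl | rfl
    · exact hv t h3 h4
    · have := c6 t h4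
      rw [if_neg (not_lt.2 h3)] at this
      rcases mul_eq_zero.1 this with h | h
      · exact h
      · exact absurd h (Tm_ne _ _ hjl)
    · exact absurd rfl hl'

end Pool.Agent.CLV
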