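import Pool.Agent.CLV.Targets
import Pool.Agent.Ind3.P_ERA

set_option autoImplicit false

/-!
# CLV-OWI: the integral of the own weight on the set of independence (helper92)
-/

open MeasureTheory Filter Topology Finset

namespace Pool.Agent.CLV

open Pool.Agent.FSP Pool.Agent.Ind3

universe u

namespace OWI_

theorem indp_iff (e : ℕ) (h : ℕ → Circle) : Indp h e ↔
    ∀ b : Fin e → ℤ, ∏ t : Fin e, h t ^ b t = 1 → b = 0 := by
  constructor
  · intro H b hb
    have h1 := H (fun t => if ht : t < e then b ⟨t, ht⟩ else 0) (by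
      rw [Finset.prod_range]
      rw [← hb]
      refine Finset.prod_congr rfl fun t _ => ?_
      simp)
    funext t
    have h2 := h1 t.1 t.2
    simpa using h2
  · intro H a ha t ht
    have h1 := H (fun t => a t) (by
      rw [Finset.prod_range] at ha
      exact ha)
    exact congrFun h1 ⟨t, ht⟩

theorem meas_Y {Ω : Type u} [MeasurableSpace Ω] (h : ℕ → Ω → Circle)
    (hh : ∀ j, Measurable (h j)) (e : ℕ) : MeasurableSet {x | Indp (fun t => h t x) e} := by
  have h1 : {x | Indp (fun t => h t x) e} =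
      ⋂ b : Fin e → ℤ, {x | ∏ t : Fin e, h t x ^ b t = 1 → b = 0} := by
    ext x
    simp only [Set.mem_iInter, Set.mem_ofPred_eq]
    exact indp_iff e _
  rw [h1]
  refine MeasurableSet.iInter fun b => ?_
  by_cases hb : b = 0
  · simp [hb]
  · have h2 : {x | ∏ t : Fin e, h t x ^ b t = 1 → b = 0} =
        ((fun x => ∏ t : Fin e, h t x ^ b t) ⁻¹' {1})ᶜ := by
      ext x
      simp [hb]
    rw [h2]
    refine MeasurableSet.compl ?_
    have h3 : Measurable fun x => ∏ t : Fin e, h t x ^ b t :=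
      Finset.measurable_fun_prod _ fun t _ => (hh t).pow_const (b t)
    exact h3 (measurableSet_singleton 1)

end OWI_

open OWI_ in
theorem p_OWI : T_WBC → T_OWN → T_OWI.{u} := by
  intro hWBC hOWN Ω _ μ _ Q hQ h hh hinv e
  have hY : MeasurableSet {x | Indp (fun t => h t x) e} := meas_Y h hh e
  refine ⟨hY, ?_⟩
  intro m d q l ψ hm hψ hψ0 hψ1 ε hε
  set Y : Set Ω := {x | Indp (fun t => h t x) e} with hYdef
  obtain ⟨B, hB1, -, -, hWB, hWm⟩ := hWBC m d (fun _ => e) hm
  have hB0 : 0 ≤ B := le_trans zero_le_one hB1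
  set V : Ω → (Fin 3 → ℕ) → ℝ := fun x y => WL m d l (range e) (fun t => h t x) y with hV
  have hhm : Measurable fun x => (fun t => h t x : ℕ → Circle) :=
    measurable_pi_lambda _ fun j => hh j
  have hVm : ∀ y, Measurable fun x => V x y := fun y =>
    ((hWm l (range e)).2 y).comp hhm
  have hV0 : ∀ x y, 0 ≤ V x y := fun x y => (hWB l _ y).1
  have hVB : ∀ x y, V x y ≤ B := fun x y => (hWB l _ y).2
  have hQk : ∀ k, MeasurePreserving (Q^[k]) μ μ := fun k => hQ.iterate k
  have hQm : ∀ k, Measurable (Q^[k]) := fun k => (hQk k).measurable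
  have hk : ∀ k x, (fun t => h t (Q^[k] x)) = fun t => h t x := by
    intro k x
    funext j
    induction k with
    | zero => rfl
    | succ k ih => rw [Function.iterate_succ_apply', hinv, ih]
  have hVk : ∀ k x y, V (Q^[k] x) y = V x y := by
    intro k x y
    simp only [hV]
    rw [hk]
  have hYk : ∀ k x, Q^[k] x ∈ Y ↔ x ∈ Y := by
    intro k x
    simp only [hYdef, Set.mem_ofPred_eq]
    rw [hk]
  -- integrability
  have iy : ∀ y, Integrable (fun x => V x y * ψ (Q^[q * tm l y] x)) (μ.restrict Y) := by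
    intro y
    refine ERA_bint _ _ B ((hVm y).mul (hψ.comp (hQm _))) fun x => ?_
    rw [abs_of_nonneg (mul_nonneg (hV0 x y) (hψ0 _))]
    calc V x y * ψ (Q^[q * tm l y] x) ≤ B * 1 := mul_le_mul (hVB x y) (hψ1 _) (hψ0 _) hB0
      _ = B := mul_one _
  have iy' : ∀ y, Integrable (fun x => V x y * ψ x) (μ.restrict Y) := by
    intro y
    refine ERA_bint _ _ B ((hVm y).mul hψ) fun x => ?_
    rw [abs_of_nonneg (mul_nonneg (hV0 x y) (hψ0 _))]
    calc V x y * ψ x ≤ B * 1 := mul_le_mul (hVB x y) (hψ1 _) (hψ0 _) hB0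
      _ = B := mul_one _
  -- the moved function
  have hmove : ∀ (k : ℕ) (y : Fin 3 → ℕ), ∫ x in Y, V x y * ψ (Q^[k] x) ∂μ =
      ∫ x in Y, V x y * ψ x ∂μ := by
    intro k y
    rw [← integral_indicator hY, ← integral_indicator hY]
    have h3 := (hQk k).map_eq
    have h4 : ∫ x, Y.indicator (fun x => V x y * ψ x) x ∂(μ.map (Q^[k])) =
        ∫ x, Y.indicator (fun x => V x y * ψ x) (Q^[k] x) ∂μ :=
      integral_map (f := Y.indicator (fun x => V x y * ψ x)) (hQm _).aemeasurable
        (((hVm y).mul hψ).indicator hY).aestronglyMeasurable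
    rw [h3] at h4
    rw [h4]
    refine integral_congr_ae (Filter.Eventually.of_forall fun x => ?_)
    by_cases hx : x ∈ Y
    · have hx' : Q^[k] x ∈ Y := (hYk k x).2 hx
      simp only [Set.indicator_of_mem hx, Set.indicator_of_mem hx', hVk]
    · have hx' : Q^[k] x ∉ Y := fun h' => hx ((hYk k x).1 h')
      simp only [Set.indicator_of_notMem hx, Set.indicator_of_notMem hx']
  have hsum : ∀ N, ∫ x in Y, avg3 N (fun y => V x y * ψ (Q^[q * tm l y] x)) ∂μ =
      ∫ x in Y, avg3 N (fun y => V x y) * ψ x ∂μ := by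
    intro N
    calc ∫ x in Y, avg3 N (fun y => V x y * ψ (Q^[q * tm l y] x)) ∂μ
        = avg3 N fun y => ∫ x in Y, V x y * ψ (Q^[q * tm l y] x) ∂μ :=
          ERA_avg_int (μ.restrict Y) N (fun y x => V x y * ψ (Q^[q * tm l y] x)) iy
      _ = avg3 N fun y => ∫ x in Y, V x y * ψ x ∂μ := by
          congr 1
          funext y
          exact hmove _ y
      _ = ∫ x in Y, avg3 N (fun y => V x y * ψ x) ∂μ :=
          (ERA_avg_int (μ.restrict Y) N (fun y x => V x y * ψ x) iy').symm
      _ = ∫ x in Y, avg3 N (fun y => V x y) * ψ x ∂μ := by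
          refine integral_congr_ae (Filter.Eventually.of_forall fun x => ?_)
          simp only []
          rw [mul_comm _ (ψ x), ← ERA_avg_mul]
          congr 1
          funext y
          ring
  -- the limit
  obtain ⟨N₀, hN₀⟩ := f_LSU Ω μ (fun N x => avg3 N (fun y => V x y) * ψ x) B ψ Y
    (fun N => (ERA_avg_meas N (fun y x => V x y) hVm).mul hψ)
    (by
      intro N x
      have b1 : 0 ≤ avg3 N (fun y => V x y) := ERA_avg_nonneg fun y => hV0 _ _
      have b2 : avg3 N (fun y => V x y) ≤ B := ERA_avg_le hB0 fun y => hVB x y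
      rw [abs_of_nonneg (mul_nonneg b1 (hψ0 x))]
      calc avg3 N (fun y => V x y) * ψ x ≤ B * 1 := mul_le_mul b2 (hψ1 x) (hψ0 x) hB0
        _ = B := mul_one _)
    (ERA_bint μ _ 1 hψ fun x => by rw [abs_of_nonneg (hψ0 x)]; exact hψ1 x) hY
    (by
      refine Filter.Eventually.of_forall fun x hx e' he' => ?_
      obtain ⟨N₀, hN₀⟩ := hOWN m d l e (range e) hm (Finset.Subset.refl _) (fun t => h t x) hx
        e' he'
      refine ⟨N₀, fun N hN => ?_⟩
      have h6 : avg3 N (fun y => V x y) ≤ 1 + e' := by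
        have h8 := (abs_le.mp (hN₀ N hN)).2
        have h9 : avg3 N (fun y => V x y) =
            avg3 N (WL m d l (range e) fun t => h t x) := rfl
        rw [h9]
        linarith
      calc avg3 N (fun y => V x y) * ψ x ≤ (1 + e') * ψ x :=
            mul_le_mul_of_nonneg_right h6 (hψ0 x)
        _ = ψ x + e' * ψ x := by ring
        _ ≤ ψ x + e' := by nlinarith [hψ1 x, hψ0 x]) ε hε
  refine ⟨N₀, fun N hN => ?_⟩
  have h1 := hN₀ N hN
  rw [← hsum N] at h1
  exact h1

end Pool.Agent.CLV
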