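import Pool.Agent.CLV.Targets

set_option autoImplicit false

/-!
# CLV, OWN: the own weight has mean one
-/

open MeasureTheory Filter Topology Finset

namespace Pool.Agent.CLV

open Pool.Agent.FSP Pool.Agent.Ind3

universe u

namespace OWN_

theorem mC_one {N : ℕ} (hN : 1 ≤ N) (s : ℕ) : mC N s (fun _ => (1 : ℂ)) = 1 := by
  unfold mC
  rw [sum_const, card_range, nsmul_eq_mul, mul_one]
  exact inv_mul_cancel₀ (by exact_mod_cast (by omega : N ≠ 0))

theorem aC_one {N : ℕ} (hN : 1 ≤ N) : aC N (fun _ => (1 : ℂ)) = 1 := by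
  show (mC N N fun _ => mC N 0 fun _ => mC N (3 * N) fun _ => (1 : ℂ)) = 1
  rw [mC_one hN, mC_one hN, mC_one hN]

/-- independence: a monomial with a non-zero exponent is not `1` -/
theorem ne_one {h : ℕ → Circle} {e : ℕ} (hh : Indp h e) {J : Finset ℕ} (hJ : J ⊆ range e)
    (a : ℕ → ℤ) {t : ℕ} (ht : t ∈ J) (ha : a t ≠ 0) : ∏ t ∈ J, h t ^ a t ≠ 1 := by
  classical
  intro h1
  have h2 : ∏ t ∈ range e, h t ^ (if t ∈ J then a t else 0) = 1 := by
    rw [← h1]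
    symm
    have h3 : ∀ t ∈ J, h t ^ a t = h t ^ (if t ∈ J then a t else 0) := by
      intro t ht
      rw [if_pos ht]
    rw [prod_congr rfl h3]
    refine prod_subset hJ fun x _ hx => ?_
    rw [if_neg hx, zpow_zero]
  have h4 := hh (fun t => if t ∈ J then a t else 0) h2 t (mem_range.1 (hJ ht))
  simp only [if_pos ht] at h4
  exact ha h4

end OWN_

open OWN_ in
theorem p_OWN (hAVC : T_AVC) (hCHA : T_CHA) (hEXO : T_EXO) : T_OWN := by
  classical
  intro m d l e J hm hJ h hh ε hε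
  obtain ⟨k, c, a, hc, -, hs, hx⟩ := hEXO m d l J hm
  obtain ⟨A1, A2, A3, -, -⟩ := hAVC
  have hε' : 0 < ε / (k + 1) := by positivity
  -- the terms
  have key : ∀ i : Fin k, ∃ N₀ : ℕ, ∀ N ≥ N₀,
      ‖c i * aC N (fun y => ((∏ r, (∏ t ∈ J, h t ^ a i t r) ^ y r : Circle) : ℂ)) -
        (if ∀ t ∈ J, ∀ r, a i t r = 0 then c i else 0)‖ ≤ ε / (k + 1) := by
    intro i
    by_cases hi : ∀ t ∈ J, ∀ r, a i t r = 0
    · refine ⟨1, fun N hN => ?_⟩
      rw [if_pos hi]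
      have h1 : (fun y : Fin 3 → ℕ =>
          ((∏ r, (∏ t ∈ J, h t ^ a i t r) ^ y r : Circle) : ℂ)) = fun _ => 1 := by
        funext y
        have h2 : (∏ r, (∏ t ∈ J, h t ^ a i t r) ^ y r : Circle) = 1 := by
          refine prod_eq_one fun r _ => ?_
          rw [prod_eq_one fun t ht => by rw [hi t ht r, zpow_zero], one_pow]
        rw [h2]
        rfl
      rw [h1, aC_one hN, mul_one, sub_self, norm_zero]
      exact hε'.le
    · rw [if_neg hi]
      push Not at hi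
      obtain ⟨t, ht, r, hr⟩ := hi
      have h1 : (∏ t ∈ J, h t ^ a i t r) ≠ 1 := ne_one hh hJ (fun t => a i t r) ht hr
      obtain ⟨N₀, h2⟩ := hCHA (fun r => ∏ t ∈ J, h t ^ a i t r) r 1 1 ∅ le_rfl one_pos
        (Or.inl h1) (ε / (k + 1)) hε'
      refine ⟨N₀, fun N hN => ?_⟩
      have h3 := h2 N hN (fun _ => 1) 0 le_rfl ⟨fun _ => by simp, fun _ _ _ _ => by simp⟩
      simp only [Complex.ofReal_one, mul_one, zero_add] at h3
      rw [sub_zero, norm_mul]
      calc ‖c i‖ * _ ≤ 1 * _ := mul_le_mul_of_nonneg_right (hc i) (norm_nonneg _)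
        _ = _ := one_mul _
        _ ≤ _ := h3
  choose N₀ hN₀ using key
  refine ⟨Finset.univ.sup N₀, fun N hN => ?_⟩
  have hN' : ∀ i, N₀ i ≤ N := fun i => (le_sup (mem_univ i)).trans hN
  have e1 : ((avg3 N (WL m d l J h) : ℝ) : ℂ) =
      ∑ i, c i * aC N (fun y => ((∏ r, (∏ t ∈ J, h t ^ a i t r) ^ y r : Circle) : ℂ)) := by
    rw [A1 N (WL m d l J h), ← A3 N k c]
    refine A2 N _ _ fun y hy => ?_
    refine hx h y ?_
    obtain ⟨-, -, h3, h4, -⟩ := hy
    omega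
  have e2 : ((avg3 N (WL m d l J h) - 1 : ℝ) : ℂ) =
      ∑ i, (c i * aC N (fun y => ((∏ r, (∏ t ∈ J, h t ^ a i t r) ^ y r : Circle) : ℂ)) -
        (if ∀ t ∈ J, ∀ r, a i t r = 0 then c i else 0)) := by
    rw [sum_sub_distrib, hs, ← e1]
    push_cast
    rfl
  have e3 : |avg3 N (WL m d l J h) - 1| = ‖((avg3 N (WL m d l J h) - 1 : ℝ) : ℂ)‖ := by
    rw [Complex.norm_real, Real.norm_eq_abs]
  rw [e3, e2]
  calc _ ≤ ∑ i : Fin k, ‖c i * aC N (fun y =>
        ((∏ r, (∏ t ∈ J, h t ^ a i t r) ^ y r : Circle) : ℂ)) -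
        (if ∀ t ∈ J, ∀ r, a i t r = 0 then c i else 0)‖ := norm_sum_le _ _
    _ ≤ ∑ _i : Fin k, ε / (k + 1) := sum_le_sum fun i _ => hN₀ i N (hN' i)
    _ = k * (ε / (k + 1)) := by rw [sum_const, card_univ, Fintype.card_fin, nsmul_eq_mul]
    _ ≤ ε := by
        rw [mul_div_assoc', div_le_iff₀ (by positivity)]
        nlinarith

end Pool.Agent.CLV
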