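import Pool.Agent.CLV.Targets

set_option autoImplicit false

/-! Target PPT of the project CLV: the variation of the almost periodic function `P`. -/

open MeasureTheory Filter Topology Finset

namespace Pool.Agent.CLV

open Pool.Agent.FSP Pool.Agent.Ind3

universe u

namespace PPT_

theorem meas_zeta {Ω : Type u} [MeasurableSpace Ω] {θ : Fin 3 → ℕ → Ω → Circle}
    (hθ : ∀ l j, Measurable (θ l j)) {n : Fin 3 → ℕ} {a : Fin 3 → ℕ → ℕ → ℤ}
    {ζ : Fin 3 → ℕ → Ω → Circle}
    (hζ : ∀ l t x, ζ l t x = ∏ j ∈ range (n l), θ l j x ^ a l t j) :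
    Measurable (sv ζ) := by
  refine measurable_pi_lambda _ fun l => measurable_pi_lambda _ fun t => ?_
  have h1 : (fun x => sv ζ x l t) = fun x => ∏ j ∈ range (n l), θ l j x ^ a l t j := by
    funext x
    exact hζ l t x
  rw [h1]
  exact Finset.measurable_fun_prod _ fun j _ => (hθ l j).pow_const _

end PPT_

theorem p_PPT (hWBC : T_WBC) (hBAD : T_BAD) (hWMO : T_WMO) : T_PPT.{u} := by
  classical
  intro Ω _ μ _ θ hθ n d e a q₀ b ζ X hSel l Q hQ P hP hP0 hP1 q₂ ρ lam hq₂ hρ hlam hvar δ hδ q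
    hq hdvd
  obtain ⟨k, hk⟩ := hdvd
  obtain ⟨m₀, hm₀, hm⟩ := hBAD d e l (n l) q₀ k (b l) ρ δ hSel.le hSel.pos hρ hδ
  refine ⟨m₀, hm₀, fun m hmm ε hε => ?_⟩
  have hm1 : 1 ≤ m := hm₀.trans hmm
  obtain ⟨B, hB1, hWb, hWm, -, -⟩ := hWBC m d e hm1
  have hB0 : 0 ≤ B := by linarith
  have hsv : Measurable (sv ζ) := PPT_.meas_zeta hθ hSel.zet
  set W : Ω → (Fin 3 → ℕ) → ℝ := fun x y => WW m d e (sv ζ x) y with hW
  have W0 : ∀ x y, 0 ≤ W x y := fun x y => (hWb (sv ζ x) y).1
  have W1 : ∀ x y, W x y ≤ B := fun x y => (hWb (sv ζ x) y).2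
  have WM : ∀ y, Measurable fun x => W x y := fun y => (hWm y).comp hsv
  have hPP1 : ∀ x y, |P x - P y| ≤ 1 := fun x y => by
    rw [abs_le]
    constructor
    · linarith [hP0 x, hP1 y]
    · linarith [hP1 x, hP0 y]
  have hWb' : ∀ x y (r : ℝ), |r| ≤ 1 → abs (W x y * |r|) ≤ B := fun x y r hr => by
    rw [abs_mul, abs_abs, abs_of_nonneg (W0 x y)]
    calc W x y * |r| ≤ B * 1 := mul_le_mul (W1 x y) hr (abs_nonneg _) hB0
      _ = B := mul_one B
  have hQm : ∀ t : ℕ, Measurable (Q^[t]) := fun t => hQ.measurable.iterate t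
  obtain ⟨N₀, h⟩ := f_LSU.{u} Ω μ (fun N x => avg3 N (fun y => W x y *
    |P (Q^[q * tm l y] x) - P x|)) B (fun _ => lam + δ) X
    (fun N => erb_meas N fun y => (WM y).mul ((hP.comp (hQm _)).sub hP).abs)
    (fun N x => erb_abs N hB0 fun y => hWb' x y _ (hPP1 _ _)) (integrable_const _) hSel.mX
    (by
      filter_upwards [hvar] with x hv hx ε' hε'
      have hs : Str d e (sv ζ x) (sv θ x) := hSel.str x hx
      obtain ⟨N₁, h1⟩ := hWMO m d e (sv ζ x) (sv θ x) hm1 hs (ε' / (lam + 1)) (by positivity)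
      obtain ⟨N₂, h2⟩ := hm m hmm (sv ζ x) (sv θ x) hs (fun j hj => hSel.pow x hx l j hj)
      refine ⟨max N₁ N₂, fun N hN => ?_⟩
      have hNa : N₁ ≤ N := (le_max_left _ _).trans hN
      have hNb : N₂ ≤ N := (le_max_right _ _).trans hN
      have h3 : ∀ y, W x y * |P (Q^[q * tm l y] x) - P x| ≤ W x y * lam + W x y *
          (if ∃ j < n l, ρ < ‖((sv θ x l j : Circle) : ℂ) ^ (q₀ * k * tm l y) - 1‖
            then 1 else 0) := by
        intro y
        rw [← mul_add]
        refine mul_le_mul_of_nonneg_left ?_ (W0 x y)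
        by_cases hall : ∃ j < n l, ρ < ‖((sv θ x l j : Circle) : ℂ) ^ (q₀ * k * tm l y) - 1‖
        · rw [if_pos hall]
          have := hPP1 (Q^[q * tm l y] x) x
          linarith
        · rw [if_neg hall, add_zero]
          push Not at hall
          have h4 := hv (q₀ * k * tm l y) hall
          have h5 : q₂ * (q₀ * k * tm l y) = q * tm l y := by
            rw [hk]
            ring
          rwa [h5] at h4
      have h6 : avg3 N (fun y => W x y * |P (Q^[q * tm l y] x) - P x|) ≤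
          avg3 N (fun y => W x y) * lam + avg3 N (fun y => W x y *
            (if ∃ j < n l, ρ < ‖((sv θ x l j : Circle) : ℂ) ^ (q₀ * k * tm l y) - 1‖
              then 1 else 0)) := by
        refine (erb_mono N h3).trans (le_of_eq ?_)
        rw [erb_add, erb_mul]
      have h7 : avg3 N (fun y => W x y) ≤ 1 + ε' / (lam + 1) := by
        have := (abs_le.1 (h1 N hNa)).2
        change avg3 N (WW m d e (sv ζ x)) ≤ _
        linarith
      have h8 : avg3 N (fun y => W x y *
            (if ∃ j < n l, ρ < ‖((sv θ x l j : Circle) : ℂ) ^ (q₀ * k * tm l y) - 1‖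
              then 1 else 0)) ≤ δ := (h2 N hNb).1
      have h9 : avg3 N (fun y => W x y) * lam ≤ (1 + ε' / (lam + 1)) * lam :=
        mul_le_mul_of_nonneg_right h7 hlam
      have h10 : (1 + ε' / (lam + 1)) * lam ≤ lam + ε' := by
        have h11 : ε' / (lam + 1) * lam ≤ ε' := by
          rw [div_mul_eq_mul_div, div_le_iff₀ (by positivity)]
          nlinarith
        linarith
      linarith) ε hε
  refine ⟨N₀, fun N hN => (h N hN).trans ?_⟩
  rw [setIntegral_const, smul_eq_mul]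
  have h3 : μ.real X ≤ 1 := measureReal_le_one
  have h4 : (0 : ℝ) ≤ μ.real X := measureReal_nonneg
  nlinarith

end Pool.Agent.CLV
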