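import Pool.Agent.CLV.Targets
import Pool.Agent.FSP.P_PRO
import Pool.Agent.FSP.P_DEC
import Pool.Agent.Ind3.P_DCP

set_option autoImplicit false

/-!
# CLV: projections (T_PRF)
-/

open MeasureTheory Filter Topology Finset

namespace Pool.Agent.CLV

open Pool.Agent.FSP Pool.Agent.Ind3

universe u

open Pool.Agent.Ind3.DCP_ Pool.Agent.FSP.DEC_ in
/-- Projections. -/
theorem p_PRF : T_PRF.{u} := by
  intro Ω _ μ _ T hT F hF f hfm hf0 hf1
  obtain ⟨s1, s2, s3, s4, s5, s6⟩ := Pool.Agent.Ind3.f_SPE.{u} Ω μ T F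
  let K : Submodule ℝ (Lp ℝ 2 μ) :=
    { carrier := {h | InF μ T F h}
      add_mem' := fun {a b} ha hb => s1 a b ha hb
      zero_mem' := s3
      smul_mem' := fun c h hh => s2 c h hh }
  have hKc : IsClosed (K : Set (Lp ℝ 2 μ)) := by
    apply isClosed_of_closure_subset
    intro h hh
    apply s4
    intro ε hε
    obtain ⟨h', h'K, hd⟩ := Metric.mem_closure_iff.1 hh ε hε
    exact ⟨h', h'K, by rw [← dist_eq_norm]; exact hd.le⟩
  have hfb : ∀ x, |f x| ≤ 1 := fun x => by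
    rw [abs_of_nonneg (hf0 x)]
    exact hf1 x
  have hfL : MemLp f 2 μ := memLp_bdd hfm 1 hfb
  obtain ⟨c₀, hc₀K, hc₀b, hc₀o⟩ := p_PRO Ω μ K hKc (fun h hh h' h'e => s5 h h' hh h'e)
    (hfL.toLp _) (by
      filter_upwards [hfL.coeFn_toLp] with x hx
      rw [hx]
      exact ⟨hf0 x, hf1 x⟩)
  have hc₀K' : InF μ T F c₀ := hc₀K
  have hc₀m : Measurable (fun x => c₀ x) := (Lp.stronglyMeasurable c₀).measurable
  let c : Ω → ℝ := fun x => clip (c₀ x)
  have hcm : Measurable c := measurable_clip.comp hc₀m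
  have hc0 : ∀ x, 0 ≤ c x := fun x => clip_nonneg _
  have hc1 : ∀ x, c x ≤ 1 := fun x => clip_le_one _
  have hcc : c₀ =ᵐ[μ] c := by
    filter_upwards [hc₀b] with x h1
    exact (clip_of_mem h1.1 h1.2).symm
  have hcb : ∀ x, |c x| ≤ 1 := fun x => by
    rw [abs_of_nonneg (hc0 x)]
    exact hc1 x
  let g : Ω → ℝ := fun x => f x - c x
  have hgm : Measurable g := hfm.sub hcm
  have hg1 : ∀ x, |g x| ≤ 1 := by
    intro x
    have h1 := hf0 x
    have h2 := hf1 x
    have h3 := hc0 x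
    have h4 := hc1 x
    show |f x - c x| ≤ 1
    rw [abs_le]
    constructor <;> linarith
  have hfc : ((hfL.toLp _ - c₀ : Lp ℝ 2 μ)) =ᵐ[μ] g := by
    filter_upwards [Lp.coeFn_sub (hfL.toLp _) c₀, hfL.coeFn_toLp, hcc] with x h1 h2 h3
    rw [h1, Pi.sub_apply, h2, h3]
  -- orthogonality
  have hort : ∀ (v : Ω → ℝ) (h : Lp ℝ 2 μ), InF μ T F h → h =ᵐ[μ] v →
      ∫ x, g x * v x ∂μ = 0 := by
    intro v h hh hv
    rw [← inner_eq hfc hv]
    exact hc₀o h hh
  refine ⟨c, hcm, hc0, hc1, ?_, ?_⟩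
  · intro ε hε
    obtain ⟨p, hpm, hAP, hp, hn⟩ := hc₀K' ε hε
    refine ⟨fun x => clip (p x), measurable_clip.comp hpm, fun x => clip_nonneg _,
      fun x => clip_le_one _, ?_, fun ε' hε' => AP_clip (hAP ε' hε')⟩
    have e : (c₀ - hp.toLp p : Lp ℝ 2 μ) =ᵐ[μ] fun x => c₀ x - p x := by
      filter_upwards [Lp.coeFn_sub c₀ (hp.toLp p), hp.coeFn_toLp] with x h1 h2
      rw [h1, Pi.sub_apply, h2]
    have h1 := MRec.integral_abs_le_norm (c₀ - hp.toLp p) e
    have hpi : Integrable p μ := hp.integrable one_le_two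
    have hci : Integrable (fun x => c₀ x) μ := (Lp.memLp c₀).integrable one_le_two
    have hm : Measurable fun x => |c x - clip (p x)| :=
      (hcm.sub (measurable_clip.comp hpm)).abs
    have hb : ∀ x, |(|c x - clip (p x)|)| ≤ 1 := by
      intro x
      rw [abs_abs, abs_le]
      have h1 := hc0 x
      have h2 := hc1 x
      have h3 := clip_nonneg (p x)
      have h4 := clip_le_one (p x)
      constructor <;> linarith
    have h2 : ∫ x, |c x - clip (p x)| ∂μ ≤ ∫ x, |c₀ x - p x| ∂μ := by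
      apply integral_mono (integrable_bdd hm 1 hb) (hci.sub hpi).abs
      intro x
      exact abs_clip_sub _ _
    exact h2.trans (h1.trans hn)
  · intro v hv hvb _ hvA
    obtain ⟨C, hC⟩ := hvb
    have hvL : MemLp v 2 μ := memLp_bdd hv C hC
    exact hort v (hvL.toLp v) (mem_of_AP hv hvL hvA) hvL.coeFn_toLp

end Pool.Agent.CLV
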