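import Pool.Agent.CLV.Targets

/-!
# RNK: independent values among the monomials in `n` values
-/

set_option autoImplicit false

open Finset

namespace Pool.Agent.CLV

namespace RNK_

theorem zs (z : Circle) (f : ℕ → ℤ) (N : ℕ) :
    ∏ t ∈ range N, z ^ f t = z ^ ∑ t ∈ range N, f t := by
  induction N with
  | zero => simp
  | succ N ih => rw [prod_range_succ, sum_range_succ, ih, zpow_add]

end RNK_

theorem p_RNK : T_RNK := by
  intro s n w N hS hI
  have hex : ∀ t, ∃ (k : ℕ) (a : ℕ → ℤ), t < N →
      1 ≤ k ∧ w t ^ k = ∏ j ∈ range n, s j ^ a j := by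
    intro t
    by_cases ht : t < N
    · obtain ⟨k, hk, a, ha⟩ := hS t ht
      exact ⟨k, a, fun _ => ⟨hk, ha⟩⟩
    · exact ⟨0, fun _ => 0, fun h => absurd h ht⟩
  choose k A hkA using hex
  have hli : LinearIndependent ℤ (fun t : Fin N => fun j : Fin n => A t.1 j.1) := by
    rw [Fintype.linearIndependent_iff]
    intro g hg
    set c : ℕ → ℤ := fun t => if h : t < N then g ⟨t, h⟩ else 0 with hc
    have hcol : ∀ j < n, ∑ t ∈ range N, A t j * c t = 0 := by
      intro j hj
      have h1 := congrFun hg ⟨j, hj⟩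
      rw [Finset.sum_apply] at h1
      simp only [Pi.smul_apply, smul_eq_mul, Pi.zero_apply] at h1
      rw [← h1, ← Fin.sum_univ_eq_sum_range (fun t => A t j * c t) N]
      refine Finset.sum_congr rfl fun t _ => ?_
      simp only [hc, t.2, dite_true]
      ring
    have hprod : ∏ t ∈ range N, w t ^ ((k t : ℤ) * c t) = 1 := by
      have h2 : ∀ t ∈ range N, w t ^ ((k t : ℤ) * c t) = ∏ j ∈ range n, s j ^ (A t j * c t) := by
        intro t ht
        rw [zpow_mul, zpow_natCast, (hkA t (mem_range.1 ht)).2, ← Finset.prod_zpow]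
        exact Finset.prod_congr rfl fun j _ => (zpow_mul _ _ _).symm
      rw [Finset.prod_congr rfl h2, Finset.prod_comm]
      refine Finset.prod_eq_one fun j hj => ?_
      rw [RNK_.zs, hcol j (mem_range.1 hj), zpow_zero]
    intro t
    have h3 := hI _ hprod t.1 t.2
    have h4 : ((k t.1 : ℕ) : ℤ) ≠ 0 := by
      have := (hkA t.1 t.2).1
      exact_mod_cast (by omega : k t.1 ≠ 0)
    have h5 : c t.1 = 0 := by
      rcases mul_eq_zero.1 h3 with h | h
      · exact absurd h h4
      · exact h
    simpa [hc, t.2] using h5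
  have h6 := hli.fintype_card_le_finrank
  simpa using h6

end Pool.Agent.CLV
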