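import Pool.Agent.CLV.Targets

/-!
# CLV, block RPT: the random part does not contribute with the own weight
-/

set_option autoImplicit false

open MeasureTheory Filter Topology Finset

namespace Pool.Agent.CLV

open Pool.Agent.FSP Pool.Agent.Ind3

universe u

namespace RPT_

variable {Ω : Type u}

theorem inv_iter {β : Type*} {Q : Ω → Ω} {χ : Ω → β} (h : ∀ x, χ (Q x) = χ x) (M : ℕ) (x : Ω) :
    χ (Q^[M] x) = χ x := by
  induction M generalizing x with
  | zero => rfl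
  | succ M ih => rw [Function.iterate_succ_apply, ih, h]

theorem inner {Q : Ω → Ω} {r : Ω → ℝ} {χ : Ω → Circle} (hχ : ∀ x, χ (Q x) = χ x) (N k M : ℕ)
    (x : Ω) (u : Circle) (G : ℕ → ℂ)
    (hG : ∀ c < N, G c = ((u * χ x ^ c : Circle) : ℂ) * ((r (Q^[M + k * c] x) : ℝ) : ℂ)) :
    ‖(N : ℂ)⁻¹ * ∑ c ∈ range N, G c‖ = ‖cav (Q^[k]) χ r N 0 (Q^[M] x)‖ := by
  have h1 : (N : ℂ)⁻¹ * ∑ c ∈ range N, G c = (u : ℂ) * cav (Q^[k]) χ r N 0 (Q^[M] x) := by
    unfold cav
    rw [mul_left_comm]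
    congr 1
    rw [mul_sum]
    refine sum_congr rfl fun c hc => ?_
    rw [hG c (mem_range.1 hc), inv_iter hχ M x, zero_add, ← Function.iterate_mul,
      ← Function.iterate_add_apply, add_comm (k * c) M]
    push_cast
    ring
  rw [h1, norm_mul, Circle.norm_coe, one_mul]

theorem two [MeasurableSpace Ω] {μ : Measure Ω} [IsProbabilityMeasure μ] {Q : Ω → Ω}
    (hQ : MeasurePreserving Q μ μ) {Φ : Ω → ℝ} (hΦm : Measurable Φ) (hΦ0 : ∀ x, 0 ≤ Φ x)
    (hΦ1 : ∀ x, Φ x ≤ 1) (N s₁ s₂ : ℕ) (I : Ω → ℕ → ℕ → ℂ) (M : ℕ → ℕ → ℕ)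
    (hI : ∀ x, ∀ a b : ℕ, b < N → ‖I x (s₁ + a) (s₂ + b)‖ ≤ Φ (Q^[M a b] x)) :
    ∃ Ψ : Ω → ℝ, Integrable Ψ μ ∧
      (∀ x, ‖mC N s₁ fun a => mC N s₂ fun b => I x a b‖ ≤ Ψ x) ∧
      ∫ x, Ψ x ∂μ ≤ ∫ x, Φ x ∂μ := by
  have hint : ∀ K, Integrable (fun x => Φ (Q^[K] x)) μ := by
    intro K
    refine Integrable.of_bound
      ((hΦm.comp (hQ.iterate K).measurable).aestronglyMeasurable) 1 ?_
    filter_upwards with x
    rw [Real.norm_of_nonneg (hΦ0 _)]
    exact hΦ1 _
  have hval : ∀ K, ∫ x, Φ (Q^[K] x) ∂μ = ∫ x, Φ x ∂μ := by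
    intro K
    have h := integral_map (μ := μ) (hQ.iterate K).measurable.aemeasurable
      (f := Φ) (hΦm.aestronglyMeasurable)
    rw [(hQ.iterate K).map_eq] at h
    exact h.symm
  refine ⟨fun x => (N : ℝ)⁻¹ * ∑ a ∈ range N, (N : ℝ)⁻¹ * ∑ b ∈ range N, Φ (Q^[M a b] x),
    ?_, ?_, ?_⟩
  · exact (integrable_finsetSum _ fun a _ =>
      (integrable_finsetSum _ fun b _ => hint _).const_mul _).const_mul _
  · intro x
    unfold mC
    rw [norm_mul, norm_inv, Complex.norm_natCast]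
    refine mul_le_mul_of_nonneg_left ((norm_sum_le _ _).trans (sum_le_sum fun a _ => ?_))
      (by positivity)
    rw [norm_mul, norm_inv, Complex.norm_natCast]
    exact mul_le_mul_of_nonneg_left ((norm_sum_le _ _).trans
      (sum_le_sum fun b hb => hI x a b (mem_range.1 hb))) (by positivity)
  · rw [integral_const_mul, integral_finsetSum _ fun a _ =>
      (integrable_finsetSum _ fun b _ => hint _).const_mul _]
    have h1 : ∀ a ∈ range N, ∫ x, (N : ℝ)⁻¹ * ∑ b ∈ range N, Φ (Q^[M a b] x) ∂μ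
        = (N : ℝ)⁻¹ * (N * ∫ x, Φ x ∂μ) := by
      intro a _
      rw [integral_const_mul, integral_finsetSum _ fun b _ => hint _,
        sum_congr rfl fun b _ => hval (M a b), sum_const, card_range, nsmul_eq_mul]
    rw [sum_congr rfl h1, sum_const, card_range, nsmul_eq_mul]
    rcases Nat.eq_zero_or_pos N with h0 | h0
    · subst h0
      simp only [Nat.cast_zero, zero_mul, mul_zero]
      exact integral_nonneg hΦ0
    · have h2 : (N : ℝ) ≠ 0 := by positivity
      rw [inv_mul_cancel_left₀ h2, inv_mul_cancel_left₀ h2]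

/-- The product of powers of monomials is a monomial. -/
theorem mono {n : ℕ} (J : Finset ℕ) (z : ℕ → Circle) (a : ℕ → ℕ → ℤ) (c : ℕ → ℤ) :
    ∏ t ∈ J, (∏ j ∈ range n, z j ^ a t j) ^ c t
      = ∏ j ∈ range n, z j ^ (∑ t ∈ J, a t j * c t) := by
  classical
  induction J using Finset.induction_on with
  | empty => simp
  | insert t J ht ih =>
    rw [prod_insert ht, ih, ← prod_zpow, ← prod_mul_distrib]
    refine prod_congr rfl fun j _ => ?_
    rw [sum_insert ht, zpow_add, zpow_mul]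

theorem core (hAVC : T_AVC) (hMEB : T_MEB.{u}) [MeasurableSpace Ω] (μ : Measure Ω)
    [IsProbabilityMeasure μ] (Q : Ω → Ω) (hQ : MeasurePreserving Q μ μ) (θ : ℕ → Ω → Circle)
    (hθm : ∀ j, Measurable (θ j)) (hθi : ∀ j x, θ j (Q x) = θ j x) (n : ℕ) (r : Ω → ℝ)
    (hr : Measurable r) (hr1 : ∀ x, |r x| ≤ 1) (hort : OrtAP μ Q (FN θ n) Set.univ r)
    (b : Fin 3 → ℕ → ℤ) (q : ℕ) (hq : 1 ≤ q) (l : Fin 3) (ε : ℝ) (hε : 0 < ε) :
    ∃ N₀ : ℕ, ∀ N ≥ N₀, ∃ Ψ : Ω → ℝ, Integrable Ψ μ ∧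
      (∀ x, ‖aC N fun y => ((∏ s, (∏ j ∈ range n, θ j x ^ b s j) ^ y s : Circle) : ℂ) *
        ((r (Q^[q * tm l y] x) : ℝ) : ℂ)‖ ≤ Ψ x) ∧ ∫ x, Ψ x ∂μ ≤ ε := by
  have hχm : ∀ s : Fin 3, Measurable fun x => ∏ j ∈ range n, θ j x ^ b s j := fun s =>
    Finset.measurable_prod _ fun j _ => (hθm j).pow_const _
  have hχi : ∀ (s : Fin 3) x, (fun x => ∏ j ∈ range n, θ j x ^ b s j) (Q x)
      = (fun x => ∏ j ∈ range n, θ j x ^ b s j) x := fun s x => by
    simp only [hθi]
  have hmeas : ∀ (k N : ℕ) (s : Fin 3), Measurable fun x =>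
      ‖cav (Q^[k]) (fun x => ∏ j ∈ range n, θ j x ^ b s j) r N 0 x‖ := fun k N s =>
    (SLA_.cav_meas (hQ.iterate k).measurable (hχm s) hr N 0).norm
  have hAV := hAVC.2.2.2.2
  have hcase : ∀ (k : ℕ) (s : Fin 3), 1 ≤ k →
      (∀ N : ℕ, ∃ (s₁ s₂ : ℕ) (I : Ω → ℕ → ℕ → ℂ) (M : ℕ → ℕ → ℕ),
        (∀ x, (aC N fun y => ((∏ s, (∏ j ∈ range n, θ j x ^ b s j) ^ y s : Circle) : ℂ) *
          ((r (Q^[q * tm l y] x) : ℝ) : ℂ)) = mC N s₁ fun a => mC N s₂ fun b' => I x a b') ∧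
        ∀ x, ∀ a b' : ℕ, b' < N → ‖I x (s₁ + a) (s₂ + b')‖ ≤
          ‖cav (Q^[k]) (fun x => ∏ j ∈ range n, θ j x ^ b s j) r N 0 (Q^[M a b'] x)‖) →
      ∃ N₀ : ℕ, ∀ N ≥ N₀, ∃ Ψ : Ω → ℝ, Integrable Ψ μ ∧
        (∀ x, ‖aC N fun y => ((∏ s, (∏ j ∈ range n, θ j x ^ b s j) ^ y s : Circle) : ℂ) *
          ((r (Q^[q * tm l y] x) : ℝ) : ℂ)‖ ≤ Ψ x) ∧ ∫ x, Ψ x ∂μ ≤ ε := by
    intro k s hk H
    obtain ⟨N₀, hN₀⟩ := hMEB Ω μ Q hQ θ hθm hθi n r hr hr1 hort k (b s) hk ε hε
    refine ⟨N₀, fun N hN => ?_⟩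
    obtain ⟨s₁, s₂, I, M, h1, h2⟩ := H N
    obtain ⟨Ψ, hΨ1, hΨ2, hΨ3⟩ := two hQ (hmeas k N s) (fun _ => norm_nonneg _)
      (fun x => SLA_.cav_bd hr1 N 0 x) N s₁ s₂ I M h2
    refine ⟨Ψ, hΨ1, fun x => ?_, hΨ3.trans (hN₀ N hN)⟩
    rw [h1 x]
    exact hΨ2 x
  fin_cases l
  · refine hcase (2 * q) 2 (by omega) fun N => ?_
    refine ⟨off 0 * N, off 1 * N, fun x a b' => mC N (off 2 * N) fun c =>
      (fun y : Fin 3 → ℕ => ((∏ s, (∏ j ∈ range n, θ j x ^ b s j) ^ y s : Circle) : ℂ) *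
        ((r (Q^[q * tm 0 y] x) : ℝ) : ℂ)) fun r =>
          if r = 0 then a else if r = 1 then b' else c,
      fun _ b' => q * (6 * N - b'), fun x => hAV N _ 0 1 2 (by decide) (by decide) (by decide), ?_⟩
    intro x a b' hb'
    have h := inner (Q := Q) (χ := fun x => ∏ j ∈ range n, θ j x ^ b 2 j) (r := r) (hχi 2) N
      (2 * q) (q * (6 * N - b')) x
      ((∏ j ∈ range n, θ j x ^ b 0 j) ^ (off 0 * N + a) *
        (∏ j ∈ range n, θ j x ^ b 1 j) ^ (off 1 * N + b') *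
        (∏ j ∈ range n, θ j x ^ b 2 j) ^ (off 2 * N))
      (fun c => ((∏ s : Fin 3, (∏ j ∈ range n, θ j x ^ b s j) ^ ((fun r : Fin 3 =>
            if r = 0 then off 0 * N + a else if r = 1 then off 1 * N + b'
              else off 2 * N + c) s) : Circle) : ℂ) *
          ((r (Q^[q * tm 0 (fun r : Fin 3 => if r = 0 then off 0 * N + a
            else if r = 1 then off 1 * N + b' else off 2 * N + c)] x) : ℝ) : ℂ))
      (by
        intro c _
        have e1 : q * tm 0 (fun r : Fin 3 => if r = 0 then off 0 * N + a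
            else if r = 1 then off 1 * N + b' else off 2 * N + c)
            = q * (6 * N - b') + (2 * q) * c := by
          have : tm 0 (fun r : Fin 3 => if r = 0 then off 0 * N + a
              else if r = 1 then off 1 * N + b' else off 2 * N + c)
              = (6 * N - b') + 2 * c := by
            simp [tm, off]
            omega
          rw [this]
          ring
        have e2 : (∏ s : Fin 3, (∏ j ∈ range n, θ j x ^ b s j) ^ ((fun r : Fin 3 =>
            if r = 0 then off 0 * N + a else if r = 1 then off 1 * N + b'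
              else off 2 * N + c) s)) = (∏ j ∈ range n, θ j x ^ b 0 j) ^ (off 0 * N + a) *
            (∏ j ∈ range n, θ j x ^ b 1 j) ^ (off 1 * N + b') *
            (∏ j ∈ range n, θ j x ^ b 2 j) ^ (off 2 * N + c) := by
          rw [Fin.prod_univ_three]
          rfl
        rw [e1, e2, pow_add _ (off 2 * N) c]
        push_cast
        ring)
    exact h.le
  · refine hcase q 2 hq fun N => ?_
    refine ⟨off 0 * N, off 1 * N, fun x a b' => mC N (off 2 * N) fun c =>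
      (fun y : Fin 3 → ℕ => ((∏ s, (∏ j ∈ range n, θ j x ^ b s j) ^ y s : Circle) : ℂ) *
        ((r (Q^[q * tm 1 y] x) : ℝ) : ℂ)) fun r =>
          if r = 0 then a else if r = 1 then b' else c,
      fun a _ => q * (N + a + 3 * N),
      fun x => hAV N _ 0 1 2 (by decide) (by decide) (by decide), ?_⟩
    intro x a b' hb'
    have h := inner (Q := Q) (χ := fun x => ∏ j ∈ range n, θ j x ^ b 2 j) (r := r) (hχi 2) N
      q (q * (N + a + 3 * N)) x
      ((∏ j ∈ range n, θ j x ^ b 0 j) ^ (off 0 * N + a) *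
        (∏ j ∈ range n, θ j x ^ b 1 j) ^ (off 1 * N + b') *
        (∏ j ∈ range n, θ j x ^ b 2 j) ^ (off 2 * N))
      (fun c => ((∏ s : Fin 3, (∏ j ∈ range n, θ j x ^ b s j) ^ ((fun r : Fin 3 =>
            if r = 0 then off 0 * N + a else if r = 1 then off 1 * N + b'
              else off 2 * N + c) s) : Circle) : ℂ) *
          ((r (Q^[q * tm 1 (fun r : Fin 3 => if r = 0 then off 0 * N + a
            else if r = 1 then off 1 * N + b' else off 2 * N + c)] x) : ℝ) : ℂ))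
      (by
        intro c _
        have e1 : q * tm 1 (fun r : Fin 3 => if r = 0 then off 0 * N + a
            else if r = 1 then off 1 * N + b' else off 2 * N + c)
            = q * (N + a + 3 * N) + q * c := by
          have : tm 1 (fun r : Fin 3 => if r = 0 then off 0 * N + a
              else if r = 1 then off 1 * N + b' else off 2 * N + c)
              = (N + a + 3 * N) + c := by
            simp [tm, off]
            omega
          rw [this]
          ring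
        have e2 : (∏ s : Fin 3, (∏ j ∈ range n, θ j x ^ b s j) ^ ((fun r : Fin 3 =>
            if r = 0 then off 0 * N + a else if r = 1 then off 1 * N + b'
              else off 2 * N + c) s)) = (∏ j ∈ range n, θ j x ^ b 0 j) ^ (off 0 * N + a) *
            (∏ j ∈ range n, θ j x ^ b 1 j) ^ (off 1 * N + b') *
            (∏ j ∈ range n, θ j x ^ b 2 j) ^ (off 2 * N + c) := by
          rw [Fin.prod_univ_three]
          rfl
        rw [e1, e2, pow_add _ (off 2 * N) c]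
        push_cast
        ring)
    exact h.le
  · refine hcase q 1 hq fun N => ?_
    refine ⟨off 0 * N, off 2 * N, fun x a b' => mC N (off 1 * N) fun c =>
      (fun y : Fin 3 → ℕ => ((∏ s, (∏ j ∈ range n, θ j x ^ b s j) ^ y s : Circle) : ℂ) *
        ((r (Q^[q * tm 2 y] x) : ℝ) : ℂ)) fun r =>
          if r = 0 then a else if r = 2 then b' else c,
      fun a _ => q * (2 * (N + a)), fun x => hAV N _ 0 2 1 (by decide) (by decide) (by decide), ?_⟩
    intro x a b' hb'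
    have h := inner (Q := Q) (χ := fun x => ∏ j ∈ range n, θ j x ^ b 1 j) (r := r) (hχi 1) N
      q (q * (2 * (N + a))) x
      ((∏ j ∈ range n, θ j x ^ b 0 j) ^ (off 0 * N + a) *
        (∏ j ∈ range n, θ j x ^ b 2 j) ^ (off 2 * N + b') *
        (∏ j ∈ range n, θ j x ^ b 1 j) ^ (off 1 * N))
      (fun c => ((∏ s : Fin 3, (∏ j ∈ range n, θ j x ^ b s j) ^ ((fun r : Fin 3 =>
            if r = 0 then off 0 * N + a else if r = 2 then off 2 * N + b'
              else off 1 * N + c) s) : Circle) : ℂ) *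
          ((r (Q^[q * tm 2 (fun r : Fin 3 => if r = 0 then off 0 * N + a
            else if r = 2 then off 2 * N + b' else off 1 * N + c)] x) : ℝ) : ℂ))
      (by
        intro c _
        have e1 : q * tm 2 (fun r : Fin 3 => if r = 0 then off 0 * N + a
            else if r = 2 then off 2 * N + b' else off 1 * N + c)
            = q * (2 * (N + a)) + q * c := by
          have : tm 2 (fun r : Fin 3 => if r = 0 then off 0 * N + a
              else if r = 2 then off 2 * N + b' else off 1 * N + c)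
              = 2 * (N + a) + c := by
            simp [tm, off]

          rw [this]
          ring
        have e2 : (∏ s : Fin 3, (∏ j ∈ range n, θ j x ^ b s j) ^ ((fun r : Fin 3 =>
            if r = 0 then off 0 * N + a else if r = 2 then off 2 * N + b'
              else off 1 * N + c) s)) = (∏ j ∈ range n, θ j x ^ b 0 j) ^ (off 0 * N + a) *
            (∏ j ∈ range n, θ j x ^ b 2 j) ^ (off 2 * N + b') *
            (∏ j ∈ range n, θ j x ^ b 1 j) ^ (off 1 * N + c) := by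
          rw [Fin.prod_univ_three]
          exact mul_right_comm _ _ _
        rw [e1, e2, pow_add _ (off 1 * N) c]
        push_cast
        ring)
    exact h.le

end RPT_

open RPT_ in
theorem p_RPT : T_AVC → T_EXO → T_MEB.{u} → T_RPT.{u} := by
  intro hAVC hEXO hMEB Ω _ μ _ Q hQ θ hθm hθi n r hr hr1 hort a m d q l J hm hq ε hε
  classical
  obtain ⟨k, c, a', hc, _, _, hW⟩ := hEXO m d l J hm
  have hk : 0 < ε / (k + 1) := by positivity
  have hN : ∀ i : Fin k, ∃ N₀ : ℕ, ∀ N ≥ N₀, ∃ Ψ : Ω → ℝ, Integrable Ψ μ ∧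
      (∀ x, ‖aC N fun y => ((∏ s, (∏ j ∈ range n, θ j x ^ (∑ t ∈ J, a t j * a' i t s)) ^ y s :
        Circle) : ℂ) * ((r (Q^[q * tm l y] x) : ℝ) : ℂ)‖ ≤ Ψ x) ∧
        ∫ x, Ψ x ∂μ ≤ ε / (k + 1) := fun i =>
    core hAVC hMEB μ Q hQ θ hθm hθi n r hr hr1 hort (fun s j => ∑ t ∈ J, a t j * a' i t s) q hq
      l (ε / (k + 1)) hk
  choose N₀ hN₀ using hN
  refine ⟨Finset.univ.sup N₀, fun N hNN => ?_⟩
  have hΨ : ∀ i : Fin k, ∃ Ψ : Ω → ℝ, Integrable Ψ μ ∧
      (∀ x, ‖aC N fun y => ((∏ s, (∏ j ∈ range n, θ j x ^ (∑ t ∈ J, a t j * a' i t s)) ^ y s :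
        Circle) : ℂ) * ((r (Q^[q * tm l y] x) : ℝ) : ℂ)‖ ≤ Ψ x) ∧
        ∫ x, Ψ x ∂μ ≤ ε / (k + 1) := fun i =>
    hN₀ i N ((Finset.le_sup (f := N₀) (Finset.mem_univ i)).trans hNN)
  choose Ψ hΨ1 hΨ2 hΨ3 using hΨ
  have hpt : ∀ x, |avg3 N fun y => WL m d l J (fun t => ∏ j ∈ range n, θ j x ^ a t j) y *
      r (Q^[q * tm l y] x)| ≤ ∑ i, Ψ i x := by
    intro x
    have e1 : (((avg3 N fun y => WL m d l J (fun t => ∏ j ∈ range n, θ j x ^ a t j) y *
        r (Q^[q * tm l y] x) : ℝ)) : ℂ) = ∑ i, c i * aC N fun y =>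
          ((∏ s, (∏ j ∈ range n, θ j x ^ (∑ t ∈ J, a t j * a' i t s)) ^ y s : Circle) : ℂ) *
            ((r (Q^[q * tm l y] x) : ℝ) : ℂ) := by
      rw [hAVC.1, ← hAVC.2.2.1 N k c]
      refine hAVC.2.1 N _ _ fun y hy => ?_
      have hy2 : y 1 ≤ 2 * y 2 := by
        obtain ⟨_, _, h1, h2, _⟩ := hy
        omega
      rw [Complex.ofReal_mul, hW _ y hy2, Finset.sum_mul]
      refine sum_congr rfl fun i _ => ?_
      simp only [mono J (fun j => θ j x) a]
      ring
    calc |avg3 N fun y => WL m d l J (fun t => ∏ j ∈ range n, θ j x ^ a t j) y *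
        r (Q^[q * tm l y] x)|
        = ‖(((avg3 N fun y => WL m d l J (fun t => ∏ j ∈ range n, θ j x ^ a t j) y *
          r (Q^[q * tm l y] x) : ℝ)) : ℂ)‖ := by rw [Complex.norm_real, Real.norm_eq_abs]
      _ ≤ ∑ i, Ψ i x := by
          rw [e1]
          refine (norm_sum_le _ _).trans (sum_le_sum fun i _ => ?_)
          rw [norm_mul]
          calc ‖c i‖ * _ ≤ 1 * _ := mul_le_mul_of_nonneg_right (hc i) (norm_nonneg _)
            _ ≤ Ψ i x := by
                rw [one_mul]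
                exact hΨ2 i x
  calc ∫ x, |avg3 N fun y => WL m d l J (fun t => ∏ j ∈ range n, θ j x ^ a t j) y *
      r (Q^[q * tm l y] x)| ∂μ ≤ ∫ x, ∑ i, Ψ i x ∂μ := by
        refine integral_mono_of_nonneg (Filter.Eventually.of_forall fun x => abs_nonneg _)
          (integrable_finsetSum _ fun i _ => hΨ1 i) (Filter.Eventually.of_forall hpt)
    _ = ∑ i, ∫ x, Ψ i x ∂μ := integral_finsetSum _ fun i _ => hΨ1 i
    _ ≤ ∑ _i : Fin k, ε / (k + 1) := sum_le_sum fun i _ => hΨ3 i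
    _ ≤ ε := by
        rw [sum_const, card_univ, Fintype.card_fin, nsmul_eq_mul]
        rw [mul_div_assoc', div_le_iff₀ (by positivity)]
        nlinarith

end Pool.Agent.CLV
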