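import Pool.Agent.CLV.Targets
import Pool.Agent.Ind3.P_WBD

set_option autoImplicit false

/-! Target WBC of the project CLV: bounds and measurability of the weights. -/

open MeasureTheory Filter Topology Finset

namespace Pool.Agent.CLV

open Pool.Agent.FSP Pool.Agent.Ind3

namespace WBC_

theorem p0_nonneg (τ : Fin 5) : 0 ≤ p0 τ := by
  unfold p0
  split_ifs <;> norm_num

theorem p0_sum : ∑ τ, p0 τ = 1 := by
  unfold p0
  rw [Finset.sum_ite_eq' univ (0 : Fin 5) fun _ => (1 : ℝ)]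
  simp

theorem prod_bd {B : ℝ} (hB : 1 ≤ B) {ι : Type*} (Z : Finset ι) (F : ι → ℝ) (K : ℕ)
    (hZ : Z.card ≤ K) (h0 : ∀ z ∈ Z, 0 ≤ F z) (h1 : ∀ z ∈ Z, F z ≤ B) :
    0 ≤ ∏ z ∈ Z, F z ∧ ∏ z ∈ Z, F z ≤ B ^ K := by
  refine ⟨prod_nonneg h0, ?_⟩
  calc ∏ z ∈ Z, F z ≤ ∏ z ∈ Z, B := prod_le_prod h0 h1
    _ = B ^ Z.card := by rw [prod_const]
    _ ≤ B ^ K := pow_le_pow_right₀ hB hZ

theorem meas_DD (m : ℕ) (p : Fin 5 → ℝ) {α : Type*} [MeasurableSpace α]
    (f : Fin 3 → α → Circle) (hf : ∀ i, Measurable (f i)) :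
    Measurable fun x => DD m p fun i => f i x := by
  unfold DD
  refine Measurable.const_mul (Finset.measurable_sum _ fun t _ =>
    Finset.measurable_sum _ fun τ _ => Measurable.const_mul
      (Finset.measurable_prod _ fun i _ => ?_) _) _
  by_cases h : act τ i
  · simp only [if_pos h]
    exact (WBD_.meas_kf m i t).comp (hf i)
  · simp only [if_neg h]
    exact measurable_const

theorem fac (m d : ℕ) (hm : 1 ≤ m) (l : Fin 3) (h : ℕ → Circle) (y : Fin 3 → ℕ) (t : ℕ) :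
    0 ≤ (if t < d then kap m l (fun i => h t ^ y i) else kk m (h t ^ tm l y)) ∧
      (if t < d then kap m l (fun i => h t ^ y i) else kk m (h t ^ tm l y)) ≤ (m : ℝ) ^ 3 := by
  have hm1 : (1 : ℝ) ≤ m := by exact_mod_cast hm
  have h23 : (m : ℝ) ^ 2 ≤ (m : ℝ) ^ 3 := pow_le_pow_right₀ hm1 (by norm_num)
  have h13 : (m : ℝ) ≤ (m : ℝ) ^ 3 := le_self_pow₀ hm1 (by norm_num)
  by_cases ht : t < d
  · rw [if_pos ht]
    have hk := (f_LAU m hm).2 l fun i => h t ^ y i
    exact ⟨hk.1, hk.2.1.trans h23⟩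
  · rw [if_neg ht]
    have hk := p_KKB.1 m (h t ^ tm l y)
    exact ⟨hk.1, hk.2.trans h13⟩

end WBC_

open WBC_ in
theorem p_WBC : T_WBC := by
  intro m d e hm
  have hm1 : (1 : ℝ) ≤ m := by exact_mod_cast hm
  have hB : (1 : ℝ) ≤ (m : ℝ) ^ 3 := one_le_pow₀ hm1
  have h13 : (m : ℝ) ≤ (m : ℝ) ^ 3 := le_self_pow₀ hm1 (by norm_num)
  have hB0 : (0 : ℝ) ≤ (m : ℝ) ^ 3 := by linarith
  refine ⟨((m : ℝ) ^ 3) ^ (d + ∑ l, e l), one_le_pow₀ hB, fun g y => ?_, fun y => ?_,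
    fun l h y => ?_, fun l J => ⟨fun h y => ?_, fun y => ?_⟩⟩
  · unfold WW
    have h1 := prod_bd hB (range d) (fun t => DD m p0 fun i => g 2 t ^ y i) d
      (by rw [card_range]) (fun t _ => ((f_LAU m hm).1 p0 p0_nonneg p0_sum 0 _).2.1)
      (fun t _ => ((f_LAU m hm).1 p0 p0_nonneg p0_sum 0 _).2.2.1)
    have h2 : ∀ l : Fin 3, 0 ≤ ∏ t ∈ Ico d (e l), kk m (g l t ^ tm l y) ∧
        ∏ t ∈ Ico d (e l), kk m (g l t ^ tm l y) ≤ ((m : ℝ) ^ 3) ^ e l := fun l =>
      prod_bd hB (Ico d (e l)) (fun t => kk m (g l t ^ tm l y)) (e l)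
        (by rw [Nat.card_Ico]; omega) (fun t _ => (p_KKB.1 m _).1)
        (fun t _ => (p_KKB.1 m _).2.trans h13)
    have h3 : 0 ≤ ∏ l : Fin 3, ∏ t ∈ Ico d (e l), kk m (g l t ^ tm l y) :=
      prod_nonneg fun l _ => (h2 l).1
    have h4 : ∏ l : Fin 3, ∏ t ∈ Ico d (e l), kk m (g l t ^ tm l y) ≤
        ((m : ℝ) ^ 3) ^ ∑ l, e l := by
      rw [← prod_pow_eq_pow_sum]
      exact prod_le_prod (fun l _ => (h2 l).1) fun l _ => (h2 l).2
    refine ⟨mul_nonneg h1.1 h3, ?_⟩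
    rw [pow_add]
    exact mul_le_mul h1.2 h4 h3 (pow_nonneg hB0 _)
  · unfold WW
    refine (Finset.measurable_prod _ fun t _ => ?_).mul (Finset.measurable_prod _ fun l _ =>
      Finset.measurable_prod _ fun t _ => ?_)
    · exact meas_DD m p0 (fun i (g : Fin 3 → ℕ → Circle) => g 2 t ^ y i) fun i =>
        ((measurable_pi_apply t).comp (measurable_pi_apply 2)).pow_const _
    · exact (p_KKB.2.2.1 m).comp
        (((measurable_pi_apply t).comp (measurable_pi_apply l)).pow_const _)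
  · unfold WL
    have h1 := prod_bd hB (range (e l))
      (fun t => if t < d then kap m l (fun i => h t ^ y i) else kk m (h t ^ tm l y)) (e l)
      (by rw [card_range]) (fun t _ => (fac m d hm l h y t).1)
      (fun t _ => (fac m d hm l h y t).2)
    refine ⟨h1.1, h1.2.trans (pow_le_pow_right₀ hB ?_)⟩
    have h2 : e l ≤ ∑ l, e l := Finset.single_le_sum (fun _ _ => Nat.zero_le _) (mem_univ l)
    omega
  · unfold WL
    exact prod_nonneg fun t _ => (fac m d hm l h y t).1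
  · unfold WL
    refine Finset.measurable_prod _ fun t _ => ?_
    by_cases ht : t < d
    · simp only [if_pos ht]
      exact WBD_.meas_kap m l (fun i (h : ℕ → Circle) => h t ^ y i) fun i =>
        (measurable_pi_apply t).pow_const _
    · simp only [if_neg ht]
      exact (p_KKB.2.2.1 m).comp ((measurable_pi_apply t).pow_const _)

end Pool.Agent.CLV
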