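import Pool.Agent.CLV.Targets

set_option autoImplicit false

/-!
# CLV, target WMO: the weight has mean one
-/

open MeasureTheory Filter Topology Finset

namespace Pool.Agent.CLV

open Pool.Agent.FSP Pool.Agent.Ind3

theorem p_WMO : T_OWN → T_MAR → T_WMO := by
  intro hO hM m d e g s hm hS ε hε
  obtain ⟨C, hC, hC1⟩ := hM m d e hm hS.le
  have hC2 : 0 < C + 1 := by linarith
  obtain ⟨N₁, hN₁⟩ := hC1 g s hS 2 1 0 1 le_rfl one_pos (ε / (2 * (C + 1))) (by positivity)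
  obtain ⟨N₂, hN₂⟩ := hO m d 2 (e 2) (range (e 2)) hm (Finset.Subset.refl _) (g 2) (hS.ind 2)
    (ε / 2) (half_pos hε)
  refine ⟨max N₁ N₂, fun N hN => ?_⟩
  have h1 := hN₁ N ((le_max_left _ _).trans hN) (fun _ => 1) 0 le_rfl
    ⟨fun _ => by simp, fun _ _ _ _ => by simp⟩
  have h2 := hN₂ N ((le_max_right _ _).trans hN)
  have e1 : (fun y => WW m d e g y * (fun _ : ℕ => (1 : ℝ)) (tm 2 y)) = WW m d e g := by
    funext y
    simp
  have e2 : (fun y => WL m d 2 (range (e 2)) (g 2) y * (fun _ : ℕ => (1 : ℝ)) (tm 2 y)) =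
      WL m d 2 (range (e 2)) (g 2) := by
    funext y
    simp
  rw [e1, e2] at h1
  have h3 : C * (0 + ε / (2 * (C + 1))) ≤ ε / 2 := by
    rw [zero_add, mul_div_assoc', div_le_div_iff₀ (by positivity) (by norm_num)]
    nlinarith
  calc |avg3 N (WW m d e g) - 1|
      ≤ |avg3 N (WW m d e g) - avg3 N (WL m d 2 (range (e 2)) (g 2))| +
        |avg3 N (WL m d 2 (range (e 2)) (g 2)) - 1| := abs_sub_le _ _ _
    _ ≤ ε / 2 + ε / 2 := add_le_add (h1.trans h3) h2
    _ = ε := by ring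

end Pool.Agent.CLV
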