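import Pool.Agent.CLV.P_KXP
import Pool.Agent.CLV.P_AVC
import Pool.Agent.CLV.P_CHA
import Pool.Agent.CLV.P_NON
import Pool.Agent.CLV.P_EXW
import Pool.Agent.CLV.P_EXO
import Pool.Agent.CLV.P_WBC
import Pool.Agent.CLV.P_MAR
import Pool.Agent.CLV.P_OWN
import Pool.Agent.CLV.P_NEA
import Pool.Agent.CLV.P_BAD
import Pool.Agent.CLV.P_WMO
import Pool.Agent.CLV.P_RNK
import Pool.Agent.CLV.P_MXF
import Pool.Agent.CLV.P_ALG
import Pool.Agent.CLV.P_REC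
import Pool.Agent.CLV.P_GTC
import Pool.Agent.CLV.P_MAC
import Pool.Agent.CLV.P_MEB
import Pool.Agent.CLV.P_RPT
import Pool.Agent.CLV.P_OWI
import Pool.Agent.CLV.P_MRI
import Pool.Agent.CLV.P_APN
import Pool.Agent.CLV.P_EPT
import Pool.Agent.CLV.P_PPT
import Pool.Agent.CLV.P_ERC
import Pool.Agent.CLV.P_PRF
import Pool.Agent.CLV.P_INF
import Pool.Agent.CLV.P_DOO
import Pool.Agent.CLV.P_APA
import Pool.Agent.CLV.P_MEX
import Pool.Agent.CLV.P_SLC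
import Pool.Agent.CLV.P_FNC

set_option autoImplicit false

/-! The blocks of the project CLV put together. -/

namespace Pool.Agent.CLV

universe u

theorem f_KXP : T_KXP := p_KXP
theorem f_AVC : T_AVC := p_AVC
theorem f_CHA : T_CHA := p_CHA f_AVC
theorem f_NON : T_NON := p_NON
theorem f_EXW : T_EXW := p_EXW f_KXP
theorem f_EXO : T_EXO := p_EXO f_KXP
theorem f_WBC : T_WBC := p_WBC
theorem f_MAR : T_MAR := p_MAR f_AVC f_CHA f_NON f_EXW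
theorem f_OWN : T_OWN := p_OWN f_AVC f_CHA f_EXO
theorem f_NEA : T_NEA := p_NEA f_AVC f_WBC f_OWN f_MAR
theorem f_BAD : T_BAD := p_BAD f_WBC f_NEA
theorem f_WMO : T_WMO := p_WMO f_OWN f_MAR
theorem f_RNK : T_RNK := p_RNK
theorem f_MXF : T_MXF := p_MXF f_RNK
theorem f_ALG : T_ALG := p_ALG f_MXF
theorem f_REC : T_REC.{u} := p_REC f_EXW
theorem f_GTC : T_GTC.{u} := p_GTC
theorem f_MAC : T_MAC.{u} := p_MAC
theorem f_MEB : T_MEB.{u} := p_MEB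
theorem f_RPT : T_RPT.{u} := p_RPT f_AVC f_EXO f_MEB
theorem f_OWI : T_OWI.{u} := p_OWI f_WBC f_OWN
theorem f_MRI : T_MRI.{u} := p_MRI f_WBC f_MAR
theorem f_APN : T_APN.{u} := p_APN
theorem f_EPT : T_EPT.{u} := p_EPT f_WBC f_OWN f_BAD f_OWI f_APN
theorem f_PPT : T_PPT.{u} := p_PPT f_WBC f_BAD f_WMO
theorem f_ERC : T_ERC.{u} := p_ERC f_WBC f_WMO f_MRI f_RPT f_EPT f_PPT
theorem f_PRF : T_PRF.{u} := p_PRF
theorem f_INF : T_INF.{u} := p_INF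
theorem f_DOO : T_DOO.{u} := p_DOO f_INF
theorem f_APA : T_APA.{u} := p_APA
theorem f_MEX : T_MEX.{u} := p_MEX
theorem f_SLC : T_SLC.{u} := p_SLC f_ALG f_MEX
theorem f_FNC : T_FNC.{u} := p_FNC f_WBC f_WMO f_REC f_GTC f_MAC f_ERC f_PRF f_DOO f_APA f_SLC

end Pool.Agent.CLV
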