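import Pool.Agent.CLV.Targets
import Pool.Agent.Ind3.P_LAU

set_option autoImplicit false

/-! Target KXP of the project CLV: the expansions of the kernels. -/

open MeasureTheory Filter Topology Finset

namespace Pool.Agent.CLV

open Pool.Agent.FSP Pool.Agent.Ind3

namespace KXP_

theorem term (cc : Fin 3 → ℤ → ℂ) (w : Fin 3 → Circle) (n : Fin 3 → ℤ) :
    (∏ i, cc i (n i)) * ((∏ i, w i ^ n i : Circle) : ℂ) =
      ∏ i, (cc i (n i) * (w i : ℂ) ^ n i) := by
  rw [Finset.prod_mul_distrib]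
  congr 1

/-- the full product -/
theorem expand (m : ℕ) (cc : Fin 3 → ℤ → ℂ) (w : Fin 3 → Circle) :
    (∏ i, ∑ n ∈ Finset.Icc (-(m : ℤ)) m, cc i n * (w i : ℂ) ^ n) =
      ∑ n ∈ Fintype.piFinset (fun _ : Fin 3 => Finset.Icc (-(m : ℤ)) m),
        (∏ i, cc i (n i)) * ((∏ i, w i ^ n i : Circle) : ℂ) := by
  rw [Finset.prod_univ_sum]
  exact Finset.sum_congr rfl fun n _ => (term cc w n).symm

/-- the product without the factor `l` -/
theorem expand' (m : ℕ) (cc : Fin 3 → ℤ → ℂ) (w : Fin 3 → Circle) (l : Fin 3)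
    (h0 : cc l 0 = 1) :
    (∏ i, if i ≠ l then ∑ n ∈ Finset.Icc (-(m : ℤ)) m, cc i n * (w i : ℂ) ^ n else 1) =
      ∑ n ∈ Fintype.piFinset (fun _ : Fin 3 => Finset.Icc (-(m : ℤ)) m),
        if n l = 0 then (∏ i, cc i (n i)) * ((∏ i, w i ^ n i : Circle) : ℂ) else 0 := by
  have e1 : ∀ i : Fin 3,
      (if i ≠ l then ∑ n ∈ Finset.Icc (-(m : ℤ)) m, cc i n * (w i : ℂ) ^ n else 1) =
      ∑ n ∈ Finset.Icc (-(m : ℤ)) m, if i ≠ l ∨ n = 0 then cc i n * (w i : ℂ) ^ n else 0 := by
    intro i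
    by_cases hi : i ≠ l
    · rw [if_pos hi]
      exact Finset.sum_congr rfl fun n _ => by rw [if_pos (Or.inl hi)]
    · rw [if_neg hi]
      have hil : i = l := not_not.1 hi
      subst hil
      rw [Finset.sum_eq_single (0 : ℤ)]
      · rw [if_pos (Or.inr rfl), h0]
        simp
      · intro n _ hn
        rw [if_neg]
        rintro (h | h)
        · exact h rfl
        · exact hn h
      · intro h
        exact absurd (Finset.mem_Icc.2 ⟨by omega, by omega⟩) h
  rw [Finset.prod_congr rfl fun i _ => e1 i, Finset.prod_univ_sum]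
  refine Finset.sum_congr rfl fun n _ => ?_
  by_cases hn : n l = 0
  · rw [if_pos hn, term]
    refine Finset.prod_congr rfl fun i _ => ?_
    rw [if_pos]
    by_cases hi : i = l
    · right
      rw [hi]
      exact hn
    · exact Or.inl hi
  · rw [if_neg hn]
    refine Finset.prod_eq_zero (Finset.mem_univ l) ?_
    rw [if_neg]
    rintro (h | h)
    · exact h rfl
    · exact hn h

theorem kf_zero (m : ℕ) (z : Circle) : kf m 0 0 z = kk m z := by
  unfold kf rt
  simp

theorem DD_p0 (m : ℕ) (w : Fin 3 → Circle) : DD m p0 w =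
    (2 * m : ℝ)⁻¹ * ∑ t ∈ range (2 * m), ∏ i, kf m i t (w i) := by
  rw [LAU_.DD_eq]
  congr 1
  refine Finset.sum_congr rfl fun t _ => ?_
  simp [p0, Fin.prod_univ_three]

end KXP_

open KXP_ in
theorem p_KXP : T_KXP := by
  intro m hm
  have hL : ∀ i t, Lau m 1 (kf m i t) 1 := fun i t => (f_KFL m hm i).1 t
  choose cc h1 h0 hw using hL
  have h0' : ∀ i t, cc i t 0 = 1 := fun i t => by rw [h0 i t]; norm_num
  have hm0 : (0 : ℝ) < m := by exact_mod_cast hm
  have hmc : (2 * m : ℂ) ≠ 0 := by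
    have : (m : ℂ) ≠ 0 := by exact_mod_cast hm0.ne'
    exact mul_ne_zero two_ne_zero this
  refine ⟨fun n => (2 * m : ℂ)⁻¹ * ∑ t ∈ range (2 * m), ∏ i, cc i t (n i), cc 0 0,
    fun n => ?_, ?_, h1 0 0, h0' 0 0, fun w => ?_, fun l w => ?_, fun z => ?_⟩
  · have e1 : ‖(2 * m : ℂ)⁻¹‖ = (2 * m : ℝ)⁻¹ := by
      rw [norm_inv]
      congr 1
      rw [norm_mul, Complex.norm_natCast]
      norm_num
    rw [norm_mul, e1]
    have e2 : ‖∑ t ∈ range (2 * m), ∏ i, cc i t (n i)‖ ≤ ∑ t ∈ range (2 * m), (1 : ℝ) := by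
      refine (norm_sum_le _ _).trans (Finset.sum_le_sum fun t _ => ?_)
      rw [norm_prod]
      exact Finset.prod_le_one (fun i _ => norm_nonneg _) fun i _ => h1 i t (n i)
    calc (2 * m : ℝ)⁻¹ * ‖∑ t ∈ range (2 * m), ∏ i, cc i t (n i)‖
        ≤ (2 * m : ℝ)⁻¹ * ∑ t ∈ range (2 * m), (1 : ℝ) :=
          mul_le_mul_of_nonneg_left e2 (by positivity)
      _ = 1 := by
          rw [Finset.sum_const, card_range, nsmul_eq_mul]
          push_cast
          field_simp
  · beta_reduce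
    simp only [Pi.zero_apply, h0', Finset.prod_const_one, Finset.sum_const, card_range,
      nsmul_eq_mul]
    push_cast
    rw [mul_one]
    exact inv_mul_cancel₀ hmc
  · rw [DD_p0]
    push_cast
    simp only [hw]
    have e3 : ∀ t, (∏ i, ∑ n ∈ Finset.Icc (-(m : ℤ)) m, cc i t n * (w i : ℂ) ^ n) =
        ∑ n ∈ Fintype.piFinset (fun _ : Fin 3 => Finset.Icc (-(m : ℤ)) m),
          (∏ i, cc i t (n i)) * ((∏ i, w i ^ n i : Circle) : ℂ) :=
      fun t => expand m (fun i => cc i t) w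
    simp only [e3]
    rw [Finset.sum_comm, Finset.mul_sum]
    refine Finset.sum_congr rfl fun n _ => ?_
    rw [← Finset.sum_mul]
    ring
  · have e5 : ((kap m l w : ℝ) : ℂ) = (2 * m : ℂ)⁻¹ * ∑ t ∈ range (2 * m),
        ∏ i, (if i ≠ l then ((kf m i t (w i) : ℝ) : ℂ) else 1) := by
      unfold kap
      rw [Complex.ofReal_mul, Complex.ofReal_sum]
      congr 1
      · push_cast
        rfl
      · refine Finset.sum_congr rfl fun t _ => ?_
        rw [Complex.ofReal_prod]
        refine Finset.prod_congr rfl fun i _ => ?_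
        by_cases hi : i ≠ l
        · rw [if_pos hi, if_pos hi]
        · rw [if_neg hi, if_neg hi, Complex.ofReal_one]
    rw [e5]
    have e4 : ∀ t, (∏ i, (if i ≠ l then ((kf m i t (w i) : ℝ) : ℂ) else 1)) =
        ∑ n ∈ Fintype.piFinset (fun _ : Fin 3 => Finset.Icc (-(m : ℤ)) m),
          if n l = 0 then (∏ i, cc i t (n i)) * ((∏ i, w i ^ n i : Circle) : ℂ) else 0 := by
      intro t
      rw [← expand' m (fun i => cc i t) w l (h0' l t)]
      refine Finset.prod_congr rfl fun i _ => ?_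
      rw [hw]
    simp only [e4]
    rw [Finset.sum_comm, Finset.mul_sum]
    refine Finset.sum_congr rfl fun n _ => ?_
    by_cases hn : n l = 0
    · simp only [if_pos hn]
      rw [← Finset.sum_mul]
      ring
    · simp only [if_neg hn]
      simp
  · rw [← kf_zero, hw]
    refine Finset.sum_congr rfl fun n _ => ?_
    rw [Circle.coe_zpow]

end Pool.Agent.CLV
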