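import Pool.Agent.CLV.Targets

set_option autoImplicit false

/-!
# CLV: proof of T_REC from T_EXW
-/

open MeasureTheory Filter Topology Finset

namespace Pool.Agent.CLV

open Pool.Agent.FSP Pool.Agent.Ind3

universe u

/-- The real or the imaginary part. -/
noncomputable def REC_pt (j : Fin 2) (z : ℂ) : ℝ := if j = 0 then z.re else z.im

theorem REC_pt_abs (j : Fin 2) (z : ℂ) : |REC_pt j z| ≤ ‖z‖ := by
  unfold REC_pt
  split_ifs
  · exact Complex.abs_re_le_norm z
  · exact Complex.abs_im_le_norm z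

theorem REC_sum_pt (z : ℂ) : z = ∑ j : Fin 2, Complex.I ^ (j : ℕ) * ((REC_pt j z : ℝ) : ℂ) := by
  rw [Fin.sum_univ_two]
  simp only [REC_pt, Fin.val_zero, Fin.val_one, pow_zero, pow_one, one_mul, if_true,
    Fin.one_eq_zero_iff, OfNat.ofNat_ne_one, if_false]
  rw [mul_comm Complex.I]
  exact (Complex.re_add_im z).symm

/-- The real part of a product. -/
theorem REC_re (c : ℂ) (z : Fin 3 → ℂ) : (c * ∏ r, z r).re =
    ∑ a : Fin 3 → Fin 2, (c * ∏ r, Complex.I ^ ((a r : Fin 2) : ℕ)).re *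
      ∏ r, REC_pt (a r) (z r) := by
  have h1 : ∏ r, z r = ∑ a : Fin 3 → Fin 2,
      ∏ r, (Complex.I ^ ((a r : Fin 2) : ℕ) * ((REC_pt (a r) (z r) : ℝ) : ℂ)) := by
    have h2 : ∏ r, z r = ∏ r, ∑ j : Fin 2, Complex.I ^ (j : ℕ) * ((REC_pt j (z r) : ℝ) : ℂ) :=
      Finset.prod_congr rfl fun r _ => REC_sum_pt (z r)
    rw [h2, Finset.prod_univ_sum, Fintype.piFinset_univ]
  rw [h1, Finset.mul_sum, Complex.re_sum]
  refine Finset.sum_congr rfl fun a _ => ?_
  rw [Finset.prod_mul_distrib, ← mul_assoc, ← Complex.ofReal_prod, Complex.re_mul_ofReal]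

theorem REC_K (c : ℂ) (h : ‖c‖ ≤ 1) (a : Fin 3 → Fin 2) :
    |(c * ∏ r, Complex.I ^ ((a r : Fin 2) : ℕ)).re| ≤ 1 := by
  refine le_trans (Complex.abs_re_le_norm _) ?_
  rw [norm_mul, norm_prod]
  simpa using h

section

variable {Ω : Type u} [MeasurableSpace Ω]

theorem REC_chi (d : ℕ) (e : Fin 3 → ℕ) (n : ℕ → Fin 3 → ℤ) (v : Fin 3 → ℕ → ℤ) (r : Fin 3)
    (ζ : Fin 3 → ℕ → Ω → Circle) (hζ : ∀ l t, Measurable (ζ l t)) :
    Measurable fun x => chi d e (sv ζ x) n v r := by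
  unfold chi sv
  have hz : ∀ (l : Fin 3) (t : ℕ) (a : ℤ), Measurable fun x => ζ l t x ^ a := fun l t a =>
    (continuous_zpow a).measurable.comp (hζ l t)
  refine Measurable.mul (Finset.measurable_fun_prod _ fun t _ => hz 2 t _) ?_
  refine Finset.measurable_fun_prod _ fun l _ => ?_
  exact (continuous_zpow (Tm l r)).measurable.comp
    (Finset.measurable_fun_prod _ fun t _ => hz l t _)

end

theorem REC_mpt (j : Fin 2) : Measurable (REC_pt j) := by
  unfold REC_pt
  by_cases h : j = 0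
  · simp only [h, if_true]
    exact Complex.measurable_re
  · simp only [h, if_false]
    exact Complex.measurable_im

theorem REC_coe : Measurable fun z : Circle => (z : ℂ) := by
  have h : Continuous fun z : Circle => (z : ℂ) := by fun_prop
  exact h.measurable

theorem p_REC : T_EXW → T_REC.{u} := by
  intro hE Ω _ m d e hm he ζ hζ
  obtain ⟨k, c, n, v, hc, hW⟩ := hE m d e hm he
  let X := Fin k × (Fin 3 → Fin 2)
  let E : X ≃ Fin (Fintype.card X) := Fintype.equivFin X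
  let A : X → Fin 3 → Ω → ℕ → ℝ := fun p r x y =>
    (if r = 0 then (c p.1 * ∏ r, Complex.I ^ ((p.2 r : Fin 2) : ℕ)).re else 1) *
      REC_pt (p.2 r) ((chi d e (sv ζ x) (n p.1) (v p.1) r ^ y : Circle) : ℂ)
  have hAm : ∀ p r y, Measurable fun x => A p r x y := by
    intro p r y
    refine Measurable.mul measurable_const ((REC_mpt (p.2 r)).comp ?_)
    exact REC_coe.comp
      ((REC_chi d e (n p.1) (v p.1) r ζ hζ).pow_const y)
  have hAb : ∀ p r x y, |A p r x y| ≤ 1 := by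
    intro p r x y
    have h1 : |(if r = 0 then (c p.1 * ∏ r, Complex.I ^ ((p.2 r : Fin 2) : ℕ)).re else 1)| ≤
        (1 : ℝ) := by
      split_ifs
      · exact REC_K (c p.1) (hc p.1) p.2
      · simp
    have h2 : |REC_pt (p.2 r) ((chi d e (sv ζ x) (n p.1) (v p.1) r ^ y : Circle) : ℂ)| ≤ 1 :=
      le_trans (REC_pt_abs _ _) (le_of_eq (Circle.norm_coe _))
    calc |A p r x y| = _ := abs_mul _ _
      _ ≤ 1 * 1 := mul_le_mul h1 h2 (abs_nonneg _) zero_le_one
      _ = 1 := one_mul 1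
  refine ⟨Fintype.card X, fun i => A (E.symm i), 1, fun i r y => hAm _ r y,
    fun i r x y => hAb _ r x y, fun x y hy => ?_⟩
  have hw := (hW (sv ζ x) y hy).1
  have hre : WW m d e (sv ζ x) y = (∑ i, c i *
      ((∏ r, chi d e (sv ζ x) (n i) (v i) r ^ y r : Circle) : ℂ)).re := by
    rw [← hw, Complex.ofReal_re]
  have hsum : ∑ i, ∏ r, A (E.symm i) r x (y r) = ∑ p : X, ∏ r, A p r x (y r) :=
    Equiv.sum_comp E.symm fun p => ∏ r, A p r x (y r)
  show WW m d e (sv ζ x) y = ∑ i, ∏ r, A (E.symm i) r x (y r)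
  rw [hsum, hre, Complex.re_sum, Fintype.sum_prod_type]
  refine Finset.sum_congr rfl fun i _ => ?_
  have hcoe : ((∏ r, chi d e (sv ζ x) (n i) (v i) r ^ y r : Circle) : ℂ) =
      ∏ r, ((chi d e (sv ζ x) (n i) (v i) r ^ y r : Circle) : ℂ) := by
    rw [Fin.prod_univ_three, Fin.prod_univ_three, Circle.coe_mul, Circle.coe_mul]
  rw [hcoe, REC_re]
  refine Finset.sum_congr rfl fun a _ => ?_
  show _ = ∏ r, ((if r = 0 then (c i * ∏ r, Complex.I ^ ((a r : Fin 2) : ℕ)).re else 1) *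
      REC_pt (a r) ((chi d e (sv ζ x) (n i) (v i) r ^ y r : Circle) : ℂ))
  rw [Finset.prod_mul_distrib, Finset.prod_ite_eq' Finset.univ (0 : Fin 3)]
  simp

end Pool.Agent.CLV
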