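import Pool.Agent.CLV.Targets

set_option autoImplicit false

/-!
# CLV, block SLC: countable selection
-/

open MeasureTheory Filter Topology Finset

namespace Pool.Agent.CLV

open Pool.Agent.FSP Pool.Agent.Ind3

universe u

namespace SLC_

theorem Sp_congr {s s' : ℕ → Circle} {n : ℕ} (h : ∀ t < n, s t = s' t) {z : Circle}
    (hz : Sp s n z) : Sp s' n z := by
  obtain ⟨k, hk, a, ha⟩ := hz
  refine ⟨k, hk, a, ha.trans (prod_congr rfl fun j hj => ?_)⟩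
  rw [h j (mem_range.1 hj)]

theorem Str_congr {d : ℕ} {e : Fin 3 → ℕ} {g g' s : Fin 3 → ℕ → Circle}
    (h : ∀ l, ∀ t < e l, g l t = g' l t) (hS : Str d e g s) : Str d e g' s := by
  have h' : ∀ l, ∀ t < e l, g' l t = g l t := fun l t ht => (h l t ht).symm
  refine ⟨hS.le, fun l l' t ht => ?_, fun l a ha => ?_, fun l t ht => ?_, ?_⟩
  · rw [← h l t (ht.trans_le (hS.le l)), ← h l' t (ht.trans_le (hS.le l'))]
    exact hS.core l l' t ht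
  · refine hS.ind l a ?_
    rw [← ha]
    exact prod_congr rfl fun t ht => by rw [h l t (mem_range.1 ht)]
  · rw [← h l t ht]
    exact hS.own l t ht
  · intro i j l hij hil hjl a h1 h2
    have e1 : ∏ t ∈ Ico d (e i), g' i t ^ a t = ∏ t ∈ Ico d (e i), g i t ^ a t :=
      prod_congr rfl fun t ht => by rw [h i t (mem_Ico.1 ht).2]
    rw [e1] at h1 h2
    exact hS.rest i j l hij hil hjl a (Sp_congr (h' j) h1) h2

/-- the data -/
abbrev Dat3 : Type :=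
  (Fin 3 → ℕ) × ℕ × (Fin 3 → ℕ) × ℕ × ((Fin 3 × ℕ × ℕ) →₀ ℤ) × ((Fin 3 × ℕ × ℕ) →₀ ℤ)

theorem cDat3 : Countable Dat3 := by
  have : Countable ((Fin 3 × ℕ × ℕ) →₀ ℤ) := inferInstance
  have : Countable (Fin 3 → ℕ) := inferInstance
  infer_instance

/-- a function restricted to a finite set of indices -/
noncomputable def cut (f : Fin 3 → ℕ → ℕ → ℤ) (p q : Fin 3 → ℕ) : (Fin 3 × ℕ × ℕ) →₀ ℤ :=
  Finsupp.onFinset (univ ×ˢ range (∑ l, p l) ×ˢ range (∑ l, q l))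
    (fun i => if i.2.1 < p i.1 ∧ i.2.2 < q i.1 then f i.1 i.2.1 i.2.2 else 0) (by
      rintro ⟨l, t, j⟩ h
      have h1 : t < p l ∧ j < q l := by
        by_contra hc
        exact h (if_neg hc)
      have hp : p l ≤ ∑ l, p l := single_le_sum (f := p) (fun _ _ => Nat.zero_le _) (mem_univ l)
      have hq : q l ≤ ∑ l, q l := single_le_sum (f := q) (fun _ _ => Nat.zero_le _) (mem_univ l)
      simp only [mem_product, mem_univ, mem_range, true_and]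
      exact ⟨h1.1.trans_le hp, h1.2.trans_le hq⟩)

theorem cut_eq (f : Fin 3 → ℕ → ℕ → ℤ) (p q : Fin 3 → ℕ) (l : Fin 3) (t j : ℕ)
    (ht : t < p l) (hj : j < q l) : cut f p q (l, t, j) = f l t j := by
  unfold cut
  rw [Finsupp.onFinset_apply]
  exact if_pos ⟨ht, hj⟩

section

variable {Ω : Type u} [MeasurableSpace Ω]

/-- the functions which belong to the data -/
noncomputable def zt (θ : Fin 3 → ℕ → Ω → Circle) (n : Fin 3 → ℕ) (a : Fin 3 → ℕ → ℕ → ℤ) :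
    Fin 3 → ℕ → Ω → Circle := fun l t x => ∏ j ∈ range (n l), θ l j x ^ a l t j

theorem zt_meas {θ : Fin 3 → ℕ → Ω → Circle} (hθ : ∀ l j, Measurable (θ l j))
    (n : Fin 3 → ℕ) (a : Fin 3 → ℕ → ℕ → ℤ) (l : Fin 3) (t : ℕ) :
    Measurable (zt θ n a l t) := by
  unfold zt
  exact Finset.measurable_prod _ fun j _ => (hθ l j).pow_const _

/-- the set which belongs to the data -/
def XS (θ : Fin 3 → ℕ → Ω → Circle) (X : Set Ω) (K : ℕ) (σ : Dat3) : Set Ω :=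
  {x | x ∈ X ∧ ((∀ l, K ≤ σ.1 l) ∧ (∀ l, σ.2.1 ≤ σ.2.2.1 l) ∧ 1 ≤ σ.2.2.2.1) ∧
    Str σ.2.1 σ.2.2.1 (sv (zt θ σ.1 fun l t j => σ.2.2.2.2.1 (l, t, j)) x) (sv θ x) ∧
    ∀ l, ∀ j < σ.1 l, θ l j x ^ σ.2.2.2.1 = ∏ t ∈ range (σ.2.2.1 l),
      zt θ σ.1 (fun l t j => σ.2.2.2.2.1 (l, t, j)) l t x ^ σ.2.2.2.2.2 (l, j, t)}

theorem XS_meas (hM : T_MEX.{u}) {θ : Fin 3 → ℕ → Ω → Circle} (hθ : ∀ l j, Measurable (θ l j))
    {X : Set Ω} (hX : MeasurableSet X) (K : ℕ) (σ : Dat3) : MeasurableSet (XS θ X K σ) := by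
  have h1 := hM Ω θ (zt θ σ.1 fun l t j => σ.2.2.2.2.1 (l, t, j)) hθ (zt_meas hθ _ _) σ.2.1 σ.2.2.1
  have h2 : MeasurableSet {x | ∀ l, ∀ j < σ.1 l, θ l j x ^ σ.2.2.2.1 = ∏ t ∈ range (σ.2.2.1 l),
      zt θ σ.1 (fun l t j => σ.2.2.2.2.1 (l, t, j)) l t x ^ σ.2.2.2.2.2 (l, j, t)} := by
    simp only [Set.setOf_forall]
    refine MeasurableSet.iInter fun l => MeasurableSet.iInter fun j =>
      MeasurableSet.iInter fun _ => measurableSet_eq_fun ((hθ l j).pow_const _) ?_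
    exact Finset.measurable_prod _ fun t _ => (zt_meas hθ _ _ l t).pow_const _
  have e : XS θ X K σ = X ∩ ({_x | (∀ l, K ≤ σ.1 l) ∧ (∀ l, σ.2.1 ≤ σ.2.2.1 l) ∧
      1 ≤ σ.2.2.2.1} ∩ ({x | Str σ.2.1 σ.2.2.1
        (sv (zt θ σ.1 fun l t j => σ.2.2.2.2.1 (l, t, j)) x) (sv θ x)} ∩
      {x | ∀ l, ∀ j < σ.1 l, θ l j x ^ σ.2.2.2.1 = ∏ t ∈ range (σ.2.2.1 l),
        zt θ σ.1 (fun l t j => σ.2.2.2.2.1 (l, t, j)) l t x ^ σ.2.2.2.2.2 (l, j, t)})) := rfl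
  rw [e]
  exact hX.inter ((MeasurableSet.const _).inter (h1.inter h2))

/-- the sets cover -/
theorem cover (hA : T_ALG) {θ : Fin 3 → ℕ → Ω → Circle} {X : Set Ω} {K : ℕ} {x : Ω}
    (hx : x ∈ X) {n : Fin 3 → ℕ} (hn : Closed (sv θ x) n) (hK : ∀ l, K ≤ n l) :
    ∃ σ : Dat3, x ∈ XS θ X K σ := by
  obtain ⟨d, e, a, q₀, b, hq, hS, hp⟩ := hA (sv θ x) n hn
  have hz : ∀ l, ∀ t < e l, (∏ j ∈ range (n l), sv θ x l j ^ a l t j) =
      sv (zt θ n fun l t j => cut a e n (l, t, j)) x l t := by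
    intro l t ht
    change _ = ∏ j ∈ range (n l), θ l j x ^ cut a e n (l, t, j)
    refine prod_congr rfl fun j hj => ?_
    rw [cut_eq a e n l t j ht (mem_range.1 hj)]
    rfl
  refine ⟨(n, d, e, q₀, cut a e n, cut b n e), hx, ⟨hK, hS.le, hq⟩, Str_congr hz hS, ?_⟩
  intro l j hj
  refine (hp l j hj).trans (prod_congr rfl fun t ht => ?_)
  rw [hz l t (mem_range.1 ht)]
  change _ = sv (zt θ n fun l t j => cut a e n (l, t, j)) x l t ^ cut b n e (l, j, t)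
  rw [cut_eq b n e l j t hj (mem_range.1 ht)]

end

end SLC_

open SLC_ in
theorem p_SLC : T_ALG → T_MEX.{u} → T_SLC.{u} := by
  intro hA hM Ω _ μ _ θ hθ X hX hX0 hC K
  have := cDat3
  have h1 : ∃ σ : Dat3, μ (XS θ X K σ) ≠ 0 := by
    by_contra hc
    push Not at hc
    have h2 : μ (⋃ σ, XS θ X K σ) = 0 := measure_iUnion_null hc
    apply hX0
    have h3 : ∀ᵐ x ∂μ, x ∉ ⋃ σ, XS θ X K σ := measure_eq_zero_iff_ae_notMem.1 h2
    refine measure_eq_zero_iff_ae_notMem.2 ?_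
    filter_upwards [h3, hC] with x h4 h5 hx
    obtain ⟨n, hn, hK⟩ := h5 hx K
    obtain ⟨σ, hσ⟩ := cover hA hx hn hK
    exact h4 (Set.mem_iUnion.2 ⟨σ, hσ⟩)
  obtain ⟨σ, hσ⟩ := h1
  obtain ⟨x, hx⟩ : (XS θ X K σ).Nonempty := by
    rw [Set.nonempty_iff_ne_empty]
    intro he
    rw [he, measure_empty] at hσ
    exact hσ rfl
  refine ⟨σ.1, σ.2.1, σ.2.2.1, fun l t j => σ.2.2.2.2.1 (l, t, j), σ.2.2.2.1,
    fun l j t => σ.2.2.2.2.2 (l, j, t), zt θ σ.1 fun l t j => σ.2.2.2.2.1 (l, t, j),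
    XS θ X K σ, hx.2.1.1, ⟨hx.2.1.2.1, hx.2.1.2.2, XS_meas hM hθ hX K σ, fun _ _ _ => rfl,
      fun x hx => hx.2.2.1, fun x hx => hx.2.2.2⟩, fun x hx => hx.1, hσ⟩

end Pool.Agent.CLV
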