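import Pool.Agent.CLV.Defs

set_option autoImplicit false

/-!
# CLV targets (MP_cfac66_an, Theorem CLV). Every target has its proof in the docstring. The facts
`f_KFL, f_TAI, f_DE1, f_LSU, f_APX, ..` of the project Ind3 and `p_KKB, p_PRO, p_MET, ..` of the
project FSP may be used.
-/

open MeasureTheory Filter Topology Finset

namespace Pool.Agent.CLV

open Pool.Agent.FSP Pool.Agent.Ind3

universe u

/-! ## A. At one point (no measure) -/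

/-- AVC. Complex triple means. PROOF. (1) `push_cast`. (2) the vector `![a, b, c]` is in the windows
for `a ∈ [N, 2N)`, `b < N`, `c ∈ [3N, 4N)` (`sum_congr`). (3) `mul_sum`, `sum_comm`. (4) `norm_sum_le`,
three times; for `N = 0` the mean is `0`. (5) as Ind3.p_ORD (`Finset.sum_comm`, six cases). -/
def T_AVC : Prop :=
  (∀ (N : ℕ) (F : (Fin 3 → ℕ) → ℝ), ((avg3 N F : ℝ) : ℂ) = aC N fun y => ((F y : ℝ) : ℂ)) ∧
  (∀ (N : ℕ) (F G : (Fin 3 → ℕ) → ℂ), (∀ y, InW N y → F y = G y) → aC N F = aC N G) ∧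
  (∀ (N k : ℕ) (c : Fin k → ℂ) (F : Fin k → (Fin 3 → ℕ) → ℂ),
    aC N (fun y => ∑ i, c i * F i y) = ∑ i, c i * aC N (F i)) ∧
  (∀ (N : ℕ) (F : (Fin 3 → ℕ) → ℂ) (B : ℝ), 0 ≤ B → (∀ y, InW N y → ‖F y‖ ≤ B) → ‖aC N F‖ ≤ B) ∧
  ∀ (N : ℕ) (F : (Fin 3 → ℕ) → ℂ) (i j l : Fin 3), i ≠ j → i ≠ l → j ≠ l →
    aC N F = mC N (off i * N) fun a => mC N (off j * N) fun b => mC N (off l * N) fun c =>
      F fun r => if r = i then a else if r = j then b else c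

/-- CHA. Averages of a character against an almost periodic sequence. PROOF. If `χ l ≠ 1`: AVC (5)
with the last variable `y l`; `tm l y` does not depend on `y l`; the inner mean is a number of modulus
`≤ 1` times a geometric sum divided by `N`, at most `2 / (N ‖χ l - 1‖)`. Otherwise let `j = 1` if
`l = 2` and `j = 2` if `l = 1` or `l = 0`; AVC (5) with the last variable `y j`. The inner mean is a
number of modulus `≤ 1` times the mean over a window `[s, s + N)` of `(χ j)^c Φ c`, `Φ c = φ (2 a + c)`,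
`φ (a + c)`, resp. `φ (2 c - b)` with `b < N`, `3 N ≤ c`: `PP q (ρ/2) τ ε' s Φ` (step `1` or `2`,
`‖z^(2h) - 1‖ ≤ 2 ‖z^h - 1‖`), so Ind3.f_DE1 (uniform in `s`) gives `≤ ε' + ε`. See Ind3.p_PWC. -/
def T_CHA : Prop := ∀ (χ : Fin 3 → Circle) (l : Fin 3) (q : ℕ) (ρ : ℝ) (τ : Finset Circle),
  1 ≤ q → 0 < ρ → (χ l ≠ 1 ∨ ∀ j, j ≠ l → χ j ^ q ∉ Subgroup.closure (↑τ : Set Circle)) →
  ∀ ε : ℝ, 0 < ε → ∃ N₀ : ℕ, ∀ N ≥ N₀, ∀ (φ : ℕ → ℝ) (ε' : ℝ), 0 ≤ ε' → PP q ρ τ ε' 0 φ →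
    ‖aC N fun y => ((∏ r, χ r ^ y r : Circle) : ℂ) * ((φ (tm l y) : ℝ) : ℂ)‖ ≤ ε' + ε

/-- NON. PROOF. `κ r = ∏_{t<d} (g 2 t)^(n t r)`, `λ i = ∏_{d ≤ t < e i} (g i t)^(v i t)`, so
`chi r = κ r * ∏_i (λ i)^(Tm i r)`, `Tm r r = 0`, `Tm i r ≠ 0` for `i ≠ r`. `SpI (s l)` is closed
under products, integer powers and roots (`z^k`, `k ≠ 0`, in it implies `z` in it). Suppose
`chi l = 1`, `j ≠ l`, `SpI (s l) (chi j)`; let `i` be the third index. `κ j` and `λ l` are in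
`SpI (s l)` (`core`, `own`), so `(λ i)^(Tm i j)` and `λ i` are. From `chi l = 1`:
`(λ i)^(Tm i l) = (κ l)⁻¹ (λ j)^(-Tm j l)` is a monomial in the `g j t`, `t < e j` (`core`), so
`Sp (g j) (e j) (λ i)`. By `rest i j l` all `v i t = 0` (`d ≤ t < e i`), `λ i = 1`, and
`κ l * (λ j)^(Tm j l) = 1` with `ind j` gives `n t l = 0` for `t < d` and `v j t = 0`. So `Own`. -/
def T_NON : Prop := ∀ (d : ℕ) (e : Fin 3 → ℕ) (g s : Fin 3 → ℕ → Circle), Str d e g s →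
  ∀ (l : Fin 3) (n : ℕ → Fin 3 → ℤ) (v : Fin 3 → ℕ → ℤ), ¬ Own d e l n v →
    chi d e g n v l ≠ 1 ∨ ∀ j, j ≠ l → ¬ SpI (s l) (chi d e g n v j)

open Classical in
/-- KXP. The expansions of the kernels. PROOF. Ind3.f_KFL: `kf m i t w = ∑_{n ∈ Icc (-m) m} c_(i,t) n
* w^n`, `‖c_(i,t) n‖ ≤ 1`, `c_(i,t) 0 = 1`; `c = c_(0,0)` (`rt m 0 = 1`, so `kf m 0 0 = kk m`);
`C n = (2m)⁻¹ ∑_{t < 2m} ∏_i c_(i,t) (n i)` for `n ∈ (Icc (-m) m)^3` (any value elsewhere, e.g. the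
same formula). `DD m p0 w = (2m)⁻¹ ∑_t ∏_i kf m i t (w i)` (`act 0 i` holds for all `i`), and in
`kap m l w` the factor `l` is `1 = c_(l,t) 0`: `Finset.prod_univ_sum`; the terms with `n l = 0`. -/
def T_KXP : Prop := ∀ m : ℕ, 1 ≤ m → ∃ (C : (Fin 3 → ℤ) → ℂ) (c : ℤ → ℂ),
  (∀ n, ‖C n‖ ≤ 1) ∧ C 0 = 1 ∧ (∀ n, ‖c n‖ ≤ 1) ∧ c 0 = 1 ∧
  (∀ w : Fin 3 → Circle, ((DD m p0 w : ℝ) : ℂ)
    = ∑ n ∈ Fintype.piFinset (fun _ : Fin 3 => Finset.Icc (-(m : ℤ)) m),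
        C n * ((∏ i, w i ^ n i : Circle) : ℂ)) ∧
  (∀ (l : Fin 3) (w : Fin 3 → Circle), ((kap m l w : ℝ) : ℂ)
    = ∑ n ∈ Fintype.piFinset (fun _ : Fin 3 => Finset.Icc (-(m : ℤ)) m),
        if n l = 0 then C n * ((∏ i, w i ^ n i : Circle) : ℂ) else 0) ∧
  ∀ z : Circle, ((kk m z : ℝ) : ℂ)
    = ∑ n ∈ Finset.Icc (-(m : ℤ)) m, c n * ((z ^ n : Circle) : ℂ)

open Classical in
/-- EXW. The expansion of the weights. PROOF. KXP: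
`DD m p0 w = ∑_{n ∈ (Icc (-m) m)^3} C n ∏_i (w i)^(n i)`, and `kap m l w` is the sum of the terms
with `n l = 0`. Multiply out (induction on `d` and on `e l`, or `Finset.prod_univ_sum`); the
exponents of `y r` of `(g l t ^ tm l y)^v` are `v * Tm l r` (`tm 0 y = 2 y 2 - y 1` with
`y 1 ≤ 2 y 2`). In the own weight of role `l` the core factors keep the terms with `n t l = 0`, the
factors `t ≥ d` of the other roles are replaced by their constant coefficient `1`, i.e. the terms with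
`v l' t = 0`. The indices can be any finite type, transported to `Fin k` at the end. -/
def T_EXW : Prop := ∀ (m d : ℕ) (e : Fin 3 → ℕ), 1 ≤ m → (∀ l, d ≤ e l) →
  ∃ (k : ℕ) (c : Fin k → ℂ) (n : Fin k → ℕ → Fin 3 → ℤ) (v : Fin k → Fin 3 → ℕ → ℤ),
    (∀ i, ‖c i‖ ≤ 1) ∧ ∀ (g : Fin 3 → ℕ → Circle) (y : Fin 3 → ℕ), y 1 ≤ 2 * y 2 →
    ((WW m d e g y : ℝ) : ℂ) = ∑ i, c i * ((∏ r, chi d e g (n i) (v i) r ^ y r : Circle) : ℂ) ∧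
    ((∀ l l' : Fin 3, ∀ t < d, g l t = g l' t) → ∀ l,
      ((WL m d l (range (e l)) (g l) y : ℝ) : ℂ) = ∑ i, if Own d e l (n i) (v i) then
          c i * ((∏ r, chi d e g (n i) (v i) r ^ y r : Circle) : ℂ) else 0)

open Classical in
/-- EXO. The expansion of the own weight. PROOF. Induction on `J`. One factor, `t < d`:
`kap m l w = ∑_{n : n l = 0} C n ∏_i (w i)^(n i)`, `‖C n‖ ≤ 1`, `C 0 = 1` (KXP); the
exponents are `a t r = n r`. One factor, `d ≤ t`: `kk m (z^(tm l y)) = ∑_v c v z^(v tm l y)`,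
`c 0 = 1`, exponents `a t r = v * Tm l r` (`y 1 ≤ 2 y 2`), all zero iff `v = 0`. Products: the
all-zero exponents occur exactly for the product of the all-zero terms. -/
def T_EXO : Prop := ∀ (m d : ℕ) (l : Fin 3) (J : Finset ℕ), 1 ≤ m →
  ∃ (k : ℕ) (c : Fin k → ℂ) (a : Fin k → ℕ → Fin 3 → ℤ), (∀ i, ‖c i‖ ≤ 1) ∧
    (∀ i t, a i t l = 0) ∧ (∑ i, if ∀ t ∈ J, ∀ r, a i t r = 0 then c i else 0) = 1 ∧
    ∀ (h : ℕ → Circle) (y : Fin 3 → ℕ), y 1 ≤ 2 * y 2 → ((WL m d l J h y : ℝ) : ℂ)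
      = ∑ i, c i * ((∏ r, (∏ t ∈ J, h t ^ a i t r) ^ y r : Circle) : ℂ)

/-- WBC. Bounds and measurability. PROOF. Ind3.f_LAU: `0 ≤ DD m p0 w ≤ m^3` (`∑ p0 = 1`),
`0 ≤ kap m l w ≤ m^2`; FSP.p_KKB: `0 ≤ kk ≤ m`, `kk m` measurable; `1 ≤ m`; products of finitely many
factors `≤ m^3`. `g ↦ g 2 t ^ y i` is measurable (`measurable_pi_apply`), `rt` is constant. -/
def T_WBC : Prop := ∀ (m d : ℕ) (e : Fin 3 → ℕ), 1 ≤ m → ∃ B : ℝ, 1 ≤ B ∧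
  (∀ g y, 0 ≤ WW m d e g y ∧ WW m d e g y ≤ B) ∧ (∀ y, Measurable fun g => WW m d e g y) ∧
  (∀ l h y, 0 ≤ WL m d l (range (e l)) h y ∧ WL m d l (range (e l)) h y ≤ B) ∧
  ∀ (l : Fin 3) (J : Finset ℕ), (∀ h y, 0 ≤ WL m d l J h y) ∧
    ∀ y, Measurable fun h : ℕ → Circle => WL m d l J h y

open Classical in
/-- MAR. Comparison of the weight with the own weight. PROOF. EXW: `k, c, n, v`; `C = k`. By AVC (1),
(2), (3) the difference is `∑_{i not Own} c i * aC (∏_r chi_i r ^ y r * φ (tm l y))` (in the windows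
`y 1 ≤ 2 y 2`). For each `i` which is not `Own`, NON: `chi l ≠ 1`, or `¬ SpI (s l) (chi j)` for
`j ≠ l`; in the second case `(chi j)^q ∉ closure ((range K).image (s l))`, since the elements of this
group are monomials in the `s l j`, `j < K`, and `1 ≤ q`. CHA gives `≤ ε' + ε`, `N₀` the maximum. -/
def T_MAR : Prop := ∀ (m d : ℕ) (e : Fin 3 → ℕ), 1 ≤ m → (∀ l, d ≤ e l) → ∃ C : ℝ, 0 ≤ C ∧
  ∀ (g s : Fin 3 → ℕ → Circle), Str d e g s → ∀ (l : Fin 3) (q K : ℕ) (ρ : ℝ), 1 ≤ q → 0 < ρ →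
  ∀ ε : ℝ, 0 < ε → ∃ N₀ : ℕ, ∀ N ≥ N₀, ∀ (φ : ℕ → ℝ) (ε' : ℝ), 0 ≤ ε' →
  PP q ρ ((range K).image (s l)) ε' 0 φ →
    |avg3 N (fun y => WW m d e g y * φ (tm l y))
      - avg3 N (fun y => WL m d l (range (e l)) (g l) y * φ (tm l y))| ≤ C * (ε' + ε)

/-- OWN. The own weight has mean one. PROOF. EXO: the terms with all exponents on `J` zero sum to `1`
(`aC` of the constant `1` is `1` for `N ≥ 1`). For the other `i` some `r`, `t ∈ J` have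
`a i t r ≠ 0`, so `χ r = ∏_{t ∈ J} h t ^ a i t r ≠ 1` by `Indp` (exponents `0` off `J`), and the mean
of `∏_r (χ r)^(y r)` tends to `0` (CHA with `l = r`, `φ = 1`, `τ = ∅`, `q = 1`, `ε' = 0`). -/
def T_OWN : Prop := ∀ (m d : ℕ) (l : Fin 3) (e : ℕ) (J : Finset ℕ), 1 ≤ m → J ⊆ range e →
  ∀ h : ℕ → Circle, Indp h e → ∀ ε : ℝ, 0 < ε → ∃ N₀ : ℕ, ∀ N ≥ N₀,
    |avg3 N (WL m d l J h) - 1| ≤ ε

/-- NEA. The selected values are near `1` in the mean. PROOF. Own weight: it is the factor `t` times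
`WL` for `J = (range (e l)).erase t`, and (`z = g l t`, in the windows) the factor times
`‖z^(tm l y) - 1‖^2` is `≤ 40/m`: if `d ≤ t` by FSP.p_KKB (`4/m`); if `t < d`, with `w i = z^(y i)`,
`z^(tm l y) = cmb l w` and, `ξ = rt m u`, `cmb 2 w = (w 0 ξ⁻¹)^2 (w 1 ξ^2)`,
`cmb 0 w = (w 2 ξ)^2 (w 1 ξ^2)⁻¹`, `cmb 1 w = (w 0 ξ⁻¹)(w 2 ξ)`: `‖cmb l w - 1‖ ≤ 2 A + B`, `A, B`
the distances of the two factors from `1`, `(2 A + B)^2 ≤ 8 A^2 + 2 B^2`,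
`kk(u) kk(u') (8 A^2 + 2 B^2) ≤ (4/m) (8 kk(u') + 2 kk(u))`, and the mean over `u < 2m` of `kf` is `1`
(Ind3.f_KFL; see Ind3.p_TAI). OWN for `J`. Second part: MAR with `φ x = ‖z^x - 1‖^2 / 4`, where
`z^k = ∏_{j<K} (s l j)^(a j)` (`own`), `q = k`, `ρ` with `(∑ |a j|) ρ ≤ ε'`:
`|φ (y + k h) - φ y| ≤ ‖z^(k h) - 1‖`. -/
def T_NEA : Prop := ∀ (m d : ℕ) (e : Fin 3 → ℕ), 1 ≤ m → (∀ l, d ≤ e l) →
  ∀ (g s : Fin 3 → ℕ → Circle), Str d e g s → ∀ (l : Fin 3) (t : ℕ), t < e l →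
  ∀ ε : ℝ, 0 < ε → ∃ N₀ : ℕ, ∀ N ≥ N₀,
    avg3 N (fun y => WL m d l (range (e l)) (g l) y *
      ‖((g l t : Circle) : ℂ) ^ tm l y - 1‖ ^ 2) ≤ 40 / m + ε ∧
    avg3 N (fun y => WW m d e g y * ‖((g l t : Circle) : ℂ) ^ tm l y - 1‖ ^ 2) ≤ 40 / m + ε

open Classical in
/-- BAD. PROOF. `T = tm l y`, `(s l j)^(q₀ k T) = ∏_t (g l t)^(b j t k T)`, so its distance from `1`
is at most `B k ∑_{t < e l} ‖(g l t)^T - 1‖`, `B = ∑_{j<n, t<e l} |b j t|`. If it is `> ρ` for some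
`j < n` then `1 ≤ (B k/ρ)^2 (e l) ∑_t ‖(g l t)^T - 1‖^2` (Cauchy-Schwarz). The weights are `≥ 0`
(WBC), so by NEA (`ε = 1/m`) the averages are `≤ (B k/ρ)^2 (e l)^2 (41/m) ≤ δ` for `m ≥ m₀`. -/
def T_BAD : Prop := ∀ (d : ℕ) (e : Fin 3 → ℕ) (l : Fin 3) (n q₀ k : ℕ) (b : ℕ → ℕ → ℤ) (ρ δ : ℝ),
  (∀ l, d ≤ e l) → 1 ≤ q₀ → 0 < ρ → 0 < δ → ∃ m₀ : ℕ, 1 ≤ m₀ ∧ ∀ m ≥ m₀,
  ∀ (g s : Fin 3 → ℕ → Circle), Str d e g s →
  (∀ j < n, s l j ^ q₀ = ∏ t ∈ range (e l), g l t ^ b j t) → ∃ N₀ : ℕ, ∀ N ≥ N₀,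
    avg3 N (fun y => WW m d e g y *
      (if ∃ j < n, ρ < ‖((s l j : Circle) : ℂ) ^ (q₀ * k * tm l y) - 1‖ then 1 else 0)) ≤ δ ∧
    avg3 N (fun y => WL m d l (range (e l)) (g l) y *
      (if ∃ j < n, ρ < ‖((s l j : Circle) : ℂ) ^ (q₀ * k * tm l y) - 1‖ then 1 else 0)) ≤ δ

/-- WMO. The weight has mean one. PROOF. MAR with `φ = 1`, `ε' = 0`, `q = 1`, `K = 0`, `ρ = 1`, and
OWN with `J = range (e 2)`, `l = 2`. -/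
def T_WMO : Prop := ∀ (m d : ℕ) (e : Fin 3 → ℕ) (g s : Fin 3 → ℕ → Circle), 1 ≤ m →
  Str d e g s → ∀ ε : ℝ, 0 < ε → ∃ N₀ : ℕ, ∀ N ≥ N₀, |avg3 N (WW m d e g) - 1| ≤ ε

/-! ## B. Linear algebra at one point -/

/-- RNK. PROOF. `(w t)^(k t) = ∏_{j<n} (s j)^(A t j)`, `1 ≤ k t`. If `n < N` the `N` integer vectors
`A t` in `ℤ^n` have a nontrivial integer relation `∑_t c t * A t = 0` (e.g. Siegel's lemma
`Int.Matrix.exists_ne_zero_int_vec_norm_le`, or linear dependence over `ℚ` and denominators), so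
`∏_t (w t)^(k t * c t) = 1` contradicts `Indp`. -/
def T_RNK : Prop := ∀ (s : ℕ → Circle) (n : ℕ) (w : ℕ → Circle) (N : ℕ),
  (∀ t < N, Sp s n (w t)) → Indp w N → N ≤ n

/-- MXF. Maximal independent families. PROOF. Among all `e ≥ d` for which there is `g` with the first
four properties (there is one: `e = d`, `g = κ`) take the largest (`e ≤ n` by RNK). If `C z` and not
`Sp g e z` then `g` with `g e := z` has the four properties for `e + 1`: a relation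
`(∏_{t<e} g t^(a t)) z^k = 1` with `k ≠ 0` gives `Sp g e z`. Contradiction. -/
def T_MXF : Prop := ∀ (s : ℕ → Circle) (n : ℕ) (C : Circle → Prop), (∀ z, C z → Sp s n z) →
  ∀ (d : ℕ) (κ : ℕ → Circle), (∀ t < d, Sp s n (κ t)) → Indp κ d →
  ∃ (e : ℕ) (g : ℕ → Circle), d ≤ e ∧ (∀ t < d, g t = κ t) ∧ (∀ t, d ≤ t → t < e → C (g t)) ∧
    Indp g e ∧ ∀ z, C z → Sp g e z

/-- ALG. PROOF. (1) MXF (`s 0`, `n 0`, `d = 0`) for `C z = ∀ l, Sp (s l) (n l) z`: independent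
`κ t`, `t < d`, in all three groups, with `Sp κ d z` for all `z` with `C z`. Replace `κ t` by its
`K`-th power, `K` a common multiple such that it is `∏_{j < n l} (s l j)^(a l t j)` for all `l`;
independence and maximality are kept. (2) For each `l`, MXF with `C z = ∃ j < n l, z = s l j` and
`κ`: `e l`, `g l`; for `d ≤ t < e l`, `a l t` is a unit vector. (3) `q₀`, `b`: `Sp (g l) (e l) (s l j)`
for `j < n l`, common multiple of the powers. (4) `Str`: `le`, `core`, `ind`, `own` are clear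
(`g l t` is a monomial). `rest i j l`: `w = ∏_{d ≤ t < e i} (g i t)^(a t)`, `Sp (g j) (e j) w` gives
`Sp (s j) (n j) w`, also `Sp (s i) (n i) w`; `SpI (s l) w` and `Closed` give `Sp (s l) (n l) w`; so
`C w` and `Sp κ d w`: `w^k = ∏_{t<d} κ t^(c t)`, and `ind i` gives `k * a t = 0`, `a t = 0`. (For
`t ≥ e l` choose `a l t = 0`.) -/
def T_ALG : Prop := ∀ (s : Fin 3 → ℕ → Circle) (n : Fin 3 → ℕ), Closed s n →
  ∃ (d : ℕ) (e : Fin 3 → ℕ) (a : Fin 3 → ℕ → ℕ → ℤ) (q₀ : ℕ) (b : Fin 3 → ℕ → ℕ → ℤ), 1 ≤ q₀ ∧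
    Str d e (fun l t => ∏ j ∈ range (n l), s l j ^ a l t j) s ∧
    ∀ l, ∀ j < n l, s l j ^ q₀
      = ∏ t ∈ range (e l), (∏ j' ∈ range (n l), s l j' ^ a l t j') ^ b l j t




/-! ## C. Measure theory -/

/-- REC. PROOF. EXW: `WW = ∑_i c i ∏_r (chi_i r)^(y r)` for `y 1 ≤ 2 y 2`. Take real parts: the real
part of a product of four complex numbers is a sum of eight products of real or imaginary parts with
signs (`Complex.mul_re`); so `A` is: constants times the real or imaginary part of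
`(chi_i r (sv ζ x))^(y r)`, bounded by `1`; the constants (bounded) go into the factor `r = 0`. `chi`
is measurable in `x` (finite products of powers of measurable functions to the circle; `.re`, `.im`
continuous). -/
def T_REC : Prop := ∀ (Ω : Type u) [MeasurableSpace Ω] (m d : ℕ) (e : Fin 3 → ℕ), 1 ≤ m →
  (∀ l, d ≤ e l) → ∀ (ζ : Fin 3 → ℕ → Ω → Circle), (∀ l t, Measurable (ζ l t)) →
  Rep fun x y => WW m d e (sv ζ x) y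

/-- GTC. PROOF. As Ind3.p_GTW (copy it) with `Rep V` in place of REP; `Rep` holds for
`y 1 ≤ 2 * y 2` only, which is true in the windows. -/
def T_GTC : Prop := ∀ (Ω : Type u) [MeasurableSpace Ω] (μ : Measure Ω) [IsProbabilityMeasure μ]
  (V : Ω → (Fin 3 → ℕ) → ℝ), Rep V → ∀ (q : ℕ), 1 ≤ q →
  ∀ (Q B P : Ω → Ω), Measurable Q → Measurable B → Measurable P → ∀ (l i j : Fin 3),
  l ≠ i → l ≠ j → i ≠ j → ∀ g : Ω → ℝ, Measurable g → (∀ x, |g x| ≤ 1) →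
  (∀ y : Fin 3 → ℕ, y 1 ≤ 2 * y 2 → ∀ x, Q^[q * tm l y] x = B^[q * y i] (P^[q * y j] x)) →
  GV μ B P g → GTg μ V q Q l i j g

/-- MAC. The main lower bound. PROOF. As Ind3.p_MAI (copy it) for general weights `V`: the hypothesis
on the means replaces PWA, `κ` replaces `4 η`; the constants: `∫_X avg3 V c2 c0 c1 ≥ (γ/2)^3
(∫_X avg3 V - (2/γ) 3 (κ + ε))`, `∫_X avg3 V → μ X`, `(6/γ) κ ≤ (6/7) μ X < μ X`. -/
def T_MAC : Prop := ∀ (Ω : Type u) [MeasurableSpace Ω] (μ : Measure Ω) [IsProbabilityMeasure μ]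
  (V : Ω → (Fin 3 → ℕ) → ℝ) (B : ℝ), (∀ y, Measurable fun x => V x y) → (∀ x y, 0 ≤ V x y) →
  (∀ x y, V x y ≤ B) →
  ∀ (Q : Fin 3 → Ω → Ω), (∀ l, Measurable (Q l)) → ∀ A X : Set Ω, MeasurableSet A →
  MeasurableSet X → X ⊆ A →
  (∀ᵐ x ∂μ, x ∈ X → ∀ ε : ℝ, 0 < ε → ∃ N₀ : ℕ, ∀ N ≥ N₀, |avg3 N (V x) - 1| ≤ ε) →
  ∀ c g : Fin 3 → Ω → ℝ, (∀ l, Measurable (c l)) →
  (∀ l, Measurable (g l)) → (∀ l x, 0 ≤ c l x) → (∀ l x, c l x ≤ 1) → (∀ l x, |g l x| ≤ 1) →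
  (∀ l x, one A x = c l x + g l x) → ∀ (γ κ : ℝ), 0 < γ → 0 ≤ κ → (∀ x ∈ X, ∀ l, γ ≤ c l x) →
  0 < μ.real X → 7 * κ ≤ γ * μ.real X → ∀ q : ℕ, 1 ≤ q →
  (∀ l, ∀ ε : ℝ, 0 < ε → ∃ N₀ : ℕ, ∀ N ≥ N₀, ∫ x in X, avg3 N (fun y =>
    V x y * |c l ((Q l)^[q * tm l y] x) - c l x|) ∂μ ≤ κ + ε) →
  GTg μ V q (Q 2) 2 0 1 (g 2) → GTg μ V q (Q 0) 0 2 1 (g 0) → GTg μ V q (Q 1) 1 0 2 (g 1) →
  ∃ N : ℕ, 1 ≤ N ∧ ∃ y : Fin 3 → ℕ, (N ≤ y 0 ∧ y 0 < 2 * N) ∧ y 1 < N ∧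
    (3 * N ≤ y 2 ∧ y 2 < 4 * N) ∧ μ (A ∩ {x | ∀ l, (Q l)^[q * tm l y] x ∈ A}) ≠ 0

/-- MEB. Means of a function orthogonal to the almost periodic functions with frequencies
`θ 0, .., θ (n-1)`. PROOF. `S = Q^[k]`, `b x = ∏_{j<n} (θ j x)^(a j)` is `S`-invariant. FSP.p_MET:
`G` with `∫ ‖cav S b r N s - G‖ → 0`, and `∫ ‖cav N 0‖^2 ≤ ∫ r * (cav N 0).re + ε`. `‖cav‖ ≤ 1`, so
`‖G‖ ≤ 1` a.e.; `(G ∘ S) * b = G` a.e. (`cav` at `S x` times `b` differs from `cav` at `x` by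
`≤ 2/N`). Modify `G` on a null set such that `‖G x‖ ≤ 1` for all `x` (`G` times the indicator of
`‖G‖ ≤ 1`). `v = re G` satisfies `AP μ Q (FN θ n) ε` for all `ε`: `q = k`, the list `θ 0, ..,
θ (n-1)`, `ρ` with `(∑ |a j|) ρ ≤ ε`: `G (S^[h] x) = b^(-h) G x` and `‖b^h - 1‖ ≤ ∑ |a j| ‖θ j^h - 1‖`.
So `∫ r * re G = 0` by `OrtAP`, hence `∫ ‖cav N 0‖^2 → 0` and `∫ ‖cav N 0‖ → 0` (Cauchy-Schwarz, or
`t ≤ ε + t^2/(4 ε)`). -/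
def T_MEB : Prop := ∀ (Ω : Type u) [MeasurableSpace Ω] (μ : Measure Ω) [IsProbabilityMeasure μ]
  (Q : Ω → Ω), MeasurePreserving Q μ μ → ∀ (θ : ℕ → Ω → Circle), (∀ j, Measurable (θ j)) →
  (∀ j x, θ j (Q x) = θ j x) → ∀ (n : ℕ) (r : Ω → ℝ), Measurable r → (∀ x, |r x| ≤ 1) →
  OrtAP μ Q (FN θ n) Set.univ r → ∀ (k : ℕ) (a : ℕ → ℤ), 1 ≤ k → ∀ ε : ℝ, 0 < ε →
  ∃ N₀ : ℕ, ∀ N ≥ N₀,
    ∫ x, ‖cav (Q^[k]) (fun x => ∏ j ∈ range n, θ j x ^ a j) r N 0 x‖ ∂μ ≤ ε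

/-- RPT. PROOF. EXO: `WL = ∑_i c i ∏_r (χ_i r)^(y r)`, `χ_i r x = ∏_{t ∈ J} (∏_{j<n} (θ j x)^(a t j))
^(a' i t r)` is again a monomial in the `θ j x`, `j < n`, with constant exponents, and `χ_i l = 1`.
AVC (1), (2), (3): it is enough to bound for each `i` the integral of the norm of
`aC (∏_r χ_r^(y r) * r (Q^[q tm l y] x))` (`k` terms, `ε/(k+1)` each). The last variable is `j = 1` if
`l = 2` and `j = 2` if `l = 1, 0` (AVC (5)). The inner mean has the norm of `cav` at a moved point: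
`l = 2`: `cav (Q^[q]) (χ 1) r N 0 (Q^[2 q a] x)`; `l = 1`: window `3N`:
`cav (Q^[q]) (χ 2) r N 0 (Q^[q (a + 3 N)] x)`; `l = 0`: `cav (Q^[2 q]) (χ 2) r N 0
(Q^[q (6 N - b)] x)` (the characters are invariant; a factor of modulus one comes out). `Q^[..]` is
measure preserving, so the integral is at most that of MEB (`k = q` or `2 q`). -/
def T_RPT : Prop := ∀ (Ω : Type u) [MeasurableSpace Ω] (μ : Measure Ω) [IsProbabilityMeasure μ]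
  (Q : Ω → Ω), MeasurePreserving Q μ μ → ∀ (θ : ℕ → Ω → Circle), (∀ j, Measurable (θ j)) →
  (∀ j x, θ j (Q x) = θ j x) → ∀ (n : ℕ) (r : Ω → ℝ), Measurable r → (∀ x, |r x| ≤ 1) →
  OrtAP μ Q (FN θ n) Set.univ r → ∀ (a : ℕ → ℕ → ℤ) (m d q : ℕ) (l : Fin 3) (J : Finset ℕ),
  1 ≤ m → 1 ≤ q → ∀ ε : ℝ, 0 < ε → ∃ N₀ : ℕ, ∀ N ≥ N₀,
    ∫ x, |avg3 N fun y => WL m d l J (fun t => ∏ j ∈ range n, θ j x ^ a t j) y *
      r (Q^[q * tm l y] x)| ∂μ ≤ ε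

/-- OWI. PROOF. `Y = {x | Indp (fun t => h t x) e}` is a countable intersection (exponents in
`Fin e → ℤ`) of sets defined by equalities of measurable functions; it is invariant:
`h t (Q^[k] x) = h t x`. So `∫_Y WL(h x, y) ψ(Q^[k] x) = ∫ F(Q^[k] x)` with
`F x = 1_Y(x) WL(h x, y) ψ x`, `= ∫_Y WL(h x, y) ψ x` (`Q^[k]` measure preserving). Sum:
`∫_Y avg3 (WL ψ(moved)) = ∫_Y (avg3 WL) ψ`; on `Y` `avg3 WL → 1` (OWN, `J = range e`), `0 ≤ ψ ≤ 1`;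
Ind3.f_LSU with `f N = (avg3 N WL) ψ` (bounded by WBC with `e` constant; measurable), `g = ψ`. -/
def T_OWI : Prop := ∀ (Ω : Type u) [MeasurableSpace Ω] (μ : Measure Ω) [IsProbabilityMeasure μ]
  (Q : Ω → Ω), MeasurePreserving Q μ μ → ∀ (h : ℕ → Ω → Circle), (∀ j, Measurable (h j)) →
  (∀ j x, h j (Q x) = h j x) → ∀ (e : ℕ), MeasurableSet {x | Indp (fun t => h t x) e} ∧
  ∀ (m d q : ℕ) (l : Fin 3) (ψ : Ω → ℝ), 1 ≤ m → Measurable ψ → (∀ x, 0 ≤ ψ x) →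
  (∀ x, ψ x ≤ 1) → ∀ ε : ℝ, 0 < ε → ∃ N₀ : ℕ, ∀ N ≥ N₀,
    ∫ x in {x | Indp (fun t => h t x) e}, avg3 N (fun y =>
      WL m d l (range e) (fun t => h t x) y * ψ (Q^[q * tm l y] x)) ∂μ
      ≤ ∫ x in {x | Indp (fun t => h t x) e}, ψ x ∂μ + ε

/-- MRI. PROOF. (See Ind3.p_ERA.) `B` from WBC, `C` from MAR. `P'` from `APL` with
`∫ |f - P'| ≤ η'`, `2 B η' ≤ ε/3`; `|∫_X avg3 V (f - P')(moved)| ≤ B η'` for both weights (measure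
preservation; `N = 0`: all is `0`). Ind3.f_APX for `P'` with error `ε''` (`C ε'' ≤ ε/6`): `q', K', ρ'`;
for a.e. `x`, `φ t = P' (Q^[q t] x)` satisfies `PP q' (ρ'/q) ((range K').image (sv θ x l)) ε'' 0`
(`q (t + q' h) = q t + q' (q h)`, `‖z^(q h) - 1‖ ≤ q ‖z^h - 1‖`). MAR at `x ∈ X` and Ind3.f_LSU for
the difference of the two averages of `P'`, with a constant `g`. -/
def T_MRI : Prop := ∀ (Ω : Type u) [MeasurableSpace Ω] (μ : Measure Ω) [IsProbabilityMeasure μ]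
  (θ : Fin 3 → ℕ → Ω → Circle), (∀ l j, Measurable (θ l j)) →
  ∀ (n : Fin 3 → ℕ) (d : ℕ) (e : Fin 3 → ℕ) (a : Fin 3 → ℕ → ℕ → ℤ) (q₀ : ℕ)
    (b : Fin 3 → ℕ → ℕ → ℤ) (ζ : Fin 3 → ℕ → Ω → Circle) (X : Set Ω),
  Sel θ n d e a q₀ b ζ X → ∀ (l : Fin 3) (Q : Ω → Ω), MeasurePreserving Q μ μ →
  (∀ j x, θ l j (Q x) = θ l j x) → ∀ f : Ω → ℝ, Measurable f → (∀ x, 0 ≤ f x) →
  (∀ x, f x ≤ 1) → APL μ Q (θ l) f → ∀ m q : ℕ, 1 ≤ m → 1 ≤ q → ∀ ε : ℝ, 0 < ε →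
  ∃ N₀ : ℕ, ∀ N ≥ N₀,
    ∫ x in X, avg3 N (fun y => WW m d e (sv ζ x) y * f (Q^[q * tm l y] x)) ∂μ
      ≤ ∫ x in X, avg3 N (fun y => WL m d l (range (e l)) (sv ζ x l) y *
        f (Q^[q * tm l y] x)) ∂μ + ε

/-- APN. PROOF. As Ind3.p_APX (copy it): the `τ l` of `AP` are some `θ j`, `j < n`, or the constant
`1`, which gives no condition. -/
def T_APN : Prop := ∀ (Ω : Type u) [MeasurableSpace Ω] (μ : Measure Ω) [IsProbabilityMeasure μ]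
  (Q : Ω → Ω), MeasurePreserving Q μ μ → ∀ (θ : ℕ → Ω → Circle), (∀ j, Measurable (θ j)) →
  (∀ j x, θ j (Q x) = θ j x) → ∀ (n : ℕ) (ε : ℝ) (p : Ω → ℝ), AP μ Q (FN θ n) ε p →
  ∃ (q : ℕ) (ρ : ℝ), 1 ≤ q ∧ 0 < ρ ∧ ∀ᵐ x ∂μ, ∀ t h : ℕ,
    (∀ j < n, ‖(θ j x : ℂ) ^ h - 1‖ ≤ ρ) → |p (Q^[t + q * h] x) - p (Q^[t] x)| ≤ ε

/-- EPT. PROOF. `p` from `APF` with `∫ |u - p| ≤ δ/4`; APN with error `δ/4`: `q'', ρ''`;
`q₁ = q'' q₀`. For `q = q'' q₀ k`, `T = tm l y`: `|p (Q^[q T] x) - p x| ≤ δ/4 + 1{∃ j < n l,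
ρ'' < ‖(θ l j x)^(q₀ k T) - 1‖}` a.e. (`t = 0`, `h = q₀ k T`; `|p - p| ≤ 1`). BAD (`b l`, `k`, `ρ''`,
`δ/4`) gives `m₀`. `u(moved) ≤ |u - p|(moved) + |p(moved) - p x| + p x`. (1) `X ⊆ Y = {x | Indp (ζ l
· x) (e l)}`, so `∫_X avg3 WL |u - p|(moved) ≤ ∫_Y .. ≤ ∫_Y |u - p| + ε/3 ≤ δ/4 + ε/3` (OWI with
`h t = ζ l t`, invariant and measurable by `zet`; WBC). (2) `∫_X avg3 WL |p(moved) - p x| ≤ δ/2 +
ε/3` (OWN, BAD, Ind3.f_LSU with a constant `g`, `μ X ≤ 1`). (3) `∫_X avg3 WL * p x ≤ ∫_X p + ε/3`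
(OWN, LSU), `∫_X p ≤ ∫_X u + δ/4`. -/
def T_EPT : Prop := ∀ (Ω : Type u) [MeasurableSpace Ω] (μ : Measure Ω) [IsProbabilityMeasure μ]
  (θ : Fin 3 → ℕ → Ω → Circle), (∀ l j, Measurable (θ l j)) →
  ∀ (n : Fin 3 → ℕ) (d : ℕ) (e : Fin 3 → ℕ) (a : Fin 3 → ℕ → ℕ → ℤ) (q₀ : ℕ)
    (b : Fin 3 → ℕ → ℕ → ℤ) (ζ : Fin 3 → ℕ → Ω → Circle) (X : Set Ω),
  Sel θ n d e a q₀ b ζ X → ∀ (l : Fin 3) (Q : Ω → Ω), MeasurePreserving Q μ μ →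
  (∀ j x, θ l j (Q x) = θ l j x) → ∀ u : Ω → ℝ, Measurable u → (∀ x, 0 ≤ u x) →
  (∀ x, u x ≤ 1) → APF μ Q (FN (θ l) (n l)) u → ∀ δ : ℝ, 0 < δ → ∃ q₁ : ℕ, 1 ≤ q₁ ∧
  ∀ q : ℕ, 1 ≤ q → q₁ ∣ q → ∃ m₀ : ℕ, 1 ≤ m₀ ∧ ∀ m ≥ m₀, ∀ ε : ℝ, 0 < ε →
  ∃ N₀ : ℕ, ∀ N ≥ N₀,
    ∫ x in X, avg3 N (fun y => WL m d l (range (e l)) (sv ζ x l) y * u (Q^[q * tm l y] x)) ∂μ
      ≤ ∫ x in X, u x ∂μ + δ + ε

/-- PPT. PROOF. `q = q₂ q₀ k`, `T = tm l y`: `|P (Q^[q T] x) - P x| ≤ lam + 1{∃ j < n l,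
ρ < ‖(θ l j x)^(q₀ k T) - 1‖}` a.e. BAD (`b l`, `k`, `ρ`, `δ`) and WMO, `WW ≥ 0`: at a.e. `x ∈ X` the
averages are eventually `≤ lam (1 + ε') + δ`; Ind3.f_LSU with the constant `g = lam + δ`, `μ X ≤ 1`. -/
def T_PPT : Prop := ∀ (Ω : Type u) [MeasurableSpace Ω] (μ : Measure Ω) [IsProbabilityMeasure μ]
  (θ : Fin 3 → ℕ → Ω → Circle), (∀ l j, Measurable (θ l j)) →
  ∀ (n : Fin 3 → ℕ) (d : ℕ) (e : Fin 3 → ℕ) (a : Fin 3 → ℕ → ℕ → ℤ) (q₀ : ℕ)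
    (b : Fin 3 → ℕ → ℕ → ℤ) (ζ : Fin 3 → ℕ → Ω → Circle) (X : Set Ω),
  Sel θ n d e a q₀ b ζ X → ∀ (l : Fin 3) (Q : Ω → Ω), MeasurePreserving Q μ μ →
  ∀ P : Ω → ℝ, Measurable P → (∀ x, 0 ≤ P x) → (∀ x, P x ≤ 1) →
  ∀ (q₂ : ℕ) (ρ lam : ℝ), 1 ≤ q₂ → 0 < ρ → 0 ≤ lam →
  (∀ᵐ x ∂μ, ∀ t : ℕ, (∀ j < n l, ‖(θ l j x : ℂ) ^ t - 1‖ ≤ ρ) →
    |P (Q^[q₂ * t] x) - P x| ≤ lam) →
  ∀ δ : ℝ, 0 < δ → ∀ q : ℕ, 1 ≤ q → q₂ * q₀ ∣ q → ∃ m₀ : ℕ, 1 ≤ m₀ ∧ ∀ m ≥ m₀,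
  ∀ ε : ℝ, 0 < ε → ∃ N₀ : ℕ, ∀ N ≥ N₀,
    ∫ x in X, avg3 N (fun y => WW m d e (sv ζ x) y * |P (Q^[q * tm l y] x) - P x|) ∂μ
      ≤ lam * μ.real X + δ + ε

/-- ERC. PROOF. `f = |c - P|`; `|c(moved) - c x| ≤ f(moved) + |P(moved) - P x| + f x`, `WW ≥ 0`.
(1) `∫_X avg3 WW f(moved) ≤ ∫_X avg3 WL f(moved) + ε/5` (MRI), `f = u + r`,
`∫_X avg3 WL u(moved) ≤ ∫_X u + δ/2 + ε/5` (EPT), `∫_X u ≤ lam μ X`, `∫_X avg3 WL r(moved) ≤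
∫ |avg3 WL r(moved)| ≤ ε/5` (RPT for `θ l`, `n l`, `a l`, `J = range (e l)`; `sv ζ x l t =
∏ (θ l j x)^(a l t j)` by `zet`). (2) PPT with `δ/2`: `lam μ X + δ/2 + ε/5`. (3) `∫_X avg3 WW f x ≤
∫_X f + ε/5` (WMO, Ind3.f_LSU with `g = f`), `∫_X f ≤ lam μ X`. `q₁` = product of the `q₁` of EPT and
`q₂ q₀`; `m₀` the maximum. -/
def T_ERC : Prop := ∀ (Ω : Type u) [MeasurableSpace Ω] (μ : Measure Ω) [IsProbabilityMeasure μ]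
  (θ : Fin 3 → ℕ → Ω → Circle), (∀ l j, Measurable (θ l j)) →
  ∀ (n : Fin 3 → ℕ) (d : ℕ) (e : Fin 3 → ℕ) (a : Fin 3 → ℕ → ℕ → ℤ) (q₀ : ℕ)
    (b : Fin 3 → ℕ → ℕ → ℤ) (ζ : Fin 3 → ℕ → Ω → Circle) (X : Set Ω),
  Sel θ n d e a q₀ b ζ X → ∀ (l : Fin 3) (Q : Ω → Ω), MeasurePreserving Q μ μ →
  (∀ j x, θ l j (Q x) = θ l j x) → ∀ c P u r : Ω → ℝ, Measurable c → (∀ x, 0 ≤ c x) →
  (∀ x, c x ≤ 1) → Measurable P → (∀ x, 0 ≤ P x) → (∀ x, P x ≤ 1) → Measurable u →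
  (∀ x, 0 ≤ u x) → (∀ x, u x ≤ 1) → Measurable r → (∀ x, |r x| ≤ 1) →
  (∀ x, |c x - P x| = u x + r x) → APL μ Q (θ l) (fun x => |c x - P x|) →
  APF μ Q (FN (θ l) (n l)) u → OrtAP μ Q (FN (θ l) (n l)) Set.univ r →
  ∀ (q₂ : ℕ) (ρ lam : ℝ), 1 ≤ q₂ → 0 < ρ → 0 ≤ lam → (∀ x ∈ X, |c x - P x| ≤ lam) →
  (∀ x ∈ X, u x ≤ lam) →
  (∀ᵐ x ∂μ, ∀ t : ℕ, (∀ j < n l, ‖(θ l j x : ℂ) ^ t - 1‖ ≤ ρ) →
    |P (Q^[q₂ * t] x) - P x| ≤ lam) →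
  ∀ δ : ℝ, 0 < δ → ∃ q₁ : ℕ, 1 ≤ q₁ ∧ ∀ q : ℕ, 1 ≤ q → q₁ ∣ q → ∃ m₀ : ℕ, 1 ≤ m₀ ∧
  ∀ m ≥ m₀, ∀ ε : ℝ, 0 < ε → ∃ N₀ : ℕ, ∀ N ≥ N₀,
    ∫ x in X, avg3 N (fun y => WW m d e (sv ζ x) y * |c (Q^[q * tm l y] x) - c x|) ∂μ
      ≤ 3 * lam * μ.real X + δ + ε

/-- PRF. Projections. PROOF. As Ind3.p_DCP (copy it; the positivity part is not needed) with `f` in
place of `one A`. -/
def T_PRF : Prop := ∀ (Ω : Type u) [MeasurableSpace Ω] (μ : Measure Ω) [IsProbabilityMeasure μ]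
  (Q : Ω → Ω), MeasurePreserving Q μ μ → ∀ (F : Set (Ω → Circle)),
  (∀ φ ∈ F, Measurable φ ∧ ∀ x, φ (Q x) = φ x) → ∀ f : Ω → ℝ, Measurable f → (∀ x, 0 ≤ f x) →
  (∀ x, f x ≤ 1) → ∃ u : Ω → ℝ, Measurable u ∧ (∀ x, 0 ≤ u x) ∧ (∀ x, u x ≤ 1) ∧
    APF μ Q F u ∧ OrtAP μ Q F Set.univ (fun x => f x - u x)

/-- INF. Closure properties of `APF`. PROOF. (1) `1 - p`. (2) `p p'`:
`|h h' - p p'| ≤ |h - p| + |h' - p'|`; `AP` for every error of a product of functions with values in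
`[0,1]` (`ε'/2` each, product of the `q`, the two lists together, `ρ = min (ρ₁/q₂) (ρ₂/q₁)`; see
Ind3.p_SPE). (3) clear. (4) For `k ∈ ℕ`, `h_k = max 0 (min (k (h - lam)) 1)` tends to the indicator of
`{lam < h}` in `L¹` (dominated convergence), and if `∫ |h - p| ≤ ε/(2k+1)`, then
`max 0 (min (k (p - lam)) 1)` is within `ε/2` of `h_k` and `AP` for every error (`k`-Lipschitz).
(5) `∫ g p = 0` for the approximants and `|∫ g h| ≤ ∫ |h - p|`. -/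
def T_INF : Prop := ∀ (Ω : Type u) [MeasurableSpace Ω] (μ : Measure Ω) [IsProbabilityMeasure μ]
  (Q : Ω → Ω) (F : Set (Ω → Circle)),
  (∀ h : Ω → ℝ, APF μ Q F h → APF μ Q F fun x => 1 - h x) ∧
  (∀ h h' : Ω → ℝ, Measurable h → Measurable h' → (∀ x, 0 ≤ h x ∧ h x ≤ 1) →
    (∀ x, 0 ≤ h' x ∧ h' x ≤ 1) → APF μ Q F h → APF μ Q F h' → APF μ Q F fun x => h x * h' x) ∧
  (∀ (F' : Set (Ω → Circle)) (h : Ω → ℝ), F ⊆ F' → APF μ Q F h → APF μ Q F' h) ∧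
  (∀ (h : Ω → ℝ) (lam : ℝ), Measurable h → (∀ x, 0 ≤ h x ∧ h x ≤ 1) → APF μ Q F h →
    APF μ Q F (one {x | lam < h x})) ∧
  ∀ g h : Ω → ℝ, Measurable g → (∀ x, |g x| ≤ 1) → Measurable h → (∀ x, 0 ≤ h x ∧ h x ≤ 1) →
    OrtAP μ Q F Set.univ g → APF μ Q F h → ∫ x, g x * h x ∂μ = 0

/-- DOO. Maximal inequality. PROOF. `D k = {x | lam < u k x ∧ ∀ i < k, u i x ≤ lam}`; its indicator is
a product of indicators `one {lam < u k}`, `1 - one {lam < u i}` (`i < k`), so it is in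
`APF μ Q (F k)` by INF (1), (2), (3), (4) (induction on the number of factors; `F i ⊆ F k`). INF (5)
with `g = f - u k`: `∫_{D k} f = ∫_{D k} u k ≥ lam μ (D k)`. The `D k` are disjoint with union
`{∃ k, lam < u k}`: `lam ∑_{k<M} μ (D k) ≤ ∫ f` for every `M`, let `M → ∞`. -/
def T_DOO : Prop := ∀ (Ω : Type u) [MeasurableSpace Ω] (μ : Measure Ω) [IsProbabilityMeasure μ]
  (Q : Ω → Ω) (F : ℕ → Set (Ω → Circle)), (∀ k, F k ⊆ F (k + 1)) → ∀ f : Ω → ℝ, Measurable f →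
  (∀ x, 0 ≤ f x) → (∀ x, f x ≤ 1) → ∀ u : ℕ → Ω → ℝ, (∀ k, Measurable (u k)) →
  (∀ k x, 0 ≤ u k x) → (∀ k x, u k x ≤ 1) → (∀ k, APF μ Q (F k) (u k)) →
  (∀ k, OrtAP μ Q (F k) Set.univ fun x => f x - u k x) → ∀ lam : ℝ, 0 < lam →
    lam * μ.real {x | ∃ k, lam < u k x} ≤ ∫ x, f x ∂μ

/-- APA. PROOF. `p'` from `APL` for `c`; `|p' - P|` is within `|c - p'|` of `|c - P|` and `AP` for
every error (errors `ε'/2`, product of the `q`, the two lists together; see Ind3.p_SPE). -/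
def T_APA : Prop := ∀ (Ω : Type u) [MeasurableSpace Ω] (μ : Measure Ω) [IsProbabilityMeasure μ]
  (Q : Ω → Ω) (θ : ℕ → Ω → Circle) (c P : Ω → ℝ), Measurable c → (∀ x, 0 ≤ c x) →
  (∀ x, c x ≤ 1) → APL μ Q θ c → Measurable P → (∀ x, 0 ≤ P x) → (∀ x, P x ≤ 1) →
  (∀ ε' : ℝ, 0 < ε' → AP μ Q (FF θ) ε' P) → APL μ Q θ fun x => |c x - P x|

/-- MEX. PROOF. Each field of `Str` is a countable condition on equalities of measurable functions to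
the circle: in `ind` and `rest` only the exponents `a t`, `t < e`, matter, so `a` may be taken in a
countable set (`Fin e → ℤ` extended by `0`, or finitely supported functions `ℕ →₀ ℤ`); `Sp s n z` and
`SpI s z` are countable unions over `k`, and `a` with finite support. `measurableSet_eq_fun`. -/
def T_MEX : Prop := ∀ (Ω : Type u) [MeasurableSpace Ω] (θ ζ : Fin 3 → ℕ → Ω → Circle),
  (∀ l j, Measurable (θ l j)) → (∀ l j, Measurable (ζ l j)) → ∀ (d : ℕ) (e : Fin 3 → ℕ),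
  MeasurableSet {x | Str d e (sv ζ x) (sv θ x)}

/-- SLC. PROOF. For a.e. `x ∈ X` there are `n` with `Closed (sv θ x) n`, `K ≤ n l`, and the data
`(d, e, a, q₀, b)` of ALG; only the `a l t j`, `t < max e`, `j < n l`, and `b l j t`, `j < n l`,
`t < e l`, matter, so the data may be taken in a countable type (`n, d, e, q₀` and
`Fin 3 → ℕ →₀ ℕ →₀ ℤ` twice, or `Fin 3 × ℕ × ℕ →₀ ℤ`). For each value of the data with `ζ` defined by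
`zet` let `X_σ` be the set of `x ∈ X` for which the fields `str`, `pow` hold (measurable: MEX,
`measurableSet_eq_fun`). The `X_σ` cover `X` up to a null set, so one of them is not null. -/
def T_SLC : Prop := ∀ (Ω : Type u) [MeasurableSpace Ω] (μ : Measure Ω) [IsProbabilityMeasure μ]
  (θ : Fin 3 → ℕ → Ω → Circle), (∀ l j, Measurable (θ l j)) →
  ∀ X : Set Ω, MeasurableSet X → μ X ≠ 0 →
  (∀ᵐ x ∂μ, x ∈ X → ∀ N : ℕ, ∃ n : Fin 3 → ℕ, Closed (sv θ x) n ∧ ∀ l, N ≤ n l) →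
  ∀ K : ℕ, ∃ (n : Fin 3 → ℕ) (d : ℕ) (e : Fin 3 → ℕ) (a : Fin 3 → ℕ → ℕ → ℤ) (q₀ : ℕ)
    (b : Fin 3 → ℕ → ℕ → ℤ) (ζ : Fin 3 → ℕ → Ω → Circle) (X' : Set Ω),
    (∀ l, K ≤ n l) ∧ Sel θ n d e a q₀ b ζ X' ∧ X' ⊆ X ∧ μ X' ≠ 0

/-- FNC. The theorem, roles `0, 1, 2` = `R, S, T`. PROOF. Ind3.f_COM: `c l, g l`. For some `γ > 0` the
set `X₀ = {x ∈ A ∩ Z | ∀ l, γ ≤ c l x}` has `δ₀ = μ.real X₀ > 0`. `lam = γ/24`, `η = lam δ₀/12`;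
`APL` gives `P l`, Ind3.f_APX with error `lam`: `q l, K l, ρ l`. `f l = |c l - P l|` is `APL` (APA);
PRF for `F = FN (θ l) k`: `u l k`; `lam μ {f l > lam} ≤ η`, `lam μ {∃ k, lam < u l k} ≤ η` (DOO);
`X₁` = `X₀` without these six sets, `μ.real X₁ ≥ δ₀/2`. SLC with `K = max K l`: `n, .., ζ, X`.
ERC with `u = u l (n l)`, `r = f l - u`, `δ = γ μ X/56`, so `κ = 3 lam μ X + δ = γ μ X/7`; `q` the
product of the `q₁`, `m` the maximum of the `m₀`. REC, GTC (Ind3.f_GVQ), WMO, MAC; the end as in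
Ind3.p_FIN. -/
def T_FNC : Prop := ∀ (Ω : Type u) [MeasurableSpace Ω] (μ : Measure Ω) [IsProbabilityMeasure μ]
  (T S R : Ω ≃ᵐ Ω), MeasurePreserving T μ μ → MeasurePreserving S μ μ →
  MeasurePreserving R μ μ → ∀ (θ : Fin 3 → ℕ → Ω → Circle), (∀ l j, Measurable (θ l j)) →
  (∀ j x, θ 0 j (R x) = θ 0 j x) → (∀ j x, θ 1 j (S x) = θ 1 j x) →
  (∀ j x, θ 2 j (T x) = θ 2 j x) → Gen μ R (θ 0) → Gen μ S (θ 1) → Gen μ T (θ 2) →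
  ∀ A Z : Set Ω, MeasurableSet A → MeasurableSet Z → μ (A ∩ Z) ≠ 0 →
  (∀ᵐ x ∂μ, x ∈ Z → ∀ N : ℕ, ∃ n : Fin 3 → ℕ, Closed (sv θ x) n ∧ ∀ l, N ≤ n l) →
  ∃ m n : ℕ, 1 ≤ m ∧ 1 ≤ n ∧
    μ (A ∩ (⇑T)^[m] ⁻¹' A ∩ (⇑S)^[m + n] ⁻¹' A ∩ (⇑R)^[m + 2 * n] ⁻¹' A) ≠ 0

end Pool.Agent.CLV
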